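import Pool.Agent.Y167.Core

/-!
# Construction of the left regular representation in an orthonormal basis
-/

set_option autoImplicit false

namespace Pool.Agent.Y167

open Matrix Finset

/-- A positive definite symmetric bilinear form has an orthonormal basis. -/
theorem exists_onb {A : Type*} [AddCommGroup A] [Module ℝ A] {r : ℕ}
    (bas : Module.Basis (Fin r) ℝ A) (B : A → A → ℝ)
    (hadd : ∀ x y z, B (x + y) z = B x z + B y z) (hsmul : ∀ (c : ℝ) x y, B (c • x) y = c * B x y)
    (hsymm : ∀ x y, B x y = B y x) (hpos : ∀ x, x ≠ 0 → 0 < B x x) :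
    ∃ e : Module.Basis (Fin r) ℝ A, ∀ i j, B (e i) (e j) = if i = j then 1 else 0 := by
  classical
  have h0 : ∀ y, B 0 y = 0 := by
    intro y
    have := hsmul 0 0 y
    rwa [zero_smul, zero_mul] at this
  let core : InnerProductSpace.Core ℝ A :=
    { inner := B
      conj_inner_symm := fun x y => by simpa using hsymm y x
      re_inner_nonneg := fun x => by
        by_cases hx : x = 0
        · rw [hx]; simp [h0]
        · simpa using (hpos x hx).le
      add_left := hadd
      smul_left := fun x y c => by simpa using hsmul c x y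
      definite := fun x hx => by
        by_contra hne
        exact (hpos x hne).ne' hx }
  let _ : NormedAddCommGroup A := core.toNormedAddCommGroup
  let _ : InnerProductSpace ℝ A := InnerProductSpace.ofCore core.toCore
  have hfd : FiniteDimensional ℝ A := Module.Basis.finiteDimensional_of_finite bas
  have hr : Module.finrank ℝ A = r := by
    rw [Module.finrank_eq_card_basis bas, Fintype.card_fin]
  let e := (stdOrthonormalBasis ℝ A).reindex (finCongr hr)
  refine ⟨e.toBasis, fun i j => ?_⟩
  have h1 := orthonormal_iff_ite.1 e.orthonormal i j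
  have h2 : inner ℝ (e i) (e j) = B (e i) (e j) := rfl
  rw [OrthonormalBasis.coe_toBasis, ← h2, h1]

theorem sum_repr {A : Type*} [AddCommGroup A] [Module ℝ A] {r : ℕ} (e : Module.Basis (Fin r) ℝ A)
    (B : A → A → ℝ)
    (hadd : ∀ x y z, B (x + y) z = B x z + B y z) (hsmul : ∀ (c : ℝ) x y, B (c • x) y = c * B x y)
    (hsymm : ∀ x y, B x y = B y x) (he : ∀ i j, B (e i) (e j) = if i = j then 1 else 0) (x : A)
    (i : Fin r) : B (e i) x = e.repr x i := by
  classical
  have h0 : ∀ y, B 0 y = 0 := by
    intro y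
    have := hsmul 0 0 y
    rwa [zero_smul, zero_mul] at this
  let L : A →ₗ[ℝ] ℝ :=
    { toFun := fun y => B y (e i)
      map_add' := fun y z => hadd y z _
      map_smul' := fun c y => hsmul c y _ }
  have h1 : B (e i) x = L x := hsymm _ _
  rw [h1, ← e.sum_repr x, map_sum]
  have h2 : ∀ j, L (e.repr x j • e j) = e.repr x j * (if j = i then 1 else 0) := by
    intro j
    rw [map_smul, smul_eq_mul]
    congr 1
    exact he j i
  simp only [h2, mul_ite, mul_one, mul_zero, Finset.sum_ite_eq', Finset.mem_univ, if_true]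
  simp

theorem dot_repr {A : Type*} [AddCommGroup A] [Module ℝ A] {r : ℕ} (e : Module.Basis (Fin r) ℝ A)
    (B : A → A → ℝ)
    (hadd : ∀ x y z, B (x + y) z = B x z + B y z) (hsmul : ∀ (c : ℝ) x y, B (c • x) y = c * B x y)
    (hsymm : ∀ x y, B x y = B y x) (he : ∀ i j, B (e i) (e j) = if i = j then 1 else 0)
    (x y : A) : e.equivFun x ⬝ᵥ e.equivFun y = B x y := by
  classical
  let L : A →ₗ[ℝ] ℝ :=
    { toFun := fun z => B z y
      map_add' := fun z w => hadd z w _
      map_smul' := fun c z => hsmul c z _ }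
  have h1 : B x y = L x := rfl
  rw [h1]
  conv_rhs => rw [← e.sum_repr x, map_sum]
  rw [dotProduct]
  refine Finset.sum_congr rfl fun i _ => ?_
  rw [map_smul, smul_eq_mul]
  congr 1
  exact (sum_repr e B hadd hsmul hsymm he y i).symm

/-- The construction of the left regular representation. -/
theorem exists_sys {A : Type*} [Ring A] [Algebra ℝ A] {r : ℕ}
    (R : Subring A) (bas : Module.Basis (Fin r) ℝ A)
    (mem_R : ∀ x, x ∈ R ↔ ∀ i, ∃ n : ℤ, bas.repr x i = n)
    (st : A →ₗ[ℝ] A) (st_st : ∀ a, st (st a) = a) (st_mul : ∀ a b, st (a * b) = st b * st a)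
    (N : ℕ) (N_pos : 0 < N) (N_st : ∀ x ∈ R, (N : ℝ) • st x ∈ R)
    (B : A → A → ℝ)
    (hadd : ∀ x y z, B (x + y) z = B x z + B y z) (hsmul : ∀ (c : ℝ) x y, B (c • x) y = c * B x y)
    (hsymm : ∀ x y, B x y = B y x) (hpos : ∀ x, x ≠ 0 → 0 < B x x)
    (hadj : ∀ a x y, B x (a * y) = B (st a * x) y) :
    ∃ S : Sys A r, S.st = st ∧ S.R = R ∧ S.bas = bas ∧ ∀ a, (∀ x, 0 ≤ B x (a * x)) → 0 ≤ S.tr a := by
  classical
  obtain ⟨e₁, he₁⟩ := exists_onb bas B hadd hsmul hsymm hpos
  have hent : ∀ a i j, Algebra.leftMulMatrix e₁ a i j = B (e₁ i) (a * e₁ j) := by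
    intro a i j
    rw [sum_repr e₁ B hadd hsmul hsymm he₁, Algebra.leftMulMatrix_eq_repr_mul]
  have hst₁ : ∀ a, Algebra.leftMulMatrix e₁ (st a) = (Algebra.leftMulMatrix e₁ a)ᵀ := by
    intro a
    ext i j
    rw [transpose_apply, hent, hent, hadj, st_st, hsymm]
  let T : A →ₗ[ℝ] ℝ := (LinearMap.trace ℝ A) ∘ₗ (Algebra.lmul ℝ A).toLinearMap
  have hT : ∀ (b : Module.Basis (Fin r) ℝ A) a, T a = (Algebra.leftMulMatrix b a).trace := by
    intro b a
    rw [Algebra.leftMulMatrix_apply, ← LinearMap.trace_eq_matrix_trace]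
    rfl
  let τ : A → A → ℝ := fun x y => T (st x * y)
  have τ_add : ∀ x y z, τ (x + y) z = τ x z + τ y z := by
    intro x y z
    simp only [τ, map_add, add_mul]
  have τ_smul : ∀ (c : ℝ) x y, τ (c • x) y = c * τ x y := by
    intro c x y
    simp only [τ, map_smul, smul_mul_assoc, smul_eq_mul]
  have τ_st : ∀ a, T (st a) = T a := by
    intro a
    rw [hT e₁, hT e₁, hst₁, trace_transpose]
  have τ_symm : ∀ x y, τ x y = τ y x := by
    intro x y
    simp only [τ]
    rw [← τ_st, st_mul, st_st]
  have τ_pos : ∀ x, x ≠ 0 → 0 < τ x x := by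
    intro x hx
    have h1 : τ x x = ((Algebra.leftMulMatrix e₁ x)ᵀ * Algebra.leftMulMatrix e₁ x).trace := by
      simp only [τ]
      rw [hT e₁, map_mul, hst₁]
    have h2 : Algebra.leftMulMatrix e₁ x ≠ 0 := by
      intro h
      apply hx
      exact Algebra.leftMulMatrix_injective e₁ (by rw [h, map_zero])
    have h3 : ((Algebra.leftMulMatrix e₁ x)ᵀ * Algebra.leftMulMatrix e₁ x).trace
        = ∑ j, ∑ i, (Algebra.leftMulMatrix e₁ x i j) ^ 2 := by
      rw [Matrix.trace]
      refine Finset.sum_congr rfl fun j _ => ?_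
      rw [diag_apply, mul_apply]
      refine Finset.sum_congr rfl fun i _ => ?_
      rw [transpose_apply, sq]
    rw [h1, h3]
    obtain ⟨i, j, hij⟩ : ∃ i j, Algebra.leftMulMatrix e₁ x i j ≠ 0 := by
      by_contra hcon
      push Not at hcon
      apply h2
      ext i j
      exact hcon i j
    refine Finset.sum_pos' (fun j _ => Finset.sum_nonneg fun i _ => sq_nonneg _)
      ⟨j, Finset.mem_univ _, ?_⟩
    exact Finset.sum_pos' (fun i _ => sq_nonneg _) ⟨i, Finset.mem_univ _, by positivity⟩
  obtain ⟨e, he⟩ := exists_onb bas τ τ_add τ_smul τ_symm τ_pos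
  have hent' : ∀ a i j, Algebra.leftMulMatrix e a i j = τ (e i) (a * e j) := by
    intro a i j
    rw [sum_repr e τ τ_add τ_smul τ_symm he, Algebra.leftMulMatrix_eq_repr_mul]
  have hst : ∀ a, Algebra.leftMulMatrix e (st a) = (Algebra.leftMulMatrix e a)ᵀ := by
    intro a
    ext i j
    rw [transpose_apply, hent', hent', τ_symm (e j)]
    simp only [τ]
    rw [st_mul, mul_assoc]
  have htr : ∀ a, (Algebra.leftMulMatrix e a).trace = T a := fun a => (hT e a).symm
  refine ⟨{ mat := Algebra.leftMulMatrix e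
            st := st
            vec := e.equivFun
            mat_st := hst
            mat_vec := fun a x => ?_
            dot_vec := fun x y => ?_
            R := R
            bas := bas
            mem_R := mem_R
            N := N
            N_pos := N_pos
            N_st := N_st }, rfl, rfl, rfl, fun a ha => ?_⟩
  · exact Algebra.leftMulMatrix_mulVec_repr e a x
  · rw [htr, dot_repr e τ τ_add τ_smul τ_symm he]
  · change 0 ≤ (Algebra.leftMulMatrix e a).trace
    rw [htr, hT e₁, Matrix.trace]
    refine Finset.sum_nonneg fun i _ => ?_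
    rw [diag_apply, hent]
    exact ha _

end Pool.Agent.Y167
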