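import Mathlib

/-!
# Bases of lattices
-/

set_option autoImplicit false

namespace Pool.Agent.Y167

open Finset

/-- A full lattice in a normed space has a basis. -/
theorem basis_of_discrete {E : Type*} [NormedAddCommGroup E] [NormedSpace ℝ E]
    [FiniteDimensional ℝ E] (S : AddSubgroup E) (hd : DiscreteTopology S)
    (hs : Submodule.span ℝ (S : Set E) = ⊤) :
    ∃ (r : ℕ) (bas : Module.Basis (Fin r) ℝ E), ∀ x, x ∈ S ↔ ∀ i, ∃ n : ℤ, bas.repr x i = n := by
  classical
  let L : Submodule ℤ E := S.toIntSubmodule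
  have : DiscreteTopology L := hd
  have : IsZLattice ℝ L := ⟨hs⟩
  have : Module.Finite ℤ L := ZLattice.module_finite ℝ L
  have : Module.Free ℤ L := ZLattice.module_free ℝ L
  let b₀ : Module.Basis (Fin (Module.finrank ℤ L)) ℤ L := Module.finBasis ℤ L
  let b := b₀.ofZLatticeBasis ℝ L
  refine ⟨_, b, fun x => ⟨fun hx i => ⟨b₀.repr ⟨x, hx⟩ i, ?_⟩, fun h => ?_⟩⟩
  · exact b₀.ofZLatticeBasis_repr_apply ℝ L ⟨x, hx⟩ i
  · choose n hn using h
    rw [← b.sum_repr x]
    refine S.sum_mem fun i _ => ?_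
    rw [hn i, Int.cast_smul_eq_zsmul]
    refine S.zsmul_mem ?_ _
    have : b i = (b₀ i : E) := b₀.ofZLatticeBasis_apply ℝ L i
    rw [this]
    exact (b₀ i).2

/-- A spanning subgroup of a real vector space whose elements have integral coordinates with
respect to an embedding has a basis. -/
theorem lattice_basis {A : Type*} [AddCommGroup A] [Module ℝ A] {ι : Type*} [Fintype ι]
    (φ : A →ₗ[ℝ] (ι → ℝ)) (hφ : Function.Injective φ) (R : AddSubgroup A)
    (hs : Submodule.span ℝ (R : Set A) = ⊤) (hR : ∀ x ∈ R, ∀ i, ∃ n : ℤ, φ x i = n) :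
    ∃ (r : ℕ) (bas : Module.Basis (Fin r) ℝ A), ∀ x, x ∈ R ↔ ∀ i, ∃ n : ℤ, bas.repr x i = n := by
  classical
  have : FiniteDimensional ℝ A := Module.Finite.of_injective φ hφ
  let e : A ≃ₗ[ℝ] (Fin (Module.finrank ℝ A) → ℝ) := (Module.finBasis ℝ A).equivFun
  let S : AddSubgroup (Fin (Module.finrank ℝ A) → ℝ) := R.map e.toLinearMap.toAddMonoidHom
  have hS : ∀ x, x ∈ S ↔ e.symm x ∈ R := by
    intro x
    constructor
    · rintro ⟨y, hy, rfl⟩
      change e.symm (e y) ∈ R
      rw [e.symm_apply_apply]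
      exact hy
    · intro h
      exact ⟨e.symm x, h, e.apply_symm_apply x⟩
  have hint : ∀ x : S, ∀ i, ∃ n : ℤ, φ (e.symm x.1) i = n := fun x i =>
    hR _ ((hS x.1).1 x.2) i
  choose n hn using hint
  let f : S → ι → ℤ := n
  have hf : Continuous f := by
    refine continuous_pi fun j => ?_
    rw [Int.isClosedEmbedding_coe_real.isEmbedding.continuous_iff]
    have h1 : (Int.cast : ℤ → ℝ) ∘ (fun w : S => f w j) = fun w => φ (e.symm w.1) j := by
      funext w
      exact (hn w j).symm
    rw [h1]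
    have h2 : Continuous fun x : Fin (Module.finrank ℝ A) → ℝ => (φ ∘ₗ e.symm.toLinearMap) x j := by
      have := LinearMap.continuous_of_finiteDimensional (φ ∘ₗ e.symm.toLinearMap)
      exact (continuous_apply j).comp this
    exact h2.comp continuous_subtype_val
  have hd : DiscreteTopology S := by
    refine DiscreteTopology.of_continuous_injective hf ?_
    intro w w' hww
    apply Subtype.ext
    apply e.symm.injective
    apply hφ
    funext j
    rw [hn w j, hn w' j]
    have h1 : f w j = f w' j := congrFun hww j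
    exact_mod_cast h1
  have hspan : Submodule.span ℝ (S : Set (Fin (Module.finrank ℝ A) → ℝ)) = ⊤ := by
    have h1 : (S : Set (Fin (Module.finrank ℝ A) → ℝ)) = e '' (R : Set A) := rfl
    have h2 : e '' (R : Set A) = (e : A →ₗ[ℝ] (Fin (Module.finrank ℝ A) → ℝ)) '' (R : Set A) := rfl
    rw [h1, h2, Submodule.span_image, hs, Submodule.map_top, LinearMap.range_eq_top]
    exact e.surjective
  obtain ⟨r, bas, hbas⟩ := basis_of_discrete S hd hspan
  refine ⟨r, bas.map e.symm, fun x => ?_⟩
  have h1 : x ∈ R ↔ e x ∈ S := by rw [hS, e.symm_apply_apply]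
  rw [h1, hbas]
  simp only [Module.Basis.map_repr, LinearEquiv.trans_apply, LinearEquiv.symm_symm]

end Pool.Agent.Y167
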