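import Pool.Agent.Y167.Herm
import Pool.Agent.Y167.Build
import Pool.Agent.Y167.Latt

/-!
# The algebra of endomorphisms of a polarised torus which commute with a finite group
-/

set_option autoImplicit false

namespace Pool.Agent.Y167

open Matrix hiding IsHermitian
open Finset
open Pool.Agent.W594.SYZ2 Pool.Agent.W594.SYZ2.TQ

/-- Integral matrices have inverses with bounded denominators. -/
theorem int_adj {d : ℕ} (J : Matrix (Fin d) (Fin d) ℝ) (hJ : ∀ i j, ∃ n : ℤ, J i j = n)
    (hinj : ∀ v, J *ᵥ v = 0 → v = 0) :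
    ∃ N : ℕ, 0 < N ∧ ∀ v : Fin d → ℝ, (∀ i, ∃ n : ℤ, (J *ᵥ v) i = n) →
      ∀ i, ∃ n : ℤ, (N : ℝ) * v i = n := by
  choose K hK using hJ
  have hJK : J = (Matrix.of K).map (Int.castRingHom ℝ) := by
    ext i j
    rw [hK]
    simp
  have hu : IsUnit J := by
    rw [← Matrix.mulVec_injective_iff_isUnit]
    intro v w hvw
    have h1 : J *ᵥ (v - w) = 0 := by rw [mulVec_sub, hvw, sub_self]
    exact sub_eq_zero.1 (hinj _ h1)
  have hdet : J.det = ((Matrix.of K).det : ℤ) := by
    rw [hJK, ← RingHom.mapMatrix_apply, ← RingHom.map_det]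
    rfl
  have hdet0 : (Matrix.of K).det ≠ 0 := by
    intro h0
    have h1 := (Matrix.isUnit_iff_isUnit_det _).1 hu
    rw [hdet, h0] at h1
    simp at h1
  refine ⟨((Matrix.of K).det).natAbs, Int.natAbs_pos.2 hdet0, fun v hv i => ?_⟩
  choose n hn using hv
  have h1 : J.adjugate *ᵥ (J *ᵥ v) = J.det • v := by
    rw [mulVec_mulVec, adjugate_mul, smul_mulVec, one_mulVec]
  have h2 : J.adjugate = ((Matrix.of K).adjugate).map (Int.castRingHom ℝ) := by
    rw [hJK]
    exact ((Int.castRingHom ℝ).map_adjugate (Matrix.of K)).symm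
  have h3 : J.det * v i = ((∑ j, (Matrix.of K).adjugate i j * n j : ℤ) : ℝ) := by
    have h4 := congrFun h1 i
    rw [Pi.smul_apply, smul_eq_mul] at h4
    rw [← h4, mulVec, dotProduct]
    push_cast
    refine Finset.sum_congr rfl fun j _ => ?_
    rw [hn j, h2]
    rfl
  rw [hdet] at h3
  rcases Int.natAbs_eq (Matrix.of K).det with h5 | h5
  · refine ⟨∑ j, (Matrix.of K).adjugate i j * n j, ?_⟩
    rw [← h3]
    congr 1
    conv_rhs => rw [h5]
    simp
  · refine ⟨-∑ j, (Matrix.of K).adjugate i j * n j, ?_⟩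
    rw [Int.cast_neg, ← h3, ← neg_mul]
    congr 1
    conv_rhs => rw [h5]
    simp

variable {E : Type*} [NormedAddCommGroup E] [NormedSpace ℂ E] [FiniteDimensional ℂ E]

/-- A lattice with a polarisation and a set of unitary operators. -/
structure Pol (h : E → E → ℂ) (Λ : AddSubgroup E) (G : Set (Module.End ℂ E)) (d : ℕ)
    (b : Module.Basis (Fin d) ℝ E) : Prop where
  herm : IsHermitian h
  pos : IsPositiveForm h
  mem : ∀ x, x ∈ Λ ↔ ∀ i, ∃ n : ℤ, b.repr x i = n
  int : ∀ x ∈ Λ, ∀ y ∈ Λ, ∃ n : ℤ, (h x y).im = n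
  unit : ∀ g ∈ G, ∀ x y, h (g x) (g y) = h x y

namespace Pol

variable {h : E → E → ℂ} {Λ : AddSubgroup E} {G : Set (Module.End ℂ E)} {d : ℕ}
  {b : Module.Basis (Fin d) ℝ E}

theorem b_mem (P : Pol h Λ G d b) (i : Fin d) : b i ∈ Λ := by
  rw [P.mem]
  intro j
  rw [Module.Basis.repr_self]
  by_cases hij : i = j
  · exact ⟨1, by rw [hij]; simp⟩
  · exact ⟨0, by rw [Finsupp.single_eq_of_ne (by exact fun h => hij h.symm)]; simp⟩

theorem surj (P : Pol h Λ G d b) {g : Module.End ℂ E} (hg : g ∈ G) : Function.Surjective g := by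
  rw [← LinearMap.injective_iff_surjective]
  rw [injective_iff_map_eq_zero]
  intro x hx
  by_contra hne
  have h1 := P.pos x hne
  rw [← P.unit g hg, hx, h_zero_left P.herm] at h1
  exact lt_irrefl _ h1

/-- The real form `Im h`. -/
theorem im_sum (P : Pol h Λ G d b) (x y : E) :
    (h x y).im = ∑ i, ∑ j, b.repr x i * (b.repr y j * (h (b i) (b j)).im) := by
  have hsl : ∀ (c : ℝ) (x y : E), (h (c • x) y).im = c * (h x y).im := by
    intro c x y
    rw [← Complex.coe_smul, P.herm.smul_left, Complex.im_ofReal_mul]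
  have hsr : ∀ (c : ℝ) (x y : E), (h x (c • y)).im = c * (h x y).im := by
    intro c x y
    rw [← Complex.coe_smul, h_smul_right P.herm, Complex.conj_ofReal, Complex.im_ofReal_mul]
  let L : E →ₗ[ℝ] E →ₗ[ℝ] ℝ := LinearMap.mk₂ ℝ (fun x y => (h x y).im)
    (fun x x' y => by rw [P.herm.add_left, Complex.add_im])
    (fun c x y => hsl c x y)
    (fun x y y' => by rw [h_add_right P.herm, Complex.add_im])
    (fun c x y => hsr c x y)
  have hL : ∀ u w, (h u w).im = L u w := fun u w => rfl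
  calc (h x y).im = L x y := rfl
    _ = L (∑ i, b.repr x i • b i) (∑ j, b.repr y j • b j) := by rw [b.sum_repr, b.sum_repr]
    _ = ∑ i, ∑ j, b.repr x i * (b.repr y j * L (b i) (b j)) := by
        rw [map_sum L, LinearMap.sum_apply]
        refine Finset.sum_congr rfl fun i _ => ?_
        rw [map_smul, LinearMap.smul_apply, map_sum, smul_eq_mul, Finset.mul_sum]
        refine Finset.sum_congr rfl fun j _ => ?_
        rw [map_smul, smul_eq_mul]
    _ = _ := rfl

/-- The dual lattice has finite index. -/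
theorem dual (P : Pol h Λ G d b) : ∃ N : ℕ, 0 < N ∧ ∀ v : E,
    (∀ w ∈ Λ, ∃ n : ℤ, (h v w).im = n) → (N : ℝ) • v ∈ Λ := by
  obtain ⟨N, hN, hNv⟩ := int_adj (Matrix.of fun i j => (h (b j) (b i)).im)
    (fun i j => P.int _ (P.b_mem j) _ (P.b_mem i)) (by
      intro v hv
      let x := b.equivFun.symm v
      have hx : ∀ y, (h x y).im = 0 := by
        intro y
        rw [P.im_sum x y, Finset.sum_comm]
        refine Finset.sum_eq_zero fun j _ => ?_
        have h1 := congrFun hv j
        rw [mulVec, dotProduct] at h1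
        simp only [of_apply, Pi.zero_apply] at h1
        have h2 : ∀ i, b.repr x i = v i := fun i => congrFun (b.equivFun.apply_symm_apply v) i
        calc ∑ i, b.repr x i * (b.repr y j * (h (b i) (b j)).im)
            = b.repr y j * ∑ i, (h (b i) (b j)).im * v i := by
              rw [Finset.mul_sum]
              refine Finset.sum_congr rfl fun i _ => ?_
              rw [h2]; ring
          _ = 0 := by rw [h1, mul_zero]
      have hx0 : x = 0 := by
        by_contra hne
        have h1 := P.pos x hne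
        have h2 := hx (Complex.I • x)
        rw [h_smul_right P.herm] at h2
        simp at h2
        linarith
      have : v = b.equivFun x := (b.equivFun.apply_symm_apply v).symm
      rw [this, hx0, map_zero])
  refine ⟨N, hN, fun v hv => ?_⟩
  rw [P.mem]
  intro i
  have h1 := hNv (b.equivFun v) (fun i => by
    obtain ⟨n, hn⟩ := hv (b i) (P.b_mem i)
    refine ⟨n, ?_⟩
    rw [← hn, P.im_sum v (b i), mulVec, dotProduct]
    refine Finset.sum_congr rfl fun j _ => ?_
    rw [of_apply, Module.Basis.equivFun_apply]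
    have h2 : ∀ k, b.repr (b i) k = if k = i then 1 else 0 := by
      intro k
      rw [Module.Basis.repr_self, Finsupp.single_apply]
      simp only [eq_comm]
    simp only [h2]
    simp [mul_comm]) i
  obtain ⟨n, hn⟩ := h1
  exact ⟨n, by rw [map_smul, Finsupp.smul_apply, smul_eq_mul]; exact hn⟩

/-- The order: endomorphisms of the lattice which commute with `G`. -/
def ord (_ : Pol h Λ G d b) : Subring (Module.End ℂ E) where
  carrier := {x | (∀ g ∈ G, x * g = g * x) ∧ ∀ v ∈ Λ, x v ∈ Λ}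
  mul_mem' := by
    rintro x y ⟨h1, h2⟩ ⟨h3, h4⟩
    refine ⟨fun g hg => ?_, fun v hv => h2 _ (h4 v hv)⟩
    rw [mul_assoc, h3 g hg, ← mul_assoc, h1 g hg, mul_assoc]
  one_mem' := ⟨fun g _ => by rw [one_mul, mul_one], fun v hv => hv⟩
  add_mem' := by
    rintro x y ⟨h1, h2⟩ ⟨h3, h4⟩
    refine ⟨fun g hg => ?_, fun v hv => Λ.add_mem (h2 v hv) (h4 v hv)⟩
    rw [add_mul, mul_add, h1 g hg, h3 g hg]
  zero_mem' := ⟨fun g _ => by rw [zero_mul, mul_zero], fun v _ => Λ.zero_mem⟩
  neg_mem' := by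
    rintro x ⟨h1, h2⟩
    refine ⟨fun g hg => ?_, fun v hv => Λ.neg_mem (h2 v hv)⟩
    rw [neg_mul, mul_neg, h1 g hg]

theorem mem_ord (P : Pol h Λ G d b) {x : Module.End ℂ E} :
    x ∈ P.ord ↔ (∀ g ∈ G, x * g = g * x) ∧ ∀ v ∈ Λ, x v ∈ Λ := Iff.rfl

/-- The real algebra spanned by the order. -/
noncomputable def alg (P : Pol h Λ G d b) : Subalgebra ℝ (Module.End ℂ E) :=
  Algebra.adjoin ℝ (P.ord : Set (Module.End ℂ E))

theorem mem_alg (P : Pol h Λ G d b) {x : Module.End ℂ E} :
    x ∈ P.alg ↔ x ∈ Submodule.span ℝ (P.ord : Set (Module.End ℂ E)) := by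
  have h1 : (Submonoid.closure (P.ord : Set (Module.End ℂ E)) : Set (Module.End ℂ E))
      = (P.ord : Set (Module.End ℂ E)) := by
    have h2 := Submonoid.closure_eq P.ord.toSubmonoid
    have h3 := congrArg (fun s : Submonoid (Module.End ℂ E) => (s : Set (Module.End ℂ E))) h2
    exact h3
  rw [← h1, ← Algebra.adjoin_eq_span]
  rfl

theorem ord_le (P : Pol h Λ G d b) {x : Module.End ℂ E} (hx : x ∈ P.ord) : x ∈ P.alg :=
  Algebra.subset_adjoin hx

theorem alg_comm (P : Pol h Λ G d b) {x : Module.End ℂ E} (hx : x ∈ P.alg) {g : Module.End ℂ E}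
    (hg : g ∈ G) : x * g = g * x := by
  rw [mem_alg] at hx
  induction hx using Submodule.span_induction with
  | mem x hx => exact hx.1 g hg
  | zero => rw [zero_mul, mul_zero]
  | add x y _ _ hx hy => rw [add_mul, mul_add, hx, hy]
  | smul c x _ hx => rw [smul_mul_assoc, mul_smul_comm, hx]

theorem adj_comm (P : Pol h Λ G d b) {x : Module.End ℂ E} {g : Module.End ℂ E} (hg : g ∈ G)
    (hx : x * g = g * x) :
    (adj P.herm P.pos x : Module.End ℂ E) * g = g * (adj P.herm P.pos x : Module.End ℂ E) := by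
  ext w
  apply herm_ext P.herm P.pos
  intro u
  obtain ⟨u', rfl⟩ := P.surj hg u
  change h (g u') (adj P.herm P.pos x (g w)) = h (g u') (g (adj P.herm P.pos x w))
  rw [P.unit g hg, ← adj_spec P.herm P.pos x, ← adj_spec P.herm P.pos x]
  have h1 : x (g u') = g (x u') := LinearMap.congr_fun hx u'
  rw [h1, P.unit g hg]

/-- The adjoint of an element of the order. -/
theorem adj_ord (P : Pol h Λ G d b) : ∃ N : ℕ, 0 < N ∧ ∀ x ∈ P.ord,
    (N : ℝ) • (adj P.herm P.pos x : Module.End ℂ E) ∈ P.ord := by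
  obtain ⟨N, hN, hNv⟩ := P.dual
  refine ⟨N, hN, fun x hx => ⟨fun g hg => ?_, fun v hv => ?_⟩⟩
  · rw [smul_mul_assoc, mul_smul_comm, P.adj_comm hg (hx.1 g hg)]
  · change (N : ℝ) • (adj P.herm P.pos x v) ∈ Λ
    apply hNv
    intro w hw
    rw [← adj_spec' P.herm P.pos x v w]
    exact P.int _ hv _ (hx.2 _ hw)

/-- A form which is integral on the lattice is given by an element of the algebra. -/
theorem op_mem (P : Pol h Λ G d b) {a : Module.End ℂ E}
    (hG : ∀ g ∈ G, ∀ u w, h (a (g u)) (g w) = h (a u) w)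
    (hi : ∀ u ∈ Λ, ∀ w ∈ Λ, ∃ n : ℤ, (h (a u) w).im = n) : a ∈ P.alg := by
  obtain ⟨N, hN, hNv⟩ := P.dual
  have h1 : (N : ℝ) • a ∈ P.ord := by
    refine ⟨fun g hg => ?_, fun v hv => ?_⟩
    · rw [smul_mul_assoc, mul_smul_comm]
      congr 1
      ext u
      have h2 : ∀ w, h ((a * g) u) w = h ((g * a) u) w := by
        intro w
        obtain ⟨w', rfl⟩ := P.surj hg w
        change h (a (g u)) (g w') = h (g (a u)) (g w')
        rw [hG g hg, P.unit g hg]
      have h3 : ∀ w, h w ((a * g) u) = h w ((g * a) u) := by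
        intro w
        rw [P.herm.symm _ w, h2, ← P.herm.symm]
      exact herm_ext P.herm P.pos h3
    · exact hNv _ (fun w hw => hi v hv w hw)
  have h2 : a = (N : ℝ)⁻¹ • ((N : ℝ) • a) := by
    rw [smul_smul, inv_mul_cancel₀ (by exact_mod_cast hN.ne'), one_smul]
  rw [h2]
  exact P.alg.smul_mem (P.ord_le h1) _

theorem adj_alg (P : Pol h Λ G d b) {x : Module.End ℂ E} (hx : x ∈ P.alg) :
    (adj P.herm P.pos x : Module.End ℂ E) ∈ P.alg := by
  obtain ⟨N, hN, hNv⟩ := P.adj_ord
  rw [mem_alg] at hx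
  induction hx using Submodule.span_induction with
  | mem x hx =>
    have h2 : (adj P.herm P.pos x : Module.End ℂ E)
        = (N : ℝ)⁻¹ • ((N : ℝ) • (adj P.herm P.pos x : Module.End ℂ E)) := by
      rw [smul_smul, inv_mul_cancel₀ (by exact_mod_cast hN.ne'), one_smul]
    rw [h2]
    exact P.alg.smul_mem (P.ord_le (hNv x hx)) _
  | zero =>
    have : adj P.herm P.pos (0 : E →ₗ[ℂ] E) = 0 := adj_unique _ _ fun u w => by
      rw [LinearMap.zero_apply, LinearMap.zero_apply, h_zero_left P.herm, h_zero_right P.herm]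
    rw [this]
    exact P.alg.zero_mem
  | add x y _ _ hx hy =>
    rw [adj_add]
    exact P.alg.add_mem hx hy
  | smul c x _ hx =>
    rw [adj_smul]
    exact P.alg.smul_mem hx c

end Pol

end Pool.Agent.Y167
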