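import Pool.Agent.Y167.Cone
import Pool.Agent.TH735.AQ.MirDefs

/-!
# Cones of divisors on quotients of complex tori: definitions

`X = V / Γ` is the quotient of a complex torus by a finite group. `j : E → V` is the inclusion of a
linear subspace; in the relative case `E` is the kernel of the linear map `π : V → W` which gives the
fibration `X → Z`, and `E = V` if `Z` is a point. The Chern form of a line bundle on `X` is a
hermitian form on `V`, and its restriction to `E` is the class of the line bundle in `N^1(X/Z)`,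
because the curves in the fibres of `X → Z` lie in the images of the translates of `E`.
-/

set_option autoImplicit false

namespace Pool.Agent.Y167

open Filter Topology Asymptotics
open Pool.Agent.W594.SYZ2 Pool.Agent.TH735.AQ

/-- The groups of affine transformations of `V`. -/
abbrev AffGrp (V : Type*) [NormedAddCommGroup V] [NormedSpace ℂ V] : Type _ :=
  Subgroup (V ≃ᵃ[ℂ] V)

variable {V E : Type*} [NormedAddCommGroup V] [NormedSpace ℂ V]
  [NormedAddCommGroup E] [NormedSpace ℂ E] {Γ : AffGrp V}

/-- `h` is the class of the line bundle `L`: the restriction to `E` of a Chern form of `L`. -/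
def IsClass (j : E →ₗ[ℂ] V) (L : LineBundle Γ) (h : E → E → ℂ) : Prop :=
  ∃ H : V → V → ℂ, IsChernForm L H ∧ ∀ u w, h u w = H (j u) (j w)

/-- The real vector space spanned by the classes of line bundles. -/
noncomputable def N1s (Γ : AffGrp V) (j : E →ₗ[ℂ] V) : Submodule ℝ (E → E → ℂ) :=
  Submodule.span ℝ {h | ∃ L : LineBundle Γ, IsClass j L h}

/-- The space `N^1(X/Z)` of numerical classes with real coefficients. -/
abbrev N1 (Γ : AffGrp V) (j : E →ₗ[ℂ] V) : Type _ := N1s Γ j

/-- The class is integral: it is the class of a line bundle. -/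
def Integral {j : E →ₗ[ℂ] V} (x : N1 Γ j) : Prop := ∃ L : LineBundle Γ, IsClass j L x.1

/-- The nef cone: the positive semidefinite forms. -/
def nefCone (Γ : AffGrp V) (j : E →ₗ[ℂ] V) : Set (N1 Γ j) :=
  {x | ∀ u, 0 ≤ (x.1 u u).re}

/-- The class is the class of an effective Cartier divisor: it is the class of a line bundle which
has a section, not identically zero. -/
def EffClass {j : E →ₗ[ℂ] V} (x : N1 Γ j) : Prop :=
  ∃ (L : LineBundle Γ) (s : V → ℂ), IsClass j L x.1 ∧ L.IsSection s ∧ ∃ v, s v ≠ 0

/-- The effective cone: the convex cone spanned by the classes of effective divisors. (It is not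
closed in general.) -/
def effCone (Γ : AffGrp V) (j : E →ₗ[ℂ] V) : Set (N1 Γ j) :=
  {x | ∃ S : Finset (N1 Γ j), (∀ a ∈ S, EffClass a) ∧ x ∈ cone S}

/-- The multiplicity at `v` of the zero divisor of the holomorphic function `s` on `V`: the largest
`k` such that `s` vanishes at `v` to the order `k`. -/
noncomputable def mult {V : Type*} [NormedAddCommGroup V] (s : V → ℂ) (v : V) : ℕ :=
  sSup {k : ℕ | s =O[𝓝 v] fun x => ‖x - v‖ ^ k}

/-- An effective divisor with real coefficients on `X`: `Δ = ∑ i, r i • div (s i)`, where `s i` is a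
section, not identically zero, of the line bundle `L i` with Chern form `H i`. -/
structure EffDiv (Γ : AffGrp V) (ι : Type*) where
  L : ι → LineBundle Γ
  H : ι → V → V → ℂ
  s : ι → V → ℂ
  r : ι → ℝ
  chern : ∀ i, IsChernForm (L i) (H i)
  sect : ∀ i, (L i).IsSection (s i)
  ne_zero : ∀ i, ∃ v, s i v ≠ 0
  nonneg : ∀ i, 0 ≤ r i

/-- The multiplicity at `v` of the pullback of `Δ` to `V`. Two effective divisors on `X` are equal if
and only if these multiplicities are equal at all points. -/
noncomputable def EffDiv.mul {ι : Type*} [Fintype ι] (Δ : EffDiv Γ ι) (v : V) : ℝ :=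
  ∑ i, Δ.r i * mult (Δ.s i) v

/-- `K_X + Δ` is numerically trivial over `Z`: here `K = O_X(m K_X)` is a line bundle, `ρ` defines the
ramification divisor of `V → X`, and `HK` is the Chern form of `K`. -/
def NumTrivial {ι : Type*} [Fintype ι] (Δ : EffDiv Γ ι) (j : E →ₗ[ℂ] V) : Prop :=
  ∃ (m : ℕ) (ρ : V → ℂ) (K : LineBundle Γ) (HK : V → V → ℂ), 1 ≤ m ∧ IsRamification Γ ρ ∧
    IsLogPluricanonical K m ρ (fun _ => 1) ∧ IsChernForm K HK ∧
      ∀ u w, HK (j u) (j w) + m * ∑ i, (Δ.r i : ℂ) * Δ.H i (j u) (j w) = 0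

/-- The affine transformation `f` normalises `Γ`, so that it induces an automorphism of `V / Γ`. -/
def Normalizes {V : Type*} [AddCommGroup V] [Module ℂ V] (Γ : Subgroup (V ≃ᵃ[ℂ] V))
    (f : V ≃ᵃ[ℂ] V) : Prop := ∀ γ, γ ∈ Γ ↔ f * γ * f⁻¹ ∈ Γ

/-- `g` is the pullback `f^*` on `N^1(X/Z)` by the automorphism of `X` induced by the affine
transformation `f` of `V`. -/
def IsPullback {j : E →ₗ[ℂ] V} (f : V ≃ᵃ[ℂ] V) (g : N1 Γ j ≃ₗ[ℝ] N1 Γ j) : Prop :=
  ∀ (x : N1 Γ j) (u w u' w' : E), j u' = f.linear (j u) → j w' = f.linear (j w) →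
    (g x).1 u w = x.1 u' w'

end Pool.Agent.Y167
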