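import Pool.Agent.Y167.FinIdx
import Pool.Agent.Y167.Defs

/-!
# Automorphisms of torus quotients and pullback of line bundles
-/

set_option autoImplicit false

namespace Pool.Agent.Y167

open Finset
open Pool.Agent.W594.SYZ2 Pool.Agent.W594.SYZ2.TQ Pool.Agent.TH735.AQ

variable {V E : Type*} [NormedAddCommGroup V] [NormedSpace ℂ V] [FiniteDimensional ℂ V]
  [NormedAddCommGroup E] [NormedSpace ℂ E] [FiniteDimensional ℂ E]
  {Γ : Subgroup (V ≃ᵃ[ℂ] V)}

/-- The pullback of a line bundle. -/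
def pull (f : V ≃ᵃ[ℂ] V) (hf : Normalizes Γ f) (L : LineBundle Γ)
    (hd : Differentiable ℂ f) : LineBundle Γ where
  e := fun γ v => L.e ⟨f * γ.1 * f⁻¹, (hf γ.1).1 γ.2⟩ (f v)
  holo := fun γ => (L.holo _).comp hd
  ne_zero := fun γ v => L.ne_zero _ _
  mul := fun γ δ v => by
    have h1 : (⟨f * (γ * δ : Γ).1 * f⁻¹, (hf _).1 (γ * δ : Γ).2⟩ : Γ)
        = ⟨f * γ.1 * f⁻¹, (hf γ.1).1 γ.2⟩ * ⟨f * δ.1 * f⁻¹, (hf δ.1).1 δ.2⟩ := by
      apply Subtype.ext
      change f * (γ.1 * δ.1) * f⁻¹ = (f * γ.1 * f⁻¹) * (f * δ.1 * f⁻¹)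
      group
    have h2 : (f * δ.1 * f⁻¹ : V ≃ᵃ[ℂ] V) (f v) = f (δ.1 v) := by
      change f (δ.1 (f.symm (f v))) = _
      rw [f.symm_apply_apply]
    rw [h1, L.mul]
    change L.e _ ((f * δ.1 * f⁻¹ : V ≃ᵃ[ℂ] V) (f v)) * _ = _
    rw [h2]
  stab := fun γ v h => by
    apply L.stab
    change f (γ.1 (f.symm (f v))) = f v
    rw [f.symm_apply_apply, h]

theorem pull_chern (f : V ≃ᵃ[ℂ] V) (hf : Normalizes Γ f) {L : LineBundle Γ}
    (hd : Differentiable ℂ f) {H : V → V → ℂ} (hL : IsChernForm L H) :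
    IsChernForm (pull f hf L hd) (fun v w => H (f.linear v) (f.linear w)) := by
  obtain ⟨hH, F, hF, hFe⟩ := hL
  refine ⟨⟨?_, ?_, ?_⟩, fun v => F (f v) + Real.pi * H (f.linear v) (f 0), ?_, ?_⟩
  · intro u v w
    rw [map_add, hH.add_left]
  · intro c v w
    rw [map_smul, hH.smul_left]
  · intro v w
    exact hH.symm _ _
  · have h1 : (fun v => H (f.linear v) (f 0))
        = LinearMap.toContinuousLinearMap ((hl hH (f 0)) ∘ₗ (f.linear : V →ₗ[ℂ] V)) := rfl
    have h2 : Differentiable ℂ (fun v => H (f.linear v) (f 0)) := by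
      rw [h1]
      exact ContinuousLinearMap.differentiable _
    exact (hF.comp hd).add (h2.const_mul _)
  · intro γ v
    have h2 : (f * γ.1 * f⁻¹ : V ≃ᵃ[ℂ] V) (f v) = f (γ.1 v) := by
      change f (γ.1 (f.symm (f v))) = _
      rw [f.symm_apply_apply]
    change ‖L.e ⟨f * γ.1 * f⁻¹, (hf γ.1).1 γ.2⟩ (f v)‖ ^ 2 = _
    rw [hFe]
    change Real.exp (Real.pi * (H ((f * γ.1 * f⁻¹ : V ≃ᵃ[ℂ] V) (f v))
      ((f * γ.1 * f⁻¹ : V ≃ᵃ[ℂ] V) (f v))).re + 2 * (F ((f * γ.1 * f⁻¹ : V ≃ᵃ[ℂ] V) (f v))).re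
        - _) = _
    rw [h2]
    congr 1
    have h3 : ∀ w, (H (f w) (f w)).re = (H (f.linear w) (f.linear w)).re + (H (f 0) (f 0)).re
        + 2 * (H (f.linear w) (f 0)).re := by
      intro w
      conv_lhs => rw [act f w]
      rw [h_diag_add hH]
    rw [h3 (γ.1 v), h3 v]
    simp only [Complex.add_re, Complex.re_ofReal_mul]
    ring

omit [FiniteDimensional ℂ V] in
theorem pull_section (f : V ≃ᵃ[ℂ] V) (hf : Normalizes Γ f) {L : LineBundle Γ}
    (hd : Differentiable ℂ f) {s : V → ℂ} (hs : L.IsSection s) :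
    (pull f hf L hd).IsSection (fun v => s (f v)) where
  holo := hs.holo.comp hd
  eq := fun γ v => by
    have h1 := hs.eq ⟨f * γ.1 * f⁻¹, (hf γ.1).1 γ.2⟩ (f v)
    have h2 : (f * γ.1 * f⁻¹ : V ≃ᵃ[ℂ] V) (f v) = f (γ.1 v) := by
      change f (γ.1 (f.symm (f v))) = _
      rw [f.symm_apply_apply]
    change s ((f * γ.1 * f⁻¹ : V ≃ᵃ[ℂ] V) (f v)) = _ at h1
    rw [h2] at h1
    exact h1

/-- A good unit extends to an automorphism of `V / Γ`. -/
theorem Rel.exists_aut {j : E →ₗ[ℂ] V} {H₀ : V → V → ℂ} (R : Rel Γ j H₀) :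
    ∃ m : ℕ, 0 < m ∧ ∀ u, Pol.IsGood (lattE Γ j) (opE Γ j) m u →
      ∃ f : V ≃ᵃ[ℂ] V, Normalizes Γ f ∧ (∀ e, f.linear (j e) = j (u e)) ∧
        ∀ v, ∃ e, f v = v + j (u e - e) := by
  obtain ⟨q, hq1, hq2, hq3, m₁, hm₁, hmq⟩ := R.exists_q
  obtain ⟨t₀, ht₀⟩ := exists_center R.tq
  set n := Nat.card (Lin Γ) with hn
  have hnpos : 0 < n := card_pos R.tq
  have hmr : (((m₁ * n : ℕ) : ℝ)) ≠ 0 := by positivity
  refine ⟨m₁ * n, Nat.mul_pos hm₁ hnpos, fun u hu => ?_⟩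
  let ut : V ≃ₗ[ℂ] V :=
    { toFun := fun v => v + j (u (q v) - q v)
      map_add' := fun v w => by
        simp only [map_add, map_sub]
        abel
      map_smul' := fun c v => by
        simp only [map_smul, map_sub, RingHom.id_apply, smul_add, smul_sub]
      invFun := fun v => v + j (u.symm (q v) - q v)
      left_inv := fun v => by
        change (v + j (u (q v) - q v)) + j (u.symm (q (v + j (u (q v) - q v)))
          - q (v + j (u (q v) - q v))) = v
        have h1 : q (v + j (u (q v) - q v)) = u (q v) := by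
          rw [map_add, hq2]
          abel
        rw [h1, u.symm_apply_apply, add_assoc, ← map_add]
        have h2 : u (q v) - q v + (q v - u (q v)) = 0 := by abel
        rw [h2, map_zero, add_zero]
      right_inv := fun v => by
        change (v + j (u.symm (q v) - q v)) + j (u (q (v + j (u.symm (q v) - q v)))
          - q (v + j (u.symm (q v) - q v))) = v
        have h1 : q (v + j (u.symm (q v) - q v)) = u.symm (q v) := by
          rw [map_add, hq2]
          abel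
        rw [h1, u.apply_symm_apply, add_assoc, ← map_add]
        have h2 : u.symm (q v) - q v + (q v - u.symm (q v)) = 0 := by abel
        rw [h2, map_zero, add_zero] }
  have hut : ∀ v, ut v = v + j (u (q v) - q v) := fun v => rfl
  let f : V ≃ᵃ[ℂ] V :=
    AffineEquiv.constVAdd ℂ V t₀ * ut.toAffineEquiv * AffineEquiv.constVAdd ℂ V (-t₀)
  have hfv : ∀ v, f v = t₀ + ut (-t₀ + v) := fun v => rfl
  have hflin : ∀ v, f.linear v = ut v := fun v => rfl
  -- commutation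
  have hug : ∀ γ ∈ Γ, ∀ v, ut (γ.linear v) = γ.linear (ut v) := by
    intro γ hγ v
    obtain ⟨x, hx1, hx2⟩ := R.exists_opE γ hγ
    rw [hut, hut, hq3 γ hγ x hx2, hu.unit.comm x hx1, map_add, ← map_sub, hx2]
  have hc : ∀ γ ∈ Γ, ∃ c' ∈ lattE Γ j, ut (γ t₀ - t₀) - (γ t₀ - t₀) = j c' := by
    intro γ hγ
    have h1 := hmq _ (ht₀ γ hγ)
    have h2 : (m₁ : ℝ) • q ((n : ℝ) • (γ t₀ - t₀)) = ((m₁ * n : ℕ) : ℝ) • q (γ t₀ - t₀) := by
      have h3 : q ((n : ℝ) • (γ t₀ - t₀)) = (n : ℝ) • q (γ t₀ - t₀) := by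
        rw [← Complex.coe_smul, map_smul, Complex.coe_smul]
      rw [h3, smul_smul]
      push_cast
      rfl
    rw [h2] at h1
    obtain ⟨c', hc', h3⟩ := hu.cong _ h1
    refine ⟨c', hc', ?_⟩
    rw [hut, add_sub_cancel_left]
    congr 1
    have h4 : u (((m₁ * n : ℕ) : ℝ) • q (γ t₀ - t₀)) - ((m₁ * n : ℕ) : ℝ) • q (γ t₀ - t₀)
        = ((m₁ * n : ℕ) : ℝ) • (u (q (γ t₀ - t₀)) - q (γ t₀ - t₀)) := by
      rw [← Complex.coe_smul, map_smul, Complex.coe_smul, smul_sub]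
      rfl
    rw [h4] at h3
    exact smul_right_injective E hmr h3
  have hkey : ∀ γ ∈ Γ, ∃ c' ∈ lattE Γ j, ∀ v, f (γ v) = j c' + γ (f v) := by
    intro γ hγ
    obtain ⟨c', hc', h1⟩ := hc γ hγ
    refine ⟨c', hc', fun v => ?_⟩
    have h2 : γ v = γ t₀ + γ.linear (-t₀ + v) := by
      have : v = t₀ + (-t₀ + v) := by abel
      conv_lhs => rw [this, act_add]
    have h3 : -t₀ + γ v = (γ t₀ - t₀) + γ.linear (-t₀ + v) := by rw [h2]; abel
    rw [hfv, hfv, h3, map_add, hug γ hγ, act_add]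
    have h4 : ut (γ t₀ - t₀) = j c' + (γ t₀ - t₀) := by rw [← h1]; abel
    rw [h4]
    abel
  refine ⟨f, fun γ => ⟨fun hγ => ?_, fun hγ' => ?_⟩, fun e => ?_, fun v => ⟨q (-t₀ + v), ?_⟩⟩
  · obtain ⟨c', hc', h1⟩ := hkey γ hγ
    have h2 : f * γ * f⁻¹ = AffineEquiv.constVAdd ℂ V (j c') * γ := by
      apply AffineEquiv.ext
      intro v
      change f (γ (f.symm v)) = j c' + γ v
      rw [h1, f.apply_symm_apply]
    rw [h2]
    exact Γ.mul_mem hc' hγ
  · obtain ⟨c', hc', h1⟩ := hkey _ hγ'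
    have h2 : γ = AffineEquiv.constVAdd ℂ V (j (-u.symm c')) * (f * γ * f⁻¹) := by
      apply AffineEquiv.ext
      intro v
      apply f.injective
      change f (γ v) = f (j (-u.symm c') + (f * γ * f⁻¹) v)
      have h3 : f (j (-u.symm c') + (f * γ * f⁻¹) v)
          = f ((f * γ * f⁻¹) v) + ut (j (-u.symm c')) := by
        rw [add_comm, act_add, hflin]
      have h4 : ut (j (-u.symm c')) = -j c' := by
        rw [hut, hq2, ← map_add]
        have h5 : -u.symm c' + (u (-u.symm c') - -u.symm c') = -c' := by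
          rw [map_neg, u.apply_symm_apply]
          abel
        rw [h5, map_neg]
      rw [h3, h4, h1]
      change f (γ v) = j c' + f (γ (f.symm (f v))) + -j c'
      rw [f.symm_apply_apply]
      abel
    rw [h2]
    refine Γ.mul_mem ?_ hγ'
    have h3 : -u.symm c' ∈ lattE Γ j := (lattE Γ j).neg_mem (hu.unit.symm _ hc')
    exact h3
  · rw [hflin, hut, hq2, map_sub]
    abel
  · rw [hfv, hut]
    abel

end Pool.Agent.Y167
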