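import Pool.Agent.Y167.Eff

/-!
# Base point free line bundles on torus quotients with a given semidefinite Chern form
-/

set_option autoImplicit false

namespace Pool.Agent.Y167

open Finset
open Pool.Agent.W594.SYZ2 Pool.Agent.W594.SYZ2.TQ Pool.Agent.TH735.AQ

variable {V : Type*} [NormedAddCommGroup V] [NormedSpace ℂ V] [FiniteDimensional ℂ V]
  {Γ : Subgroup (V ≃ᵃ[ℂ] V)} {H : V → V → ℂ}

/-- The exponent of the factor of automorphy. -/
noncomputable def ex (n : ℕ) (H : V → V → ℂ) (t₀ : V) (γ : V ≃ᵃ[ℂ] V) (v : V) : ℂ :=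
  n * (2 * Real.pi * H (γ.linear (v - t₀)) (γ t₀ - t₀) + Real.pi * H (γ t₀ - t₀) (γ t₀ - t₀))

theorem EvenForm.bpf (hΓ : IsTorusQuotient Γ) (D : EvenForm Γ (Nat.card (Lin Γ)) H) :
    ∃ L : LineBundle Γ, IsChernForm L (fun v w => (2 * Nat.card (Lin Γ) : ℂ) * H v w) ∧
      ∀ v, ∃ s, L.IsSection s ∧ s v ≠ 0 := by
  classical
  have := finite_Lin hΓ
  have : Fintype (Lin Γ) := Fintype.ofFinite _
  obtain ⟨t₀, ht₀⟩ := exists_center hΓ
  obtain ⟨θ, hθ, hθ0, hθc⟩ := D.exists_theta hΓ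
  have hH := D.herm
  set n := Nat.card (Lin Γ) with hn
  let N : V → V → ℂ := fun a v => ∏ h : Lin Γ, (θ (h.1 (v - t₀) - a) * θ (h.1 (v - t₀) + a))
  have hlin : ∀ (h : Lin Γ) (v w : V), H (h.1 v) (h.1 w) = H v w := by
    rintro ⟨_, γ, hγ, rfl⟩ v w
    exact D.inv γ hγ v w
  have hfr : ∀ (h : Lin Γ) (v : V), v ∈ frac Γ n → h.1 v ∈ frac Γ n := by
    rintro ⟨_, γ, hγ, rfl⟩ v hv
    exact frac_inv γ hγ hv
  have hN : ∀ a, ∀ γ ∈ Γ, ∀ v, N a (γ v) = Complex.exp (ex n H t₀ γ v) * N a v := by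
    intro a γ hγ v
    let g : Lin Γ := ⟨γ.linear, γ, hγ, rfl⟩
    set c : V := γ t₀ - t₀ with hc
    have hcm : c ∈ frac Γ n := ht₀ γ hγ
    have h1 : γ v - t₀ = γ.linear (v - t₀) + c := by
      have h2 : v = t₀ + (v - t₀) := by abel
      conv_lhs => rw [h2, act_add]
      rw [hc]
      abel
    have hre : N a v = ∏ h : Lin Γ,
        (θ ((h * g).1 (v - t₀) - a) * θ ((h * g).1 (v - t₀) + a)) :=
      (Fintype.prod_equiv (Equiv.mulRight g) _ _ fun h => rfl).symm
    rw [hre]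
    simp only [N]
    have h3 : Complex.exp (ex n H t₀ γ v) = ∏ _h : Lin Γ,
        Complex.exp (2 * Real.pi * H (γ.linear (v - t₀)) c + Real.pi * H c c) := by
      rw [Finset.prod_const, ← Complex.exp_nat_mul, Finset.card_univ, ← Nat.card_eq_fintype_card]
      rfl
    rw [h3, ← Finset.prod_mul_distrib]
    refine Finset.prod_congr rfl fun h _ => ?_
    have h4 : h.1 (γ v - t₀) - a = ((h * g).1 (v - t₀) - a) + h.1 c := by
      rw [h1, map_add]
      change h.1 (γ.linear (v - t₀)) + h.1 c - a = (h.1 (γ.linear (v - t₀)) - a) + h.1 c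
      abel
    have h5 : h.1 (γ v - t₀) + a = ((h * g).1 (v - t₀) + a) + h.1 c := by
      rw [h1, map_add]
      change h.1 (γ.linear (v - t₀)) + h.1 c + a = (h.1 (γ.linear (v - t₀)) + a) + h.1 c
      abel
    rw [h4, h5, hθc _ (hfr h c hcm), hθc _ (hfr h c hcm), mul_mul_mul_comm, ← Complex.exp_add]
    congr 2
    have h6 : H ((h * g).1 (v - t₀)) (h.1 c) = H (γ.linear (v - t₀)) c := hlin h _ _
    rw [h_sub_left hH, hH.add_left, h6, hlin h c c]
    ring
  have hNne : ∀ v, ∃ a, N a v ≠ 0 := by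
    intro v
    refine prod_ne (V := V) Finset.univ (fun (h : Lin Γ) a => θ (h.1 (v - t₀) - a) * θ (h.1 (v - t₀) + a))
      ?_ ?_
    · intro h _
      have e1 : Differentiable ℂ fun a : V => θ (h.1 (v - t₀) - a) :=
        hθ.comp (differentiable_id.const_sub _)
      have e2 : Differentiable ℂ fun a : V => θ (h.1 (v - t₀) + a) :=
        hθ.comp (differentiable_id.const_add _)
      exact e1.mul e2
    · intro h _
      have e1 : Differentiable ℂ fun a : V => θ (h.1 (v - t₀) - a) :=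
        hθ.comp (differentiable_id.const_sub _)
      have e2 : Differentiable ℂ fun a : V => θ (h.1 (v - t₀) + a) :=
        hθ.comp (differentiable_id.const_add _)
      obtain ⟨a, h1, h2⟩ := exists_common e1 e2 ⟨h.1 (v - t₀), by rwa [sub_self]⟩
        ⟨-h.1 (v - t₀), by rwa [add_neg_cancel]⟩
      exact ⟨a, mul_ne_zero h1 h2⟩
  have hNholo : ∀ a, Differentiable ℂ (N a) := by
    intro a
    refine prod_holo Finset.univ (fun (h : Lin Γ) v => θ (h.1 (v - t₀) - a) * θ (h.1 (v - t₀) + a))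
      fun h _ => ?_
    have e0 : Differentiable ℂ fun v : V => h.1 (v - t₀) := by
      have e1 : (fun v : V => h.1 (v - t₀))
          = fun v => LinearMap.toContinuousLinearMap (h.1 : V →ₗ[ℂ] V) (v - t₀) := rfl
      rw [e1]
      exact (ContinuousLinearMap.differentiable _).comp (differentiable_id.sub_const t₀)
    exact (hθ.comp (e0.sub_const a)).mul (hθ.comp (e0.add_const a))
  let L : LineBundle Γ :=
    { e := fun γ v => Complex.exp (ex n H t₀ γ v)
      holo := fun γ => by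
        have e1 : (fun v : V => H ((γ : V ≃ᵃ[ℂ] V).linear (v - t₀)) ((γ : V ≃ᵃ[ℂ] V) t₀ - t₀))
            = fun v => LinearMap.toContinuousLinearMap
              ((hl hH ((γ : V ≃ᵃ[ℂ] V) t₀ - t₀)) ∘ₗ ((γ : V ≃ᵃ[ℂ] V).linear : V →ₗ[ℂ] V))
                (v - t₀) := rfl
        have e2 : Differentiable ℂ
            (fun v : V => H ((γ : V ≃ᵃ[ℂ] V).linear (v - t₀)) ((γ : V ≃ᵃ[ℂ] V) t₀ - t₀)) := by
          rw [e1]
          exact (ContinuousLinearMap.differentiable _).comp (differentiable_id.sub_const t₀)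
        exact (((e2.const_mul (2 * Real.pi : ℂ)).add_const _).const_mul (n : ℂ)).cexp
      ne_zero := fun γ v => Complex.exp_ne_zero _
      mul := fun γ δ v => by
        obtain ⟨a, ha⟩ := hNne v
        have h1 := hN a _ (γ * δ).2 v
        have h2 : ((γ * δ : Γ) : V ≃ᵃ[ℂ] V) v = (γ : V ≃ᵃ[ℂ] V) ((δ : V ≃ᵃ[ℂ] V) v) := rfl
        rw [h2, hN a _ γ.2, hN a _ δ.2, ← mul_assoc] at h1
        exact (mul_right_cancel₀ ha h1).symm
      stab := fun γ v h => by
        obtain ⟨a, ha⟩ := hNne v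
        have h1 := hN a _ γ.2 v
        rw [h] at h1
        exact (mul_right_cancel₀ ha ((one_mul _).trans h1)).symm }
  refine ⟨L, ⟨⟨?_, ?_, ?_⟩, fun v => -((2 * n : ℂ) * (Real.pi * H v t₀)), ?_, ?_⟩, fun v => ?_⟩
  · intro u v w
    rw [hH.add_left, mul_add]
  · intro c v w
    rw [hH.smul_left]
    ring
  · intro v w
    rw [map_mul, map_mul, Complex.conj_natCast, map_ofNat, ← hH.symm]
  · have e1 : (fun v : V => H v t₀) = LinearMap.toContinuousLinearMap (hl hH t₀) := rfl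
    have e2 : Differentiable ℂ (fun v : V => H v t₀) := by
      rw [e1]
      exact ContinuousLinearMap.differentiable _
    exact ((e2.const_mul (Real.pi : ℂ)).const_mul (2 * n : ℂ)).neg
  · intro γ v
    change ‖Complex.exp (ex n H t₀ γ v)‖ ^ 2 = _
    rw [Complex.norm_exp, ← Real.exp_nat_mul]
    congr 1
    set g := (γ : V ≃ᵃ[ℂ] V).linear with hg
    set c : V := (γ : V ≃ᵃ[ℂ] V) t₀ - t₀ with hc
    set x : V := v - t₀ with hx
    have h1 : (γ : V ≃ᵃ[ℂ] V) v = (g x + c) + t₀ := by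
      have h2 : v = t₀ + x := by rw [hx]; abel
      conv_lhs => rw [h2, act_add]
      rw [hc, hg]
      abel
    have h2 : v = x + t₀ := by rw [hx]; abel
    have hmul : ∀ z : ℂ, ((2 * n : ℂ) * z).re = 2 * n * z.re := by
      intro z
      have : (2 * n : ℂ) = ((2 * n : ℝ) : ℂ) := by push_cast; rfl
      rw [this, Complex.re_ofReal_mul]
    have hex : (ex n H t₀ γ v).re = n * (2 * Real.pi * (H (g x) c).re + Real.pi * (H c c).re) := by
      rw [ex, ← hg, ← hc, ← hx]
      have e1 : ((n : ℂ) * (2 * Real.pi * H (g x) c + Real.pi * H c c))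
          = ((n : ℝ) : ℂ) * (((2 * Real.pi : ℝ) : ℂ) * H (g x) c + ((Real.pi : ℝ) : ℂ) * H c c) := by
        push_cast; ring
      rw [e1, Complex.re_ofReal_mul, Complex.add_re, Complex.re_ofReal_mul, Complex.re_ofReal_mul]
    rw [hex]
    simp only [Complex.neg_re, hmul, Complex.re_ofReal_mul]
    have h3 : (H ((γ : V ≃ᵃ[ℂ] V) v) ((γ : V ≃ᵃ[ℂ] V) v)).re
        = (H x x).re + (H c c).re + 2 * (H (g x) c).re + (H t₀ t₀).re
          + 2 * (H (g x + c) t₀).re := by
      rw [h1, h_diag_add hH, h_diag_add hH, D.inv _ γ.2]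
    have h4 : (H v v).re = (H x x).re + (H t₀ t₀).re + 2 * (H x t₀).re := by
      conv_lhs => rw [h2]
      rw [h_diag_add hH]
    have h5 : (H ((γ : V ≃ᵃ[ℂ] V) v) t₀).re = (H (g x + c) t₀).re + (H t₀ t₀).re := by
      rw [h1, hH.add_left, Complex.add_re]
    have h6 : (H v t₀).re = (H x t₀).re + (H t₀ t₀).re := by
      conv_lhs => rw [h2]
      rw [hH.add_left, Complex.add_re]
    rw [h3, h4, h5, h6]
    push_cast
    ring
  · obtain ⟨a, ha⟩ := hNne v
    exact ⟨N a, ⟨hNholo a, fun γ w => hN a _ γ.2 w⟩, ha⟩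

/-- Every semidefinite invariant form which is rational on the lattice has a multiple which is the
Chern form of a base point free line bundle. -/
theorem exists_bpf (hΓ : IsTorusQuotient Γ) (hH : IsHermitian H) (hn : IsNefForm H)
    (hinv : ∀ γ ∈ Γ, ∀ v w, H (γ.linear v) (γ.linear w) = H v w) {k : ℕ} (hk : 0 < k)
    (hint : ∀ b ∈ latt Γ, ∀ c ∈ latt Γ, ∃ n : ℤ, (k : ℝ) * (H b c).im = n) :
    ∃ m : ℕ, 0 < m ∧ ∃ L : LineBundle Γ, IsChernForm L (fun v w => (m : ℂ) * H v w) ∧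
      ∀ v, ∃ s, L.IsSection s ∧ s v ≠ 0 := by
  have hN := card_pos hΓ
  set N := Nat.card (Lin Γ) with hNdef
  set q : ℕ := 2 * k * N ^ 2 with hq
  have hqpos : 0 < q := by positivity
  have hqc : (q : ℂ) = ((q : ℝ) : ℂ) := by push_cast; rfl
  have D : EvenForm Γ N (fun v w => (q : ℂ) * H v w) := by
    refine ⟨⟨?_, ?_, ?_⟩, ?_, ?_, ?_⟩
    · intro u v w
      rw [hH.add_left, mul_add]
    · intro c v w
      rw [hH.smul_left]
      ring
    · intro v w
      rw [map_mul, ← hH.symm, Complex.conj_natCast]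
    · intro v
      change 0 ≤ ((q : ℂ) * H v v).re
      rw [hqc, Complex.re_ofReal_mul]
      exact mul_nonneg (Nat.cast_nonneg _) (hn v)
    · intro γ hγ v w
      change (q : ℂ) * H _ _ = _
      rw [hinv γ hγ]
    · intro v hv w hw
      obtain ⟨n, hn⟩ := hint _ (mem_frac.1 hv) _ (mem_frac.1 hw)
      refine ⟨n, ?_⟩
      change ((q : ℂ) * H v w).im = 2 * n
      rw [hqc, Complex.im_ofReal_mul, ← hn, ← Complex.coe_smul, ← Complex.coe_smul, hH.smul_left,
        h_smul_right hH, Complex.conj_ofReal, Complex.im_ofReal_mul, Complex.im_ofReal_mul, hq]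
      push_cast
      ring
  obtain ⟨L, hL, hs⟩ := D.bpf hΓ
  refine ⟨2 * N * q, by positivity, L, ?_, hs⟩
  have e1 : (fun v w => ((2 * N * q : ℕ) : ℂ) * H v w)
      = fun v w => (2 * N : ℂ) * ((q : ℂ) * H v w) := by
    funext v w
    push_cast
    ring
  rw [e1]
  exact hL

end Pool.Agent.Y167
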