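import Pool.Agent.Y167.Defs

/-!
# Cones of divisors on quotients of complex tori: definitions used in the statements

The definitions of `Pool.Agent.Y167.Defs` again, for the real vector space `N1 Γ j` as a type of its
own, and groups acting on a cone in a real vector space.
-/

set_option autoImplicit false

namespace Pool.Agent.Y167.CC

open Pool.Agent.W594.SYZ2 Pool.Agent.TH735.AQ

section Actions

variable {W : Type*} [AddCommGroup W] [Module ℝ W]

/-- The groups of linear automorphisms of the real vector space `W`. -/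
abbrev LinGrp (W : Type*) [AddCommGroup W] [Module ℝ W] : Type _ := Subgroup (W ≃ₗ[ℝ] W)

/-- The group `𝒢` maps `A` into itself. -/
def Preserves (𝒢 : LinGrp W) (A : Set W) : Prop := ∀ g ∈ 𝒢, ∀ x ∈ A, g x ∈ A

/-- `P` is a fundamental domain for the action of `𝒢` on `A`: the translates of `P` cover `A`, and a
translate of `P` by `g ≠ 1` does not meet the interior of `P`. -/
def IsFundDomain [TopologicalSpace W] (𝒢 : LinGrp W) (A P : Set W) : Prop :=
  A = ⋃ g ∈ 𝒢, g '' P ∧ ∀ g ∈ 𝒢, g ≠ 1 → interior P ∩ g '' P = ∅

end Actions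

variable {V E : Type*} [NormedAddCommGroup V] [NormedSpace ℂ V]
  [NormedAddCommGroup E] [NormedSpace ℂ E] {Γ : AffGrp V} {j : E →ₗ[ℂ] V}

/-- The space `N^1(X/Z)` of numerical classes with real coefficients: the real vector space spanned
by the classes of line bundles. -/
def N1 (Γ : AffGrp V) (j : E →ₗ[ℂ] V) : Type _ := N1s Γ j

noncomputable instance : AddCommGroup (N1 Γ j) := Submodule.addCommGroup (N1s Γ j)

noncomputable instance : Module ℝ (N1 Γ j) := Submodule.module (N1s Γ j)

noncomputable instance : TopologicalSpace (N1 Γ j) :=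
  instTopologicalSpaceSubtype (p := fun h => h ∈ N1s Γ j)

/-- The hermitian form on `E` which is the class `x`. -/
def form (x : N1 Γ j) : E → E → ℂ := x.1

/-- The integral classes: the classes of line bundles. -/
def integral (Γ : AffGrp V) (j : E →ₗ[ℂ] V) : Set (N1 Γ j) :=
  {x | ∃ L : LineBundle Γ, IsClass j L (form x)}

/-- The rational classes: those which have a positive integral multiple. -/
def rational (Γ : AffGrp V) (j : E →ₗ[ℂ] V) : Set (N1 Γ j) :=
  {x | ∃ n : ℕ, 0 < n ∧ (n : ℝ) • x ∈ integral Γ j}

/-- The nef cone: the positive semidefinite forms. -/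
def nefCone (Γ : AffGrp V) (j : E →ₗ[ℂ] V) : Set (N1 Γ j) := {x | ∀ u, 0 ≤ (form x u u).re}

/-- The classes of effective Cartier divisors: the classes of line bundles which have a section, not
identically zero. -/
def effective (Γ : AffGrp V) (j : E →ₗ[ℂ] V) : Set (N1 Γ j) :=
  {x | ∃ (L : LineBundle Γ) (s : V → ℂ), IsClass j L (form x) ∧ L.IsSection s ∧ ∃ v, s v ≠ 0}

/-- The effective cone: the convex cone spanned by the classes of effective divisors. (It is not
closed in general.) -/
def effCone (Γ : AffGrp V) (j : E →ₗ[ℂ] V) : Set (N1 Γ j) :=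
  {x | ∃ S : Finset (N1 Γ j), ↑S ⊆ effective Γ j ∧ x ∈ cone S}

/-- `g` is the pullback `f^*` on `N^1(X/Z)` by the automorphism of `X` induced by the affine
transformation `f` of `V`. -/
def IsPullback (f : V ≃ᵃ[ℂ] V) (g : N1 Γ j ≃ₗ[ℝ] N1 Γ j) : Prop :=
  ∀ (x : N1 Γ j) (u w u' w' : E), j u' = f.linear (j u) → j w' = f.linear (j w) →
    form (g x) u w = form x u' w'

end Pool.Agent.Y167.CC
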