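import Pool.Agent.Y167.Plus
import Pool.Agent.Y167.Stm

/-!
# The general statement for the type `CC.N1`
-/

set_option autoImplicit false

namespace Pool.Agent.Y167.CC

open Pool.Agent.W594.SYZ2 Pool.Agent.TH735.AQ

variable {V E : Type*} [NormedAddCommGroup V] [NormedSpace ℂ V] [FiniteDimensional ℂ V]
  [NormedAddCommGroup E] [NormedSpace ℂ E] [FiniteDimensional ℂ E] {Γ : AffGrp V}
  {j : E →ₗ[ℂ] V} {H₀ : V → V → ℂ}

/-- The group of integral classes. -/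
noncomputable def intL (Γ : AffGrp V) (j : E →ₗ[ℂ] V) : AddSubgroup (N1 Γ j) :=
  Pool.Agent.Y167.intL Γ j

omit [FiniteDimensional ℂ V] [FiniteDimensional ℂ E] in
theorem mem_intL {x : N1 Γ j} : x ∈ intL Γ j ↔ x ∈ integral Γ j := Iff.rfl

theorem core (R : Rel Γ j H₀) {ι : Type*} [Fintype ι] (Δ : EffDiv Γ ι) (hΔ : NumTrivial Δ j)
    (M : AddSubgroup (N1 Γ j)) {k : ℕ} (hk : 0 < k)
    (hM1 : ∀ x ∈ integral Γ j, (k : ℝ) • x ∈ M) (hM2 : ∀ x ∈ M, (k : ℝ) • x ∈ integral Γ j)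
    (𝒢 : LinGrp (N1 Γ j)) (h𝒢M : ∀ g ∈ 𝒢, ∀ x ∈ M, g x ∈ M)
    (h𝒢N : Preserves 𝒢 (nefCone Γ j ∩ effCone Γ j))
    (h𝒢 : ∀ f : V ≃ᵃ[ℂ] V, Normalizes Γ f → (∀ v, ∃ e, f v = v + j e) →
      (∀ v, Δ.mul (f v) = Δ.mul v) → ∀ g : N1 Γ j ≃ₗ[ℝ] N1 Γ j, IsPullback f g → g ∈ 𝒢) :
    ∃ S : Finset (N1 Γ j), ↑S ⊆ integral Γ j ∧ cone S ⊆ nefCone Γ j ∩ effCone Γ j ∧
      IsFundDomain 𝒢 (nefCone Γ j ∩ effCone Γ j) (cone S) := by
  obtain ⟨S, h1, h2, h3, h4⟩ := Pool.Agent.Y167.core R Δ hΔ M hk hM1 hM2 𝒢 h𝒢M h𝒢N h𝒢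
  refine ⟨S, h1, h2, ?_, fun g hg hg1 => Set.disjoint_iff_inter_eq_empty.1 (h4 g hg hg1)⟩
  refine Set.ext fun x => (h3 x).trans ?_
  simp only [Set.mem_iUnion, Set.mem_image, exists_prop]
  rfl

/-- The same with the lattice of integral classes. -/
theorem core_int (R : Rel Γ j H₀) {ι : Type*} [Fintype ι] (Δ : EffDiv Γ ι) (hΔ : NumTrivial Δ j)
    (𝒢 : LinGrp (N1 Γ j)) (h𝒢M : Preserves 𝒢 (integral Γ j))
    (h𝒢N : Preserves 𝒢 (nefCone Γ j ∩ effCone Γ j))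
    (h𝒢 : ∀ f : V ≃ᵃ[ℂ] V, Normalizes Γ f → (∀ v, ∃ e, f v = v + j e) →
      (∀ v, Δ.mul (f v) = Δ.mul v) → ∀ g : N1 Γ j ≃ₗ[ℝ] N1 Γ j, IsPullback f g → g ∈ 𝒢) :
    ∃ S : Finset (N1 Γ j), ↑S ⊆ integral Γ j ∧ cone S ⊆ nefCone Γ j ∩ effCone Γ j ∧
      IsFundDomain 𝒢 (nefCone Γ j ∩ effCone Γ j) (cone S) :=
  core R Δ hΔ (intL Γ j) one_pos
    (fun x hx => by rw [Nat.cast_one, one_smul]; exact hx)
    (fun x hx => by rw [Nat.cast_one, one_smul]; exact hx) 𝒢 h𝒢M h𝒢N h𝒢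

/-- The cone of nef and effective classes is contained in the cone spanned by a set of classes which
contains the classes of all base point free line bundles. -/
theorem nefEff_sub_span (R : Rel Γ j H₀) {P : Set (N1 Γ j)}
    (hP : ∀ (x : N1 Γ j) (L : LineBundle Γ), IsClass j L (form x) →
      (∀ v, ∃ s, L.IsSection s ∧ s v ≠ 0) → x ∈ P) :
    nefCone Γ j ∩ effCone Γ j ⊆ {x | ∃ S : Finset (N1 Γ j), ↑S ⊆ P ∧ x ∈ cone S} := by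
  classical
  intro x hx
  obtain ⟨T, hT, hxT⟩ := (mem_Cp_iff' R x).2 hx
  have h1 : ∀ a ∈ T, ∃ m : ℕ, 0 < m ∧ (m : ℝ) • (a : N1 Γ j) ∈ P := by
    intro a ha
    obtain ⟨m, hm, L, hL, hs⟩ := exists_eff R (hT a ha).1 (hT a ha).2
    exact ⟨m, hm, hP _ L hL hs⟩
  choose! m hm1 hm2 using h1
  refine ⟨Finset.image (fun a : N1 Γ j => (m a : ℝ) • a) T, ?_, ?_⟩
  · intro a ha
    obtain ⟨b, hb, rfl⟩ := Finset.mem_image.1 (Finset.mem_coe.1 ha)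
    exact hm2 b hb
  · refine cone_le (S := T) (fun a ha => ?_) hxT
    have hmr : (0 : ℝ) < m a := by exact_mod_cast hm1 a ha
    exact cone_of_scaled hmr (Finset.mem_image_of_mem (fun a : N1 Γ j => (m a : ℝ) • a) ha)

omit [FiniteDimensional ℂ E] in
/-- Effective classes are nef. -/
theorem eff_nef (hΓ : IsTorusQuotient Γ) : effCone Γ j ⊆ nefCone Γ j :=
  fun _ hx => Pool.Agent.Y167.eff_nef hΓ hx

theorem nef_plus (R : Rel Γ j H₀) : nefCone Γ j ∩ effCone Γ j =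
    convexHull ℝ (nefCone Γ j ∩ rational Γ j) :=
  Pool.Agent.Y167.nef_plus R

/-- The faces of the cone of nef and effective classes form finitely many orbits. -/
theorem finite_faces (𝒢 : LinGrp (N1 Γ j)) (R : Rel Γ j H₀)
    (h𝒢N : Preserves 𝒢 (nefCone Γ j ∩ effCone Γ j))
    {S : Finset (N1 Γ j)} (hS : cone S ⊆ nefCone Γ j ∩ effCone Γ j)
    (hcov : IsFundDomain 𝒢 (nefCone Γ j ∩ effCone Γ j) (cone S)) :
    ∃ 𝓕 : Set (Set (N1 Γ j)), 𝓕.Finite ∧ (∀ F ∈ 𝓕, IsFace F (nefCone Γ j ∩ effCone Γ j)) ∧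
      ∀ F, IsFace F (nefCone Γ j ∩ effCone Γ j) → ∃ g ∈ 𝒢, ∃ F' ∈ 𝓕, F = g '' F' := by
  have : FiniteDimensional ℝ (N1 Γ j) := finDim_N1 R
  refine Pool.Agent.Y167.finite_faces (A := nefCone Γ j ∩ effCone Γ j)
    (Pool.Agent.Y167.nefEff_add (Γ := Γ) (j := j)) (Pool.Agent.Y167.nefEff_smul (Γ := Γ) (j := j))
    𝒢 h𝒢N hS fun x hx => ?_
  rw [hcov.1] at hx
  simp only [Set.mem_iUnion, Set.mem_image, exists_prop] at hx
  exact hx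

end Pool.Agent.Y167.CC
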