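import Pool.Agent.Y167.Data

/-!
# The data for the fundamental domain
-/

set_option autoImplicit false

namespace Pool.Agent.Y167

open Finset Filter Topology
open Pool.Agent.W594.SYZ2 Pool.Agent.W594.SYZ2.TQ Pool.Agent.TH735.AQ Pool.Agent.TH128.SYZ

variable {V E : Type*} [NormedAddCommGroup V] [NormedSpace ℂ V] [FiniteDimensional ℂ V]
  [NormedAddCommGroup E] [NormedSpace ℂ E] [FiniteDimensional ℂ E] {Γ : Subgroup (V ≃ᵃ[ℂ] V)}
  {j : E →ₗ[ℂ] V} {H₀ : V → V → ℂ}

omit [FiniteDimensional ℂ V] [FiniteDimensional ℂ E] in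
/-- The class of the ample line bundle. -/
theorem exists_ample (R : Rel Γ j H₀) : ∃ y : N1 Γ j, Integral y ∧
    ∀ u w, y.1 u w = H₀ (j u) (j w) := by
  obtain ⟨L, hL⟩ := R.chern
  obtain ⟨y, hy, hy'⟩ := exists_int (j := j) (L := L) (h := fun u w => H₀ (j u) (j w))
    ⟨H₀, hL, fun _ _ => rfl⟩
  exact ⟨y, hy', fun u w => by rw [hy]⟩

omit [FiniteDimensional ℂ E] in
theorem herm_of_span {Λ : AddSubgroup E} {G : Set (Module.End ℂ E)} {x : E → E → ℂ}
    (hx : x ∈ Submodule.span ℝ {z | Pol.IsInt Λ G z}) : IsHermitian x := by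
  induction hx using Submodule.span_induction with
  | mem z hz => exact hz.herm
  | zero => exact ⟨fun _ _ _ => by simp, fun _ _ _ => by simp, fun _ _ => by simp⟩
  | add z z' _ _ h1 h2 =>
    refine ⟨fun u v w => ?_, fun c v w => ?_, fun v w => ?_⟩
    · simp only [Pi.add_apply]
      rw [h1.add_left, h2.add_left]
      ring
    · simp only [Pi.add_apply]
      rw [h1.smul_left, h2.smul_left]
      ring
    · simp only [Pi.add_apply]
      rw [map_add, ← h1.symm, ← h2.symm]
  | smul c z _ h1 =>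
    refine ⟨fun u v w => ?_, fun c' v w => ?_, fun v w => ?_⟩
    · simp only [Pi.smul_apply, Complex.real_smul]
      rw [h1.add_left]
      ring
    · simp only [Pi.smul_apply, Complex.real_smul]
      rw [h1.smul_left]
      ring
    · simp only [Pi.smul_apply, Complex.real_smul]
      rw [map_mul, Complex.conj_ofReal, ← h1.symm]

theorem exists_cdata (R : Rel Γ j H₀) (M : AddSubgroup (N1 Γ j)) {k : ℕ} (hk : 0 < k)
    (hM1 : ∀ x, Integral x → (k : ℝ) • x ∈ M) (hM2 : ∀ x ∈ M, Integral ((k : ℝ) • x)) :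
    ∃ (ξ₀ : N1 Γ j →ₗ[ℝ] ℝ) (y₀ : N1 Γ j) (Y : Finset (N1 Γ j)),
      CData M (nefCone Γ j) ξ₀ y₀ Y ∧ ∀ u w, y₀.1 u w = k * H₀ (j u) (j w) := by
  classical
  obtain ⟨d, b, P⟩ := R.pol
  obtain ⟨r, S, hS1, hS2, hS3⟩ := P.exists_S
  obtain ⟨op, hop, hopst⟩ := exists_opN R P
  obtain ⟨N, hN, hNo⟩ := P.ord_of_int
  obtain ⟨y₁, hy₁, hy₁'⟩ := exists_ample R
  have hkr : (0 : ℝ) < k := by exact_mod_cast hk
  have hNr : (0 : ℝ) < N := by exact_mod_cast hN
  have hSN : (0 : ℝ) < S.N := by exact_mod_cast S.N_pos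
  have hopinj : Function.Injective op := by
    rw [injective_iff_map_eq_zero]
    intro x hx
    apply Subtype.ext
    funext u w
    rw [hop, hx]
    change H₀ (j 0) (j w) = 0
    rw [map_zero, h_zero_left R.herm]
  have hpsd : ∀ x ∈ nefCone Γ j, S.Psd (op x) := by
    intro x hx
    refine P.psd_of hS1 hS3 (hopst x) fun u => ?_
    rw [← hop]
    exact hx u
  have hof : ∀ x, S.Psd (op x) → x ∈ nefCone Γ j := by
    intro x hx u
    rw [hop]
    exact P.of_psd hS1 hx u
  have hR : ∀ x, Integral x → (N : ℝ) • op x ∈ S.R := by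
    intro x hx
    have h1 := isInt_of_integral R hx
    rw [hS2, P.mem_R]
    exact hNo (op x).1 (fun g hg u w => by rw [← hop, ← hop, h1.inv g hg])
      (fun u hu w hw => by rw [← hop]; exact h1.int u hu w hw)
  set ξ₀ : N1 Γ j →ₗ[ℝ] ℝ := ((k : ℝ) * N) • (S.tr ∘ₗ op) with hξ₀
  have hξ : ∀ x, ξ₀ x = S.tr ((N : ℝ) • op ((k : ℝ) • x)) := by
    intro x
    rw [hξ₀, LinearMap.smul_apply, LinearMap.comp_apply, map_smul, map_smul, map_smul,
      smul_eq_mul, smul_eq_mul, smul_eq_mul]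
    ring
  have hξ' : ∀ x, ξ₀ x = (k * N) * S.tr (op x) := fun x => rfl
  have hsa : ∀ x, S.st (op x) = op x := fun x => by rw [hS1, hopst]
  have hdom1 : ∀ v : P.alg, S.st v = v → ∃ C : ℝ, 0 < C ∧ S.Psd (C • 1 - v) := fun v hv =>
    (Sys.pd_one (S := S)).dominate hv
  have hfinN : FiniteDimensional ℝ (N1 Γ j) := by
    have : Module.Finite ℝ P.alg := Module.Finite.of_basis S.bas
    exact Module.Finite.of_injective op hopinj
  -- the interior point
  have hyN : ∀ x : N1 Γ j, ∃ C : ℝ, 0 < C ∧ C • ((k : ℝ) • y₁) - x ∈ nefCone Γ j := by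
    intro x
    obtain ⟨C, hC, h1⟩ := hdom1 (op x) (hsa x)
    refine ⟨C / k, by positivity, fun u => ?_⟩
    have h2 := P.of_psd hS1 h1 u
    change 0 ≤ (H₀ (j (C • u - (op x).1 u)) (j u)).re at h2
    change 0 ≤ ((C / k) • ((k : ℝ) • y₁.1 u u) - x.1 u u).re
    rw [map_sub, h_sub_left R.herm, Complex.sub_re, ← hop] at h2
    have h3 : (H₀ (j (C • u)) (j u)).re = C * (H₀ (j u) (j u)).re := by
      rw [← Complex.coe_smul, map_smul, R.herm.smul_left, Complex.re_ofReal_mul]
    rw [h3] at h2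
    rw [Complex.sub_re, smul_smul, Complex.smul_re, hy₁', smul_eq_mul]
    have h4 : C / k * k = C := by field_simp
    rw [h4]
    exact h2
  -- the spanning set
  obtain ⟨t, ht, htspan, htli⟩ := exists_linearIndependent ℝ (intL Γ j : Set (N1 Γ j))
  have htfin : t.Finite := htli.setFinite
  have hchoose : ∀ x : N1 Γ j, ∃ n : ℕ, (n : ℝ) • ((k : ℝ) • y₁) - (k : ℝ) • x ∈ nefCone Γ j := by
    intro x
    obtain ⟨C, hC, h1⟩ := hyN ((k : ℝ) • x)
    refine ⟨⌈C⌉₊, ?_⟩
    have h2 : ((⌈C⌉₊ : ℝ) - C) • ((k : ℝ) • y₁) ∈ nefCone Γ j := by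
      refine nef_smul (sub_nonneg.2 (Nat.le_ceil C)) (nef_smul hkr.le fun u => ?_)
      rw [hy₁']
      by_cases hu : j u = 0
      · rw [hu, h_zero_left R.herm]
        simp
      · exact (R.pos _ hu).le
    have h3 := nef_add h2 h1
    have h4 : ((⌈C⌉₊ : ℝ) - C) • ((k : ℝ) • y₁) + (C • ((k : ℝ) • y₁) - (k : ℝ) • x)
        = (⌈C⌉₊ : ℝ) • ((k : ℝ) • y₁) - (k : ℝ) • x := by
      module
    rwa [h4] at h3
  choose nf hnf using hchoose
  have hy₁nef : y₁ ∈ nefCone Γ j := by
    intro u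
    rw [hy₁']
    by_cases hu : j u = 0
    · rw [hu, h_zero_left R.herm]
      simp
    · exact (R.pos _ hu).le
  refine ⟨ξ₀, (k : ℝ) • y₁, insert ((k : ℝ) • y₁)
    (htfin.toFinset.image fun x => (nf x : ℝ) • ((k : ℝ) • y₁) - (k : ℝ) • x), ?_, ?_⟩
  swap
  · intro u w
    change (k : ℝ) • y₁.1 u w = _
    rw [hy₁', Complex.real_smul, Complex.ofReal_natCast]
  refine
    { add := fun x hx y hy => nef_add hx hy
      smul := fun t ht x hx => nef_smul ht hx
      xi_int := fun x hx => ?_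
      xi_pos := fun x hx hx0 => ?_
      fin := fun C => ?_
      y_L := hM1 _ hy₁
      y_N := nef_smul hkr.le hy₁nef
      y_int := hyN
      dom := fun η => ?_
      sep := fun x hx => ?_
      Y_mem := fun y hy => ?_
      Y_span := fun φ hφ => ?_ }
  · rw [hξ]
    exact S.tr_int (hR _ (hM2 x hx))
  · rw [hξ']
    have h1 := (hpsd x hx).tr_pos (fun h => hx0 (hopinj (by rw [h, map_zero])))
    positivity
  · refine Set.Finite.of_finite_image (f := fun x => (S.N : ℝ) • ((N : ℝ) • op ((k : ℝ) • x)))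
      ((S.int_finite (S.N * C)).subset ?_) ?_
    · rintro _ ⟨x, ⟨hxM, hxN, hxC⟩, rfl⟩
      have h1 := hR _ (hM2 x hxM)
      refine ⟨?_, ?_, ?_⟩
      · exact ((hpsd _ (nef_smul hkr.le hxN)).smul hNr.le).smul hSN.le
      · intro y hy z hz
        have h2 := S.tr_int (S.R.mul_mem (S.R.mul_mem (S.N_st y hy) h1) hz)
        obtain ⟨n, hn⟩ := h2
        refine ⟨n, ?_⟩
        rw [← hn, mul_smul_comm, smul_mul_assoc, smul_mul_assoc, smul_mul_assoc]
      · rw [map_smul, smul_eq_mul, ← hξ]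
        exact mul_le_mul_of_nonneg_left hxC hSN.le
    · rintro x - y - hxy
      have h1 : (S.N : ℝ) • ((N : ℝ) • op ((k : ℝ) • x)) = (S.N : ℝ) • ((N : ℝ) • op ((k : ℝ) • y)) :=
        hxy
      have h2 := smul_right_injective P.alg hSN.ne' h1
      have h3 := smul_right_injective P.alg hNr.ne' h2
      exact smul_right_injective (N1 Γ j) hkr.ne' (hopinj h3)
  · obtain ⟨g, hg⟩ := LinearMap.exists_leftInverse_of_injective op
      (LinearMap.ker_eq_bot.2 hopinj)
    obtain ⟨v, hv, hφ⟩ := S.riesz (η ∘ₗ g)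
    have hηx : ∀ x, η x = S.tr (op x * v) := by
      intro x
      rw [← hφ (op x) (hsa x)]
      have h1 : g (op x) = x := LinearMap.congr_fun hg x
      rw [LinearMap.comp_apply, h1]
    obtain ⟨C₁, hC₁, h1⟩ := hdom1 v hv
    obtain ⟨C₂, hC₂, h2⟩ := hdom1 (-v) (by rw [map_neg, hv])
    refine ⟨(C₁ + C₂) / (k * N), fun x hx => ?_⟩
    have hpx := hpsd x hx
    have h3 := Sys.tr_mul_nonneg hpx h1
    have h4 := Sys.tr_mul_nonneg hpx h2
    rw [mul_sub, mul_smul_comm, mul_one, map_sub, map_smul, smul_eq_mul] at h3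
    have h7 : op x * -v = -(op x * v) := Subtype.ext (mul_neg (op x).1 v.1)
    rw [mul_sub, mul_smul_comm, mul_one, map_sub, map_smul, smul_eq_mul, h7, map_neg] at h4
    have h5 := hpx.tr_nonneg
    have h6 : (C₁ + C₂) / (k * N) * ξ₀ x = (C₁ + C₂) * S.tr (op x) := by
      rw [hξ']
      field_simp
    rw [h6, hηx, abs_le]
    constructor <;> nlinarith
  · -- separation
    have hherm : IsHermitian x.1 := herm_of_span (mem_span_int R x)
    have hex : ∃ i l, (x.1 (b i) (b l)).im ≠ 0 := by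
      by_contra hcon
      push Not at hcon
      apply hx
      let L : E →ₗ[ℝ] E →ₗ[ℝ] ℝ := LinearMap.mk₂ ℝ (fun u w => (x.1 u w).im)
        (fun u u' w => by rw [hherm.add_left, Complex.add_im])
        (fun c u w => by
          rw [← Complex.coe_smul, hherm.smul_left, Complex.im_ofReal_mul, smul_eq_mul])
        (fun u w w' => by rw [h_add_right hherm, Complex.add_im])
        (fun c u w => by
          rw [← Complex.coe_smul, h_smul_right hherm, Complex.conj_ofReal, Complex.im_ofReal_mul,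
            smul_eq_mul])
      have hL : L = 0 := by
        refine b.ext fun i => b.ext fun l => ?_
        exact hcon i l
      have hL' : ∀ u w, (x.1 u w).im = 0 := fun u w =>
        LinearMap.congr_fun (LinearMap.congr_fun hL u) w
      apply Subtype.ext
      funext u w
      apply Complex.ext
      · have h1 := hL' (Complex.I • u) w
        rw [hherm.smul_left] at h1
        simpa using h1
      · exact hL' u w
    obtain ⟨i, l, hil⟩ := hex
    refine ⟨{ toFun := fun y => k * (y.1 (b i) (b l)).im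
              map_add' := fun y z => by
                change k * (y.1 (b i) (b l) + z.1 (b i) (b l)).im = _
                rw [Complex.add_im]
                ring
              map_smul' := fun c y => by
                change k * (c • y.1 (b i) (b l)).im = _
                rw [Complex.smul_im, smul_eq_mul, RingHom.id_apply, smul_eq_mul]
                ring }, fun y hy => ?_, mul_ne_zero hkr.ne' hil⟩
    obtain ⟨n, hn⟩ := (isInt_of_integral R (hM2 y hy)).int _ (P.b_mem i) _ (P.b_mem l)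
    refine ⟨n, ?_⟩
    rw [← hn]
    change k * (y.1 (b i) (b l)).im = ((k : ℝ) • y.1 (b i) (b l)).im
    rw [Complex.smul_im, smul_eq_mul]
  · rcases Finset.mem_insert.1 hy with rfl | h
    · exact ⟨hM1 _ hy₁, nef_smul hkr.le hy₁nef⟩
    · obtain ⟨x, hx, rfl⟩ := Finset.mem_image.1 h
      rw [htfin.mem_toFinset] at hx
      refine ⟨M.sub_mem ?_ (hM1 x (ht hx)), hnf x⟩
      rw [Nat.cast_smul_eq_nsmul]
      exact M.nsmul_mem (hM1 _ hy₁) _
  · have h0 : φ ((k : ℝ) • y₁) = 0 := hφ _ (Finset.mem_insert_self _ _)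
    have h1 : ∀ x ∈ t, φ x = 0 := by
      intro x hx
      have h2 := hφ ((nf x : ℝ) • ((k : ℝ) • y₁) - (k : ℝ) • x)
        (Finset.mem_insert_of_mem (Finset.mem_image_of_mem _ (htfin.mem_toFinset.2 hx)))
      rw [map_sub, map_smul φ (nf x : ℝ), h0, smul_zero, zero_sub, neg_eq_zero, map_smul] at h2
      exact (smul_eq_zero.1 h2).resolve_left hkr.ne'
    have h2 : (⊤ : Submodule ℝ (N1 Γ j)) ≤ LinearMap.ker φ := by
      rw [← span_intL, ← htspan, Submodule.span_le]
      intro x hx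
      exact h1 x hx
    exact LinearMap.ker_eq_top.1 (top_le_iff.1 h2)

end Pool.Agent.Y167
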