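import Pool.Agent.Y167.Min

/-!
# Finiteness of the classes of integral positive definite elements of bounded determinant
-/

set_option autoImplicit false

namespace Pool.Agent.Y167

open Matrix Finset

variable {A : Type*} [Ring A] [Algebra ℝ A] {r : ℕ}

theorem exists_reps {α β : Type*} (D : α → β) (h : (Set.range D).Finite) :
    ∃ F : Set α, F.Finite ∧ ∀ a, ∃ f ∈ F, D f = D a := by
  classical
  have : Finite (Set.range D) := h
  choose g hg using fun d : Set.range D => d.2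
  refine ⟨Set.range g, Set.finite_range g, fun a => ⟨g ⟨D a, a, rfl⟩, ⟨_, rfl⟩, hg _⟩⟩

/-- Cauchy-Schwarz for a positive semidefinite matrix. -/
theorem cs {P : Matrix (Fin r) (Fin r) ℝ} (hP : P.PosSemidef) (x y : Fin r → ℝ) :
    (x ⬝ᵥ (P *ᵥ y)) ^ 2 ≤ (x ⬝ᵥ (P *ᵥ x)) * (y ⬝ᵥ (P *ᵥ y)) := by
  obtain ⟨C, rfl⟩ := psd_factor hP
  have h : ∀ x y : Fin r → ℝ, x ⬝ᵥ ((Cᵀ * C) *ᵥ y) = (C *ᵥ x) ⬝ᵥ (C *ᵥ y) := by
    intro x y
    rw [← mulVec_mulVec, dotProduct_mulVec x Cᵀ, vecMul_transpose]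
  rw [h, h, h]
  have := Finset.sum_mul_sq_le_sq_mul_sq univ (C *ᵥ x) (C *ᵥ y)
  simpa [dotProduct, sq] using this

theorem cancel_left {X P Q : Matrix (Fin r) (Fin r) ℤ} (hX : X.det ≠ 0) (h : X * P = X * Q) :
    P = Q := by
  have h1 : X.adjugate * (X * P) = X.adjugate * (X * Q) := by rw [h]
  rw [← Matrix.mul_assoc, ← Matrix.mul_assoc, adjugate_mul, smul_mul, smul_mul, Matrix.one_mul,
    Matrix.one_mul] at h1
  exact smul_right_injective _ hX h1

theorem cancel_right {X P Q : Matrix (Fin r) (Fin r) ℤ} (hX : X.det ≠ 0) (h : P * X = Q * X) :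
    P = Q := by
  have h1 : P * X * X.adjugate = Q * X * X.adjugate := by rw [h]
  rw [Matrix.mul_assoc, Matrix.mul_assoc, mul_adjugate, Matrix.mul_smul, Matrix.mul_smul,
    Matrix.mul_one, Matrix.mul_one] at h1
  exact smul_right_injective _ hX h1

/-- The change of frames. -/
theorem frames {X X' : Matrix (Fin r) (Fin r) ℤ} (hX : X.det ≠ 0) (hd : X'.det = X.det)
    (hW : ∀ i j, X'.adjugate i j % X.det = X.adjugate i j % X.det) :
    ∃ U U' : Matrix (Fin r) (Fin r) ℤ, X * U = X' ∧ X' * U' = X ∧ U * U' = 1 ∧ U' * U = 1 := by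
  have h1 : ∀ i j, ∃ y : ℤ, X.adjugate i j = X'.adjugate i j + X.det * y := by
    intro i j
    have h2 := Int.emod_emod_of_dvd
    have h3 : X.det ∣ X.adjugate i j - X'.adjugate i j := Int.ModEq.dvd (hW i j)
    obtain ⟨y, hy⟩ := h3
    exact ⟨y, by rw [← hy]; ring⟩
  choose y hy using h1
  let Y : Matrix (Fin r) (Fin r) ℤ := Matrix.of y
  have hY : X.adjugate = X'.adjugate + X.det • Y := by
    ext i j
    rw [Matrix.add_apply, Matrix.smul_apply, hy i j]
    rfl
  have hXU : X * (1 + Y * X') = X' := by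
    apply smul_right_injective _ hX
    change X.det • (X * (1 + Y * X')) = X.det • X'
    have e1 : X * X.adjugate = X * X'.adjugate + X.det • (X * Y) := by
      conv_lhs => rw [hY, Matrix.mul_add, Matrix.mul_smul]
    have e2 : X.det • (X * Y) = X.det • (1 : Matrix (Fin r) (Fin r) ℤ) - X * X'.adjugate := by
      rw [mul_adjugate] at e1
      rw [e1]
      abel
    have e3 : X.det • (X * (1 + Y * X')) = X.det • X + (X.det • (X * Y)) * X' := by
      rw [Matrix.mul_add, Matrix.mul_one, smul_add, ← Matrix.mul_assoc, Matrix.smul_mul]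
    rw [e3, e2, Matrix.sub_mul, Matrix.smul_mul, Matrix.one_mul, Matrix.mul_assoc, adjugate_mul,
      hd, Matrix.mul_smul, Matrix.mul_one]
    abel
  have hX' : X'.det ≠ 0 := by rw [hd]; exact hX
  have hXU' : X' * (1 - Y * X) = X := by
    apply smul_right_injective _ hX
    change X.det • (X' * (1 - Y * X)) = X.det • X
    have e1 : X' * X.adjugate = X' * X'.adjugate + X.det • (X' * Y) := by
      conv_lhs => rw [hY, Matrix.mul_add, Matrix.mul_smul]
    have e2 : X.det • (X' * Y) = X' * X.adjugate - X.det • (1 : Matrix (Fin r) (Fin r) ℤ) := by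
      rw [mul_adjugate, hd] at e1
      rw [e1]
      abel
    have e3 : X.det • (X' * (1 - Y * X)) = X.det • X' - (X.det • (X' * Y)) * X := by
      rw [Matrix.mul_sub, Matrix.mul_one, smul_sub, ← Matrix.mul_assoc, Matrix.smul_mul]
    rw [e3, e2, Matrix.sub_mul, Matrix.smul_mul, Matrix.one_mul, Matrix.mul_assoc, adjugate_mul,
      Matrix.mul_smul, Matrix.mul_one]
    abel
  refine ⟨1 + Y * X', 1 - Y * X, hXU, hXU', ?_, ?_⟩
  · apply cancel_left hX
    rw [← Matrix.mul_assoc, hXU, hXU', Matrix.mul_one]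
  · apply cancel_left hX'
    rw [← Matrix.mul_assoc, hXU', hXU, Matrix.mul_one]

theorem commute_of_eq {X X' U ρ : Matrix (Fin r) (Fin r) ℤ} (hX : X.det ≠ 0) (hd : X'.det = X.det)
    (hU : X * U = X') (h : X * ρ * X.adjugate = X' * ρ * X'.adjugate) : U * ρ = ρ * U := by
  apply cancel_left hX
  apply smul_right_injective _ hX
  change X.det • (X * (U * ρ)) = X.det • (X * (ρ * U))
  have e1 : X.det • (X * (U * ρ)) = X' * ρ * (X'.adjugate * X') := by
    rw [adjugate_mul, hd, Matrix.mul_smul, Matrix.mul_one, ← Matrix.mul_assoc, hU]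
  have e2 : X.det • (X * (ρ * U)) = X * ρ * X.adjugate * X' := by
    rw [← hU, Matrix.mul_assoc (X * ρ), ← Matrix.mul_assoc X.adjugate, adjugate_mul,
      Matrix.smul_mul, Matrix.one_mul, Matrix.mul_smul, Matrix.mul_assoc]
  rw [e1, e2, h, Matrix.mul_assoc (X' * ρ)]

namespace Sys

variable {S : Sys A r}

theorem gram_inj {a b : A} (hab : S.gram a = S.gram b) : a = b := by
  apply S.mat_inj
  have hB := S.B_isUnit
  have hBt : IsUnit S.Bᵀ := by rwa [isUnit_transpose]
  have h1 : S.Bᵀ * (S.mat a * S.B) = S.Bᵀ * (S.mat b * S.B) := by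
    simpa only [gram, Matrix.mul_assoc] using hab
  have h2 := hBt.mul_left_cancel h1
  exact hB.mul_right_cancel h2

/-- Structure constants of the multiplication from the right by `bas k`. -/
theorem exists_rho (S : Sys A r) : ∃ ρ : Fin r → Matrix (Fin r) (Fin r) ℤ,
    ∀ k a, S.bas.equivFun (a * S.bas k) =
      (S.bas.equivFun a) ᵥ* ((ρ k).map (fun z : ℤ => (z : ℝ))) := by
  have h : ∀ k i j, ∃ n : ℤ, S.bas.repr (S.bas i * S.bas k) j = n := fun k i j =>
    (S.mem_R _).1 (S.R.mul_mem (S.bas_mem i) (S.bas_mem k)) j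
  choose n hn using h
  refine ⟨fun k => Matrix.of fun i j => n k i j, fun k a => ?_⟩
  have h1 : a * S.bas k = ∑ i, S.bas.equivFun a i • (S.bas i * S.bas k) := by
    conv_lhs => rw [← S.bas.sum_equivFun a]
    rw [Finset.sum_mul]
    simp only [smul_mul_assoc]
  rw [h1, map_sum]
  ext j
  simp only [map_smul, Finset.sum_apply, Pi.smul_apply, smul_eq_mul, vecMul, dotProduct,
    Matrix.map_apply, of_apply]
  refine Finset.sum_congr rfl fun i _ => ?_
  rw [← hn k i j]
  rfl

/-- The endomorphism of `A` given by an integral matrix which commutes with the right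
multiplications is the left multiplication by an element of `R`. -/
theorem left_mult {ρ : Fin r → Matrix (Fin r) (Fin r) ℤ}
    (hρ : ∀ k a, S.bas.equivFun (a * S.bas k) =
      (S.bas.equivFun a) ᵥ* ((ρ k).map (fun z : ℤ => (z : ℝ))))
    {U : Matrix (Fin r) (Fin r) ℤ} (hU : ∀ k, U * ρ k = ρ k * U) :
    ∃ u ∈ S.R, ∀ a, S.bas.equivFun (u * a) =
      (S.bas.equivFun a) ᵥ* (U.map (fun z : ℤ => (z : ℝ))) := by
  let Ur : Matrix (Fin r) (Fin r) ℝ := U.map (fun z : ℤ => (z : ℝ))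
  let φ : A →ₗ[ℝ] A := (S.bas.equivFun.symm.toLinearMap.comp (Matrix.vecMulLinear Ur)).comp
    S.bas.equivFun.toLinearMap
  have hφ : ∀ a, S.bas.equivFun (φ a) = S.bas.equivFun a ᵥ* Ur := by
    intro a
    change S.bas.equivFun (S.bas.equivFun.symm ((S.bas.equivFun a) ᵥ* Ur)) = _
    rw [LinearEquiv.apply_symm_apply]
  have hmap : ∀ P Q : Matrix (Fin r) (Fin r) ℤ, (P * Q).map (fun z : ℤ => (z : ℝ)) =
      P.map (fun z : ℤ => (z : ℝ)) * Q.map (fun z : ℤ => (z : ℝ)) := by
    intro P Q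
    exact Matrix.map_mul (f := Int.castRingHom ℝ)
  have h1 : ∀ k a, φ (a * S.bas k) = φ a * S.bas k := by
    intro k a
    apply S.bas.equivFun.injective
    rw [hφ, hρ, hρ, hφ, vecMul_vecMul, vecMul_vecMul, ← hmap, ← hmap, hU k]
  have h2 : ∀ a y, φ (a * y) = φ a * y := by
    intro a y
    rw [← S.bas.sum_equivFun y, Finset.mul_sum, Finset.mul_sum, map_sum]
    refine Finset.sum_congr rfl fun k _ => ?_
    rw [mul_smul_comm, map_smul, h1, mul_smul_comm]
  have h3 : ∀ a, φ a = φ 1 * a := by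
    intro a
    rw [← h2, one_mul]
  refine ⟨φ 1, ?_, fun a => by rw [← h3, hφ]⟩
  rw [S.mem_R]
  intro j
  have h4 : ∀ i, ∃ n : ℤ, S.bas.repr 1 i = n := (S.mem_R 1).1 S.R.one_mem
  choose n hn using h4
  refine ⟨∑ i, n i * U i j, ?_⟩
  have h5 : S.bas.repr (φ 1) j = S.bas.equivFun (φ 1) j := rfl
  rw [h5, hφ]
  simp only [vecMul, dotProduct, Ur, Matrix.map_apply]
  push_cast
  refine Finset.sum_congr rfl fun i _ => ?_
  rw [← hn i]
  rfl

/-- The integral Gram matrix. -/
theorem exists_gram {a : A} (ha : S.Int a) : ∃ G : Matrix (Fin r) (Fin r) ℤ,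
    S.gram a = G.map (fun z : ℤ => (z : ℝ)) := by
  choose n hn using fun i j => ha.gram i j
  exact ⟨Matrix.of n, by ext i j; rw [hn]; rfl⟩

/-- The comparison of two elements with the same data. -/
theorem compare {ρ : Fin r → Matrix (Fin r) (Fin r) ℤ}
    (hρ : ∀ k a, S.bas.equivFun (a * S.bas k) =
      (S.bas.equivFun a) ᵥ* ((ρ k).map (fun z : ℤ => (z : ℝ))))
    {s s' : A} {G G' X X' : Matrix (Fin r) (Fin r) ℤ}
    (hG : S.gram s = G.map (fun z : ℤ => (z : ℝ)))
    (hG' : S.gram s' = G'.map (fun z : ℤ => (z : ℝ)))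
    (hX : X.det ≠ 0) (hd : X'.det = X.det)
    (hW : ∀ i j, X'.adjugate i j % X.det = X.adjugate i j % X.det)
    (hZ : ∀ k, X * ρ k * X.adjugate = X' * ρ k * X'.adjugate)
    (hT : X * G * Xᵀ = X' * G' * X'ᵀ) :
    ∃ u ∈ S.R, ∃ v ∈ S.R, u * v = 1 ∧ v * u = 1 ∧ s = S.st u * s' * u := by
  obtain ⟨U, U', hU, hU', hUU', hU'U⟩ := frames hX hd hW
  have hX' : X'.det ≠ 0 := by rw [hd]; exact hX
  have hc : ∀ k, U * ρ k = ρ k * U := fun k => commute_of_eq hX hd hU (hZ k)
  have hc' : ∀ k, U' * ρ k = ρ k * U' := fun k => commute_of_eq hX' hd.symm hU' (hZ k).symm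
  obtain ⟨u, huR, hu⟩ := left_mult hρ hc
  obtain ⟨v, hvR, hv⟩ := left_mult hρ hc'
  have hmap : ∀ P Q : Matrix (Fin r) (Fin r) ℤ, (P * Q).map (fun z : ℤ => (z : ℝ)) =
      P.map (fun z : ℤ => (z : ℝ)) * Q.map (fun z : ℤ => (z : ℝ)) := by
    intro P Q
    exact Matrix.map_mul (f := Int.castRingHom ℝ)
  have hone : (1 : Matrix (Fin r) (Fin r) ℤ).map (fun z : ℤ => (z : ℝ)) = 1 :=
    Matrix.map_one _ (by simp) (by simp)
  refine ⟨u, huR, v, hvR, ?_, ?_, ?_⟩
  · have h1 : u * (v * 1) = 1 := by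
      apply S.bas.equivFun.injective
      rw [hu, hv, vecMul_vecMul, ← hmap, hU'U, hone, vecMul_one]
    rwa [mul_one] at h1
  · have h1 : v * (u * 1) = 1 := by
      apply S.bas.equivFun.injective
      rw [hv, hu, vecMul_vecMul, ← hmap, hUU', hone, vecMul_one]
    rwa [mul_one] at h1
  · have hGU : G = U * G' * Uᵀ := by
      apply cancel_left hX
      have hXt : (Xᵀ).det ≠ 0 := by rwa [det_transpose]
      apply cancel_right hXt
      rw [hT, ← hU, transpose_mul]
      simp only [Matrix.mul_assoc]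
    apply gram_inj
    have key : ∀ x y : Fin r → ℝ, x ⬝ᵥ (S.gram s *ᵥ y) =
        x ⬝ᵥ (S.gram (S.st u * s' * u) *ᵥ y) := by
      intro x y
      rw [S.gram_dot (S.st u * s' * u)]
      have h2 : S.tr (S.st (S.bas.equivFun.symm x) * (S.st u * s' * u) * S.bas.equivFun.symm y)
          = S.tr (S.st (u * S.bas.equivFun.symm x) * s' * (u * S.bas.equivFun.symm y)) := by
        rw [S.st_mul]
        simp only [mul_assoc]
      have h3 : u * S.bas.equivFun.symm x =
          S.bas.equivFun.symm (x ᵥ* (U.map (fun z : ℤ => (z : ℝ)))) := by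
        rw [LinearEquiv.eq_symm_apply, hu, LinearEquiv.apply_symm_apply]
      have h4 : u * S.bas.equivFun.symm y =
          S.bas.equivFun.symm (y ᵥ* (U.map (fun z : ℤ => (z : ℝ)))) := by
        rw [LinearEquiv.eq_symm_apply, hu, LinearEquiv.apply_symm_apply]
      rw [h2, h3, h4, ← S.gram_dot, hG, hG', hGU, hmap, hmap]
      have h5 : (Uᵀ).map (fun z : ℤ => (z : ℝ)) = (U.map (fun z : ℤ => (z : ℝ)))ᵀ := rfl
      rw [h5, ← mulVec_mulVec, ← mulVec_mulVec, mulVec_transpose, dotProduct_mulVec x]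
    ext i j
    have := key (Pi.single i 1) (Pi.single j 1)
    simpa using this

end Sys

end Pool.Agent.Y167
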