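import Pool.Agent.Y167.ConeDef

/-!
# Finitely generated cones
-/

set_option autoImplicit false

namespace Pool.Agent.Y167

open Finset Filter Topology

variable {W : Type*} [AddCommGroup W] [Module ℝ W]

theorem zero_mem_cone (S : Finset W) : (0 : W) ∈ cone S :=
  ⟨fun _ => 0, fun _ => le_refl _, by simp⟩

theorem mem_cone_self {S : Finset W} {a : W} (ha : a ∈ S) : a ∈ cone S := by
  classical
  refine ⟨fun b => if b = a then 1 else 0, fun b => by
    show (0 : ℝ) ≤ if b = a then 1 else 0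
    split_ifs <;> norm_num, ?_⟩
  simp [ha]

theorem cone_add {S : Finset W} {x y : W} (hx : x ∈ cone S) (hy : y ∈ cone S) :
    x + y ∈ cone S := by
  obtain ⟨c, hc, rfl⟩ := hx
  obtain ⟨d, hd, rfl⟩ := hy
  refine ⟨fun a => c a + d a, fun a => add_nonneg (hc a) (hd a), ?_⟩
  rw [← Finset.sum_add_distrib]
  exact Finset.sum_congr rfl fun a _ => (add_smul _ _ _).symm

theorem cone_smul {S : Finset W} {x : W} (hx : x ∈ cone S) {t : ℝ} (ht : 0 ≤ t) :
    t • x ∈ cone S := by
  obtain ⟨c, hc, rfl⟩ := hx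
  refine ⟨fun a => t * c a, fun a => mul_nonneg ht (hc a), ?_⟩
  rw [Finset.smul_sum]
  exact Finset.sum_congr rfl fun a _ => by rw [smul_smul]

theorem cone_sum {S : Finset W} {ι : Type*} (s : Finset ι) (f : ι → W)
    (h : ∀ i ∈ s, f i ∈ cone S) : ∑ i ∈ s, f i ∈ cone S := by
  classical
  induction s using Finset.induction_on with
  | empty => simpa using zero_mem_cone S
  | insert i s hi ih =>
    rw [Finset.sum_insert hi]
    exact cone_add (h i (Finset.mem_insert_self _ _))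
      (ih fun j hj => h j (Finset.mem_insert_of_mem hj))

theorem cone_le {S T : Finset W} (h : ∀ a ∈ S, a ∈ cone T) {x : W} (hx : x ∈ cone S) :
    x ∈ cone T := by
  obtain ⟨c, hc, rfl⟩ := hx
  exact cone_sum _ _ fun a ha => cone_smul (h a ha) (hc a)

theorem cone_mono {S T : Finset W} (h : S ⊆ T) {x : W} (hx : x ∈ cone S) : x ∈ cone T :=
  cone_le (fun _ ha => mem_cone_self (h ha)) hx

/-- Membership in a cone from an indexed combination. -/
theorem mem_cone_of_sum {S : Finset W} {ι : Type*} (s : Finset ι) (z : ι → W) (c : ι → ℝ)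
    (hz : ∀ i ∈ s, z i ∈ S) (hc : ∀ i ∈ s, 0 ≤ c i) : ∑ i ∈ s, c i • z i ∈ cone S :=
  cone_sum _ _ fun i hi => cone_smul (mem_cone_self (hz i hi)) (hc i hi)

theorem cone_image {V : Type*} [AddCommGroup V] [Module ℝ V] [DecidableEq V] (g : W →ₗ[ℝ] V)
    {S : Finset W} {x : W} (hx : x ∈ cone S) : g x ∈ cone (S.image g) := by
  obtain ⟨c, hc, rfl⟩ := hx
  rw [map_sum]
  exact cone_sum _ _ fun a ha => by
    rw [map_smul]
    exact cone_smul (mem_cone_self (Finset.mem_image_of_mem g ha)) (hc a)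

/-- A property which is preserved by sums and nonnegative multiples holds on a cone if it holds
for the generators. -/
theorem cone_ind {S : Finset W} {p : W → Prop} (h0 : p 0) (hadd : ∀ x y, p x → p y → p (x + y))
    (hsmul : ∀ (t : ℝ) (x : W), 0 ≤ t → p x → p (t • x)) (hS : ∀ a ∈ S, p a) {x : W}
    (hx : x ∈ cone S) : p x := by
  classical
  obtain ⟨c, hc, rfl⟩ := hx
  have : ∀ T : Finset W, T ⊆ S → p (∑ a ∈ T, c a • a) := by
    intro T
    induction T using Finset.induction_on with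
    | empty => intro _; simpa using h0
    | insert i s hi ih =>
      intro hs
      rw [Finset.sum_insert hi]
      exact hadd _ _ (hsmul _ _ (hc i) (hS i (hs (Finset.mem_insert_self _ _))))
        (ih fun j hj => hs (Finset.mem_insert_of_mem hj))
  exact this S (Finset.Subset.refl _)

theorem split_sum {M : Type*} [AddCommMonoid M] (S : Finset W) (φ : W →ₗ[ℝ] ℝ) (f : W → M) :
    ∑ a ∈ S, f a = ∑ a ∈ S.filter (fun a => 0 ≤ φ a), f a
      + ∑ b ∈ S.filter (fun a => φ a < 0), f b := by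
  classical
  rw [← Finset.sum_filter_add_sum_filter_not S (fun a => 0 ≤ φ a)]
  simp only [not_le]

theorem split_sum1 {M : Type*} [AddCommMonoid M] (S : Finset W) (φ : W →ₗ[ℝ] ℝ) (f : W → M) :
    ∑ a ∈ S.filter (fun a => 0 ≤ φ a), f a = ∑ a ∈ S.filter (fun a => 0 < φ a), f a
      + ∑ a ∈ S.filter (fun a => φ a = 0), f a := by
  classical
  rw [← Finset.sum_filter_add_sum_filter_not (S.filter (fun a => 0 ≤ φ a)) (fun a => 0 < φ a)]
  congr 1
  · apply Finset.sum_congr _ fun _ _ => rfl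
    ext a
    simp only [Finset.mem_filter]
    constructor
    · rintro ⟨⟨h1, -⟩, h3⟩; exact ⟨h1, h3⟩
    · rintro ⟨h1, h3⟩; exact ⟨⟨h1, h3.le⟩, h3⟩
  · apply Finset.sum_congr _ fun _ _ => rfl
    ext a
    simp only [Finset.mem_filter, not_lt]
    constructor
    · rintro ⟨⟨h1, h2⟩, h3⟩; exact ⟨h1, le_antisymm h3 h2⟩
    · rintro ⟨h1, h3⟩; exact ⟨⟨h1, h3.ge⟩, h3.le⟩

/-- The intersection of a finitely generated cone with a half-space is finitely generated, with
generators of the form `a` or `φ a • b - φ b • a`. -/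
theorem cone_cut (S : Finset W) (φ : W →ₗ[ℝ] ℝ) (p : W → Prop) (hp : ∀ a ∈ S, p a)
    (hp2 : ∀ a ∈ S, ∀ b ∈ S, 0 < φ a → φ b < 0 → p (φ a • b - φ b • a)) :
    ∃ S' : Finset W, (∀ a ∈ S', p a) ∧ ∀ x, x ∈ cone S' ↔ x ∈ cone S ∧ 0 ≤ φ x := by
  classical
  let S1 := S.filter (fun a => 0 ≤ φ a)
  let P := S.filter (fun a => 0 < φ a)
  let N := S.filter (fun a => φ a < 0)
  let S2 := (P ×ˢ N).image (fun q => φ q.1 • q.2 - φ q.2 • q.1)
  have hS2 : ∀ a ∈ P, ∀ b ∈ N, φ a • b - φ b • a ∈ S2 := by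
    intro a ha b hb
    exact Finset.mem_image.2 ⟨(a, b), Finset.mem_product.2 ⟨ha, hb⟩, rfl⟩
  refine ⟨S1 ∪ S2, ?_, fun x => ⟨?_, ?_⟩⟩
  · intro a ha
    rcases Finset.mem_union.1 ha with h | h
    · exact hp a (Finset.mem_filter.1 h).1
    · obtain ⟨⟨q1, q2⟩, hq, rfl⟩ := Finset.mem_image.1 h
      obtain ⟨h1, h2⟩ := Finset.mem_product.1 hq
      obtain ⟨h3, h4⟩ := Finset.mem_filter.1 h1
      obtain ⟨h5, h6⟩ := Finset.mem_filter.1 h2
      exact hp2 _ h3 _ h5 h4 h6
  · intro hx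
    refine cone_ind (p := fun x => x ∈ cone S ∧ 0 ≤ φ x) ⟨zero_mem_cone S, by simp⟩ ?_ ?_ ?_ hx
    · rintro x y ⟨h1, h2⟩ ⟨h3, h4⟩
      exact ⟨cone_add h1 h3, by rw [map_add]; exact add_nonneg h2 h4⟩
    · rintro t x ht ⟨h1, h2⟩
      exact ⟨cone_smul h1 ht, by rw [map_smul]; exact mul_nonneg ht h2⟩
    · intro a ha
      rcases Finset.mem_union.1 ha with h | h
      · obtain ⟨h1, h2⟩ := Finset.mem_filter.1 h
        exact ⟨mem_cone_self h1, h2⟩
      · obtain ⟨⟨q1, q2⟩, hq, rfl⟩ := Finset.mem_image.1 h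
        obtain ⟨h1, h2⟩ := Finset.mem_product.1 hq
        obtain ⟨h3, h4⟩ := Finset.mem_filter.1 h1
        obtain ⟨h5, h6⟩ := Finset.mem_filter.1 h2
        simp only at h3 h4 h5 h6 ⊢
        refine ⟨?_, ?_⟩
        · rw [sub_eq_add_neg, ← neg_smul]
          exact cone_add (cone_smul (mem_cone_self h5) h4.le)
            (cone_smul (mem_cone_self h3) (by linarith))
        · rw [map_sub, map_smul, map_smul, smul_eq_mul, smul_eq_mul]
          linarith [mul_comm (φ q1) (φ q2)]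
  · rintro ⟨⟨c, hc, rfl⟩, hφ⟩
    set Pp : ℝ := ∑ a ∈ P, c a * φ a with hPp
    set Nn : ℝ := ∑ b ∈ N, c b * (-φ b) with hNn
    have hPp0 : 0 ≤ Pp := Finset.sum_nonneg fun a ha =>
      mul_nonneg (hc a) (Finset.mem_filter.1 ha).2.le
    have hNn0 : 0 ≤ Nn := Finset.sum_nonneg fun a ha =>
      mul_nonneg (hc a) (by have := (Finset.mem_filter.1 ha).2; linarith)
    have hPN : Nn ≤ Pp := by
      rw [map_sum, split_sum S φ, split_sum1 S φ] at hφ
      have h1 : ∑ a ∈ S.filter (fun a => φ a = 0), φ (c a • a) = 0 :=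
        Finset.sum_eq_zero fun a ha => by
          rw [map_smul, (Finset.mem_filter.1 ha).2, smul_zero]
      have h2 : ∑ a ∈ P, φ (c a • a) = Pp :=
        Finset.sum_congr rfl fun a _ => by rw [map_smul, smul_eq_mul]
      have h3 : ∑ b ∈ N, φ (c b • b) = -Nn := by
        rw [hNn, ← Finset.sum_neg_distrib]
        exact Finset.sum_congr rfl fun a _ => by rw [map_smul, smul_eq_mul]; ring
      rw [h1, h2, h3] at hφ
      linarith
    rw [split_sum S φ, split_sum1 S φ]
    have hin1 : ∀ a ∈ S1, a ∈ cone (S1 ∪ S2) := fun a ha =>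
      mem_cone_self (Finset.mem_union_left _ ha)
    have hin2 : ∀ a ∈ P, ∀ b ∈ N, φ a • b - φ b • a ∈ cone (S1 ∪ S2) := fun a ha b hb =>
      mem_cone_self (Finset.mem_union_right _ (hS2 a ha b hb))
    have hPS1 : ∀ a ∈ P, a ∈ S1 := fun a ha =>
      Finset.mem_filter.2 ⟨(Finset.mem_filter.1 ha).1, (Finset.mem_filter.1 ha).2.le⟩
    have hzero : ∑ a ∈ S.filter (fun a => φ a = 0), c a • a ∈ cone (S1 ∪ S2) :=
      cone_sum _ _ fun a ha => cone_smul (hin1 a (Finset.mem_filter.2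
        ⟨(Finset.mem_filter.1 ha).1, (Finset.mem_filter.1 ha).2.ge⟩)) (hc a)
    rcases hPp0.eq_or_lt with hP0 | hP0
    · -- then all coefficients on N vanish
      have hN0 : Nn = 0 := le_antisymm (by linarith) hNn0
      have hcN : ∀ b ∈ N, c b = 0 := by
        intro b hb
        have h1 := (Finset.sum_eq_zero_iff_of_nonneg (fun a ha =>
          mul_nonneg (hc a) (by have := (Finset.mem_filter.1 ha).2; linarith))).1 hN0 b hb
        have h2 := (Finset.mem_filter.1 hb).2
        rcases mul_eq_zero.1 h1 with h3 | h3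
        · exact h3
        · linarith
      have h4 : ∑ b ∈ N, c b • b = 0 := Finset.sum_eq_zero fun b hb => by
        rw [hcN b hb, zero_smul]
      rw [h4, add_zero]
      exact cone_add (cone_sum _ _ fun a ha => cone_smul (hin1 a (hPS1 a ha)) (hc a)) hzero
    · have h5 : ∑ a ∈ P, c a • a + ∑ b ∈ N, c b • b =
          ∑ a ∈ P, (c a * (1 - Nn / Pp)) • a +
            ∑ a ∈ P, ∑ b ∈ N, ((c a * c b) / Pp) • (φ a • b - φ b • a) := by
        have h6 : ∀ a ∈ P, ∑ b ∈ N, ((c a * c b) / Pp) • (φ a • b - φ b • a)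
            = (c a * φ a / Pp) • ∑ b ∈ N, c b • b + (c a * (Nn / Pp)) • a := by
          intro a _
          rw [Finset.smul_sum, hNn, Finset.sum_div, Finset.mul_sum, Finset.sum_smul,
            ← Finset.sum_add_distrib]
          refine Finset.sum_congr rfl fun b _ => ?_
          rw [smul_sub, smul_smul, smul_smul, smul_smul, sub_eq_add_neg, ← neg_smul]
          congr 2 <;> ring
        rw [Finset.sum_congr rfl h6, Finset.sum_add_distrib, ← Finset.sum_smul,
          ← Finset.sum_div, ← hPp, div_self hP0.ne', one_smul, add_left_comm,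
          ← Finset.sum_add_distrib]
        have h7 : ∑ a ∈ P, c a • a = ∑ a ∈ P, ((c a * (1 - Nn / Pp)) • a + (c a * (Nn / Pp)) • a) :=
          Finset.sum_congr rfl fun a _ => by rw [← add_smul]; congr 1; ring
        rw [← h7, add_comm]
      rw [add_right_comm, h5]
      refine cone_add (cone_add ?_ ?_) hzero
      · refine cone_sum _ _ fun a ha => cone_smul (hin1 a (hPS1 a ha)) (mul_nonneg (hc a) ?_)
        rw [sub_nonneg, div_le_one hP0]
        exact hPN
      · refine cone_sum _ _ fun a ha => cone_sum _ _ fun b hb => cone_smul (hin2 a ha b hb) ?_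
        exact div_nonneg (mul_nonneg (hc a) (hc b)) hP0.le

/-- A finitely generated cone whose generators are positive for a functional is closed, in the
following sense. -/
theorem cone_closed {S : Finset W} (ξ : W →ₗ[ℝ] ℝ) (hξ : ∀ a ∈ S, 0 < ξ a) {p q : W}
    {δ : ℕ → ℝ} (hδ : Tendsto δ atTop (𝓝 0)) (h : ∀ n, p + δ n • q ∈ cone S) : p ∈ cone S := by
  classical
  choose c hc hcs using h
  -- bounded coefficients
  have hbdd : ∃ M : ℝ, ∀ n, ∀ a ∈ S, c n a ≤ M := by
    have h1 : Tendsto (fun n => ξ p + δ n * ξ q) atTop (𝓝 (ξ p + 0 * ξ q)) :=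
      (hδ.mul_const _).const_add _
    obtain ⟨M, hM⟩ := h1.bddAbove_range
    refine ⟨∑ a ∈ S, M / ξ a, fun n a ha => ?_⟩
    have h2 : ξ p + δ n * ξ q = ∑ b ∈ S, c n b * ξ b := by
      have h3 := congrArg ξ (hcs n)
      rw [map_add, map_smul, map_sum, smul_eq_mul] at h3
      rw [h3]
      exact Finset.sum_congr rfl fun b _ => by rw [map_smul, smul_eq_mul]
    have h4 : ∑ b ∈ S, c n b * ξ b ≤ M := by
      rw [← h2]
      exact hM ⟨n, rfl⟩
    have h5 : c n a * ξ a ≤ M :=
      (Finset.single_le_sum (f := fun b => c n b * ξ b)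
        (fun b hb => mul_nonneg (hc n b) (hξ b hb).le) ha).trans h4
    have hM0 : 0 ≤ M := le_trans (mul_nonneg (hc n a) (hξ a ha).le) h5
    calc c n a ≤ M / ξ a := by rw [le_div_iff₀ (hξ a ha)]; exact h5
      _ ≤ ∑ a ∈ S, M / ξ a := Finset.single_le_sum (f := fun a => M / ξ a)
          (fun b hb => div_nonneg hM0 (hξ b hb).le) ha
  obtain ⟨M, hM⟩ := hbdd
  let d : ℕ → (S → ℝ) := fun n a => c n a.1
  have hcomp : IsCompact (Set.Icc (fun _ : S => (0 : ℝ)) (fun _ => M)) := isCompact_Icc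
  obtain ⟨e, he, k, hk, hlim⟩ := hcomp.tendsto_subseq (x := d)
    (fun n => ⟨fun a => hc n a.1, fun a => hM n a.1 a.2⟩)
  refine ⟨fun a => if ha : a ∈ S then e ⟨a, ha⟩ else 0, fun a => ?_, ?_⟩
  · show (0 : ℝ) ≤ if ha : a ∈ S then e ⟨a, ha⟩ else 0
    split_ifs with ha
    · exact he.1 ⟨a, ha⟩
    · exact le_refl _
  · have key : ∀ φ : Module.Dual ℝ W, φ (p - ∑ a ∈ S,
        (if ha : a ∈ S then e ⟨a, ha⟩ else 0) • a) = 0 := by
      intro φ
      have h1 : ∀ n, φ p + δ (k n) * φ q = ∑ a : S, d (k n) a * φ a.1 := by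
        intro n
        have h3 := congrArg φ (hcs (k n))
        rw [map_add, map_smul, map_sum, smul_eq_mul] at h3
        rw [h3, ← Finset.sum_coe_sort S]
        exact Finset.sum_congr rfl fun b _ => by rw [map_smul, smul_eq_mul]
      have h2 : Tendsto (fun n => φ p + δ (k n) * φ q) atTop (𝓝 (φ p + 0 * φ q)) :=
        ((hδ.comp hk.tendsto_atTop).mul_const _).const_add _
      have h3 : Tendsto (fun n => ∑ a : S, d (k n) a * φ a.1) atTop
          (𝓝 (∑ a : S, e a * φ a.1)) := by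
        refine tendsto_finsetSum _ fun a _ => ?_
        exact ((tendsto_pi_nhds.1 hlim) a).mul_const _
      have h4 : φ p = ∑ a : S, e a * φ a.1 := by
        have := tendsto_nhds_unique h2 (by simpa only [h1] using h3)
        simpa using this
      rw [map_sub, h4, map_sum, ← Finset.sum_coe_sort S, sub_eq_zero]
      refine Finset.sum_congr rfl fun a _ => ?_
      rw [map_smul, smul_eq_mul, dif_pos a.2]
    have h5 := (Module.forall_dual_apply_eq_zero_iff ℝ _).1 key
    exact sub_eq_zero.1 h5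

/-- Dickson's lemma. -/
theorem dickson {α : Type*} {m : ℕ} (v : α → (Fin m → ℕ)) :
    ∃ T : Set α, T.Finite ∧ ∀ a, ∃ t ∈ T, v t ≤ v a := by
  classical
  have hpwo : (Set.range v).IsPWO := Set.isPWO_of_wellQuasiOrderedLE _
  let Mn : Set (Fin m → ℕ) := {x | Minimal (· ∈ Set.range v) x}
  have hanti : IsAntichain (· ≤ ·) Mn := by
    intro x hx y hy hne hle
    exact hne (le_antisymm hle (hy.2 hx.1 hle))
  have hfin : Mn.Finite :=
    hanti.finite_of_partiallyWellOrderedOn (Set.isPWO_of_wellQuasiOrderedLE _)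
  have : Finite Mn := hfin
  choose g hg using fun x : Mn => x.2.1
  refine ⟨Set.range g, Set.finite_range g, fun a => ?_⟩
  obtain ⟨b, hb, hmin⟩ := hpwo.exists_le_minimal ⟨a, rfl⟩
  refine ⟨g ⟨b, hmin⟩, ⟨_, rfl⟩, ?_⟩
  rw [hg]
  exact hb

end Pool.Agent.Y167
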