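import Mathlib

/-!
# Finitely generated cones: definition
-/

set_option autoImplicit false

namespace Pool.Agent.Y167

variable {W : Type*} [AddCommGroup W] [Module ℝ W]

/-- The convex cone generated by the finite set `S`. -/
def cone (S : Finset W) : Set W :=
  {x | ∃ c : W → ℝ, (∀ a, 0 ≤ c a) ∧ x = ∑ a ∈ S, c a • a}

end Pool.Agent.Y167
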