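import Pool.Agent.Y167.Cls

/-!
# Reduction theory for an order in a real algebra with a positive involution

The positive definite elements are covered by the translates, under the unit group of the order,
of the cone generated by finitely many integral positive semidefinite elements.
-/

set_option autoImplicit false

namespace Pool.Agent.Y167

open Matrix Finset Pool.Agent.H393R2.Geom

variable {A : Type*} [Ring A] [Algebra ℝ A] {r : ℕ}

theorem finite_abs (B : ℝ) : {z : ℤ | |(z : ℝ)| ≤ B}.Finite := by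
  apply (Set.finite_Icc (-⌈B⌉) ⌈B⌉).subset
  intro z hz
  have h1 := (abs_le.1 (show |(z : ℝ)| ≤ B from hz))
  have h3 := Int.le_ceil B
  refine ⟨?_, ?_⟩
  · have : ((-⌈B⌉ : ℤ) : ℝ) ≤ (z : ℝ) := by push_cast; linarith
    exact_mod_cast this
  · have : (z : ℝ) ≤ ((⌈B⌉ : ℤ) : ℝ) := by linarith
    exact_mod_cast this

/-- The real matrix of an integral matrix. -/
def rl (P : Matrix (Fin r) (Fin r) ℤ) : Matrix (Fin r) (Fin r) ℝ := P.map (fun z : ℤ => (z : ℝ))

theorem rl_mul (P Q : Matrix (Fin r) (Fin r) ℤ) : rl (P * Q) = rl P * rl Q :=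
  Matrix.map_mul (f := Int.castRingHom ℝ)

theorem rl_det (P : Matrix (Fin r) (Fin r) ℤ) : (rl P).det = (P.det : ℝ) := by
  have := (Int.castRingHom ℝ).map_det P
  unfold rl
  simpa using this.symm

theorem rl_transpose (P : Matrix (Fin r) (Fin r) ℤ) : rl Pᵀ = (rl P)ᵀ := rfl

theorem rl_row (X : Matrix (Fin r) (Fin r) ℤ) (P Q : Matrix (Fin r) (Fin r) ℝ)
    (Y : Matrix (Fin r) (Fin r) ℤ) (i j : Fin r) (h : P = rl X) (h' : Q = rl Y)
    (G : Matrix (Fin r) (Fin r) ℝ) :
    (P * G * Qᵀ) i j = cst (X i) ⬝ᵥ (G *ᵥ cst (Y j)) := by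
  subst h
  subst h'
  rw [Matrix.mul_assoc, mul_apply]
  rfl

theorem adj_bound {T : Matrix (Fin r) (Fin r) ℝ} {B : ℝ} (hB : 1 ≤ B)
    (hT : ∀ i j, |T i j| ≤ B) (i j : Fin r) : |T.adjugate i j| ≤ (r.factorial : ℝ) * B ^ r := by
  rw [adjugate_apply]
  have h := abs_det_le (T.updateRow j (Pi.single i 1)) (fun _ => B) (by
    intro k l
    by_cases hk : k = j
    · subst hk
      rw [updateRow_self]
      by_cases hl : l = i
      · subst hl; simpa using hB
      · rw [Pi.single_eq_of_ne hl]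
        simp only [abs_zero]
        linarith
    · rw [updateRow_ne hk]
      exact hT k l)
  simpa using h

namespace Sys

variable {S : Sys A r}

theorem one_le_qv {s : A} (hs : S.Pd s) (hi : S.Int s) {n : Fin r → ℤ} (hn : n ≠ 0) :
    1 ≤ qv (S.gram s) n := by
  rw [S.qv_gram]
  obtain ⟨m, hm⟩ := hi _ (S.el_mem n) _ (S.el_mem n)
  have h := (pd_iff'.1 hs).2 _ (S.el_ne_zero hn)
  rw [hm] at h ⊢
  have : (0 : ℤ) < m := by exact_mod_cast h
  exact_mod_cast this

/-- Right multiplication by `bas k` is bounded independently of `s`. -/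
theorem right_bound {s : A} (hs : S.Psd s) (x : A) (k : Fin r) :
    S.tr (S.st (x * S.bas k) * s * (x * S.bas k)) ≤
      S.tr (S.bas k * S.st (S.bas k)) * S.tr (S.st x * s * x) := by
  have h1 := tr_mul_nonneg (hs.conj x) (psd_tr_sub (psd_mul_st (S := S) (S.bas k)))
  rw [mul_sub, mul_smul_comm, mul_one, map_sub, map_smul, smul_eq_mul, sub_nonneg] at h1
  refine le_trans (le_of_eq ?_) h1
  have h2 : S.st (x * S.bas k) * s * (x * S.bas k) =
      S.st (S.bas k) * (S.st x * s * x * S.bas k) := by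
    rw [S.st_mul]
    simp only [mul_assoc]
  rw [h2, S.tr_comm]
  simp only [mul_assoc]

theorem classes_finite (S : Sys A r) (hr : 0 < r) (C : ℝ) :
    ∃ F : Set A, F.Finite ∧ (∀ f ∈ F, S.Pd f ∧ S.Int f) ∧
      ∀ s, S.Pd s → S.Int s → (S.gram s).det ≤ C →
        ∃ f ∈ F, ∃ u ∈ S.R, ∃ v ∈ S.R, u * v = 1 ∧ v * u = 1 ∧ s = S.st u * f * u := by
  classical
  obtain ⟨ρ, hρ⟩ := exists_rho S
  let 𝒮 := {s : A // S.Pd s ∧ S.Int s ∧ (S.gram s).det ≤ C}
  have hX : ∀ s : 𝒮, ∃ X : Matrix (Fin r) (Fin r) ℤ, X.det ≠ 0 ∧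
      ∀ j, qv (S.gram s.1) (X j) ≤ (2 * KK r) ^ (2 * r) * (r : ℝ) ^ r * (S.gram s.1).det :=
    fun s => minkowski2 hr s.2.1.gram fun n hn => one_le_qv s.2.1 s.2.2.1 hn
  choose X hX0 hXq using hX
  choose G hG using fun s : 𝒮 => exists_gram s.2.2.1
  -- constants
  have hK := one_le_KK hr
  set C1 : ℝ := max ((2 * KK r) ^ (2 * r) * (r : ℝ) ^ r * C) 1 with hC1
  have hC1pos : 1 ≤ C1 := le_max_right _ _
  have hq : ∀ (s : 𝒮) j, qv (S.gram s.1) (X s j) ≤ C1 := by
    intro s j
    refine (hXq s j).trans (le_trans ?_ (le_max_left _ _))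
    have : 0 ≤ (2 * KK r) ^ (2 * r) * (r : ℝ) ^ r := by positivity
    exact mul_le_mul_of_nonneg_left s.2.2.2 this
  have hq0 : ∀ (s : 𝒮) n, 0 ≤ qv (S.gram s.1) n := fun s n =>
    (psd_iff.1 s.2.1.psd.gram).2 _
  -- the matrix T
  let T : 𝒮 → Matrix (Fin r) (Fin r) ℤ := fun s => X s * G s * (X s)ᵀ
  have hTr : ∀ s i j, (rl (T s)) i j = cst (X s i) ⬝ᵥ (S.gram s.1 *ᵥ cst (X s j)) := by
    intro s i j
    have h1 : rl (T s) = rl (X s) * rl (G s) * (rl (X s))ᵀ := by
      simp only [T, rl_mul, rl_transpose]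
    rw [h1, rl_row (X s) _ _ (X s) i j rfl rfl, hG]
    rfl
  have hTb : ∀ s i j, |(rl (T s)) i j| ≤ C1 := by
    intro s i j
    rw [hTr]
    have h1 := cs s.2.1.psd.gram (cst (X s i)) (cst (X s j))
    have h2 : (cst (X s i) ⬝ᵥ (S.gram s.1 *ᵥ cst (X s j))) ^ 2 ≤ C1 ^ 2 := by
      refine h1.trans ?_
      rw [sq]
      exact mul_le_mul (hq s i) (hq s j) (hq0 s _) (by linarith)
    exact abs_le_of_sq_le_sq h2 (by linarith)
  -- determinant
  have hGdet : ∀ s, 1 ≤ (rl (G s)).det := by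
    intro s
    have h1 : 0 < (rl (G s)).det := by
      have : rl (G s) = S.gram s.1 := (hG s).symm
      rw [this]
      exact s.2.1.gram.det_pos
    rw [rl_det] at h1 ⊢
    have : (0 : ℤ) < (G s).det := by exact_mod_cast h1
    exact_mod_cast this
  set C3 : ℝ := (r.factorial : ℝ) * C1 ^ r with hC3
  have hTdet : ∀ s, (rl (T s)).det = ((X s).det : ℝ) ^ 2 * (rl (G s)).det := by
    intro s
    have h1 : rl (T s) = rl (X s) * rl (G s) * (rl (X s))ᵀ := by
      simp only [T, rl_mul, rl_transpose]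
    rw [h1, det_mul, det_mul, det_transpose, rl_det (X s)]
    ring
  have hTle : ∀ s, |(rl (T s)).det| ≤ C3 := by
    intro s
    have h := abs_det_le (rl (T s)) (fun _ => C1) (fun i j => hTb s i j)
    simpa [hC3] using h
  have hXsq : ∀ s, 1 ≤ ((X s).det : ℝ) ^ 2 := by
    intro s
    have h1 : 1 ≤ |(X s).det| := Int.one_le_abs (hX0 s)
    have h2 : (1 : ℝ) ≤ |((X s).det : ℝ)| := by exact_mod_cast h1
    rw [← sq_abs]
    nlinarith
  have hdb : ∀ s, |((X s).det : ℝ)| ≤ C3 := by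
    intro s
    have h1 := hTle s
    rw [hTdet, abs_of_nonneg (by have := hGdet s; positivity)] at h1
    have h2 := hGdet s
    have h3 : 1 ≤ |(X s).det| := Int.one_le_abs (hX0 s)
    have h4 : (1 : ℝ) ≤ |((X s).det : ℝ)| := by exact_mod_cast h3
    have h5 : |((X s).det : ℝ)| ≤ ((X s).det : ℝ) ^ 2 := by
      rw [← sq_abs]
      nlinarith
    nlinarith [sq_nonneg ((X s).det : ℝ)]
  have hTdet1 : ∀ s, 1 ≤ |(rl (T s)).det| := by
    intro s
    rw [hTdet, abs_of_nonneg (by have := hGdet s; positivity)]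
    have h2 := hGdet s
    have h3 := hXsq s
    nlinarith
  -- the matrices Z
  let Z : 𝒮 → Fin r → Matrix (Fin r) (Fin r) ℤ := fun s k => X s * ρ k * (X s).adjugate
  let ck : Fin r → ℝ := fun k => S.tr (S.bas k * S.st (S.bas k))
  have hck : ∀ k, 0 ≤ ck k := fun k => (psd_mul_st (S := S) (S.bas k)).tr_nonneg
  set C4 : ℝ := (∑ k, ck k + 1) * C1 with hC4
  have hC4pos : 0 ≤ C4 := by
    have : 0 ≤ ∑ k, ck k := Finset.sum_nonneg fun k _ => hck k
    positivity
  let Nm : 𝒮 → Fin r → Matrix (Fin r) (Fin r) ℝ :=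
    fun s k => rl (X s) * S.gram s.1 * (rl (X s * ρ k))ᵀ
  have hrow : ∀ (s : 𝒮) k j, cst ((X s * ρ k) j) = S.bas.equivFun (S.el (X s j) * S.bas k) := by
    intro s k j
    rw [hρ k, el, LinearEquiv.apply_symm_apply]
    ext l
    simp only [cst, mul_apply, vecMul, dotProduct, Matrix.map_apply]
    push_cast
    rfl
  have hNb : ∀ s k i j, |Nm s k i j| ≤ C4 := by
    intro s k i j
    have h0 : (Nm s k) i j = cst (X s i) ⬝ᵥ (S.gram s.1 *ᵥ cst ((X s * ρ k) j)) :=
      rl_row (X s) _ _ (X s * ρ k) i j rfl rfl _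
    rw [h0]
    have h1 := cs s.2.1.psd.gram (cst (X s i)) (cst ((X s * ρ k) j))
    have h2 : cst ((X s * ρ k) j) ⬝ᵥ (S.gram s.1 *ᵥ cst ((X s * ρ k) j)) ≤ ck k * C1 := by
      rw [hrow, S.gram_dot, LinearEquiv.symm_apply_apply]
      refine (right_bound s.2.1.psd _ k).trans ?_
      have := hq s j
      rw [S.qv_gram] at this
      exact mul_le_mul_of_nonneg_left this (hck k)
    have h3 : ck k ≤ ∑ k, ck k := Finset.single_le_sum (fun k _ => hck k) (Finset.mem_univ k)
    have h4 : (cst (X s i) ⬝ᵥ (S.gram s.1 *ᵥ cst ((X s * ρ k) j))) ^ 2 ≤ C4 ^ 2 := by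
      refine h1.trans ?_
      have h5 : cst (X s i) ⬝ᵥ (S.gram s.1 *ᵥ cst (X s i)) ≤ C1 := hq s i
      have h6 : 0 ≤ cst ((X s * ρ k) j) ⬝ᵥ (S.gram s.1 *ᵥ cst ((X s * ρ k) j)) := hq0 s _
      calc _ ≤ C1 * (ck k * C1) := mul_le_mul h5 h2 h6 (by linarith)
        _ ≤ C1 * ((∑ k, ck k) * C1) := by
            have := mul_le_mul_of_nonneg_right h3 (show (0 : ℝ) ≤ C1 by linarith)
            exact mul_le_mul_of_nonneg_left this (by linarith)
        _ ≤ C4 ^ 2 := by
            have h7 : 0 ≤ ∑ k, ck k := Finset.sum_nonneg fun k _ => hck k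
            rw [hC4]
            nlinarith [mul_nonneg h7 (mul_self_nonneg C1), mul_self_nonneg C1,
              mul_nonneg (mul_nonneg h7 h7) (mul_self_nonneg C1)]
    exact abs_le_of_sq_le_sq h4 hC4pos
  have hTZ : ∀ s k, rl (T s) * (rl (Z s k))ᵀ = ((X s).det : ℝ) • Nm s k := by
    intro s k
    have h1 : rl (T s) = rl (X s) * S.gram s.1 * (rl (X s))ᵀ := by
      have : rl (G s) = S.gram s.1 := (hG s).symm
      rw [← this]
      simp only [T, rl_mul, rl_transpose]
    have h2 : rl (Z s k) = rl (X s * ρ k) * rl (X s).adjugate := by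
      simp only [Z, rl_mul]
    rw [h1, h2, transpose_mul, Matrix.mul_assoc (rl (X s) * S.gram s.1),
      ← Matrix.mul_assoc (rl (X s))ᵀ, ← transpose_mul, ← rl_mul, adjugate_mul]
    have h3 : rl ((X s).det • (1 : Matrix (Fin r) (Fin r) ℤ)) =
        ((X s).det : ℝ) • (1 : Matrix (Fin r) (Fin r) ℝ) := by
      ext i j
      simp only [rl, Matrix.map_apply, Matrix.smul_apply, smul_eq_mul, Int.cast_mul, one_apply]
      split_ifs <;> simp
    rw [h3, transpose_smul, transpose_one, Matrix.smul_mul, Matrix.one_mul, Matrix.mul_smul]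
  set C5 : ℝ := C3 * (r * (C3 * C4)) with hC5
  have hC3pos : 0 ≤ C3 := by positivity
  have hC5pos : 0 ≤ C5 := by positivity
  have hZb : ∀ s k i j, |(rl (Z s k)) i j| ≤ C5 := by
    intro s k j l
    have h1 : (rl (T s)).det • (rl (Z s k))ᵀ =
        (rl (T s)).adjugate * (((X s).det : ℝ) • Nm s k) := by
      rw [← hTZ, ← Matrix.mul_assoc, adjugate_mul, Matrix.smul_mul, Matrix.one_mul]
    have h2 := congrFun (congrFun h1 l) j
    rw [Matrix.smul_apply, transpose_apply, smul_eq_mul, Matrix.mul_smul, Matrix.smul_apply,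
      smul_eq_mul, mul_apply] at h2
    have h3 : |((X s).det : ℝ) * ∑ m, (rl (T s)).adjugate l m * Nm s k m j| ≤ C5 := by
      rw [abs_mul, hC5]
      refine mul_le_mul (hdb s) ?_ (abs_nonneg _) hC3pos
      refine (Finset.abs_sum_le_sum_abs _ _).trans ?_
      calc ∑ m, |(rl (T s)).adjugate l m * Nm s k m j| ≤ ∑ _m : Fin r, C3 * C4 := by
            refine Finset.sum_le_sum fun m _ => ?_
            rw [abs_mul]
            exact mul_le_mul (adj_bound hC1pos (fun i j => hTb s i j) l m) (hNb s k m j)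
              (abs_nonneg _) hC3pos
        _ = r * (C3 * C4) := by simp
    rw [← h2, abs_mul] at h3
    have h4 := hTdet1 s
    have h5 := abs_nonneg (rl (Z s k) j l)
    nlinarith
  -- the data
  let W : 𝒮 → Fin r → Fin r → ℤ := fun s i j => (X s).adjugate i j % (X s).det
  have hWb : ∀ s i j, |((W s i j : ℤ) : ℝ)| ≤ C3 := by
    intro s i j
    have h1 := Int.emod_nonneg ((X s).adjugate i j) (hX0 s)
    have h2 := Int.emod_lt_abs ((X s).adjugate i j) (hX0 s)
    have h3 : |((W s i j : ℤ) : ℝ)| ≤ |((X s).det : ℝ)| := by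
      rw [abs_of_nonneg (by exact_mod_cast h1)]
      exact_mod_cast h2.le
    exact h3.trans (hdb s)
  let D : 𝒮 → ℤ × (Fin r → Fin r → ℤ) × (Fin r → Fin r → Fin r → ℤ) × (Fin r → Fin r → ℤ) :=
    fun s => ((X s).det, fun i j => T s i j, fun k i j => Z s k i j, W s)
  have hD : (Set.range D).Finite := by
    have hf1 : ∀ B : ℝ, {g : Fin r → Fin r → ℤ | ∀ i j, |(g i j : ℝ)| ≤ B}.Finite := by
      intro B
      exact (Set.Finite.pi' (fun _ : Fin r => Set.Finite.pi' fun _ : Fin r => finite_abs B)).subset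
        (fun g hg i => fun j => hg i j)
    have hf2 : ∀ B : ℝ, {g : Fin r → Fin r → Fin r → ℤ | ∀ k i j, |(g k i j : ℝ)| ≤ B}.Finite := by
      intro B
      exact (Set.Finite.pi' (fun _ : Fin r => hf1 B)).subset (fun g hg k => fun i j => hg k i j)
    refine ((finite_abs C3).prod ((hf1 C1).prod ((hf2 C5).prod (hf1 C3)))).subset ?_
    rintro _ ⟨s, rfl⟩
    exact ⟨hdb s, fun i j => hTb s i j, fun k i j => hZb s k i j, fun i j => hWb s i j⟩
  obtain ⟨F, hF, hFD⟩ := exists_reps D hD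
  refine ⟨Subtype.val '' F, hF.image _, ?_, ?_⟩
  · rintro _ ⟨f, -, rfl⟩
    exact ⟨f.2.1, f.2.2.1⟩
  · intro s h1 h2 h3
    obtain ⟨f, hf, hDf⟩ := hFD ⟨s, h1, h2, h3⟩
    set s' : 𝒮 := ⟨s, h1, h2, h3⟩ with hs'
    have e1 : (X f).det = (X s').det := congrArg (fun d => d.1) hDf
    have e2 : T f = T s' := by
      ext i j
      exact congrFun (congrFun (congrArg (fun d => d.2.1) hDf) i) j
    have e3 : ∀ k, Z f k = Z s' k := by
      intro k
      ext i j
      exact congrFun (congrFun (congrFun (congrArg (fun d => d.2.2.1) hDf) k) i) j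
    have e4 : ∀ i j, (X f).adjugate i j % (X s').det = (X s').adjugate i j % (X s').det := by
      intro i j
      have := congrFun (congrFun (congrArg (fun d => d.2.2.2) hDf) i) j
      simp only [D, W] at this
      rw [← this, e1]
    obtain ⟨u, hu, v, hv, huv, hvu, hh⟩ := compare hρ (hG s') (hG f) (hX0 s') e1 e4
      (fun k => (e3 k).symm) e2.symm
    exact ⟨f.1, ⟨f, hf, rfl⟩, u, hu, v, hv, huv, hvu, hh⟩

/-- **Reduction theory.** The positive definite elements are covered by the translates, under the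
units of `R`, of the cone generated by finitely many integral positive semidefinite elements. -/
theorem reduction (S : Sys A r) (hr : 0 < r) :
    ∃ F : Set A, F.Finite ∧ (∀ f ∈ F, S.Psd f ∧ S.Int f) ∧
      ∀ x, S.Pd x → ∃ u ∈ S.R, ∃ v ∈ S.R, u * v = 1 ∧ v * u = 1 ∧
        ∃ (m : ℕ) (z : Fin m → A) (c : Fin m → ℝ), (∀ i, z i ∈ F) ∧ (∀ i, 0 ≤ c i) ∧
          x = S.st u * (∑ i, c i • z i) * u := by
  obtain ⟨F₀, hF₀, hF₀p, hF₀c⟩ := classes_finite S hr (C2 S)
  refine ⟨⋃ f ∈ F₀, {a | S.Psd a ∧ S.Int a ∧ S.tr a ≤ S.tr f}, ?_, ?_, ?_⟩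
  · exact hF₀.biUnion fun f _ => int_finite _
  · intro a ha
    simp only [Set.mem_iUnion] at ha
    obtain ⟨f, -, h1, h2, -⟩ := ha
    exact ⟨h1, h2⟩
  · intro x hx
    obtain ⟨m, z, c, hz, hc, hxs, hpd, hdet⟩ := decompose hr hx
    have hint : S.Int (∑ i, z i) := int_sum _ _ fun i _ => (hz i).2.1
    obtain ⟨f, hf, u, hu, v, hv, huv, hvu, hs⟩ := hF₀c _ hpd hint hdet
    have hstv : S.st v * S.st u = 1 := by rw [← S.st_mul, huv, S.st_one]
    have hstu : S.st u * S.st v = 1 := by rw [← S.st_mul, hvu, S.st_one]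
    refine ⟨u, hu, v, hv, huv, hvu, m, fun i => S.st v * z i * v, c, ?_, fun i => (hc i).le, ?_⟩
    · intro i
      simp only [Set.mem_iUnion]
      refine ⟨f, hf, (hz i).1.conj v, (hz i).2.1.conj hv, ?_⟩
      have h1 : f = ∑ j, S.st v * z j * v := by
        have h2 : S.st v * (∑ i, z i) * v = f := by
          rw [hs]
          calc S.st v * (S.st u * f * u) * v = (S.st v * S.st u) * f * (u * v) := by
                simp only [mul_assoc]
            _ = f := by rw [hstv, huv, one_mul, mul_one]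
        rw [← h2, Finset.mul_sum, Finset.sum_mul]
      have h3 : S.tr f = ∑ j, S.tr (S.st v * z j * v) := by
        conv_lhs => rw [h1]
        rw [map_sum]
      rw [h3]
      exact Finset.single_le_sum (f := fun j => S.tr (S.st v * z j * v))
        (fun j _ => ((hz j).1.conj v).tr_nonneg) (Finset.mem_univ i)
    · have h4 : ∑ i, c i • (S.st v * z i * v) = S.st v * x * v := by
        rw [hxs, Finset.mul_sum, Finset.sum_mul]
        exact Finset.sum_congr rfl fun i _ => by rw [mul_smul_comm, smul_mul_assoc]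
      rw [h4]
      calc x = (S.st u * S.st v) * x * (v * u) := by rw [hstu, hvu, one_mul, mul_one]
        _ = _ := by simp only [mul_assoc]

end Sys

end Pool.Agent.Y167
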