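import Pool.Agent.Y167.Delta

/-!
# The data for the fundamental domain
-/

set_option autoImplicit false

namespace Pool.Agent.Y167

open Finset Filter Topology
open Pool.Agent.W594.SYZ2 Pool.Agent.W594.SYZ2.TQ Pool.Agent.TH735.AQ Pool.Agent.TH128.SYZ

variable {V E : Type*} [NormedAddCommGroup V] [NormedSpace ℂ V] [FiniteDimensional ℂ V]
  [NormedAddCommGroup E] [NormedSpace ℂ E] [FiniteDimensional ℂ E] {Γ : Subgroup (V ≃ᵃ[ℂ] V)}
  {j : E →ₗ[ℂ] V} {H₀ : V → V → ℂ}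

section pull

/-- Pullback of forms. -/
noncomputable def pb (u : E ≃ₗ[ℂ] E) : (E → E → ℂ) →ₗ[ℝ] (E → E → ℂ) where
  toFun h := fun v w => h (u v) (u w)
  map_add' _ _ := rfl
  map_smul' _ _ := rfl

omit [FiniteDimensional ℂ E] in
theorem isClass_pull {f : V ≃ᵃ[ℂ] V} (hf : Normalizes Γ f) {u : E ≃ₗ[ℂ] E}
    (hfu : ∀ e, f.linear (j e) = j (u e)) {L : LineBundle Γ} {h : E → E → ℂ}
    (hL : IsClass j L h) : IsClass j (pull f hf L (affine_differentiable f)) (pb u h) := by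
  obtain ⟨H, hH, hh⟩ := hL
  refine ⟨_, pull_chern f hf (affine_differentiable f) hH, fun v w => ?_⟩
  change h (u v) (u w) = _
  rw [hh, hfu, hfu]

omit [FiniteDimensional ℂ E] in
theorem pb_N1 {f : V ≃ᵃ[ℂ] V} (hf : Normalizes Γ f) {u : E ≃ₗ[ℂ] E}
    (hfu : ∀ e, f.linear (j e) = j (u e)) {h : E → E → ℂ} (hh : h ∈ N1s Γ j) :
    pb u h ∈ N1s Γ j := by
  induction hh using Submodule.span_induction with
  | mem x hx =>
    obtain ⟨L, hL⟩ := hx
    exact Submodule.subset_span ⟨_, isClass_pull hf hfu hL⟩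
  | zero => rw [map_zero]; exact Submodule.zero_mem _
  | add x y _ _ hx hy => rw [map_add]; exact Submodule.add_mem _ hx hy
  | smul c x _ hx => rw [map_smul]; exact Submodule.smul_mem _ c hx

theorem Normalizes.inv {V : Type*} [AddCommGroup V] [Module ℂ V] {Γ : Subgroup (V ≃ᵃ[ℂ] V)}
    {f : V ≃ᵃ[ℂ] V} (hf : Normalizes Γ f) : Normalizes Γ f⁻¹ := by
  intro γ
  have h1 := hf (f⁻¹ * γ * f⁻¹⁻¹)
  have h2 : f * (f⁻¹ * γ * f⁻¹⁻¹) * f⁻¹ = γ := by group
  rw [h2] at h1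
  exact h1.symm

omit [FiniteDimensional ℂ E] in
/-- The action of an automorphism on `N^1`. -/
theorem exists_pull {f : V ≃ᵃ[ℂ] V} (hf : Normalizes Γ f) {u : E ≃ₗ[ℂ] E}
    (hfu : ∀ e, f.linear (j e) = j (u e)) : ∃ g : N1 Γ j ≃ₗ[ℝ] N1 Γ j,
      (∀ x v w, (g x).1 v w = x.1 (u v) (u w)) ∧
      (∀ x v w, (g.symm x).1 v w = x.1 (u.symm v) (u.symm w)) ∧
      (∀ x, Integral x → Integral (g x)) ∧ ∀ x, Integral x → Integral (g.symm x) := by
  have hfu' : ∀ e, (f⁻¹ : V ≃ᵃ[ℂ] V).linear (j e) = j (u.symm e) := by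
    intro e
    have h1 := hfu (u.symm e)
    rw [u.apply_symm_apply] at h1
    rw [← h1]
    change f.linear.symm (f.linear (j (u.symm e))) = _
    rw [LinearEquiv.symm_apply_apply]
  let g : N1 Γ j ≃ₗ[ℝ] N1 Γ j :=
    { toFun := fun x => ⟨pb u x.1, pb_N1 hf hfu x.2⟩
      map_add' := fun x y => rfl
      map_smul' := fun c x => rfl
      invFun := fun x => ⟨pb u.symm x.1, pb_N1 hf.inv hfu' x.2⟩
      left_inv := fun x => by
        apply Subtype.ext
        funext v w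
        change x.1 (u (u.symm v)) (u (u.symm w)) = _
        rw [u.apply_symm_apply, u.apply_symm_apply]
      right_inv := fun x => by
        apply Subtype.ext
        funext v w
        change x.1 (u.symm (u v)) (u.symm (u w)) = _
        rw [u.symm_apply_apply, u.symm_apply_apply] }
  refine ⟨g, fun _ _ _ => rfl, fun _ _ _ => rfl, ?_, ?_⟩
  · rintro x ⟨L, hL⟩
    exact ⟨_, isClass_pull hf hfu hL⟩
  · rintro x ⟨L, hL⟩
    exact ⟨_, isClass_pull hf.inv hfu' hL⟩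

end pull

namespace Pol

variable {h : E → E → ℂ} {Λ : AddSubgroup E} {G : Set (Module.End ℂ E)} {d : ℕ}
  {b : Module.Basis (Fin d) ℝ E}

theorem ord_of_int (P : Pol h Λ G d b) : ∃ N : ℕ, 0 < N ∧ ∀ a : Module.End ℂ E,
    (∀ g ∈ G, ∀ u w, h (a (g u)) (g w) = h (a u) w) →
    (∀ u ∈ Λ, ∀ w ∈ Λ, ∃ n : ℤ, (h (a u) w).im = n) → (N : ℝ) • a ∈ P.ord := by
  obtain ⟨N, hN, hNv⟩ := P.dual
  refine ⟨N, hN, fun a hG hi => ⟨fun g hg => ?_, fun v hv => ?_⟩⟩
  · rw [smul_mul_assoc, mul_smul_comm]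
    congr 1
    ext u
    have h2 : ∀ w, h ((a * g) u) w = h ((g * a) u) w := by
      intro w
      obtain ⟨w', rfl⟩ := P.surj hg w
      change h (a (g u)) (g w') = h (g (a u)) (g w')
      rw [hG g hg, P.unit g hg]
    have h3 : ∀ w, h w ((a * g) u) = h w ((g * a) u) := by
      intro w
      rw [P.herm.symm _ w, h2, ← P.herm.symm]
    exact herm_ext P.herm P.pos h3
  · exact hNv _ (fun w hw => hi v hv w hw)

omit [FiniteDimensional ℂ E] in
theorem ext_left (P : Pol h Λ G d b) {v v' : E} (hv : ∀ w, h v w = h v' w) : v = v' := by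
  apply herm_ext P.herm P.pos
  intro w
  rw [P.herm.symm v w, hv, ← P.herm.symm]

end Pol

omit [FiniteDimensional ℂ E] in
/-- Classes of line bundles are invariant forms which are integral on the lattice. -/
theorem isInt_of_integral (_ : Rel Γ j H₀) {x : N1 Γ j} (hx : Integral x) :
    Pol.IsInt (lattE Γ j) (opE Γ j) x.1 := by
  obtain ⟨L, H, ⟨hH, F, hF, hFe⟩, h1⟩ := hx
  have hpot : IsPot L H F := ⟨hF, hFe⟩
  refine ⟨⟨?_, ?_, ?_⟩, ?_, ?_⟩
  · intro u v w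
    rw [h1, h1, h1, map_add, hH.add_left]
  · intro c v w
    rw [h1, h1, map_smul, hH.smul_left]
  · intro v w
    rw [h1, h1]
    exact hH.symm _ _
  · rintro g ⟨γ, hγ, hg⟩ u w
    rw [h1, h1, hg, hg]
    exact h_inv hH hpot ⟨γ, hγ⟩ _ _
  · intro u hu w hw
    rw [h1]
    exact im_int hH hpot hu hw

omit [FiniteDimensional ℂ E] in
theorem mem_span_int (R : Rel Γ j H₀) (x : N1 Γ j) :
    x.1 ∈ Submodule.span ℝ {z | Pol.IsInt (lattE Γ j) (opE Γ j) z} := by
  refine Submodule.span_mono ?_ x.2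
  rintro h ⟨L, hL⟩
  exact isInt_of_integral R (x := ⟨h, Submodule.subset_span ⟨L, hL⟩⟩) ⟨L, hL⟩

variable {d : ℕ} {b : Module.Basis (Fin d) ℝ E}

/-- The operator of a class. -/
theorem exists_opN (R : Rel Γ j H₀)
    (P : Pol (fun u w => H₀ (j u) (j w)) (lattE Γ j) (opE Γ j) d b) :
    ∃ op : N1 Γ j →ₗ[ℝ] P.alg, (∀ x u w, x.1 u w = H₀ (j ((op x).1 u)) (j w)) ∧
      ∀ x, P.st (op x) = op x := by
  have h1 : ∀ x : N1 Γ j, ∃ a : P.alg, P.st a = a ∧ ∀ u w, x.1 u w = H₀ (j (a.1 u)) (j w) :=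
    fun x => P.span_op (mem_span_int R x)
  choose f hf1 hf2 using h1
  have hun : ∀ a a' : P.alg, (∀ u w, H₀ (j (a.1 u)) (j w) = H₀ (j (a'.1 u)) (j w)) → a = a' := by
    intro a a' h
    apply Subtype.ext
    ext u
    exact P.ext_left (h u)
  refine ⟨{ toFun := f
            map_add' := fun x y => hun _ _ fun u w => ?_
            map_smul' := fun c x => hun _ _ fun u w => ?_ }, hf2, hf1⟩
  · rw [← hf2]
    change x.1 u w + y.1 u w = H₀ (j ((f x).1 u + (f y).1 u)) (j w)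
    rw [map_add, R.herm.add_left, ← hf2, ← hf2]
  · rw [← hf2]
    change c • x.1 u w = H₀ (j (c • (f x).1 u)) (j w)
    rw [← Complex.coe_smul c ((f x).1 u), map_smul, R.herm.smul_left, ← hf2, Complex.real_smul]

end Pool.Agent.Y167
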