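import Pool.Agent.Y167.NS

/-!
# Good units preserve the boundary divisor
-/

set_option autoImplicit false

namespace Pool.Agent.Y167

open Finset Filter Topology
open Pool.Agent.W594.SYZ2 Pool.Agent.W594.SYZ2.TQ Pool.Agent.TH735.AQ Pool.Agent.TH128.SYZ

variable {V E : Type*} [NormedAddCommGroup V] [NormedSpace ℂ V] [FiniteDimensional ℂ V]
  [NormedAddCommGroup E] [NormedSpace ℂ E] [FiniteDimensional ℂ E] {Γ : Subgroup (V ≃ᵃ[ℂ] V)}
  {j : E →ₗ[ℂ] V} {H₀ : V → V → ℂ}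

omit [FiniteDimensional ℂ V] [FiniteDimensional ℂ E] in
/-- The displacement of a good unit is parallel to all mirrors. -/
theorem mirrorFixed (R : Rel Γ j H₀) {m : ℕ} {u : E ≃ₗ[ℂ] E}
    (hu : Pol.IsGood (lattE Γ j) (opE Γ j) m u) (e : E) : MirrorFixed Γ (j (u e - e)) := by
  rintro γ hγ - ⟨ℓ, hℓ, c, hfix⟩
  obtain ⟨x, hx1, hx2⟩ := R.exists_opE γ hγ
  -- `γ` is the identity on the kernel of `ℓ`
  have hex : ∃ v₁, ℓ v₁ = 1 := by
    have h1 : ∃ v, ℓ v ≠ 0 := by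
      by_contra hcon
      push Not at hcon
      exact hℓ (LinearMap.ext hcon)
    obtain ⟨v, hv⟩ := h1
    exact ⟨(ℓ v)⁻¹ • v, by rw [map_smul, smul_eq_mul, inv_mul_cancel₀ hv]⟩
  obtain ⟨v₁, hv₁⟩ := hex
  have hker : ∀ v, ℓ v = 0 → γ.linear v = v := by
    intro v hv
    have h1 := hfix (c • v₁) (by rw [map_smul, hv₁, smul_eq_mul, mul_one])
    have h2 := hfix (c • v₁ + v) (by rw [map_add, map_smul, hv₁, smul_eq_mul, mul_one, hv, add_zero])
    rw [act_add, h1] at h2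
    exact add_left_cancel h2
  have hdec : ∀ v, γ.linear v - v = ℓ v • (γ.linear v₁ - v₁) := by
    intro v
    have h1 := hker (v - ℓ v • v₁) (by rw [map_sub, map_smul, hv₁, smul_eq_mul, mul_one, sub_self])
    rw [map_sub, map_smul] at h1
    have h2 : γ.linear v = v - ℓ v • v₁ + ℓ v • γ.linear v₁ := by rw [← h1]; abel
    rw [h2, smul_sub]
    abel
  have hrank : ∃ (n : E) (ℓ' : E →ₗ[ℂ] ℂ), ∀ e, x e - e = ℓ' e • n := by
    by_cases h0 : ∀ e, ℓ (j e) = 0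
    · refine ⟨0, 0, fun e => R.inj ?_⟩
      rw [map_sub, hx2, hdec, h0, zero_smul, smul_zero, map_zero]
    · push Not at h0
      obtain ⟨e₁, he₁⟩ := h0
      refine ⟨(ℓ (j e₁))⁻¹ • (x e₁ - e₁), ℓ ∘ₗ j, fun e => R.inj ?_⟩
      rw [map_sub, hx2, hdec]
      change _ = j (ℓ (j e) • (ℓ (j e₁))⁻¹ • (x e₁ - e₁))
      rw [map_smul, map_smul, map_sub, hx2, hdec (j e₁), smul_smul (ℓ (j e₁))⁻¹,
        inv_mul_cancel₀ he₁, one_smul]
  have h1 := hu.refl x hx1 hrank e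
  rw [← hx2, h1]

/-- The displacement of a good unit lies in the kernels of the Chern forms of the components of
the boundary. -/
theorem ker_of_good (R : Rel Γ j H₀) {ι : Type*} [Fintype ι] (Δ : EffDiv Γ ι)
    (hΔ : NumTrivial Δ j) {m : ℕ} {u : E ≃ₗ[ℂ] E}
    (hu : Pol.IsGood (lattE Γ j) (opE Γ j) m u) (e : E) (i : ι) (hi : Δ.r i ≠ 0) (w : V) :
    Δ.H i (j (u e - e)) w = 0 := by
  obtain ⟨q, ρ, K, HK, hq, hρ, hK, hHK, hCY⟩ := hΔ
  have h1 := mirror_zero R.tq hHK hρ hq hK (mirrorFixed R hu e)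
  set k := j (u e - e) with hk
  have h2 := congrArg Complex.re (hCY (u e - e) (u e - e))
  rw [← hk, Complex.add_re, h1, zero_add, Complex.zero_re] at h2
  have h3 : ((q : ℂ) * ∑ i, (Δ.r i : ℂ) * Δ.H i k k).re = q * ∑ i, Δ.r i * (Δ.H i k k).re := by
    have e1 : (q : ℂ) = ((q : ℝ) : ℂ) := by push_cast; rfl
    rw [e1, Complex.re_ofReal_mul, Complex.re_sum]
    congr 1
    exact Finset.sum_congr rfl fun i _ => Complex.re_ofReal_mul _ _
  rw [h3] at h2
  have hq0 : (q : ℝ) ≠ 0 := by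
    have : 0 < q := hq
    exact_mod_cast this.ne'
  have h4 := (mul_eq_zero.1 h2).resolve_left hq0
  have hnef : ∀ i, IsNefForm (Δ.H i) := fun i =>
    nef_of_section R.tq (Δ.chern i) (Δ.sect i) (Δ.ne_zero i)
  have h5 := (Finset.sum_eq_zero_iff_of_nonneg fun i _ =>
    mul_nonneg (Δ.nonneg i) (hnef i k)).1 h4 i (Finset.mem_univ _)
  have h6 := (mul_eq_zero.1 h5).resolve_left hi
  exact h_isotropic (Δ.chern i).1 (hnef i) k h6 w

/-- The automorphism given by a good unit preserves the boundary. -/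
theorem delta_inv (R : Rel Γ j H₀) {ι : Type*} [Fintype ι] (Δ : EffDiv Γ ι)
    (hΔ : NumTrivial Δ j) {m : ℕ} {u : E ≃ₗ[ℂ] E}
    (hu : Pol.IsGood (lattE Γ j) (opE Γ j) m u) {f : V ≃ᵃ[ℂ] V}
    (hf : ∀ v, ∃ e, f v = v + j (u e - e)) (v : V) : Δ.mul (f v) = Δ.mul v := by
  unfold EffDiv.mul
  refine Finset.sum_congr rfl fun i _ => ?_
  by_cases hi : Δ.r i = 0
  · rw [hi, zero_mul, zero_mul]
  · congr 2
    obtain ⟨hH, F, hF, hFe⟩ := Δ.chern i
    have hpot : IsPot (Δ.L i) (Δ.H i) F := ⟨hF, hFe⟩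
    let g : V → ℂ := fun x => Complex.exp (-F x)
    have hg : Continuous g := hF.neg.cexp.continuous
    have hg0 : ∀ x, g x ≠ 0 := fun x => Complex.exp_ne_zero _
    have h1 : (fun x => Δ.s i (f x) * g (f x)) = fun x => Δ.s i x * g x := by
      funext x
      obtain ⟨e, he⟩ := hf x
      rw [he]
      exact section_ker R.tq hH hpot (Δ.sect i)
        (fun w => ker_of_good R Δ hΔ hu e i hi w) x
    have h2 := mult_comp (fun x => Δ.s i x * g x) f v
    rw [mult_mul hg hg0 (f v)] at h2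
    have h3 : mult (fun x => Δ.s i (f x) * g (f x)) v = mult (Δ.s i) v := by
      rw [h1, mult_mul hg hg0]
    rw [← h2]
    exact h3

end Pool.Agent.Y167
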