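import Pool.Agent.Y167.Cone

/-!
# Rational polyhedral fundamental domains from a covering of the open cone

`L` is a lattice in `W`, `Nf` a convex cone. If a group of automorphisms of `(L, Nf)` moves every
interior point of `Nf` into a cone generated by finitely many elements of `L ∩ Nf`, then it has a
rational polyhedral fundamental domain on the convex hull of the rational points of `Nf`.
-/

set_option autoImplicit false

namespace Pool.Agent.Y167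

open Finset Filter Topology

variable {W : Type*} [AddCommGroup W] [Module ℝ W]

/-- A lattice `L`, a convex cone `Nf`, a linear form `ξ₀` which is positive on `Nf` and integral on
`L`, and an interior point `y₀`. -/
structure CData (L : AddSubgroup W) (Nf : Set W) (ξ₀ : W →ₗ[ℝ] ℝ) (y₀ : W) (Y : Finset W) :
    Prop where
  add : ∀ x ∈ Nf, ∀ y ∈ Nf, x + y ∈ Nf
  smul : ∀ t : ℝ, 0 ≤ t → ∀ x ∈ Nf, t • x ∈ Nf
  xi_int : ∀ x ∈ L, ∃ n : ℤ, ξ₀ x = n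
  xi_pos : ∀ x ∈ Nf, x ≠ 0 → 0 < ξ₀ x
  fin : ∀ C : ℝ, {x | x ∈ L ∧ x ∈ Nf ∧ ξ₀ x ≤ C}.Finite
  y_L : y₀ ∈ L
  y_N : y₀ ∈ Nf
  y_int : ∀ x : W, ∃ C : ℝ, 0 < C ∧ C • y₀ - x ∈ Nf
  dom : ∀ η : W →ₗ[ℝ] ℝ, ∃ C : ℝ, ∀ x ∈ Nf, |η x| ≤ C * ξ₀ x
  sep : ∀ x : W, x ≠ 0 → ∃ η : W →ₗ[ℝ] ℝ, (∀ y ∈ L, ∃ n : ℤ, η y = n) ∧ η x ≠ 0
  Y_mem : ∀ y ∈ Y, y ∈ L ∧ y ∈ Nf
  Y_span : ∀ φ : W →ₗ[ℝ] W, (∀ y ∈ Y, φ y = 0) → φ = 0

/-- The convex hull of the rational points of `Nf`. -/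
def Cp (L : AddSubgroup W) (Nf : Set W) : Set W :=
  {x | ∃ S : Finset W, (∀ a ∈ S, a ∈ L ∧ a ∈ Nf) ∧ x ∈ cone S}

/-- A vector space over `ℚ` is not a finite union of proper subspaces. -/
theorem avoid {E ι : Type*} [AddCommGroup E] [Module ℚ E] (s : Finset ι) (sub : ι → Submodule ℚ E)
    (h : ∀ i ∈ s, sub i ≠ ⊤) : ∃ x, ∀ i ∈ s, x ∉ sub i := by
  classical
  have hnt : (⊤ : Submodule ℚ E) ∉ s.image sub := by
    rw [Finset.mem_image]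
    rintro ⟨g, hg, hg2⟩
    exact h g hg hg2
  have hne := Subspace.biUnion_ne_univ_of_top_notMem hnt
  by_contra hcon
  push Not at hcon
  apply hne
  rw [Set.eq_univ_iff_forall]
  intro η
  obtain ⟨g, hg, hgη⟩ := hcon η
  simp only [Set.mem_iUnion]
  exact ⟨sub g, Finset.mem_image_of_mem _ hg, hgη⟩

/-- The linear forms which are rational on `L`. -/
def ratl (L : AddSubgroup W) : Submodule ℚ (W →ₗ[ℝ] ℝ) where
  carrier := {η | ∃ k : ℕ, 0 < k ∧ ∀ x ∈ L, ∃ m : ℤ, (k : ℝ) * η x = m}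
  add_mem' := by
    rintro η ζ ⟨k, hk, h1⟩ ⟨l, hl, h2⟩
    refine ⟨k * l, Nat.mul_pos hk hl, fun x hx => ?_⟩
    obtain ⟨m, hm⟩ := h1 x hx
    obtain ⟨n, hn⟩ := h2 x hx
    refine ⟨l * m + k * n, ?_⟩
    push_cast
    rw [← hm, ← hn, LinearMap.add_apply]
    ring
  zero_mem' := ⟨1, one_pos, fun x _ => ⟨0, by simp⟩⟩
  smul_mem' := by
    rintro q η ⟨k, hk, h1⟩
    refine ⟨k * q.den, Nat.mul_pos hk q.den_pos, fun x hx => ?_⟩
    obtain ⟨m, hm⟩ := h1 x hx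
    refine ⟨q.num * m, ?_⟩
    have hq : (q : ℝ) * q.den = q.num := by
      exact_mod_cast q.mul_den_eq_num
    have h2 : (q • η) x = (q : ℝ) * η x := by
      rw [LinearMap.smul_apply, Rat.smul_def]
    rw [h2]
    push_cast
    rw [← hm, ← hq]
    ring

/-- The rational linear forms which are fixed by `g`. -/
def fixr (L : AddSubgroup W) (g : W ≃ₗ[ℝ] W) : Submodule ℚ (ratl L) where
  carrier := {η | ∀ x, η.1 (g x) = η.1 x}
  add_mem' := by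
    intro η ζ h1 h2 x
    have e1 : (η + ζ).1 (g x) = η.1 (g x) + ζ.1 (g x) := rfl
    have e2 : (η + ζ).1 x = η.1 x + ζ.1 x := rfl
    rw [e1, e2, h1, h2]
  zero_mem' := fun x => rfl
  smul_mem' := by
    intro q η h1 x
    have e1 : (q • η).1 (g x) = q • (η.1 (g x)) := rfl
    have e2 : (q • η).1 x = q • (η.1 x) := rfl
    rw [e1, e2, h1]

namespace CData

variable {L : AddSubgroup W} {Nf : Set W} {ξ₀ : W →ₗ[ℝ] ℝ} {y₀ : W} {Y : Finset W}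

theorem cone_Nf (D : CData L Nf ξ₀ y₀ Y) {S : Finset W} (hS : ∀ a ∈ S, a ∈ L ∧ a ∈ Nf) {x : W}
    (hx : x ∈ cone S) : x ∈ Nf := by
  refine cone_ind (p := fun x => x ∈ Nf) ?_ (fun x y hx hy => D.add x hx y hy)
    (fun t x ht hx => D.smul t ht x hx) (fun a ha => (hS a ha).2) hx
  have := D.smul 0 le_rfl _ D.y_N
  rwa [zero_smul] at this

theorem xi_nonneg (D : CData L Nf ξ₀ y₀ Y) {x : W} (hx : x ∈ Nf) : 0 ≤ ξ₀ x := by
  by_cases h : x = 0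
  · rw [h, map_zero]
  · exact (D.xi_pos x hx h).le

theorem finite_small (D : CData L Nf ξ₀ y₀ Y) (𝒢 : Subgroup (W ≃ₗ[ℝ] W))
    (hL : ∀ g ∈ 𝒢, ∀ x ∈ L, g x ∈ L) (hN : ∀ g ∈ 𝒢, ∀ x ∈ Nf, g x ∈ Nf) (C : ℝ) :
    {g : W ≃ₗ[ℝ] W | g ∈ 𝒢 ∧ ∀ y ∈ Y, ξ₀ (g y) ≤ C}.Finite := by
  classical
  let f : (W ≃ₗ[ℝ] W) → (Y → W) := fun g y => g y.1
  refine Set.Finite.of_finite_image (f := f) ?_ ?_
  · refine (Set.Finite.pi' (fun _ : Y => D.fin C)).subset ?_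
    rintro _ ⟨g, ⟨hg, hgy⟩, rfl⟩ y
    exact ⟨hL g hg _ (D.Y_mem _ y.2).1, hN g hg _ (D.Y_mem _ y.2).2, hgy _ y.2⟩
  · rintro g - h - hgh
    have h1 : (g : W →ₗ[ℝ] W) - (h : W →ₗ[ℝ] W) = 0 := by
      apply D.Y_span
      intro y hy
      have := congrFun hgh ⟨y, hy⟩
      simp only [f] at this
      simp [this]
    ext x
    have h2 := congrArg (fun φ : W →ₗ[ℝ] W => φ x) h1
    simpa [sub_eq_zero] using h2

/-- There is an integral linear form which is positive on the cone and has a trivial stabiliser. -/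
theorem exists_xi (D : CData L Nf ξ₀ y₀ Y) (𝒢 : Subgroup (W ≃ₗ[ℝ] W))
    (hL : ∀ g ∈ 𝒢, ∀ x ∈ L, g x ∈ L) (hN : ∀ g ∈ 𝒢, ∀ x ∈ Nf, g x ∈ Nf) :
    ∃ ξ : W →ₗ[ℝ] ℝ, (∀ x ∈ L, ∃ n : ℤ, ξ x = n) ∧
      (∃ c : ℝ, 0 < c ∧ ∀ x ∈ Nf, c * ξ₀ x ≤ ξ x) ∧
      ∀ g ∈ 𝒢, g ≠ 1 → ∃ x, ξ (g x) ≠ ξ x := by
  classical
  set C3 : ℝ := ∑ y ∈ Y, 3 * ξ₀ y with hC3
  have hfin := (D.finite_small 𝒢 hL hN C3).subset
    (show {g : W ≃ₗ[ℝ] W | (g ∈ 𝒢 ∧ ∀ y ∈ Y, ξ₀ (g y) ≤ C3) ∧ g ≠ 1} ⊆ _ from fun g hg => hg.1)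
  have hproper : ∀ g ∈ hfin.toFinset, fixr L g ≠ ⊤ := by
    intro g hg htop
    have hg1 : g ≠ 1 := ((hfin.mem_toFinset).1 hg).2
    have hex : ∃ x, g x ≠ x := by
      by_contra hcon
      push Not at hcon
      exact hg1 (LinearEquiv.ext hcon)
    obtain ⟨x, hx⟩ := hex
    obtain ⟨η, h1, h2⟩ := D.sep (g x - x) (sub_ne_zero.2 hx)
    have hη : η ∈ ratl L := ⟨1, one_pos, fun y hy => by
      obtain ⟨n, hn⟩ := h1 y hy
      exact ⟨n, by rw [hn]; simp⟩⟩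
    have h3 : (⟨η, hη⟩ : ratl L) ∈ fixr L g := by rw [htop]; exact Submodule.mem_top
    have h4 : η (g x) = η x := h3 x
    rw [map_sub, h4, sub_self] at h2
    exact h2 rfl
  have hex := avoid (E := ratl L) hfin.toFinset (fixr L) hproper
  obtain ⟨⟨η, k, hk, hηint⟩, hη⟩ := hex
  obtain ⟨C, hC⟩ := D.dom η
  -- bad values of m
  have hbad : {m : ℕ | 0 < m ∧ ∃ g ∈ hfin.toFinset, ∀ x,
      (m : ℝ) * ξ₀ (g x) + η (g x) = (m : ℝ) * ξ₀ x + η x}.Finite := by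
    have : {m : ℕ | 0 < m ∧ ∃ g ∈ hfin.toFinset, ∀ x,
        (m : ℝ) * ξ₀ (g x) + η (g x) = (m : ℝ) * ξ₀ x + η x} ⊆
        ⋃ g ∈ hfin.toFinset, {m : ℕ | ∀ x,
        (m : ℝ) * ξ₀ (g x) + η (g x) = (m : ℝ) * ξ₀ x + η x} := by
      rintro m ⟨-, g, hg, h⟩
      simp only [Set.mem_iUnion]
      exact ⟨g, hg, h⟩
    refine Set.Finite.subset (Set.Finite.biUnion (Finset.finite_toSet _) ?_) this
    intro g hg
    apply Set.Subsingleton.finite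
    intro m hm n hn
    by_contra hmn
    apply hη g hg
    intro x
    have h1 := hm x
    have h2 := hn x
    have h3 : ((m : ℝ) - n) * (ξ₀ (g x) - ξ₀ x) = 0 := by linarith
    rcases mul_eq_zero.1 h3 with h4 | h4
    · exact absurd (by exact_mod_cast sub_eq_zero.1 h4) hmn
    · have h5 : ξ₀ (g x) = ξ₀ x := sub_eq_zero.1 h4
      rw [h5] at h1
      linarith
  obtain ⟨m, hm1, hm2⟩ : ∃ m : ℕ, (⌈2 * |C|⌉₊ + 1 ≤ m) ∧ m ∉ {m : ℕ | 0 < m ∧ ∃ g ∈ hfin.toFinset, ∀ x,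
      (m : ℝ) * ξ₀ (g x) + η (g x) = (m : ℝ) * ξ₀ x + η x} := by
    have h1 : (Set.Ici (⌈2 * |C|⌉₊ + 1)).Infinite := Set.Ici_infinite _
    obtain ⟨m, h2, h3⟩ := (h1.sdiff hbad).nonempty
    exact ⟨m, h2, h3⟩
  have hmpos : 0 < m := by omega
  have hmC : 2 * |C| ≤ (m : ℝ) := by
    have h1 := Nat.le_ceil (2 * |C|)
    have h2 : ((⌈2 * |C|⌉₊ : ℕ) : ℝ) + 1 ≤ m := by exact_mod_cast hm1
    linarith
  have hbd : ∀ x ∈ Nf, |η x| ≤ (m : ℝ) / 2 * ξ₀ x := by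
    intro x hx
    have h1 := D.xi_nonneg hx
    refine (hC x hx).trans ?_
    refine mul_le_mul_of_nonneg_right ?_ h1
    have := le_abs_self C
    linarith
  have hkr : (0 : ℝ) < k := by exact_mod_cast hk
  have hmr : (0 : ℝ) < m := by exact_mod_cast hmpos
  refine ⟨(k : ℝ) • ((m : ℝ) • ξ₀ + η), ?_, ⟨(k : ℝ) * (m / 2), by positivity, ?_⟩, ?_⟩
  · intro x hx
    obtain ⟨a, ha⟩ := D.xi_int x hx
    obtain ⟨b, hb⟩ := hηint x hx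
    refine ⟨k * (m * a) + b, ?_⟩
    rw [LinearMap.smul_apply, LinearMap.add_apply, LinearMap.smul_apply, smul_eq_mul, smul_eq_mul,
      mul_add, hb, ha]
    push_cast
    ring
  · intro x hx
    have h1 := (abs_le.1 (hbd x hx)).1
    rw [LinearMap.smul_apply, LinearMap.add_apply, LinearMap.smul_apply, smul_eq_mul, smul_eq_mul,
      mul_assoc]
    exact mul_le_mul_of_nonneg_left (by linarith) hkr.le
  · intro g hg hg1
    by_contra hcon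
    push Not at hcon
    have hcon' : ∀ x, (m : ℝ) * ξ₀ (g x) + η (g x) = (m : ℝ) * ξ₀ x + η x := by
      intro x
      have h1 := hcon x
      simp only [LinearMap.smul_apply, LinearMap.add_apply, smul_eq_mul] at h1
      exact mul_left_cancel₀ hkr.ne' h1
    apply hm2
    refine ⟨hmpos, g, ?_, hcon'⟩
    rw [hfin.mem_toFinset]
    refine ⟨⟨hg, fun y hy => ?_⟩, hg1⟩
    have hyN := (D.Y_mem y hy).2
    have h1 := (abs_le.1 (hbd y hyN)).2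
    have h2 := (abs_le.1 (hbd _ (hN g hg y hyN))).1
    have h3 := hcon' y
    have h4 : (m : ℝ) * ξ₀ (g y) ≤ m * (3 * ξ₀ y) := by nlinarith
    have h5 : ξ₀ (g y) ≤ 3 * ξ₀ y := le_of_mul_le_mul_left h4 hmr
    exact h5.trans (Finset.single_le_sum (f := fun y => 3 * ξ₀ y)
      (fun y hy => by have := D.xi_nonneg (D.Y_mem y hy).2; positivity) hy)

/-- Dickson's lemma for the values of an integral linear form on the translates of finitely many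
elements of the cone. -/
theorem exists_dickson (D : CData L Nf ξ₀ y₀ Y) (𝒢 : Subgroup (W ≃ₗ[ℝ] W))
    (hL : ∀ g ∈ 𝒢, ∀ x ∈ L, g x ∈ L) (hN : ∀ g ∈ 𝒢, ∀ x ∈ Nf, g x ∈ Nf)
    {ξ : W →ₗ[ℝ] ℝ} (hξ : ∀ x ∈ L, ∃ n : ℤ, ξ x = n) {c : ℝ} (hc : 0 < c)
    (hξc : ∀ x ∈ Nf, c * ξ₀ x ≤ ξ x) (F : Finset W) (hF : ∀ a ∈ F, a ∈ L ∧ a ∈ Nf) :
    ∃ T : Finset (W ≃ₗ[ℝ] W), (∀ t ∈ T, t ∈ 𝒢) ∧
      ∀ g ∈ 𝒢, ∃ t ∈ T, ∀ a ∈ F, ξ (t a) ≤ ξ (g a) := by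
  classical
  let e := F.equivFin
  let v : 𝒢 → (Fin F.card → ℕ) := fun g i => ⌊ξ (g.1 (e.symm i).1)⌋₊
  have hv : ∀ (g : 𝒢) (i : Fin F.card), ((v g i : ℕ) : ℝ) = ξ (g.1 (e.symm i).1) := by
    intro g i
    obtain ⟨n, hn⟩ := hξ _ (hL g.1 g.2 _ (hF _ (e.symm i).2).1)
    have h0 : 0 ≤ ξ (g.1 (e.symm i).1) := by
      have h1 := hN g.1 g.2 _ (hF _ (e.symm i).2).2
      exact le_trans (mul_nonneg hc.le (D.xi_nonneg h1)) (hξc _ h1)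
    simp only [v]
    rw [hn] at h0 ⊢
    have h2 : 0 ≤ n := by exact_mod_cast h0
    obtain ⟨k, rfl⟩ := Int.eq_ofNat_of_zero_le h2
    simp
  obtain ⟨T, hT, h⟩ := dickson v
  refine ⟨(hT.image Subtype.val).toFinset, ?_, ?_⟩
  · intro t ht
    rw [Set.Finite.mem_toFinset] at ht
    obtain ⟨g, -, rfl⟩ := ht
    exact g.2
  · intro g hg
    obtain ⟨t, ht, hle⟩ := h ⟨g, hg⟩
    refine ⟨t.1, by rw [Set.Finite.mem_toFinset]; exact ⟨t, ht, rfl⟩, fun a ha => ?_⟩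
    have h1 := hle (e ⟨a, ha⟩)
    have h2 := hv t (e ⟨a, ha⟩)
    have h3 := hv ⟨g, hg⟩ (e ⟨a, ha⟩)
    rw [Equiv.symm_apply_apply] at h2 h3
    simp only at h2 h3
    rw [← h2, ← h3]
    exact_mod_cast h1

theorem le_of_cone {ξ : W →ₗ[ℝ] ℝ} {F : Finset W} {t g : W →ₗ[ℝ] W}
    (h : ∀ a ∈ F, ξ (t a) ≤ ξ (g a)) {x : W} (hx : x ∈ cone F) : ξ (t x) ≤ ξ (g x) := by
  refine cone_ind (p := fun x => ξ (t x) ≤ ξ (g x)) (by simp) ?_ ?_ h hx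
  · intro x y hx hy
    simp only [map_add]
    exact add_le_add hx hy
  · intro s x hs hx
    simp only [map_smul]
    exact mul_le_mul_of_nonneg_left hx hs

/-- The part of a cone where finitely many integral linear forms are nonnegative. -/
theorem cut_many (S : Finset W) (hS : ∀ a ∈ S, a ∈ L ∧ a ∈ Nf) (D : CData L Nf ξ₀ y₀ Y)
    (Φ : Finset (W →ₗ[ℝ] ℝ)) (hΦ : ∀ φ ∈ Φ, ∀ x ∈ L, ∃ n : ℤ, φ x = n) :
    ∃ S' : Finset W, (∀ a ∈ S', a ∈ L ∧ a ∈ Nf) ∧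
      ∀ x, x ∈ cone S' ↔ x ∈ cone S ∧ ∀ φ ∈ Φ, 0 ≤ φ x := by
  classical
  induction Φ using Finset.induction_on with
  | empty => exact ⟨S, hS, fun x => by simp⟩
  | insert φ Φ _ ih =>
    obtain ⟨S1, hS1, h1⟩ := ih fun ψ hψ => hΦ ψ (Finset.mem_insert_of_mem hψ)
    obtain ⟨S2, hS2, h2⟩ := cone_cut S1 φ (fun a => a ∈ L ∧ a ∈ Nf) hS1 (by
      intro a ha b hb hpa hpb
      obtain ⟨m, hm⟩ := hΦ φ (Finset.mem_insert_self _ _) a (hS1 a ha).1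
      obtain ⟨n, hn⟩ := hΦ φ (Finset.mem_insert_self _ _) b (hS1 b hb).1
      refine ⟨?_, ?_⟩
      · rw [hm, hn]
        refine L.sub_mem ?_ ?_
        · rw [Int.cast_smul_eq_zsmul]; exact L.zsmul_mem (hS1 b hb).1 m
        · rw [Int.cast_smul_eq_zsmul]; exact L.zsmul_mem (hS1 a ha).1 n
      · rw [sub_eq_add_neg, ← neg_smul]
        exact D.add _ (D.smul _ hpa.le _ (hS1 b hb).2) _ (D.smul _ (by linarith) _ (hS1 a ha).2))
    refine ⟨S2, hS2, fun x => ?_⟩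
    rw [h2, h1, Finset.forall_mem_insert]
    tauto

/-- **Rational polyhedral fundamental domains.** -/
theorem domain (D : CData L Nf ξ₀ y₀ Y) (𝒢 : Subgroup (W ≃ₗ[ℝ] W))
    (hL : ∀ g ∈ 𝒢, ∀ x ∈ L, g x ∈ L) (hN : ∀ g ∈ 𝒢, ∀ x ∈ Nf, g x ∈ Nf)
    (F : Finset W) (hF : ∀ a ∈ F, a ∈ L ∧ a ∈ Nf)
    (hcov : ∀ x, (∃ t : ℝ, 0 < t ∧ x - t • y₀ ∈ Nf) → ∃ g ∈ 𝒢, g x ∈ cone F) :
    ∃ S : Finset W, (∀ a ∈ S, a ∈ L ∧ a ∈ Nf) ∧
      (∀ x, x ∈ Cp L Nf ↔ ∃ g ∈ 𝒢, g x ∈ cone S) ∧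
      ∀ g ∈ 𝒢, g ≠ 1 → ∃ φ : W →ₗ[ℝ] ℝ, φ ≠ 0 ∧ (∀ x ∈ cone S, 0 ≤ φ x) ∧
        ∀ x ∈ cone S, φ (g x) ≤ 0 := by
  classical
  obtain ⟨ξ, hξ, ⟨c, hc, hξc⟩, hstab⟩ := D.exists_xi 𝒢 hL hN
  have hξpos : ∀ x ∈ Nf, x ≠ 0 → 0 < ξ x := fun x hx h0 =>
    lt_of_lt_of_le (mul_pos hc (D.xi_pos x hx h0)) (hξc x hx)
  have hξnn : ∀ x ∈ Nf, 0 ≤ ξ x := fun x hx =>
    le_trans (mul_nonneg hc.le (D.xi_nonneg hx)) (hξc x hx)
  obtain ⟨T, hT𝒢, hT⟩ := D.exists_dickson 𝒢 hL hN hξ hc hξc F hF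
  -- the pieces
  have hpiece : ∀ t : W ≃ₗ[ℝ] W, t ∈ T → ∃ S' : Finset W, (∀ a ∈ S', a ∈ L ∧ a ∈ Nf) ∧
      ∀ x, x ∈ cone S' ↔ x ∈ cone F ∧ ∀ t' ∈ T, ξ (t x) ≤ ξ (t' x) := by
    intro t ht
    obtain ⟨S', hS', h⟩ := D.cut_many F hF
      (T.image fun t' : W ≃ₗ[ℝ] W => ξ.comp (t' : W →ₗ[ℝ] W) - ξ.comp (t : W →ₗ[ℝ] W)) (by
        intro φ hφ x hx
        obtain ⟨t', ht', rfl⟩ := Finset.mem_image.1 hφ
        obtain ⟨m, hm⟩ := hξ _ (hL t' (hT𝒢 t' ht') x hx)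
        obtain ⟨n, hn⟩ := hξ _ (hL t (hT𝒢 t ht) x hx)
        exact ⟨m - n, by simp [hm, hn]⟩)
    refine ⟨S', hS', fun x => ?_⟩
    rw [h]
    simp only [Finset.forall_mem_image, LinearMap.sub_apply, LinearMap.comp_apply,
      LinearEquiv.coe_coe, sub_nonneg]
  choose! P hP hPc using hpiece
  let S0 : Finset W := T.biUnion fun t => (P t).image t
  let S : Finset W := S0.filter (· ≠ 0)
  have hSS0 : ∀ x, x ∈ cone S0 → x ∈ cone S := by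
    intro x hx
    refine cone_le (fun a ha => ?_) hx
    by_cases h : a = 0
    · rw [h]; exact zero_mem_cone S
    · exact mem_cone_self (Finset.mem_filter.2 ⟨ha, h⟩)
  have hSmem : ∀ a ∈ S, ∃ t ∈ T, ∃ b ∈ P t, t b = a := by
    intro a ha
    obtain ⟨t, ht, h1⟩ := Finset.mem_biUnion.1 (Finset.mem_filter.1 ha).1
    obtain ⟨b, hb, rfl⟩ := Finset.mem_image.1 h1
    exact ⟨t, ht, b, hb, rfl⟩
  have hSLN : ∀ a ∈ S, a ∈ L ∧ a ∈ Nf := by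
    intro a ha
    obtain ⟨t, ht, b, hb, rfl⟩ := hSmem a ha
    exact ⟨hL t (hT𝒢 t ht) _ (hP t ht b hb).1, hN t (hT𝒢 t ht) _ (hP t ht b hb).2⟩
  have hSpos : ∀ a ∈ S, 0 < ξ a := fun a ha =>
    hξpos a (hSLN a ha).2 (Finset.mem_filter.1 ha).2
  -- the Dirichlet property
  have hdir : ∀ x ∈ cone S, ∀ g ∈ 𝒢, ξ x ≤ ξ (g x) := by
    intro x hx g hg
    have h1 : ∀ a ∈ S, ξ ((LinearMap.id : W →ₗ[ℝ] W) a) ≤ ξ ((g : W →ₗ[ℝ] W) a) := by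
      intro a ha
      obtain ⟨t, ht, b, hb, rfl⟩ := hSmem a ha
      have h2 := (hPc t ht b).1 (mem_cone_self hb)
      obtain ⟨t', ht', h3⟩ := hT (g * t) (𝒢.mul_mem hg (hT𝒢 t ht))
      have h4 : ξ ((t' : W →ₗ[ℝ] W) b) ≤ ξ (((g * t : W ≃ₗ[ℝ] W) : W →ₗ[ℝ] W) b) :=
        le_of_cone (fun a ha => h3 a ha) h2.1
      exact (h2.2 t' ht').trans h4
    exact le_of_cone h1 hx
  -- the interior is covered
  have hcov2 : ∀ x, (∃ t : ℝ, 0 < t ∧ x - t • y₀ ∈ Nf) → ∃ g ∈ 𝒢, g x ∈ cone S := by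
    intro x hx
    obtain ⟨g, hg, hgx⟩ := hcov x hx
    have hTne : T.Nonempty := by
      obtain ⟨t, ht, -⟩ := hT 1 𝒢.one_mem
      exact ⟨t, ht⟩
    obtain ⟨t, ht, hmin⟩ := Finset.exists_min_image T (fun t => ξ (t (g x))) hTne
    have h1 : g x ∈ cone (P t) := (hPc t ht _).2 ⟨hgx, hmin⟩
    refine ⟨t * g, 𝒢.mul_mem (hT𝒢 t ht) hg, hSS0 _ ?_⟩
    have h2 : (t : W →ₗ[ℝ] W) (g x) ∈ cone ((P t).image (t : W →ₗ[ℝ] W)) := cone_image _ h1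
    refine cone_mono ?_ h2
    exact Finset.subset_biUnion_of_mem (fun t : W ≃ₗ[ℝ] W => (P t).image t) ht
  -- closedness argument
  have hclos : ∀ x, x ∈ Cp L Nf → ∃ g ∈ 𝒢, g x ∈ cone S := by
    rintro x ⟨A', hA', hx⟩
    let δ : ℕ → ℝ := fun n => 1 / ((n : ℝ) + 1)
    have hδpos : ∀ n, 0 < δ n := fun n => by simp only [δ]; positivity
    have hδ : Tendsto δ atTop (𝓝 0) := tendsto_one_div_add_atTop_nhds_zero_nat
    have hxN : x ∈ Nf := D.cone_Nf hA' hx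
    have hg : ∀ n, ∃ g ∈ 𝒢, g (x + δ n • y₀) ∈ cone S := by
      intro n
      apply hcov2
      refine ⟨δ n, hδpos n, ?_⟩
      rwa [add_sub_cancel_right]
    choose g hg𝒢 hgS using hg
    obtain ⟨T', hT'𝒢, hT'⟩ := D.exists_dickson 𝒢 hL hN hξ hc hξc (insert y₀ A') (by
      intro a ha
      rcases Finset.mem_insert.1 ha with rfl | h
      · exact ⟨D.y_L, D.y_N⟩
      · exact hA' a h)
    set C : ℝ := ∑ t ∈ T', ξ (t y₀) with hC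
    have hbound : ∀ n, ξ (g n y₀) ≤ C := by
      intro n
      obtain ⟨t, ht, h1⟩ := hT' (g n) (hg𝒢 n)
      have h2 : ξ (t x) ≤ ξ (g n x) := by
        have : ξ ((t : W →ₗ[ℝ] W) x) ≤ ξ ((g n : W →ₗ[ℝ] W) x) :=
          le_of_cone (fun a ha => h1 a (Finset.mem_insert_of_mem ha)) hx
        exact this
      have h3 := hdir _ (hgS n) (t * (g n)⁻¹) (𝒢.mul_mem (hT'𝒢 t ht) (𝒢.inv_mem (hg𝒢 n)))
      have h4 : (t * (g n)⁻¹) (g n (x + δ n • y₀)) = t (x + δ n • y₀) := by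
        have : (t * (g n)⁻¹) (g n (x + δ n • y₀)) = (t * (g n)⁻¹ * g n) (x + δ n • y₀) := rfl
        rw [this, inv_mul_cancel_right]
      rw [h4, map_add, map_add, map_add, map_add, map_smul, map_smul, map_smul, map_smul,
        smul_eq_mul, smul_eq_mul] at h3
      have h5 : δ n * ξ (g n y₀) ≤ δ n * ξ (t y₀) := by linarith
      have h6 : ξ (g n y₀) ≤ ξ (t y₀) := le_of_mul_le_mul_left h5 (hδpos n)
      refine h6.trans (Finset.single_le_sum (f := fun t : W ≃ₗ[ℝ] W => ξ (t y₀)) ?_ ht)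
      intro t ht
      exact hξnn _ (hN t (hT'𝒢 t ht) _ D.y_N)
    -- finitely many g
    have hYb : ∃ B : ℝ, ∀ n, ∀ y ∈ Y, ξ₀ (g n y) ≤ B := by
      choose! K hK using D.y_int
      refine ⟨∑ y ∈ Y, K y * C / c, fun n y hy => ?_⟩
      have hC0 : 0 ≤ C := le_trans (hξnn _ (hN _ (hg𝒢 n) _ D.y_N)) (hbound n)
      have h1 : g n (K y • y₀ - y) ∈ Nf := hN _ (hg𝒢 n) _ (hK y).2
      have h2 := hξnn _ h1
      rw [map_sub, map_sub, map_smul, map_smul, smul_eq_mul, sub_nonneg] at h2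
      have h3 := hξc _ (hN _ (hg𝒢 n) _ (D.Y_mem y hy).2)
      have h4 : c * ξ₀ (g n y) ≤ K y * C := by
        refine h3.trans (h2.trans ?_)
        exact mul_le_mul_of_nonneg_left (hbound n) (hK y).1.le
      have h5 : ξ₀ (g n y) ≤ K y * C / c := by
        rw [le_div_iff₀ hc]; linarith
      refine h5.trans (Finset.single_le_sum (f := fun y => K y * C / c) ?_ hy)
      intro y _
      exact div_nonneg (mul_nonneg (hK y).1.le hC0) hc.le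
    obtain ⟨B, hB⟩ := hYb
    have hfin := D.finite_small 𝒢 hL hN B
    have hrange : (Set.range g).Finite := hfin.subset (by
      rintro _ ⟨n, rfl⟩
      exact ⟨hg𝒢 n, hB n⟩)
    -- pigeonhole
    obtain ⟨h, hh⟩ : ∃ h : W ≃ₗ[ℝ] W, {n | g n = h}.Infinite := by
      by_contra hcon
      push Not at hcon
      have h1 : (Set.univ : Set ℕ) ⊆ ⋃ h ∈ Set.range g, {n | g n = h} := by
        intro n _
        simp only [Set.mem_iUnion]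
        exact ⟨g n, ⟨n, rfl⟩, rfl⟩
      have h2 : (⋃ h ∈ Set.range g, {n | g n = h}).Finite :=
        hrange.biUnion fun h _ => by simpa using hcon h
      exact Set.infinite_univ (h2.subset h1)
    have hh𝒢 : h ∈ 𝒢 := by
      obtain ⟨n, hn⟩ := hh.nonempty
      have hn : g n = h := hn
      rw [← hn]; exact hg𝒢 n
    refine ⟨h, hh𝒢, ?_⟩
    let k : ℕ → ℕ := Nat.nth (fun n => g n = h)
    have hk : StrictMono k := Nat.nth_strictMono hh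
    have hkm : ∀ n, g (k n) = h := fun n => Nat.nth_mem_of_infinite hh n
    refine cone_closed (S := S) ξ hSpos (p := h x) (q := h y₀) (δ := δ ∘ k)
      (hδ.comp hk.tendsto_atTop) (fun n => ?_)
    have h1 := hgS (k n)
    rw [hkm n, map_add, map_smul] at h1
    exact h1
  refine ⟨S, hSLN, fun x => ⟨hclos x, ?_⟩, ?_⟩
  · rintro ⟨g, hg, hgx⟩
    refine ⟨S.image (g⁻¹ : W ≃ₗ[ℝ] W), ?_, ?_⟩
    · intro a ha
      obtain ⟨b, hb, rfl⟩ := Finset.mem_image.1 ha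
      have hg' := 𝒢.inv_mem hg
      exact ⟨hL _ hg' _ (hSLN b hb).1, hN _ hg' _ (hSLN b hb).2⟩
    · have h1 : ((g⁻¹ : W ≃ₗ[ℝ] W) : W →ₗ[ℝ] W) (g x) ∈
          cone (S.image ((g⁻¹ : W ≃ₗ[ℝ] W) : W →ₗ[ℝ] W)) := cone_image _ hgx
      have h2 : ((g⁻¹ : W ≃ₗ[ℝ] W) : W →ₗ[ℝ] W) (g x) = x := by
        have : ((g⁻¹ : W ≃ₗ[ℝ] W) : W →ₗ[ℝ] W) (g x) = (g⁻¹ * g) x := rfl
        rw [this, inv_mul_cancel]
        rfl
      rw [h2] at h1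
      exact h1
  · intro g hg hg1
    have hginv : g⁻¹ ≠ 1 := by
      intro h
      exact hg1 (inv_eq_one.1 h)
    obtain ⟨x, hx⟩ := hstab g⁻¹ (𝒢.inv_mem hg) hginv
    refine ⟨ξ.comp ((g⁻¹ : W ≃ₗ[ℝ] W) : W →ₗ[ℝ] W) - ξ, ?_, ?_, ?_⟩
    · intro h0
      have h1 := congrArg (fun φ : W →ₗ[ℝ] ℝ => φ x) h0
      simp only [LinearMap.sub_apply, LinearMap.comp_apply, LinearMap.zero_apply] at h1
      exact hx (sub_eq_zero.1 h1)
    · intro x hx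
      have h1 := hdir x hx g⁻¹ (𝒢.inv_mem hg)
      simp only [LinearMap.sub_apply, LinearMap.comp_apply, sub_nonneg]
      exact h1
    · intro x hx
      have h1 := hdir x hx g hg
      simp only [LinearMap.sub_apply, LinearMap.comp_apply, sub_nonpos]
      have h2 : ((g⁻¹ : W ≃ₗ[ℝ] W) : W →ₗ[ℝ] W) (g x) = x := by
        have : ((g⁻¹ : W ≃ₗ[ℝ] W) : W →ₗ[ℝ] W) (g x) = (g⁻¹ * g) x := rfl
        rw [this, inv_mul_cancel]
        rfl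
      rw [h2]
      exact h1

end CData

end Pool.Agent.Y167
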