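import Pool.Agent.Y167.Theta
import Pool.Agent.TH735.AQ.Nec

/-!
# Base point free line bundles on torus quotients with a given semidefinite Chern form
-/

set_option autoImplicit false

namespace Pool.Agent.Y167

open Finset
open Pool.Agent.W594.SYZ2 Pool.Agent.W594.SYZ2.TQ Pool.Agent.TH735.AQ

variable {V : Type*} [NormedAddCommGroup V] [NormedSpace ℂ V] [FiniteDimensional ℂ V]
  {Γ : Subgroup (V ≃ᵃ[ℂ] V)} {H : V → V → ℂ}

omit [FiniteDimensional ℂ V] in
theorem card_pos (hΓ : IsTorusQuotient Γ) : 0 < Nat.card (Lin Γ) := by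
  have := finite_Lin hΓ
  exact Nat.card_pos

omit [FiniteDimensional ℂ V] in
/-- A point which is fixed up to torsion. -/
theorem exists_center (hΓ : IsTorusQuotient Γ) :
    ∃ t₀ : V, ∀ γ ∈ Γ, (Nat.card (Lin Γ) : ℝ) • (γ t₀ - t₀) ∈ latt Γ := by
  classical
  have := finite_Lin hΓ
  have : Fintype (Lin Γ) := Fintype.ofFinite _
  have hN : (Fintype.card (Lin Γ) : ℂ) ≠ 0 := by
    exact_mod_cast Fintype.card_ne_zero
  have hl : ∀ g : Lin Γ, ∃ γ ∈ Γ, γ.linear = g.1 := fun g => g.2
  choose lf hlf hlf' using hl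
  refine ⟨(Fintype.card (Lin Γ) : ℂ)⁻¹ • ∑ g : Lin Γ, lf g 0, fun γ hγ => ?_⟩
  set t₀ : V := (Fintype.card (Lin Γ) : ℂ)⁻¹ • ∑ g : Lin Γ, lf g 0 with ht
  have h1 : (Fintype.card (Lin Γ) : ℂ) • t₀ = ∑ g : Lin Γ, lf g 0 := by
    rw [ht, smul_smul, mul_inv_cancel₀ hN, one_smul]
  let h : Lin Γ := ⟨γ.linear, γ, hγ, rfl⟩
  have h2 : ∀ g : Lin Γ, γ (lf g 0) - lf (h * g) 0 ∈ latt Γ := by
    intro g
    have h3 : (γ * lf g : V ≃ᵃ[ℂ] V) * (lf (h * g))⁻¹ ∈ Γ :=
      Γ.mul_mem (Γ.mul_mem hγ (hlf g)) (Γ.inv_mem (hlf _))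
    have h4 : ((γ * lf g : V ≃ᵃ[ℂ] V) * (lf (h * g))⁻¹)
        = AffineEquiv.constVAdd ℂ V (γ (lf g 0) - lf (h * g) 0) := by
      apply AffineEquiv.ext
      intro v
      change γ (lf g ((lf (h * g)).symm v)) = (γ (lf g 0) - lf (h * g) 0) + v
      have h5 : (lf (h * g)) ((lf (h * g)).symm v) = v := (lf (h * g)).apply_symm_apply v
      have h6 := act (lf (h * g)) ((lf (h * g)).symm v)
      rw [h5, hlf'] at h6
      have h7 : ((h * g : Lin Γ) : V ≃ₗ[ℂ] V) ((lf (h * g)).symm v)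
          = γ.linear (g.1 ((lf (h * g)).symm v)) := rfl
      have h8 := act (lf g) ((lf (h * g)).symm v)
      rw [hlf'] at h8
      rw [h7] at h6
      rw [h8, add_comm (g.1 _), act_add]
      generalize γ.linear (g.1 ((lf (h * g)).symm v)) = x at h6 ⊢
      rw [h6]
      abel
    rw [h4] at h3
    exact h3
  have h3 : (Nat.card (Lin Γ) : ℝ) • (γ t₀ - t₀) = ∑ g : Lin Γ, (γ (lf g 0) - lf (h * g) 0) := by
    have e1 : (Nat.card (Lin Γ) : ℝ) • (γ t₀ - t₀) = (Fintype.card (Lin Γ) : ℂ) • (γ t₀ - t₀) := by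
      rw [← Complex.coe_smul, Nat.card_eq_fintype_card]
      push_cast
      rfl
    rw [e1, Finset.sum_sub_distrib]
    have h4 : ∑ g : Lin Γ, lf (h * g) 0 = ∑ g : Lin Γ, lf g 0 :=
      Fintype.sum_equiv (Equiv.mulLeft h) _ _ fun g => rfl
    rw [h4, ← h1, smul_sub]
    congr 1
    rw [act γ t₀, smul_add, ← map_smul, h1, map_sum]
    have h5 : ∀ g : Lin Γ, γ (lf g 0) = γ.linear (lf g 0) + γ 0 := fun g => act γ _
    simp only [h5]
    rw [Finset.sum_add_distrib, Finset.sum_const, Finset.card_univ, ← Nat.cast_smul_eq_nsmul ℂ]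
  rw [h3]
  exact (latt Γ).sum_mem fun g _ => h2 g

/-- The vectors which have a multiple in the lattice. -/
def frac (Γ : Subgroup (V ≃ᵃ[ℂ] V)) (n : ℕ) : AddSubgroup V where
  carrier := {v | (n : ℝ) • v ∈ latt Γ}
  zero_mem' := by
    change (n : ℝ) • (0 : V) ∈ latt Γ
    rw [smul_zero]
    exact (latt Γ).zero_mem
  add_mem' := by
    intro a b ha hb
    change (n : ℝ) • (a + b) ∈ latt Γ
    rw [smul_add]
    exact (latt Γ).add_mem ha hb
  neg_mem' := by
    intro a ha
    change (n : ℝ) • (-a) ∈ latt Γ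
    rw [smul_neg]
    exact (latt Γ).neg_mem ha

omit [FiniteDimensional ℂ V] in
theorem mem_frac {n : ℕ} {v : V} : v ∈ frac Γ n ↔ (n : ℝ) • v ∈ latt Γ := Iff.rfl

omit [FiniteDimensional ℂ V] in
theorem latt_le_frac {n : ℕ} {v : V} (hv : v ∈ latt Γ) : v ∈ frac Γ n := by
  rw [mem_frac, Nat.cast_smul_eq_nsmul]
  exact (latt Γ).nsmul_mem hv n

omit [FiniteDimensional ℂ V] in
theorem frac_inv {n : ℕ} (γ : V ≃ᵃ[ℂ] V) (hγ : γ ∈ Γ) {v : V} (hv : v ∈ frac Γ n) :
    γ.linear v ∈ frac Γ n := by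
  rw [mem_frac] at hv ⊢
  have h1 : (n : ℝ) • γ.linear v = γ.linear ((n : ℝ) • v) := by
    rw [← Complex.coe_smul, ← Complex.coe_smul, map_smul]
  rw [h1]
  exact latt_inv γ hγ hv

/-- A semidefinite form is coercive on a subspace where it is definite. -/
theorem coercive (hH : IsHermitian H) (T : Submodule ℂ V) (hT : ∀ v ∈ T, v ≠ 0 → 0 < (H v v).re) :
    ∃ c : ℝ, 0 < c ∧ ∀ w ∈ T, c * ‖w‖ ^ 2 ≤ (H w w).re := by
  have : ProperSpace V := FiniteDimensional.proper ℂ V
  have hclosed : IsClosed (T : Set V) := T.closed_of_finiteDimensional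
  have hK : IsCompact (Metric.sphere (0 : V) 1 ∩ (T : Set V)) :=
    (isCompact_sphere _ _).inter_right hclosed
  rcases (Metric.sphere (0 : V) 1 ∩ (T : Set V)).eq_empty_or_nonempty with he | hne
  · refine ⟨1, one_pos, fun w hw => ?_⟩
    have : w = 0 := by
      by_contra hw0
      have hn : ‖w‖ ≠ 0 := norm_ne_zero_iff.2 hw0
      have h1 : ((‖w‖⁻¹ : ℝ) : ℂ) • w ∈ Metric.sphere (0 : V) 1 ∩ (T : Set V) := by
        refine ⟨?_, T.smul_mem _ hw⟩
        rw [mem_sphere_zero_iff_norm, norm_smul, Complex.norm_real, norm_inv, norm_norm,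
          inv_mul_cancel₀ hn]
      rw [he] at h1
      exact h1
    rw [this, h_zero_left hH]
    simp
  · obtain ⟨x, hx, hmin⟩ := hK.exists_isMinOn hne (diag_continuous hH).continuousOn
    have hx0 : x ≠ 0 := by
      rintro rfl
      have := hx.1
      rw [mem_sphere_zero_iff_norm, norm_zero] at this
      exact zero_ne_one this
    refine ⟨(H x x).re, hT x hx.2 hx0, fun w hw => ?_⟩
    by_cases hw0 : w = 0
    · rw [hw0, h_zero_left hH]
      simp
    · have hn : ‖w‖ ≠ 0 := norm_ne_zero_iff.2 hw0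
      have h1 : ((‖w‖⁻¹ : ℝ) : ℂ) • w ∈ Metric.sphere (0 : V) 1 ∩ (T : Set V) := by
        refine ⟨?_, T.smul_mem _ hw⟩
        rw [mem_sphere_zero_iff_norm, norm_smul, Complex.norm_real, norm_inv, norm_norm,
          inv_mul_cancel₀ hn]
      have h2 := hmin h1
      simp only [Set.mem_ofPred_eq] at h2
      rw [h_diag_smul hH, Complex.norm_real, norm_inv, norm_norm, inv_pow] at h2
      have hn2 : 0 < ‖w‖ ^ 2 := by positivity
      calc (H x x).re * ‖w‖ ^ 2 ≤ (‖w‖ ^ 2)⁻¹ * (H w w).re * ‖w‖ ^ 2 :=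
            mul_le_mul_of_nonneg_right h2 hn2.le
        _ = (H w w).re := by field_simp

omit [FiniteDimensional ℂ V] in
theorem prod_holo {ι : Type*} (s : Finset ι) (f : ι → V → ℂ)
    (hf : ∀ i ∈ s, Differentiable ℂ (f i)) : Differentiable ℂ fun v => ∏ i ∈ s, f i v := by
  classical
  induction s using Finset.induction_on with
  | empty => simp
  | insert i s hi ih =>
    have h1 : (fun v => ∏ j ∈ insert i s, f j v) = fun v => f i v * ∏ j ∈ s, f j v := by
      funext v
      rw [Finset.prod_insert hi]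
    rw [h1]
    exact (hf i (Finset.mem_insert_self _ _)).mul
      (ih fun j hj => hf j (Finset.mem_insert_of_mem hj))

omit [FiniteDimensional ℂ V] in
/-- A finite product of entire functions which are not identically zero has a non-zero. -/
theorem prod_ne {ι : Type*} (s : Finset ι) (f : ι → V → ℂ)
    (hf : ∀ i ∈ s, Differentiable ℂ (f i)) (h0 : ∀ i ∈ s, ∃ v, f i v ≠ 0) :
    ∃ v, ∏ i ∈ s, f i v ≠ 0 := by
  classical
  induction s using Finset.induction_on with
  | empty => exact ⟨0, by simp⟩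
  | insert i s hi ih =>
    have hs : ∀ j ∈ s, Differentiable ℂ (f j) := fun j hj => hf j (Finset.mem_insert_of_mem hj)
    obtain ⟨v, h1, h2⟩ := exists_common (hf i (Finset.mem_insert_self _ _)) (prod_holo s f hs)
      (h0 i (Finset.mem_insert_self _ _)) (ih hs fun j hj => h0 j (Finset.mem_insert_of_mem hj))
    exact ⟨v, by rw [Finset.prod_insert hi]; exact mul_ne_zero h1 h2⟩

/-- A semidefinite invariant form with even values on the lattice of fractions. -/
structure EvenForm (Γ : Subgroup (V ≃ᵃ[ℂ] V)) (n : ℕ) (H : V → V → ℂ) : Prop where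
  herm : IsHermitian H
  nef : IsNefForm H
  inv : ∀ γ ∈ Γ, ∀ v w, H (γ.linear v) (γ.linear w) = H v w
  int : ∀ v ∈ frac Γ n, ∀ w ∈ frac Γ n, ∃ k : ℤ, (H v w).im = 2 * k

/-- The theta function of the form, with its functional equation. -/
theorem EvenForm.exists_theta (hΓ : IsTorusQuotient Γ) {n : ℕ} (D : EvenForm Γ n H) :
    ∃ θ : V → ℂ, Differentiable ℂ θ ∧ θ 0 ≠ 0 ∧ ∀ c ∈ frac Γ n, ∀ y,
      θ (y + c) = Complex.exp (Real.pi * H y c + Real.pi / 2 * H c c) * θ y := by
  classical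
  have : FiniteDimensional ℝ V := FiniteDimensional.complexToReal V
  have hH := D.herm
  obtain ⟨P, hP1, hP2, hP3⟩ := exists_proj hΓ (ker hH) (by
    intro γ hγ v hv w
    have h1 := D.inv γ hγ v (γ.linear.symm w)
    rw [LinearEquiv.apply_symm_apply] at h1
    rw [h1]
    exact hv _)
  let p : V →ₗ[ℂ] V := LinearMap.id - P
  have hp : ∀ v, p v = v - P v := fun v => rfl
  have hHp : ∀ v w, H (p v) w = H v w := by
    intro v w
    rw [hp, h_sub_left hH, hP1 v w, sub_zero]
  have hHp' : ∀ v w, H v (p w) = H v w := by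
    intro v w
    rw [hH.symm (p w) v, hHp, ← hH.symm]
  let S : AddSubgroup V := (frac Γ n).map p.toAddMonoidHom
  have hS : ∀ w, w ∈ S ↔ ∃ c ∈ frac Γ n, p c = w := fun w => Iff.rfl
  have hrange : ∀ w ∈ LinearMap.range p, w ≠ 0 → 0 < (H w w).re := by
    rintro _ ⟨v, rfl⟩ hne
    refine lt_of_le_of_ne (D.nef _) fun h0 => hne ?_
    have h1 : p v ∈ ker hH := h_isotropic hH D.nef _ h0.symm
    have h2 := hP2 _ h1
    rw [hp, map_sub, hP2 _ (hP1 v), sub_self] at h2
    rw [hp, ← h2]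
  obtain ⟨cc, hcc, hcoer⟩ := coercive hH (LinearMap.range p) hrange
  have hSr : ∀ w ∈ S, w ∈ LinearMap.range p := by
    rintro _ ⟨c, -, rfl⟩
    exact ⟨c, rfl⟩
  have hint : ∀ v ∈ S, ∀ w ∈ S, ∃ k : ℤ, (H v w).im = 2 * k := by
    rintro _ ⟨c, hc, rfl⟩ _ ⟨d, hd, rfl⟩
    change ∃ k : ℤ, (H (p c) (p d)).im = 2 * k
    rw [hHp, hHp']
    exact D.int c hc d hd
  have hdisc : DiscreteTopology S := by
    obtain ⟨t, ht, hspan, hli⟩ := exists_linearIndependent ℝ (latt Γ : Set V)
    have : Finite t := hli.finite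
    have hint2 : ∀ (w : S) (j : t), ∃ k : ℤ, (H w.1 j).im / 2 = k := by
      rintro ⟨_, c, hc, rfl⟩ j
      obtain ⟨k, hk⟩ := D.int c hc j (latt_le_frac (ht j.2))
      refine ⟨k, ?_⟩
      change (H (p c) j).im / 2 = k
      rw [hHp, hk]
      ring
    choose k hk using hint2
    have hf : Continuous k := by
      refine continuous_pi fun j => ?_
      rw [Int.isClosedEmbedding_coe_real.isEmbedding.continuous_iff]
      have h1 : (Int.cast : ℤ → ℝ) ∘ (fun w : S => k w j) = fun w => (H w.1 j).im / 2 := by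
        funext w
        exact (hk w j).symm
      rw [h1]
      have h2 : Continuous fun v : V => (H v j).im := by
        have h3 : (fun v : V => H v j) = LinearMap.toContinuousLinearMap (hl hH (j : V)) := rfl
        have h4 : Continuous fun v : V => H v j := by
          rw [h3]; exact ContinuousLinearMap.continuous _
        exact Complex.continuous_im.comp h4
      exact (h2.div_const 2).comp continuous_subtype_val
    refine DiscreteTopology.of_continuous_injective hf ?_
    intro w w' hww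
    apply Subtype.ext
    rw [← sub_eq_zero]
    by_contra hne
    have h1 : (w : V) - w' ∈ LinearMap.range p :=
      (LinearMap.range p).sub_mem (hSr _ w.2) (hSr _ w'.2)
    have h2 := hrange _ h1 hne
    have h3 : ∀ u : V, (H ((w : V) - w') u).im = 0 := by
      intro u
      have hu : u ∈ Submodule.span ℝ t := by rw [hspan, hΓ.span_top]; trivial
      induction hu using Submodule.span_induction with
      | mem x hx =>
        have h4 : k w ⟨x, hx⟩ = k w' ⟨x, hx⟩ := congrFun hww _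
        have h5 := hk w ⟨x, hx⟩
        have h6 := hk w' ⟨x, hx⟩
        rw [h_sub_left hH, Complex.sub_im]
        rw [h4] at h5
        simp only at h5 h6
        linarith
      | zero => rw [h_zero_right hH, Complex.zero_im]
      | add x y _ _ hx hy => rw [h_add_right hH, Complex.add_im, hx, hy, add_zero]
      | smul c x _ hx =>
        have h1 : c • x = (c : ℂ) • x := (Complex.coe_smul c x).symm
        rw [h1, h_smul_right hH, Complex.conj_ofReal, Complex.im_ofReal_mul, hx, mul_zero]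
    have h4 := h3 (Complex.I • ((w : V) - w'))
    rw [h_smul_right hH] at h4
    simp at h4
    linarith
  have hgood : Good H S := ⟨hH, hdisc, cc, hcc, fun w hw => hcoer w (hSr w hw)⟩
  refine ⟨theta H S, hgood.holo, hgood.zero_ne, fun c hc y => ?_⟩
  have h1 : y + c = (y + p c) + P c := by rw [hp]; abel
  rw [h1, theta_ker hH _ (hP1 c), theta_add hH hint y ((hS _).2 ⟨c, hc, rfl⟩), hHp', hHp, hHp']

end Pool.Agent.Y167
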