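import Pool.Agent.Y167.Rel

/-!
# A subgroup of finite index of the group of units
-/

set_option autoImplicit false

namespace Pool.Agent.Y167

open Finset
open Pool.Agent.W594.SYZ2 Pool.Agent.W594.SYZ2.TQ Pool.Agent.TH735.AQ

variable {E : Type*} [NormedAddCommGroup E] [NormedSpace ℂ E] [FiniteDimensional ℂ E]

namespace Pol

variable {h : E → E → ℂ} {Λ : AddSubgroup E} {G : Set (Module.End ℂ E)} {d : ℕ}
  {b : Module.Basis (Fin d) ℝ E}

omit [FiniteDimensional ℂ E] in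
theorem sum_mem' (P : Pol h Λ G d b) {x : E} (hx : x ∈ Λ) :
    ∃ n : Fin d → ℤ, x = ∑ i, (n i : ℝ) • b i := by
  choose n hn using (P.mem x).1 hx
  refine ⟨n, ?_⟩
  conv_lhs => rw [← b.sum_repr x]
  exact Finset.sum_congr rfl fun i _ => by rw [hn]

theorem fin_ball (P : Pol h Λ G d b) (C : ℝ) : {w | w ∈ Λ ∧ (h w w).re ≤ C}.Finite := by
  have : FiniteDimensional ℝ E := FiniteDimensional.complexToReal E
  have : ProperSpace E := FiniteDimensional.proper ℝ E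
  obtain ⟨c, hc, hcw⟩ := coercive P.herm ⊤ fun v _ hv => P.pos v hv
  have hb : Bornology.IsBounded {w : E | (h w w).re ≤ C} := by
    rw [isBounded_iff_forall_norm_le]
    refine ⟨|C| / c + 1, fun w hw => ?_⟩
    have h1 := hcw w Submodule.mem_top
    have h2 : (h w w).re ≤ C := hw
    have h3 : ‖w‖ ^ 2 ≤ |C| / c := by
      rw [le_div_iff₀ hc]
      have := le_abs_self C
      linarith
    have h4 : 0 ≤ |C| / c := by positivity
    nlinarith [norm_nonneg w, sq_nonneg (‖w‖ - 1)]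
  have h1 := ZSpan.setFinite_inter b hb
  refine h1.subset ?_
  rintro w ⟨hw, hwC⟩
  refine ⟨hwC, ?_⟩
  obtain ⟨n, rfl⟩ := P.sum_mem' hw
  refine Submodule.sum_mem _ fun i _ => ?_
  rw [Int.cast_smul_eq_zsmul]
  exact Submodule.smul_mem _ _ (Submodule.subset_span ⟨i, rfl⟩)

/-- The units of the order. -/
structure IsU (Λ : AddSubgroup E) (G : Set (Module.End ℂ E)) (u : E ≃ₗ[ℂ] E) : Prop where
  map : ∀ v ∈ Λ, u v ∈ Λ
  symm : ∀ v ∈ Λ, u.symm v ∈ Λ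
  comm : ∀ g ∈ G, ∀ e, u (g e) = g (u e)

omit [FiniteDimensional ℂ E] in
theorem IsU.inv {u : E ≃ₗ[ℂ] E} (hu : IsU Λ G u) : IsU Λ G u.symm where
  map := hu.symm
  symm := hu.map
  comm := fun g hg e => by
    apply u.injective
    rw [u.apply_symm_apply, hu.comm g hg, u.apply_symm_apply]

omit [FiniteDimensional ℂ E] in
theorem IsU.trans {u v : E ≃ₗ[ℂ] E} (hu : IsU Λ G u) (hv : IsU Λ G v) :
    IsU Λ G (u.trans v) where
  map := fun x hx => hv.map _ (hu.map x hx)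
  symm := fun x hx => hu.symm _ (hv.symm x hx)
  comm := fun g hg e => by
    rw [LinearEquiv.trans_apply, LinearEquiv.trans_apply, hu.comm g hg, hv.comm g hg]

omit [FiniteDimensional ℂ E] in
theorem ext_b (_ : Pol h Λ G d b) {x y : Module.End ℂ E} (hx : ∀ i, x (b i) = y (b i)) :
    x = y := by
  ext v
  have h1 : (x.restrictScalars ℝ) = (y.restrictScalars ℝ) := b.ext hx
  exact LinearMap.congr_fun h1 v

/-- A shortest lattice vector in the direction of a reflection has constant length under units. -/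
theorem min_vec (P : Pol h Λ G d b) {x : Module.End ℂ E} (hxG : x ∈ G)
    (hxΛ : ∀ v ∈ Λ, x v ∈ Λ) {n : E} {ℓ : E →ₗ[ℂ] ℂ} (hℓ : ∀ e, x e - e = ℓ e • n)
    (hx1 : x ≠ 1) : ∃ n' ∈ Λ, n' ≠ 0 ∧ (∃ c : ℂ, n' = c • n) ∧ ∀ u : E ≃ₗ[ℂ] E, IsU Λ G u →
      u n' ∈ Λ ∧ (h (u n') (u n')).re ≤ (h n' n').re := by
  have hex : ∃ i, x (b i) ≠ b i := by
    by_contra hcon
    push Not at hcon
    exact hx1 (P.ext_b (y := 1) hcon)
  obtain ⟨i, hi⟩ := hex
  have hw0 : x (b i) - b i ∈ Λ := Λ.sub_mem (hxΛ _ (P.b_mem i)) (P.b_mem i)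
  have hw0' : x (b i) - b i ≠ 0 := sub_ne_zero.2 hi
  have hℓi : ℓ (b i) ≠ 0 := by
    intro h0
    rw [hℓ, h0, zero_smul] at hw0'
    exact hw0' rfl
  have hn : n ≠ 0 := by
    rintro rfl
    rw [hℓ, smul_zero] at hw0'
    exact hw0' rfl
  set w0 := x (b i) - b i with hw
  let T : Set E := {w | w ∈ Λ ∧ (h w w).re ≤ (h w0 w0).re ∧ w ≠ 0 ∧ ∃ c : ℂ, w = c • n}
  have hT : T.Finite := (P.fin_ball (h w0 w0).re).subset fun w hw => ⟨hw.1, hw.2.1⟩
  have hTne : T.Nonempty := ⟨w0, hw0, le_rfl, hw0', ℓ (b i), hℓ _⟩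
  obtain ⟨n', hn', hmin⟩ := Set.exists_min_image T (fun w => (h w w).re) hT hTne
  have hmin' : ∀ w ∈ Λ, w ≠ 0 → (∃ c : ℂ, w = c • n) → (h n' n').re ≤ (h w w).re := by
    intro w h1 h2 h3
    by_cases h4 : (h w w).re ≤ (h w0 w0).re
    · exact hmin w ⟨h1, h4, h2, h3⟩
    · exact hn'.2.1.trans (not_le.1 h4).le
  obtain ⟨c, hc⟩ := hn'.2.2.2
  refine ⟨n', hn'.1, hn'.2.2.1, ⟨c, hc⟩, fun u hu => ⟨hu.map _ hn'.1, ?_⟩⟩
  -- `u n = λ n`
  have hun : ∃ a : ℂ, u n = a • n := by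
    have h1 : ℓ (b i) • u n = ℓ (u (b i)) • n := by
      rw [← map_smul, ← hℓ, ← hℓ, map_sub, hu.comm x hxG]
    refine ⟨(ℓ (b i))⁻¹ * ℓ (u (b i)), ?_⟩
    rw [mul_smul, ← h1, smul_smul, inv_mul_cancel₀ hℓi, one_smul]
  obtain ⟨a, ha⟩ := hun
  have ha0 : a ≠ 0 := by
    rintro rfl
    rw [zero_smul] at ha
    exact hn (u.map_eq_zero_iff.1 ha)
  have h1 : u n' = a • n' := by rw [hc, map_smul, ha, smul_comm]
  have h2 : u.symm n' = a⁻¹ • n' := by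
    rw [LinearEquiv.symm_apply_eq, map_smul, h1, smul_smul, inv_mul_cancel₀ ha0, one_smul]
  have h3 := hmin' (u.symm n') (hu.symm _ hn'.1)
    (fun h0 => hn'.2.2.1 (u.symm.map_eq_zero_iff.1 h0)) ⟨a⁻¹ * c, by
      rw [h2]
      conv_lhs => rw [hc]
      rw [smul_smul]⟩
  rw [h2, h_diag_smul P.herm] at h3
  rw [h1, h_diag_smul P.herm]
  have h4 : 0 < (h n' n').re := P.pos _ hn'.2.2.1
  have h5 : 1 ≤ ‖a⁻¹‖ ^ 2 := by
    by_contra hcon
    push Not at hcon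
    have := mul_lt_mul_of_pos_right hcon h4
    linarith
  have h6 : ‖a‖ ^ 2 * ‖a⁻¹‖ ^ 2 = 1 := by
    rw [← mul_pow, ← norm_mul, mul_inv_cancel₀ ha0, norm_one, one_pow]
  have h7 : ‖a‖ ^ 2 ≤ 1 := by
    have h8 : 0 ≤ ‖a‖ ^ 2 := by positivity
    nlinarith
  nlinarith

/-- The good units: congruent to one modulo `m` and the identity in the directions of reflections. -/
structure IsGood (Λ : AddSubgroup E) (G : Set (Module.End ℂ E)) (m : ℕ) (u : E ≃ₗ[ℂ] E) : Prop where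
  unit : IsU Λ G u
  cong : ∀ v ∈ Λ, ∃ c ∈ Λ, u v - v = (m : ℝ) • c
  refl : ∀ x ∈ G, (∃ (n : E) (ℓ : E →ₗ[ℂ] ℂ), ∀ e, x e - e = ℓ e • n) →
    ∀ e, x (u e - e) = u e - e

/-- The good units have finite index. -/
theorem fin_idx (P : Pol h Λ G d b) (hG : G.Finite) (hGΛ : ∀ x ∈ G, ∀ v ∈ Λ, x v ∈ Λ)
    (m : ℕ) (hm : 0 < m) : ∃ 𝓡 : Set (E ≃ₗ[ℂ] E), 𝓡.Finite ∧ (∀ r ∈ 𝓡, IsU Λ G r) ∧
      ∀ u, IsU Λ G u → ∃ r ∈ 𝓡, ∃ u', IsGood Λ G m u' ∧ ∀ e, u e = r (u' e) := by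
  classical
  have : NeZero m := ⟨hm.ne'⟩
  have hGf : Finite G := hG
  -- the minimal vectors
  have hmv : ∀ x : G, ∃ n' : E, ∀ (n : E) (ℓ : E →ₗ[ℂ] ℂ), (∀ e, x.1 e - e = ℓ e • n) → x.1 ≠ 1 →
      (∀ u : E ≃ₗ[ℂ] E, IsU Λ G u → u n' ∈ Λ ∧ (h (u n') (u n')).re ≤ (h n' n').re) ∧
      n' ≠ 0 ∧ ∃ c : ℂ, n' = c • n := by
    intro x
    by_cases hx : x.1 ≠ 1 ∧ ∃ (n : E) (ℓ : E →ₗ[ℂ] ℂ), ∀ e, x.1 e - e = ℓ e • n
    · obtain ⟨hx1, n, ℓ, hℓ⟩ := hx
      obtain ⟨n', -, h2, ⟨c, hc⟩, h4⟩ := P.min_vec x.2 (hGΛ x.1 x.2) hℓ hx1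
      refine ⟨n', fun n₂ ℓ₂ hℓ₂ _ => ⟨h4, h2, ?_⟩⟩
      -- `n` and `n₂` are proportional
      have hex : ∃ e, x.1 e ≠ e := by
        by_contra hcon
        push Not at hcon
        exact hx1 (LinearMap.ext hcon)
      obtain ⟨e, he⟩ := hex
      have h5 : ℓ e • n = ℓ₂ e • n₂ := by rw [← hℓ, ← hℓ₂]
      have h6 : ℓ e ≠ 0 := by
        intro h0
        have := hℓ e
        rw [h0, zero_smul, sub_eq_zero] at this
        exact he this
      refine ⟨c * ((ℓ e)⁻¹ * ℓ₂ e), ?_⟩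
      rw [mul_smul, mul_smul, ← h5, smul_smul (ℓ e)⁻¹, inv_mul_cancel₀ h6, one_smul, ← hc]
    · exact ⟨0, fun n ℓ hℓ hx1 => absurd ⟨hx1, n, ℓ, hℓ⟩ hx⟩
  choose nv hnv using hmv
  let Φ : (E ≃ₗ[ℂ] E) → (Fin d → Fin d → ZMod m) × (G → E) := fun u =>
    (fun i k => ((⌊b.repr (u (b i)) k⌋ : ℤ) : ZMod m),
      fun x => if (x.1 ≠ 1 ∧ ∃ (n : E) (ℓ : E →ₗ[ℂ] ℂ), ∀ e, x.1 e - e = ℓ e • n)
        then u (nv x) else 0)
  have hfin : (Φ '' {u | IsU Λ G u}).Finite := by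
    have h1 : ((Set.univ : Set (Fin d → Fin d → ZMod m)) ×ˢ
        {f : G → E | ∀ x, f x ∈ {w | w ∈ Λ ∧ (h w w).re ≤ (h (nv x) (nv x)).re} ∪ {0}}).Finite := by
      refine Set.Finite.prod Set.finite_univ ?_
      exact Set.Finite.pi' fun x => (P.fin_ball _).union (Set.finite_singleton 0)
    refine h1.subset ?_
    rintro _ ⟨u, hu, rfl⟩
    refine ⟨Set.mem_univ _, fun x => ?_⟩
    change (if (x.1 ≠ 1 ∧ ∃ (n : E) (ℓ : E →ₗ[ℂ] ℂ), ∀ e, x.1 e - e = ℓ e • n)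
      then u (nv x) else 0) ∈ _
    split_ifs with hx
    · obtain ⟨hx1, n, ℓ, hℓ⟩ := hx
      exact Or.inl ((hnv x n ℓ hℓ hx1).1 u hu)
    · exact Or.inr rfl
  have hsur : ∀ y ∈ Φ '' {u | IsU Λ G u}, ∃ u, IsU Λ G u ∧ Φ u = y := fun y hy => hy
  choose! f hf1 hf2 using hsur
  refine ⟨f '' (Φ '' {u | IsU Λ G u}), hfin.image f, ?_, ?_⟩
  · rintro _ ⟨y, hy, rfl⟩
    exact hf1 y hy
  · intro u hu
    have hy : Φ u ∈ Φ '' {u | IsU Λ G u} := ⟨u, hu, rfl⟩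
    set r := f (Φ u) with hr
    have hrU : IsU Λ G r := hf1 _ hy
    have hrΦ : Φ r = Φ u := hf2 _ hy
    have hu' : IsU Λ G (u.trans r.symm) := hu.trans hrU.inv
    refine ⟨r, ⟨_, hy, rfl⟩, u.trans r.symm, ⟨hu', ?_, ?_⟩, fun e => ?_⟩
    · have hb : ∀ i, ∃ c ∈ Λ, u (b i) - r (b i) = (m : ℝ) • c := by
        intro i
        have hk : ∀ k, ∃ t : ℤ, b.repr (u (b i)) k - b.repr (r (b i)) k = (m : ℝ) * t := by
          intro k
          obtain ⟨p, hp⟩ := (P.mem _).1 (hu.map _ (P.b_mem i)) k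
          obtain ⟨q, hq⟩ := (P.mem _).1 (hrU.map _ (P.b_mem i)) k
          have h1 : ((⌊b.repr (r (b i)) k⌋ : ℤ) : ZMod m) = ((⌊b.repr (u (b i)) k⌋ : ℤ) : ZMod m) := by
            have h2 := congrArg Prod.fst hrΦ
            exact congrFun (congrFun h2 i) k
          rw [hp, hq, Int.floor_intCast, Int.floor_intCast, ZMod.intCast_eq_intCast_iff_dvd_sub] at h1
          obtain ⟨t, ht⟩ := h1
          refine ⟨t, ?_⟩
          rw [hp, hq]
          exact_mod_cast ht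
        choose t ht using hk
        refine ⟨∑ k, (t k : ℝ) • b k, ?_, ?_⟩
        · refine Λ.sum_mem fun k _ => ?_
          rw [Int.cast_smul_eq_zsmul]
          exact Λ.zsmul_mem (P.b_mem k) _
        · rw [← b.sum_repr (u (b i) - r (b i)), Finset.smul_sum]
          refine Finset.sum_congr rfl fun k _ => ?_
          rw [map_sub, Finsupp.sub_apply, ht, smul_smul]
      choose c hc hcb using hb
      intro v hv
      obtain ⟨n, rfl⟩ := P.sum_mem' hv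
      refine ⟨r.symm (∑ i, (n i : ℝ) • c i), hrU.symm _ (Λ.sum_mem fun i _ => by
        rw [Int.cast_smul_eq_zsmul]
        exact Λ.zsmul_mem (hc i) _), ?_⟩
      set v : E := ∑ i, (n i : ℝ) • b i with hv
      have h1 : u v - r v = (m : ℝ) • ∑ i, (n i : ℝ) • c i := by
        have e1 : ∀ w : E ≃ₗ[ℂ] E, w v = ∑ i, (n i : ℝ) • w (b i) := by
          intro w
          rw [hv, map_sum]
          refine Finset.sum_congr rfl fun i _ => ?_
          rw [← Complex.coe_smul, map_smul, Complex.coe_smul]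
        rw [e1, e1, ← Finset.sum_sub_distrib, Finset.smul_sum]
        refine Finset.sum_congr rfl fun i _ => ?_
        rw [← smul_sub, hcb, smul_comm]
      have h2 : (u.trans r.symm) v - v = r.symm (u v - r v) := by
        rw [map_sub, r.symm_apply_apply]
        rfl
      rw [h2, h1, ← Complex.coe_smul, map_smul, Complex.coe_smul]
    · rintro x hx ⟨n, ℓ, hℓ⟩ e
      by_cases hx1 : x = 1
      · rw [hx1]
        rfl
      · obtain ⟨h1, h2, c, hc⟩ := hnv ⟨x, hx⟩ n ℓ hℓ hx1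
        have h3 : (u.trans r.symm) (nv ⟨x, hx⟩) = nv ⟨x, hx⟩ := by
          have h4 := congrFun (congrArg Prod.snd hrΦ) ⟨x, hx⟩
          change (if (x ≠ 1 ∧ ∃ (n : E) (ℓ : E →ₗ[ℂ] ℂ), ∀ e, x e - e = ℓ e • n)
            then r (nv ⟨x, hx⟩) else 0) = (if (x ≠ 1 ∧ ∃ (n : E) (ℓ : E →ₗ[ℂ] ℂ),
              ∀ e, x e - e = ℓ e • n) then u (nv ⟨x, hx⟩) else 0) at h4
          rw [if_pos ⟨hx1, n, ℓ, hℓ⟩, if_pos ⟨hx1, n, ℓ, hℓ⟩] at h4
          rw [LinearEquiv.trans_apply, ← h4, r.symm_apply_apply]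
        set w := u.trans r.symm with hw
        have hc0 : c ≠ 0 := by
          rintro rfl
          rw [zero_smul] at hc
          exact h2 hc
        have h5 : w n = n := by
          rw [hc, map_smul] at h3
          exact smul_right_injective E hc0 h3
        have h6 : ℓ (w e) • n = ℓ e • n := by
          rw [← hℓ, ← hu'.comm x hx, ← map_sub, hℓ, map_smul, h5]
        have h7 : ℓ (w e - e) • n = 0 := by
          rw [map_sub, sub_smul, h6, sub_self]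
        have h8 := hℓ (w e - e)
        rw [h7, sub_eq_zero] at h8
        exact h8
    · rw [LinearEquiv.trans_apply, r.apply_symm_apply]

end Pol

end Pool.Agent.Y167
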