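import Pool.Agent.Y167.Main

/-!
# The general statement for fibrations and for a point
-/

set_option autoImplicit false

namespace Pool.Agent.Y167

open Finset Filter Topology
open Pool.Agent.W594.SYZ2 Pool.Agent.W594.SYZ2.TQ Pool.Agent.TH735.AQ

variable {V W : Type*} [NormedAddCommGroup V] [NormedSpace ℂ V] [FiniteDimensional ℂ V]
  [NormedAddCommGroup W] [NormedSpace ℂ W] [FiniteDimensional ℂ W]
  {Γ : AffGrp V} {Γ' : AffGrp W} {π : V →ₗ[ℂ] W}

omit [FiniteDimensional ℂ V] [FiniteDimensional ℂ W] in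
theorem ker_stable (hfib : IsFibration Γ Γ' π) {γ : V ≃ᵃ[ℂ] V} (hγ : γ ∈ Γ) {v : V}
    (hv : π v = 0) : π (γ.linear v) = 0 := by
  obtain ⟨δ, -, h⟩ := hfib.maps γ hγ
  have h1 := h v
  have h2 := h 0
  rw [act γ v, map_add, hv] at h1
  rw [map_zero] at h2
  rw [h2] at h1
  exact (add_eq_right.1 h1.symm)

/-- The kernel of the linear map of a fibration is spanned by lattice vectors. -/
theorem ker_span (hΓ : IsTorusQuotient Γ) (hfib : IsFibration Γ Γ' π) :
    Submodule.span ℝ {e : LinearMap.ker π | (LinearMap.ker π).subtype e ∈ latt Γ} = ⊤ := by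
  have : FiniteDimensional ℝ V := FiniteDimensional.complexToReal V
  have : FiniteDimensional ℝ W := FiniteDimensional.complexToReal W
  let T : AddSubgroup W := (latt Γ).map π.toAddMonoidHom
  have hT : (T : Set W) ⊆ (latt Γ' : Set W) := by
    rintro _ ⟨b, hb, rfl⟩
    obtain ⟨δ, hδ, h⟩ := hfib.maps _ (mem_latt.1 hb)
    change AffineEquiv.constVAdd ℂ W (π b) ∈ Γ'
    have h1 : AffineEquiv.constVAdd ℂ W (π b) = δ := by
      apply AffineEquiv.ext
      intro w
      obtain ⟨v, rfl⟩ := hfib.surj w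
      rw [h v]
      change π b + π v = π (b + v)
      rw [map_add]
    rw [h1]
    exact hδ
  have hTd : DiscreteTopology T := by
    have h1 : DiscreteTopology (latt Γ' : Set W) := hfib.base.discrete
    exact DiscreteTopology.of_subset h1 hT
  have hsp := span_ker (V := V) (W := W) (latt Γ) hΓ.discrete hΓ.span_top T hTd
    (π.restrictScalars ℝ) hfib.surj (fun w => Iff.rfl)
  let K : Submodule ℂ V := LinearMap.ker π
  have hmap : (Submodule.span ℝ {e : K | K.subtype e ∈ latt Γ}).map (K.subtype.restrictScalars ℝ)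
      = Submodule.span ℝ {b | b ∈ latt Γ ∧ π b = 0} := by
    rw [Submodule.map_span]
    congr 1
    ext x
    constructor
    · rintro ⟨y, hy, rfl⟩
      exact ⟨hy, y.2⟩
    · rintro ⟨hx, hx0⟩
      exact ⟨⟨x, hx0⟩, hx, rfl⟩
  rw [eq_top_iff]
  rintro ⟨x, hx⟩ -
  have h1 : x ∈ Submodule.span ℝ {b | b ∈ latt Γ ∧ π b = 0} := by
    have h2 : x ∈ LinearMap.ker (π.restrictScalars ℝ) := hx
    rw [← hsp] at h2
    exact h2
  rw [← hmap] at h1
  obtain ⟨y, hy, hyx⟩ := h1
  have h2 : y = ⟨x, hx⟩ := Subtype.ext hyx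
  rwa [← h2]

theorem rel_of_fibration (hΓ : IsTorusQuotient Γ) (hfib : IsFibration Γ Γ' π)
    {L₀ : LineBundle Γ} {H₀ : V → V → ℂ} (hc : IsChernForm L₀ H₀) (hp : IsPositiveForm H₀) :
    Rel Γ (LinearMap.ker π).subtype H₀ where
  tq := hΓ
  inj := Subtype.val_injective
  stable := fun γ hγ e => ⟨⟨γ.linear e.1, ker_stable hfib hγ e.2⟩, rfl⟩
  span := ker_span hΓ hfib
  chern := ⟨L₀, hc⟩
  pos := hp

/-- The same for an embedding `j : E → V` with image the kernel of `π`. -/
theorem rel_of_emb {E : Type*} [NormedAddCommGroup E] [NormedSpace ℂ E] [FiniteDimensional ℂ E]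
    {j : E →ₗ[ℂ] V} (hj : Function.Injective j) (hr : LinearMap.range j = LinearMap.ker π)
    (hΓ : IsTorusQuotient Γ) (hfib : IsFibration Γ Γ' π)
    {L₀ : LineBundle Γ} {H₀ : V → V → ℂ} (hc : IsChernForm L₀ H₀) (hp : IsPositiveForm H₀) :
    Rel Γ j H₀ where
  tq := hΓ
  inj := hj
  stable := fun γ hγ e => by
    have h1 : j e ∈ LinearMap.ker π := hr ▸ LinearMap.mem_range_self j e
    have h2 : γ.linear (j e) ∈ LinearMap.range j := by
      rw [hr]
      exact ker_stable hfib hγ h1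
    exact h2
  span := by
    let eq : E ≃ₗ[ℂ] LinearMap.ker π :=
      (LinearEquiv.ofInjective j hj).trans (LinearEquiv.ofEq _ _ hr)
    have h0 : ∀ e, ((eq e : LinearMap.ker π) : V) = j e := fun e => rfl
    have h1 := ker_span hΓ hfib
    let f : (LinearMap.ker π) →ₗ[ℝ] E := eq.symm.toLinearMap.restrictScalars ℝ
    have h2 : (Submodule.span ℝ {e : LinearMap.ker π | (LinearMap.ker π).subtype e ∈ latt Γ}).map f
        = ⊤ := by
      rw [h1, Submodule.map_top, LinearMap.range_eq_top]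
      exact eq.symm.surjective
    rw [Submodule.map_span] at h2
    rw [← h2]
    congr 1
    ext x
    constructor
    · intro hx
      exact ⟨eq x, hx, eq.symm_apply_apply x⟩
    · rintro ⟨y, hy, rfl⟩
      change j (eq.symm y) ∈ latt Γ
      rw [← h0, eq.apply_symm_apply]
      exact hy
  chern := ⟨L₀, hc⟩
  pos := hp

omit [FiniteDimensional ℂ V] in
theorem rel_abs (hΓ : IsTorusQuotient Γ) {L₀ : LineBundle Γ} {H₀ : V → V → ℂ}
    (hc : IsChernForm L₀ H₀) (hp : IsPositiveForm H₀) :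
    Rel Γ (LinearMap.id : V →ₗ[ℂ] V) H₀ where
  tq := hΓ
  inj := fun _ _ h => h
  stable := fun γ _ e => ⟨γ.linear e, rfl⟩
  span := hΓ.span_top
  chern := ⟨L₀, hc⟩
  pos := hp

end Pool.Agent.Y167
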