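import Pool.Agent.Y167.Mat
import Pool.Agent.H393R2.Geom3

/-!
# Minkowski's theorems for positive definite quadratic forms on `ℤ ^ r`
-/

set_option autoImplicit false

namespace Pool.Agent.Y167

open Matrix Finset Pool.Agent.H393R2.Geom

variable {r : ℕ}

/-- The vector with real coordinates of an integral vector. -/
def cst (x : Fin r → ℤ) : Fin r → ℝ := fun i => (x i : ℝ)

/-- The value of the quadratic form `G` at the integral vector `x`. -/
def qv (G : Matrix (Fin r) (Fin r) ℝ) (x : Fin r → ℤ) : ℝ := cst x ⬝ᵥ (G *ᵥ cst x)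

theorem qv_factor (C : Matrix (Fin r) (Fin r) ℝ) (x : Fin r → ℤ) :
    qv (Cᵀ * C) x = ∑ l, (app C x l) ^ 2 := by
  have h : app C x = C *ᵥ cst x := rfl
  rw [qv, ← mulVec_mulVec, dotProduct_mulVec, vecMul_transpose, h]
  simp [dotProduct, sq]

theorem qv_le_norm (C : Matrix (Fin r) (Fin r) ℝ) (x : Fin r → ℤ) :
    qv (Cᵀ * C) x ≤ r * ‖app C x‖ ^ 2 := by
  rw [qv_factor]
  calc ∑ l, (app C x l) ^ 2 ≤ ∑ _l : Fin r, ‖app C x‖ ^ 2 := by
        refine Finset.sum_le_sum fun l _ => ?_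
        have := norm_le_pi_norm (app C x) l
        rw [Real.norm_eq_abs] at this
        rw [← sq_abs]
        exact pow_le_pow_left₀ (abs_nonneg _) this 2
    _ = r * ‖app C x‖ ^ 2 := by simp

/-- Minkowski's first theorem: a form which is at least `δ` on the nonzero integral vectors has a
determinant which is not small. -/
theorem minkowski1 (hr : 0 < r) {G : Matrix (Fin r) (Fin r) ℝ} (hG : G.PosDef) {δ : ℝ}
    (hδ : 0 < δ) (h : ∀ x : Fin r → ℤ, x ≠ 0 → δ ≤ qv G x) : (δ / (2 * r)) ^ r ≤ G.det := by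
  obtain ⟨C, rfl⟩ := psd_factor hG.posSemidef
  have hdet : (Cᵀ * C).det = C.det ^ 2 := by rw [det_mul, det_transpose, sq]
  have hC : C.det ≠ 0 := by
    intro h0
    have := hG.det_pos
    rw [hdet, h0] at this
    simp at this
  have hr' : (0 : ℝ) < r := by exact_mod_cast hr
  set c : ℝ := Real.sqrt (δ / (2 * r)) with hc
  have hcpos : 0 < c := Real.sqrt_pos.2 (by positivity)
  have hc2 : c ^ 2 = δ / (2 * r) := Real.sq_sqrt (by positivity)
  have hle : c ^ r ≤ |C.det| := by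
    by_contra hlt
    rw [not_le] at hlt
    obtain ⟨x, hx0, hx⟩ := minkowski_forms C hC (fun _ => c) (fun _ => hcpos) (by simpa using hlt)
    have h1 := h x hx0
    rw [qv_factor] at h1
    have h2 : ∑ l, (app C x l) ^ 2 ≤ ∑ _l : Fin r, c ^ 2 := by
      refine Finset.sum_le_sum fun l _ => ?_
      rw [← sq_abs]
      exact pow_le_pow_left₀ (abs_nonneg _) (hx l) 2
    have h3 : ∑ _l : Fin r, c ^ 2 = δ / 2 := by
      simp only [Finset.sum_const, Finset.card_univ, Fintype.card_fin, nsmul_eq_mul, hc2]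
      field_simp
    linarith
  rw [hdet, ← hc2, ← sq_abs C.det, ← pow_mul, mul_comm 2 r, pow_mul]
  exact pow_le_pow_left₀ (by positivity) hle 2

/-- Minkowski's second theorem: a form which is at least `1` on the nonzero integral vectors has
`r` linearly independent integral vectors on which it is bounded in terms of the determinant. -/
theorem minkowski2 (hr : 0 < r) {G : Matrix (Fin r) (Fin r) ℝ} (hG : G.PosDef)
    (h : ∀ x : Fin r → ℤ, x ≠ 0 → 1 ≤ qv G x) :
    ∃ X : Matrix (Fin r) (Fin r) ℤ, X.det ≠ 0 ∧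
      ∀ j, qv G (X j) ≤ (2 * KK r) ^ (2 * r) * (r : ℝ) ^ r * G.det := by
  obtain ⟨C, rfl⟩ := psd_factor hG.posSemidef
  have hdet : (Cᵀ * C).det = C.det ^ 2 := by rw [det_mul, det_transpose, sq]
  have hC : C.det ≠ 0 := by
    intro h0
    have := hG.det_pos
    rw [hdet, h0] at this
    simp at this
  have hr' : (0 : ℝ) < r := by exact_mod_cast hr
  set t : ℝ := |C.det| ^ ((1 : ℝ) / r) with ht
  have htpos : 0 < t := Real.rpow_pos_of_pos (abs_pos.2 hC) _
  have htr : t ^ r = |C.det| := by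
    rw [ht, ← Real.rpow_natCast, ← Real.rpow_mul (abs_nonneg _), one_div,
      inv_mul_cancel₀ hr'.ne', Real.rpow_one]
  set L : Matrix (Fin r) (Fin r) ℝ := t⁻¹ • C with hL
  have hLdet : |L.det| = 1 := by
    rw [hL, det_smul, Fintype.card_fin, abs_mul, abs_pow, abs_inv, abs_of_pos htpos, inv_pow, htr,
      inv_mul_cancel₀ (abs_pos.2 hC).ne']
  have hLu : IsUnit L.det := by
    rw [isUnit_iff_ne_zero]
    intro h0
    rw [h0] at hLdet
    simp at hLdet
  have happ : ∀ x, app C x = t • app L x := by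
    intro x
    rw [app_apply, app_apply, hL, smul_mulVec, smul_smul, mul_inv_cancel₀ htpos.ne', one_smul]
  obtain ⟨X, hX, hmono, hmin⟩ := minima L (L⁻¹)ᵀ (by
    rw [transpose_transpose, Matrix.nonsing_inv_mul _ hLu])
  have hprod := prod_upper L X hr hLdet hX hmono hmin
  have hXne : ∀ j, X j ≠ 0 := by
    intro j h0
    exact hX (Matrix.det_eq_zero_of_row_eq_zero j (fun i => by rw [h0]; rfl))
  have hlow : ∀ j, 1 / (t ^ 2 * r) ≤ ‖app L (X j)‖ ^ 2 := by
    intro j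
    have h1 := h (X j) (hXne j)
    have h2 := qv_le_norm C (X j)
    rw [happ, norm_smul, Real.norm_eq_abs, abs_of_pos htpos] at h2
    rw [div_le_iff₀ (by positivity)]
    nlinarith
  refine ⟨X, hX, fun j => ?_⟩
  have hpow : ∏ j, ‖app L (X j)‖ ^ 2 ≤ (2 * KK r) ^ (2 * r) := by
    rw [Finset.prod_pow, mul_comm 2 r, pow_mul]
    exact pow_le_pow_left₀ (Finset.prod_nonneg fun _ _ => norm_nonneg _) hprod 2
  have hlowprod : (1 / (t ^ 2 * r)) ^ (r - 1) ≤ ∏ i ∈ univ.erase j, ‖app L (X i)‖ ^ 2 := by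
    have h1 : ∏ i ∈ (univ : Finset (Fin r)).erase j, (1 / (t ^ 2 * r)) ≤
        ∏ i ∈ univ.erase j, ‖app L (X i)‖ ^ 2 :=
      Finset.prod_le_prod (fun _ _ => by positivity) (fun i _ => hlow i)
    rwa [Finset.prod_const, Finset.card_erase_of_mem (Finset.mem_univ j), Finset.card_univ,
      Fintype.card_fin] at h1
  have hmulp : ‖app L (X j)‖ ^ 2 * ∏ i ∈ univ.erase j, ‖app L (X i)‖ ^ 2
      = ∏ i, ‖app L (X i)‖ ^ 2 :=
    Finset.mul_prod_erase univ (fun i => ‖app L (X i)‖ ^ 2) (Finset.mem_univ j)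
  have hb : ‖app L (X j)‖ ^ 2 * (1 / (t ^ 2 * r)) ^ (r - 1) ≤ (2 * KK r) ^ (2 * r) := by
    refine le_trans ?_ hpow
    rw [← hmulp]
    exact mul_le_mul_of_nonneg_left hlowprod (sq_nonneg _)
  have hb2 : ‖app L (X j)‖ ^ 2 ≤ (2 * KK r) ^ (2 * r) * (t ^ 2 * r) ^ (r - 1) := by
    rw [one_div, inv_pow, mul_inv_le_iff₀ (by positivity)] at hb
    exact hb
  have h2 := qv_le_norm C (X j)
  rw [happ, norm_smul, Real.norm_eq_abs, abs_of_pos htpos] at h2
  have htdet : (t ^ 2) ^ r = (Cᵀ * C).det := by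
    rw [← pow_mul, mul_comm 2 r, pow_mul, htr, hdet, sq_abs]
  obtain ⟨k, rfl⟩ : ∃ k, r = k + 1 := ⟨r - 1, by omega⟩
  calc qv (Cᵀ * C) (X j) ≤ ((k + 1 : ℕ) : ℝ) * (t * ‖app L (X j)‖) ^ 2 := h2
    _ = ((k + 1 : ℕ) : ℝ) * t ^ 2 * ‖app L (X j)‖ ^ 2 := by ring
    _ ≤ ((k + 1 : ℕ) : ℝ) * t ^ 2 *
        ((2 * KK (k + 1)) ^ (2 * (k + 1)) * (t ^ 2 * ((k + 1 : ℕ) : ℝ)) ^ (k + 1 - 1)) := by
        gcongr
    _ = (2 * KK (k + 1)) ^ (2 * (k + 1)) * ((k + 1 : ℕ) : ℝ) ^ (k + 1) * (t ^ 2) ^ (k + 1) := by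
        simp only [Nat.add_sub_cancel]
        ring
    _ = _ := by rw [htdet]

end Pool.Agent.Y167
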