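import Pool.Agent.W594.SYZ.TQ2

/-!
# Adjoints with respect to a positive definite hermitian form
-/

set_option autoImplicit false

namespace Pool.Agent.Y167

open Pool.Agent.W594.SYZ2 Pool.Agent.W594.SYZ2.TQ

section abs

variable {E : Type*} [AddCommGroup E] [Module ℂ E] [FiniteDimensional ℂ E]

/-- Linear functionals are represented by vectors. -/
theorem herm_riesz0 (h : E → E → ℂ) (hadd : ∀ u v w, h (u + v) w = h u w + h v w)
    (hsmul : ∀ (a : ℂ) (v w : E), h (a • v) w = a * h v w)
    (hsymm : ∀ v w, h w v = starRingEnd ℂ (h v w)) (hpos : ∀ v, v ≠ 0 → 0 < (h v v).re)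
    (ℓ : E →ₗ[ℂ] ℂ) : ∃ w, ∀ u, ℓ u = h u w := by
  have h0 : h 0 0 = 0 := by
    have := hsmul 0 0 0
    rwa [zero_smul, zero_mul] at this
  let core : InnerProductSpace.Core ℂ E :=
    { inner := fun x y => h y x
      conj_inner_symm := fun x y => (hsymm x y).symm
      re_inner_nonneg := fun x => by
        by_cases hx : x = 0
        · rw [hx]; simp [h0]
        · simpa using (hpos x hx).le
      add_left := fun x y z => by
        change h z (x + y) = h z x + h z y
        rw [hsymm (x + y) z, hadd, map_add, ← hsymm, ← hsymm]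
      smul_left := fun x y c => by
        change h y (c • x) = _
        rw [hsymm (c • x) y, hsmul, map_mul, ← hsymm]
      definite := fun x hx => by
        by_contra hne
        have h1 : h x x = 0 := hx
        have h2 := hpos x hne
        rw [h1] at h2
        exact lt_irrefl _ h2 }
  let _ : NormedAddCommGroup E := core.toNormedAddCommGroup
  let _ : InnerProductSpace ℂ E := InnerProductSpace.ofCore core.toCore
  have hc : CompleteSpace E := FiniteDimensional.complete ℂ E
  let w := (InnerProductSpace.toDual ℂ E).symm (LinearMap.toContinuousLinearMap ℓ)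
  refine ⟨w, fun u => ?_⟩
  have h1 : inner ℂ w u = LinearMap.toContinuousLinearMap ℓ u :=
    InnerProductSpace.toDual_symm_apply
  exact h1.symm

end abs

variable {E : Type*} [NormedAddCommGroup E] [NormedSpace ℂ E] [FiniteDimensional ℂ E]
  {h : E → E → ℂ}

theorem herm_riesz (hh : IsHermitian h) (hp : IsPositiveForm h) (ℓ : E →ₗ[ℂ] ℂ) :
    ∃ w, ∀ u, ℓ u = h u w :=
  herm_riesz0 h hh.add_left hh.smul_left hh.symm hp ℓ

omit [FiniteDimensional ℂ E] in
theorem herm_ext (hh : IsHermitian h) (hp : IsPositiveForm h) {v w : E}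
    (he : ∀ u, h u v = h u w) : v = w := by
  by_contra hne
  have h1 : v - w ≠ 0 := sub_ne_zero.2 hne
  have h2 := hp _ h1
  have h3 : h (v - w) (v - w) = 0 := by
    have h4 := h_add_right hh (v - w) (v - w) w
    rw [sub_add_cancel, he] at h4
    have h5 := add_eq_right.1 h4.symm
    exact h5
  rw [h3] at h2
  exact lt_irrefl _ h2

/-- The adjoint exists. -/
theorem exists_adj (hh : IsHermitian h) (hp : IsPositiveForm h) (x : E →ₗ[ℂ] E) :
    ∃ y : E →ₗ[ℂ] E, ∀ u w, h (x u) w = h u (y w) := by
  have h1 : ∀ w, ∃ z, ∀ u, h (x u) w = h u z := fun w =>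
    herm_riesz hh hp ((hl hh w) ∘ₗ x)
  choose y hy using h1
  refine ⟨{ toFun := y
            map_add' := fun v w => ?_
            map_smul' := fun c w => ?_ }, fun u w => hy w u⟩
  · apply herm_ext hh hp
    intro u
    rw [← hy, h_add_right hh, h_add_right hh, hy, hy]
  · apply herm_ext hh hp
    intro u
    rw [← hy, h_smul_right hh, RingHom.id_apply, h_smul_right hh, hy]

/-- A hermitian form is represented by an operator. -/
theorem exists_op (hh : IsHermitian h) (hp : IsPositiveForm h) {H : E → E → ℂ}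
    (hH : IsHermitian H) : ∃ a : E →ₗ[ℂ] E, ∀ u w, H u w = h (a u) w := by
  have h1 : ∀ w, ∃ z, ∀ u, H u w = h u z := fun w => herm_riesz hh hp (hl hH w)
  choose y hy using h1
  refine ⟨{ toFun := y
            map_add' := fun v w => ?_
            map_smul' := fun c w => ?_ }, fun u w => ?_⟩
  · apply herm_ext hh hp
    intro u
    rw [← hy, h_add_right hH, h_add_right hh, hy, hy]
  · apply herm_ext hh hp
    intro u
    rw [← hy, h_smul_right hH, RingHom.id_apply, h_smul_right hh, hy]
  · change H u w = h (y u) w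
    rw [hH.symm w u, hh.symm w (y u), hy]

/-- The adjoint. -/
noncomputable def adj (hh : IsHermitian h) (hp : IsPositiveForm h) (x : E →ₗ[ℂ] E) : E →ₗ[ℂ] E :=
  (exists_adj hh hp x).choose

theorem adj_spec (hh : IsHermitian h) (hp : IsPositiveForm h) (x : E →ₗ[ℂ] E) (u w : E) :
    h (x u) w = h u (adj hh hp x w) := (exists_adj hh hp x).choose_spec u w

theorem adj_spec' (hh : IsHermitian h) (hp : IsPositiveForm h) (x : E →ₗ[ℂ] E) (u w : E) :
    h u (x w) = h (adj hh hp x u) w := by
  rw [hh.symm (x w) u, adj_spec hh hp, ← hh.symm]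

theorem adj_unique (hh : IsHermitian h) (hp : IsPositiveForm h) {x y : E →ₗ[ℂ] E}
    (hy : ∀ u w, h (x u) w = h u (y w)) : adj hh hp x = y := by
  ext w
  apply herm_ext hh hp
  intro u
  rw [← adj_spec hh hp x, hy]

theorem adj_adj (hh : IsHermitian h) (hp : IsPositiveForm h) (x : E →ₗ[ℂ] E) :
    adj hh hp (adj hh hp x) = x :=
  adj_unique hh hp fun u w => (adj_spec' hh hp x u w).symm

theorem adj_mul (hh : IsHermitian h) (hp : IsPositiveForm h) (x y : Module.End ℂ E) :
    adj hh hp (x * y) = (adj hh hp y : Module.End ℂ E) * adj hh hp x :=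
  adj_unique hh hp fun u w => by
    change h (x (y u)) w = h u (adj hh hp y (adj hh hp x w))
    rw [adj_spec hh hp x, adj_spec hh hp y]

theorem adj_add (hh : IsHermitian h) (hp : IsPositiveForm h) (x y : E →ₗ[ℂ] E) :
    adj hh hp (x + y) = adj hh hp x + adj hh hp y :=
  adj_unique hh hp fun u w => by
    rw [LinearMap.add_apply, LinearMap.add_apply, hh.add_left, h_add_right hh, adj_spec hh hp x,
      adj_spec hh hp y]

theorem adj_smul (hh : IsHermitian h) (hp : IsPositiveForm h) (c : ℝ) (x : E →ₗ[ℂ] E) :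
    adj hh hp (c • x) = c • adj hh hp x :=
  adj_unique hh hp fun u w => by
    rw [LinearMap.smul_apply, LinearMap.smul_apply, ← Complex.coe_smul, ← Complex.coe_smul,
      hh.smul_left, h_smul_right hh, Complex.conj_ofReal, adj_spec hh hp x]

end Pool.Agent.Y167
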