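import Pool.Agent.Y167.Aut
import Pool.Agent.TH128.SYZ.PsefConv

/-!
# Divisors and translations along the kernels of their Chern forms
-/

set_option autoImplicit false

namespace Pool.Agent.Y167

open Finset Filter Topology Asymptotics
open Pool.Agent.W594.SYZ2 Pool.Agent.W594.SYZ2.TQ Pool.Agent.TH735.AQ Pool.Agent.TH128.SYZ

variable {V : Type*} [NormedAddCommGroup V] [NormedSpace ℂ V]

omit [NormedSpace ℂ V] in
theorem mult_mul {s g : V → ℂ} (hg : Continuous g) (hg0 : ∀ v, g v ≠ 0) (v : V) :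
    mult (fun x => s x * g x) v = mult s v := by
  have key : ∀ (s g : V → ℂ), Continuous g → ∀ k : ℕ, s =O[𝓝 v] (fun x => ‖x - v‖ ^ k) →
      (fun x => s x * g x) =O[𝓝 v] (fun x => ‖x - v‖ ^ k) := by
    intro s g hg k h
    have h1 : g =O[𝓝 v] (fun _ => (1 : ℝ)) := hg.continuousAt.isBigO_one ℝ
    have h2 := h.mul h1
    simpa using h2
  unfold mult
  congr 1
  ext k
  constructor
  · intro h
    have h1 := key (fun x => s x * g x) (fun x => (g x)⁻¹) (hg.inv₀ hg0) k h
    have h2 : (fun x => s x * g x * (g x)⁻¹) = s := by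
      funext x
      rw [mul_assoc, mul_inv_cancel₀ (hg0 x), mul_one]
    rw [h2] at h1
    exact h1
  · exact fun h => key s g hg k h

theorem mult_comp [FiniteDimensional ℂ V] (s : V → ℂ) (f : V ≃ᵃ[ℂ] V) (v : V) :
    mult (fun x => s (f x)) v = mult s (f v) := by
  have hcont : ∀ f : V ≃ᵃ[ℂ] V, Continuous f := fun f => (affine_differentiable f).continuous
  have key : ∀ (s : V → ℂ) (f : V ≃ᵃ[ℂ] V) (v : V) (k : ℕ),
      s =O[𝓝 (f v)] (fun x => ‖x - f v‖ ^ k) →
      (fun x => s (f x)) =O[𝓝 v] (fun x => ‖x - v‖ ^ k) := by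
    intro s f v k h
    have h1 : (fun x => s (f x)) =O[𝓝 v] (fun x => ‖f x - f v‖ ^ k) :=
      h.comp_tendsto ((hcont f).tendsto v)
    refine h1.trans ?_
    have h2 : (fun x => f x - f v) =O[𝓝 v] (fun x => x - v) := by
      have h3 : (fun x => f x - f v) = fun x =>
          LinearMap.toContinuousLinearMap (f.linear : V →ₗ[ℂ] V) (x - v) := by
        funext x
        change f x - f v = f.linear (x - v)
        rw [act f x, act f v, map_sub]
        abel
      rw [h3]
      exact ContinuousLinearMap.isBigO_comp _ _ _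
    exact (h2.norm_norm).pow k
  unfold mult
  congr 1
  ext k
  constructor
  · intro h
    have h1 := key (fun x => s (f x)) f.symm (f v) k (by
      rw [f.symm_apply_apply]
      exact h)
    simpa using h1
  · exact fun h => key s f v k h

/-- An entire function with Gaussian decay is zero. -/
theorem zero_of_gauss {g : ℂ → ℂ} (hg : Differentiable ℂ g) {C a : ℝ} (ha : 0 < a)
    (h : ∀ z, ‖g z‖ ^ 2 ≤ C * Real.exp (-(a * ‖z‖ ^ 2))) : g 0 = 0 := by
  have hC : 0 ≤ C := by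
    have h0 := h 0
    simp at h0
    exact le_trans (by positivity) h0
  have hb : Bornology.IsBounded (Set.range g) := by
    rw [isBounded_iff_forall_norm_le]
    refine ⟨C + 1, ?_⟩
    rintro _ ⟨z, rfl⟩
    have h1 := h z
    have h2 : Real.exp (-(a * ‖z‖ ^ 2)) ≤ 1 := by
      rw [Real.exp_le_one_iff]
      have : 0 ≤ a * ‖z‖ ^ 2 := by positivity
      linarith
    nlinarith [norm_nonneg (g z), sq_nonneg (‖g z‖ - 1)]
  by_contra hne
  have hpos : 0 < ‖g 0‖ ^ 2 := by positivity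
  have h1 : ∀ n : ℕ, ‖g 0‖ ^ 2 ≤ C * Real.exp (-(a * (n : ℝ))) := by
    intro n
    have h2 := h ((Real.sqrt n : ℝ) : ℂ)
    have h3 := hg.apply_eq_apply_of_bounded hb 0 ((Real.sqrt n : ℝ) : ℂ)
    rw [← h3] at h2
    rw [Complex.norm_real, Real.norm_of_nonneg (Real.sqrt_nonneg _),
      Real.sq_sqrt (Nat.cast_nonneg _)] at h2
    exact h2
  have h2 : Tendsto (fun n : ℕ => C * Real.exp (-(a * (n : ℝ)))) atTop (𝓝 (C * 0)) := by
    refine Tendsto.const_mul C ?_
    refine Real.tendsto_exp_neg_atTop_nhds_zero.comp ?_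
    exact (tendsto_natCast_atTop_atTop).const_mul_atTop ha
  rw [mul_zero] at h2
  have h3 := ge_of_tendsto' h2 h1
  linarith

variable [FiniteDimensional ℂ V] {Γ : Subgroup (V ≃ᵃ[ℂ] V)}

/-- A continuous function which is invariant under the lattice is bounded. -/
theorem bounded_above (hΓ : IsTorusQuotient Γ) {N : V → ℝ} (hN : Continuous N)
    (hinv : ∀ γ ∈ Γ, ∀ v, N (γ v) = N v) : ∃ B, ∀ v, N v ≤ B := by
  have : ProperSpace V := FiniteDimensional.proper ℂ V
  obtain ⟨C, hC⟩ := cobounded (latt Γ) hΓ.span_top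
  have hK : IsCompact (Metric.closedBall (0 : V) C) := isCompact_closedBall _ _
  obtain ⟨B, hB⟩ := hK.exists_bound_of_continuousOn hN.continuousOn
  refine ⟨B, fun v => ?_⟩
  obtain ⟨b, hb, hbC⟩ := hC v
  have h1 := hB (b + v) (by rwa [mem_closedBall_zero_iff])
  have h2 : N (b + v) = N v := hinv _ hb v
  rw [h2] at h1
  exact (le_abs_self _).trans h1

/-- Sections are constant along the kernel of the Chern form, up to the potential. -/
theorem section_ker (hΓ : IsTorusQuotient Γ) {L : LineBundle Γ} {H : V → V → ℂ} {F : V → ℂ}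
    (hH : IsHermitian H) (hF : IsPot L H F) {s : V → ℂ} (hs : L.IsSection s)
    {k : V} (hk : k ∈ ker hH) (v : V) :
    s (v + k) * Complex.exp (-F (v + k)) = s v * Complex.exp (-F v) := by
  let N : V → ℝ := fun v => ‖s v * Complex.exp (-F v)‖ ^ 2 * Real.exp (-(Real.pi * (H v v).re))
  have hN : Continuous N := by
    have h1 : Continuous fun v => s v * Complex.exp (-F v) :=
      hs.holo.continuous.mul (hF.1.neg.cexp).continuous
    exact (h1.norm.pow 2).mul (Real.continuous_exp.comp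
      ((diag_continuous hH).const_mul Real.pi).neg)
  have hinv : ∀ γ ∈ Γ, ∀ v, N (γ v) = N v := by
    intro γ hγ v
    have h1 := hs.eq ⟨γ, hγ⟩ v
    have h2 := hF.2 ⟨γ, hγ⟩ v
    change s (γ v) = L.e ⟨γ, hγ⟩ v * s v at h1
    simp only [N]
    rw [h1, norm_mul, norm_mul, norm_mul, mul_pow, mul_pow, mul_pow, h2, Complex.norm_exp,
      Complex.norm_exp, ← Real.exp_nat_mul, ← Real.exp_nat_mul]
    simp only [Complex.neg_re]
    have h3 : ∀ a b c d e : ℝ, Real.exp a * b * Real.exp c * Real.exp d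
        = b * Real.exp (a + c + d) := by
      intro a b c d e
      rw [Real.exp_add, Real.exp_add]
      ring
    rw [h3 _ _ _ _ 0, mul_assoc, ← Real.exp_add]
    congr 2
    push_cast
    ring
  obtain ⟨B, hB⟩ := bounded_above hΓ hN hinv
  let φ : ℂ → ℂ := fun z => s (v + z • k) * Complex.exp (-F (v + z • k))
  have hline : Differentiable ℂ fun z : ℂ => v + z • k :=
    (differentiable_id.smul_const k).const_add v
  have hφ : Differentiable ℂ φ :=
    (hs.holo.comp hline).mul ((hF.1.comp hline).neg.cexp)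
  have hφb : ∀ z, ‖φ z‖ ^ 2 ≤ B * Real.exp (Real.pi * (H v v).re) := by
    intro z
    have h1 := hB (v + z • k)
    have h2 : (H (v + z • k) (v + z • k)).re = (H v v).re := by
      have hzk : z • k ∈ ker hH := (ker hH).smul_mem z hk
      rw [h_diag_add hH, h_ker_right hH hzk v, hzk]
      simp
    simp only [N] at h1
    rw [h2] at h1
    have h3 : 0 < Real.exp (Real.pi * (H v v).re) := Real.exp_pos _
    have h4 := mul_le_mul_of_nonneg_right h1 h3.le
    rw [mul_assoc, ← Real.exp_add, neg_add_cancel, Real.exp_zero, mul_one] at h4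
    exact h4
  have hb : Bornology.IsBounded (Set.range φ) := by
    rw [isBounded_iff_forall_norm_le]
    refine ⟨B * Real.exp (Real.pi * (H v v).re) + 1, ?_⟩
    rintro _ ⟨z, rfl⟩
    have h1 := hφb z
    nlinarith [norm_nonneg (φ z), sq_nonneg (‖φ z‖ - 1)]
  have h1 := hφ.apply_eq_apply_of_bounded hb 1 0
  simpa [φ] using h1

omit [FiniteDimensional ℂ V] in
theorem norm_det (hΓ : IsTorusQuotient Γ) {γ : V ≃ᵃ[ℂ] V} (hγ : γ ∈ Γ) :
    ‖LinearMap.det (γ.linear : V →ₗ[ℂ] V)‖ = 1 := by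
  have := finite_Lin hΓ
  let g : Lin Γ := ⟨γ.linear, γ, hγ, rfl⟩
  have h1 : g ^ Nat.card (Lin Γ) = 1 := pow_card_eq_one'
  have h2 : (γ.linear) ^ Nat.card (Lin Γ) = (1 : V ≃ₗ[ℂ] V) := by
    have := congrArg Subtype.val h1
    exact this
  have h3 : (LinearEquiv.det γ.linear) ^ Nat.card (Lin Γ) = 1 := by
    rw [← map_pow, h2, map_one]
  have h4 : (LinearMap.det (γ.linear : V →ₗ[ℂ] V)) ^ Nat.card (Lin Γ) = 1 := by
    have h5 := congrArg Units.val h3
    rw [Units.val_pow_eq_pow_val, LinearEquiv.coe_det, Units.val_one] at h5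
    exact h5
  have h5 : ‖LinearMap.det (γ.linear : V →ₗ[ℂ] V)‖ ^ Nat.card (Lin Γ) = 1 := by
    rw [← norm_pow, h4, norm_one]
  exact (pow_eq_one_iff_of_nonneg (norm_nonneg _) (card_pos hΓ).ne').1 h5

/-- `w` is fixed by the linear parts of all elements of `Γ` which fix each point of a hyperplane. -/
def MirrorFixed (Γ : Subgroup (V ≃ᵃ[ℂ] V)) (w : V) : Prop :=
  ∀ γ ∈ Γ, γ ≠ 1 → (∃ ℓ : V →ₗ[ℂ] ℂ, ℓ ≠ 0 ∧ ∃ c, ∀ x, ℓ x = c → γ x = x) → γ.linear w = w

/-- The Chern form of the canonical divisor vanishes on vectors parallel to all mirrors. -/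
theorem mirror_zero (hΓ : IsTorusQuotient Γ) {K : LineBundle Γ} {HK : V → V → ℂ}
    (hc : IsChernForm K HK) {ρ : V → ℂ} (hρ : IsRamification Γ ρ) {m : ℕ} (hm : 1 ≤ m)
    (hK : IsLogPluricanonical K m ρ (fun _ => 1)) {w : V} (hw : MirrorFixed Γ w) :
    (HK w w).re = 0 := by
  have : ProperSpace V := FiniteDimensional.proper ℂ V
  obtain ⟨hH, F, hF, hFe⟩ := hc
  let N : V → ℝ := fun v => ‖ρ v ^ m‖ ^ 2 * Real.exp (Real.pi * (HK v v).re + 2 * (F v).re)
  have hNc : Continuous N := by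
    have h1 : Continuous fun v => ρ v ^ m := (hρ.holo.pow m).continuous
    exact (h1.norm.pow 2).mul (Real.continuous_exp.comp
      (((diag_continuous hH).const_mul Real.pi).add
        ((Complex.continuous_re.comp hF.continuous).const_mul 2)))
  have hrel : ∀ γ (hγ : γ ∈ Γ) v, ‖ρ v ^ m‖ = ‖K.e ⟨γ, hγ⟩ v‖ * ‖ρ (γ v) ^ m‖ := by
    intro γ hγ v
    have h1 := hK ⟨γ, hγ⟩ v
    simp only [one_mul, mul_one] at h1
    rw [h1, norm_mul, norm_mul, norm_pow (LinearMap.det _), norm_det hΓ hγ, one_pow, mul_one]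
  have hNinv : ∀ γ ∈ Γ, ∀ v, N (γ v) = N v := by
    intro γ hγ v
    have h2 := hFe ⟨γ, hγ⟩ v
    change ‖K.e ⟨γ, hγ⟩ v‖ ^ 2 = Real.exp (Real.pi * (HK (γ v) (γ v)).re + 2 * (F (γ v)).re
      - (Real.pi * (HK v v).re + 2 * (F v).re)) at h2
    simp only [N]
    rw [hrel γ hγ v, mul_pow, h2, Real.exp_sub]
    field_simp
  have hzero : ∀ γ ∈ Γ, ∀ v, ρ (γ v) = 0 → ρ v = 0 := by
    intro γ hγ v h
    have h1 := hrel γ hγ v
    rw [h, zero_pow (by omega), norm_zero, mul_zero, norm_eq_zero] at h1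
    exact eq_zero_of_pow_eq_zero h1
  have hzw : ∀ (v : V) (z : ℂ), ρ v = 0 → ρ (v + z • w) = 0 := by
    intro v z h
    rw [hρ.zero_iff] at h ⊢
    obtain ⟨γ, hγ, hne, ℓ, hℓ, hfix⟩ := h
    refine ⟨γ, hγ, hne, ℓ, hℓ, fun x hx => ?_⟩
    have h1 := hw γ hγ hne ⟨ℓ, hℓ, ℓ v, hfix⟩
    have h2 := hfix (x - z • w) (by rw [map_sub, hx, map_add]; ring)
    have h3 : x = (x - z • w) + z • w := by abel
    conv_lhs => rw [h3, act_add, h2, map_smul, h1]
    abel
  obtain ⟨v₀, hv₀⟩ := ram_ne_zero hρ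
  have hopen : IsOpen {v | ρ v ≠ 0} := isOpen_ne_fun hρ.holo.continuous continuous_const
  obtain ⟨ε, hε, hball⟩ := Metric.isOpen_iff.1 hopen v₀ hv₀
  let Q : Set V := {v | ∀ y, dist y v < ε → ρ y ≠ 0}
  have hQ : IsClosed Q := by
    rw [← isOpen_compl_iff, Metric.isOpen_iff]
    intro v hv
    simp only [Q, Set.mem_compl_iff, Set.mem_ofPred_eq, not_forall, not_not] at hv
    obtain ⟨y, hy, hy0⟩ := hv
    refine ⟨ε - dist y v, by linarith, fun v' hv' hQ => ?_⟩
    refine hQ y ?_ hy0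
    rw [Metric.mem_ball] at hv'
    have := dist_triangle y v v'
    rw [dist_comm v v'] at this
    linarith
  have hv₀Q : v₀ ∈ Q := fun y hy => hball hy
  have hzQ : ∀ z : ℂ, v₀ + z • w ∈ Q := by
    intro z y hy h0
    have h1 := hzw y (-z) h0
    refine hv₀Q _ ?_ h1
    rw [dist_eq_norm] at hy ⊢
    have : y + -z • w - v₀ = y - (v₀ + z • w) := by rw [neg_smul]; abel
    rwa [this]
  have hbQ : ∀ b ∈ latt Γ, ∀ v ∈ Q, b + v ∈ Q := by
    intro b hb v hv y hy h0
    have h1 := hzero _ (mem_latt.1 hb) (-b + y) (by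
      change ρ (b + (-b + y)) = 0
      rwa [add_neg_cancel_left])
    refine hv _ ?_ h1
    rw [dist_eq_norm] at hy ⊢
    have : -b + y - v = y - (b + v) := by abel
    rwa [this]
  obtain ⟨C, hC⟩ := cobounded (latt Γ) hΓ.span_top
  have hcomp : IsCompact (Metric.closedBall (0 : V) C ∩ Q) :=
    (isCompact_closedBall _ _).inter_right hQ
  have hne : (Metric.closedBall (0 : V) C ∩ Q).Nonempty := by
    obtain ⟨b, hb, hbC⟩ := hC v₀
    exact ⟨b + v₀, by rwa [mem_closedBall_zero_iff], hbQ b hb _ hv₀Q⟩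
  obtain ⟨x₀, hx₀, hmin⟩ := hcomp.exists_isMinOn hne hNc.continuousOn
  have hNpos : ∀ v, ρ v ≠ 0 → 0 < N v := by
    intro v hv
    have : 0 < ‖ρ v ^ m‖ := norm_pos_iff.2 (pow_ne_zero m hv)
    simp only [N]
    positivity
  have hδ : 0 < N x₀ := hNpos _ (hx₀.2 x₀ (by rwa [dist_self]))
  have hlow : ∀ z : ℂ, N x₀ ≤ N (v₀ + z • w) := by
    intro z
    obtain ⟨b, hb, hbC⟩ := hC (v₀ + z • w)
    have h1 := hmin (⟨by rwa [mem_closedBall_zero_iff], hbQ b hb _ (hzQ z)⟩ :
      b + (v₀ + z • w) ∈ Metric.closedBall (0 : V) C ∩ Q)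
    simp only [Set.mem_ofPred_eq] at h1
    have h2 : N (b + (v₀ + z • w)) = N (v₀ + z • w) := hNinv _ (mem_latt.1 hb) _
    rwa [h2] at h1
  obtain ⟨B, hB⟩ := bounded_above hΓ hNc hNinv
  -- the entire function
  let φ : ℂ → ℂ := fun z => ρ (v₀ + z • w) ^ m *
    Complex.exp (F (v₀ + z • w) + Real.pi * (z * HK w v₀))
  have hline : Differentiable ℂ fun z : ℂ => v₀ + z • w :=
    (differentiable_id.smul_const w).const_add v₀
  have hφ : Differentiable ℂ φ :=
    ((hρ.holo.comp hline).pow m).mul (((hF.comp hline).add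
      ((differentiable_id.mul_const (HK w v₀)).const_mul (Real.pi : ℂ))).cexp)
  have hφn : ∀ z, ‖φ z‖ ^ 2 = N (v₀ + z • w) *
      Real.exp (-(Real.pi * (HK v₀ v₀).re) - Real.pi * (HK w w).re * ‖z‖ ^ 2) := by
    intro z
    simp only [φ, N]
    rw [norm_mul, mul_pow, Complex.norm_exp, ← Real.exp_nat_mul, mul_assoc, ← Real.exp_add,
      h_diag_add hH, h_diag_smul hH, h_re_symm hH (z • w) v₀, hH.smul_left]
    congr 2
    simp only [Complex.add_re, Complex.re_ofReal_mul]
    push_cast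
    ring
  have hφ0 : ∀ z, φ z ≠ 0 := fun z => by
    refine mul_ne_zero (pow_ne_zero m ?_) (Complex.exp_ne_zero _)
    exact hzQ z _ (by rwa [dist_self])
  rcases lt_trichotomy (HK w w).re 0 with hlt | heq | hgt
  · exfalso
    have h1 := zero_of_gauss (g := fun z => (φ z)⁻¹) (hφ.inv hφ0)
      (C := (N x₀)⁻¹ * Real.exp (Real.pi * (HK v₀ v₀).re)) (a := Real.pi * -(HK w w).re)
      (mul_pos Real.pi_pos (by linarith)) (fun z => by
        rw [norm_inv, inv_pow, hφn, mul_inv, ← Real.exp_neg, mul_assoc (N x₀)⁻¹, ← Real.exp_add]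
        refine mul_le_mul (inv_anti₀ hδ (hlow z)) (le_of_eq ?_) (Real.exp_pos _).le
          (inv_nonneg.2 hδ.le)
        congr 1
        ring)
    exact inv_ne_zero (hφ0 0) h1
  · exact heq
  · exfalso
    have h1 := zero_of_gauss hφ
      (C := B * Real.exp (-(Real.pi * (HK v₀ v₀).re))) (a := Real.pi * (HK w w).re)
      (mul_pos Real.pi_pos hgt) (fun z => by
        rw [hφn, mul_assoc B, ← Real.exp_add]
        have e1 : -(Real.pi * (HK v₀ v₀).re) - Real.pi * (HK w w).re * ‖z‖ ^ 2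
            = -(Real.pi * (HK v₀ v₀).re) + -(Real.pi * (HK w w).re * ‖z‖ ^ 2) := by ring
        rw [e1]
        exact mul_le_mul_of_nonneg_right (hB _) (Real.exp_pos _).le)
    exact hφ0 0 h1

end Pool.Agent.Y167
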