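import Pool.Agent.Y167.CD

/-!
# The cone conjecture for torus quotients: the general statement
-/

set_option autoImplicit false

namespace Pool.Agent.Y167

open Finset Filter Topology
open Pool.Agent.W594.SYZ2 Pool.Agent.W594.SYZ2.TQ Pool.Agent.TH735.AQ Pool.Agent.TH128.SYZ

variable {V E : Type*} [NormedAddCommGroup V] [NormedSpace ℂ V] [FiniteDimensional ℂ V]
  [NormedAddCommGroup E] [NormedSpace ℂ E] [FiniteDimensional ℂ E] {Γ : Subgroup (V ≃ᵃ[ℂ] V)}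
  {j : E →ₗ[ℂ] V} {H₀ : V → V → ℂ}

omit [FiniteDimensional ℂ E] in
theorem Pol.IsGood.inv {Λ : AddSubgroup E} {G : Set (Module.End ℂ E)} {m : ℕ} {u : E ≃ₗ[ℂ] E}
    (hu : Pol.IsGood Λ G m u) : Pol.IsGood Λ G m u.symm where
  unit := hu.unit.inv
  cong := fun v hv => by
    obtain ⟨c, hc, h1⟩ := hu.cong _ (hu.unit.symm v hv)
    refine ⟨-c, Λ.neg_mem hc, ?_⟩
    rw [u.apply_symm_apply] at h1
    rw [smul_neg, ← h1, neg_sub]
  refl := fun x hx hr e => by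
    have h1 := hu.refl x hx hr (u.symm e)
    rw [u.apply_symm_apply] at h1
    have h2 : u.symm e - e = -(e - u.symm e) := by abel
    rw [h2, map_neg, h1]

omit [FiniteDimensional ℂ V] [FiniteDimensional ℂ E] in
theorem finite_opE (R : Rel Γ j H₀) : (opE Γ j).Finite := by
  have hfin := R.tq.finite_linear
  refine Set.Finite.of_finite_image (f := fun x : Module.End ℂ E => j ∘ₗ x)
    ((hfin.image fun A : V ≃ₗ[ℂ] V => (A : V →ₗ[ℂ] V) ∘ₗ j).subset ?_) ?_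
  · rintro _ ⟨x, ⟨γ, hγ, hx⟩, rfl⟩
    exact ⟨γ.linear, ⟨γ, hγ, rfl⟩, LinearMap.ext fun e => (hx e).symm⟩
  · intro x _ y _ hxy
    ext e
    exact R.inj (LinearMap.congr_fun hxy e)

/-- A nef integral class has an effective multiple. -/
theorem exists_eff (R : Rel Γ j H₀) {x : N1 Γ j} (hx : Integral x) (hn : x ∈ nefCone Γ j) :
    ∃ m : ℕ, 0 < m ∧ ∃ L : LineBundle Γ, IsClass j L ((m : ℝ) • x).1 ∧
      ∀ v, ∃ s, L.IsSection s ∧ s v ≠ 0 := by
  obtain ⟨m, hm, L, H, hL, h1, hs⟩ := R.exists_class (isInt_of_integral R hx) hn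
  refine ⟨m, hm, L, ⟨H, hL, fun u w => ?_⟩, hs⟩
  rw [h1]
  change (m : ℝ) • x.1 u w = _
  rw [Complex.real_smul, Complex.ofReal_natCast]

theorem cone_of_scaled {W : Type*} [AddCommGroup W] [Module ℝ W] {a : W} {S : Finset W} {k : ℝ}
    (hk : 0 < k) (h : k • a ∈ S) : a ∈ cone S := by
  have h1 := cone_smul (mem_cone_self h) (inv_nonneg.2 hk.le)
  rwa [smul_smul, inv_mul_cancel₀ hk.ne', one_smul] at h1

/-- The cone spanned by the nef classes in the lattice is the cone of nef and effective classes. -/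
theorem mem_Cp_iff (R : Rel Γ j H₀) {M : AddSubgroup (N1 Γ j)} {k : ℕ} (hk : 0 < k)
    (hM1 : ∀ x, Integral x → (k : ℝ) • x ∈ M) (hM2 : ∀ x ∈ M, Integral ((k : ℝ) • x))
    (x : N1 Γ j) : x ∈ Cp M (nefCone Γ j) ↔ x ∈ nefCone Γ j ∩ effCone Γ j := by
  classical
  have hkr : (0 : ℝ) < k := by exact_mod_cast hk
  constructor
  · rintro ⟨T, hT, hx⟩
    have hnef : x ∈ nefCone Γ j := by
      refine cone_ind (p := fun x => x ∈ nefCone Γ j) (fun u => le_refl (0 : ℝ))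
        (fun x y hx hy => nef_add hx hy) (fun t x ht hx => nef_smul ht hx)
        (fun a ha => (hT a ha).2) hx
    refine ⟨hnef, ?_⟩
    have h1 : ∀ a ∈ T, ∃ m : ℕ, 0 < m ∧ EffClass ((m : ℝ) • ((k : ℝ) • a)) := by
      intro a ha
      obtain ⟨m, hm, L, hL, hs⟩ := exists_eff R (hM2 a (hT a ha).1) (nef_smul hkr.le (hT a ha).2)
      obtain ⟨s, hs1, hs2⟩ := hs 0
      exact ⟨m, hm, L, s, hL, hs1, 0, hs2⟩
    choose! m hm1 hm2 using h1
    refine ⟨T.image fun a => (m a : ℝ) • ((k : ℝ) • a), ?_, ?_⟩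
    · intro a ha
      obtain ⟨b, hb, rfl⟩ := Finset.mem_image.1 ha
      exact hm2 b hb
    · refine cone_le (fun a ha => ?_) hx
      have hmr : (0 : ℝ) < m a := by exact_mod_cast hm1 a ha
      refine cone_of_scaled (k := (m a : ℝ) * k) (by positivity) ?_
      rw [mul_smul]
      exact Finset.mem_image_of_mem (fun a => (m a : ℝ) • ((k : ℝ) • a)) ha
  · rintro ⟨-, T, hT, hx⟩
    refine ⟨T.image fun a => (k : ℝ) • a, ?_, ?_⟩
    · intro a ha
      obtain ⟨b, hb, rfl⟩ := Finset.mem_image.1 ha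
      obtain ⟨L, s, hL, hs, h0⟩ := hT b hb
      refine ⟨hM1 b ⟨L, hL⟩, nef_smul hkr.le ?_⟩
      exact eff_nef R.tq ⟨{b}, by
        intro c hc
        rw [Finset.mem_singleton] at hc
        rw [hc]
        exact ⟨L, s, hL, hs, h0⟩, mem_cone_self (Finset.mem_singleton_self b)⟩
    · refine cone_le (fun a ha => ?_) hx
      exact cone_of_scaled hkr (Finset.mem_image_of_mem (fun a => (k : ℝ) • a) ha)

/-- **The cone conjecture for torus quotients**, general form. -/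
theorem core₀ (R : Rel Γ j H₀)
    (M : AddSubgroup (N1 Γ j)) {k : ℕ} (hk : 0 < k)
    (hM1 : ∀ x, Integral x → (k : ℝ) • x ∈ M) (hM2 : ∀ x ∈ M, Integral ((k : ℝ) • x))
    (𝒢 : Subgroup (N1 Γ j ≃ₗ[ℝ] N1 Γ j)) (h𝒢M : ∀ g ∈ 𝒢, ∀ x ∈ M, g x ∈ M)
    (h𝒢N : ∀ g ∈ 𝒢, ∀ x ∈ nefCone Γ j ∩ effCone Γ j, g x ∈ nefCone Γ j ∩ effCone Γ j)
    (h𝒢 : ∀ (m : ℕ) (u : E ≃ₗ[ℂ] E), Pol.IsGood (lattE Γ j) (opE Γ j) m u →
      ∀ f : V ≃ᵃ[ℂ] V, Normalizes Γ f → (∀ v, ∃ e, f v = v + j (u e - e)) →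
        ∀ g : N1 Γ j ≃ₗ[ℝ] N1 Γ j, IsPullback f g → g ∈ 𝒢) :
    ∃ S : Finset (N1 Γ j), (∀ a ∈ S, Integral a) ∧ cone S ⊆ nefCone Γ j ∩ effCone Γ j ∧
      (∀ x, x ∈ nefCone Γ j ∩ effCone Γ j ↔ ∃ g ∈ 𝒢, ∃ y ∈ cone S, g y = x) ∧
      ∀ g ∈ 𝒢, g ≠ 1 → Disjoint (interior (cone S)) (g '' cone S) := by
  classical
  have hkr : (0 : ℝ) < k := by exact_mod_cast hk
  obtain ⟨ξ₀, y₀, Y, D, hy₀⟩ := exists_cdata R M hk hM1 hM2
  obtain ⟨d, b, P⟩ := R.pol
  obtain ⟨F, hF, hFc⟩ := P.red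
  obtain ⟨m₀, hm₀, hauts⟩ := R.exists_aut
  obtain ⟨𝓡, h𝓡f, h𝓡U, h𝓡⟩ := P.fin_idx (finite_opE R) (by
    rintro x ⟨γ, hγ, hx⟩ v hv
    change j (x v) ∈ latt Γ
    rw [hx]
    exact latt_inv γ hγ hv) m₀ hm₀
  -- the generators
  have hcl : ∀ z r, z ∈ F → r ∈ 𝓡 → ∃ (a : N1 Γ j) (m : ℕ), 0 < m ∧ Integral a ∧
      a ∈ nefCone Γ j ∧ ∀ u w, a.1 u w = m * z (r u) (r w) := by
    intro z r hz hr
    obtain ⟨hz1, hz2⟩ := hF z hz
    have hrU := h𝓡U r hr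
    have h1 : Pol.IsInt (lattE Γ j) (opE Γ j) (fun u w => z (r u) (r w)) := by
      refine ⟨⟨?_, ?_, ?_⟩, ?_, ?_⟩
      · intro u v w
        rw [map_add, hz1.herm.add_left]
      · intro c v w
        rw [map_smul, hz1.herm.smul_left]
      · intro v w
        exact hz1.herm.symm _ _
      · intro g hg u w
        rw [hrU.comm g hg, hrU.comm g hg, hz1.inv g hg]
      · intro u hu w hw
        exact hz1.int _ (hrU.map u hu) _ (hrU.map w hw)
    obtain ⟨m, hm, L, H, hL, h2, -⟩ := R.exists_class h1 (fun v => hz2 (r v))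
    obtain ⟨a, ha1, ha2⟩ := exists_int (j := j) (L := L) (h := fun u w => H (j u) (j w))
      ⟨H, hL, fun _ _ => rfl⟩
    refine ⟨a, m, hm, ha2, fun u => ?_, fun u w => ?_⟩
    · rw [ha1]
      change 0 ≤ (H (j u) (j u)).re
      rw [h2]
      have e1 : (m : ℂ) = ((m : ℝ) : ℂ) := by push_cast; rfl
      rw [e1, Complex.re_ofReal_mul]
      exact mul_nonneg (Nat.cast_nonneg _) (hz2 (r u))
    · rw [ha1]
      exact h2 u w
  choose! af mf hmf haf1 haf2 haf3 using hcl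
  let F₂ : Finset (N1 Γ j) := (F ×ˢ h𝓡f.toFinset).image fun p => (k : ℝ) • af p.1 p.2
  have hF₂ : ∀ a ∈ F₂, a ∈ M ∧ a ∈ nefCone Γ j := by
    intro a ha
    obtain ⟨p, hp, rfl⟩ := Finset.mem_image.1 ha
    rw [Finset.mem_product, h𝓡f.mem_toFinset] at hp
    exact ⟨hM1 _ (haf1 _ _ hp.1 hp.2), nef_smul hkr.le (haf2 _ _ hp.1 hp.2)⟩
  -- the covering
  have hcov : ∀ x : N1 Γ j, (∃ t : ℝ, 0 < t ∧ x - t • y₀ ∈ nefCone Γ j) → ∃ g ∈ 𝒢,
      (∀ a, Integral a → Integral (g.symm a)) ∧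
      (∀ a ∈ nefCone Γ j, g.symm a ∈ nefCone Γ j) ∧ g x ∈ cone F₂ := by
    rintro x ⟨t, ht, hxt⟩
    obtain ⟨u, hu1, hu2, hu3, c, hc, hx⟩ := hFc x.1 (mem_span_int R x) ⟨t * k, by positivity, fun u => by
      have h1 := hxt u
      change 0 ≤ (x.1 u u - t • y₀.1 u u).re at h1
      have e1 : (k : ℂ) = ((k : ℝ) : ℂ) := by push_cast; rfl
      rw [Complex.sub_re, Complex.smul_re, hy₀, e1, Complex.re_ofReal_mul, smul_eq_mul] at h1
      linarith⟩
    obtain ⟨r, hr, u', hu', hur⟩ := h𝓡 u ⟨hu1, hu2, hu3⟩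
    obtain ⟨f, hf1, hf2, hf3⟩ := hauts u'.symm hu'.inv
    obtain ⟨g, hg1, hg2, hg3, hg4⟩ := exists_pull (j := j) hf1 hf2
    have hg𝒢 : g ∈ 𝒢 := by
      refine h𝒢 m₀ _ hu'.inv f hf1 hf3 g ?_
      intro x v w v' w' hv hw
      rw [hf2] at hv hw
      rw [hg1, R.inj hv, R.inj hw]
    refine ⟨g, hg𝒢, hg4, fun a ha v => ?_, ?_⟩
    · rw [hg2]
      exact ha _
    · have h1 : g x = ∑ z ∈ F, (c z / (k * mf z r)) • ((k : ℝ) • af z r) := by
        apply Subtype.ext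
        funext v w
        have h2 : (∑ z ∈ F, (c z / (k * mf z r)) • ((k : ℝ) • af z r) : N1 Γ j).1
            = ∑ z ∈ F, (c z / (k * mf z r)) • ((k : ℝ) • (af z r).1) := by
          rw [Submodule.coe_sum]
          rfl
        rw [hg1, hx, h2]
        simp only [Finset.sum_apply, Pi.smul_apply]
        refine Finset.sum_congr rfl fun z hz => ?_
        rw [hur, hur, u'.apply_symm_apply, u'.apply_symm_apply, haf3 z r hz hr, Complex.real_smul,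
          Complex.real_smul]
        have hm : ((mf z r : ℕ) : ℂ) ≠ 0 := by
          have := hmf z r hz hr
          exact_mod_cast this.ne'
        have hk' : (k : ℂ) ≠ 0 := by exact_mod_cast hk.ne'
        push_cast
        field_simp
      rw [h1]
      refine mem_cone_of_sum F _ _ (fun z hz => ?_) (fun z _ => ?_)
      · exact Finset.mem_image.2 ⟨(z, r), by
          rw [Finset.mem_product, h𝓡f.mem_toFinset]
          exact ⟨hz, hr⟩, rfl⟩
      · exact div_nonneg (hc z) (by positivity)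
  -- interior points are spanned by nef integral classes
  have hint : ∀ x : N1 Γ j, (∃ t : ℝ, 0 < t ∧ x - t • y₀ ∈ nefCone Γ j) →
      x ∈ nefCone Γ j ∩ effCone Γ j := by
    intro x hx
    obtain ⟨g, -, hg1, hg2, hgx⟩ := hcov x hx
    have h1 := cone_image (g.symm : N1 Γ j →ₗ[ℝ] N1 Γ j) hgx
    have h2 : (g.symm : N1 Γ j →ₗ[ℝ] N1 Γ j) (g x) = x := g.symm_apply_apply x
    rw [h2] at h1
    rw [← mem_Cp_iff R hk hM1 hM2]
    refine ⟨(F₂.image (g.symm : N1 Γ j →ₗ[ℝ] N1 Γ j)).image fun a => ((k : ℝ) * k) • a, ?_, ?_⟩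
    · intro a ha
      obtain ⟨a', ha', rfl⟩ := Finset.mem_image.1 ha
      obtain ⟨a, ha0, rfl⟩ := Finset.mem_image.1 ha'
      have h3 : ((k : ℝ) * k) • (g.symm : N1 Γ j →ₗ[ℝ] N1 Γ j) a
          = (k : ℝ) • (g.symm ((k : ℝ) • a)) := by
        rw [map_smul g.symm, smul_smul]
        rfl
      rw [h3]
      refine ⟨hM1 _ (hg1 _ (hM2 _ (hF₂ a ha0).1)), nef_smul hkr.le (hg2 _ (nef_smul hkr.le ?_))⟩
      exact (hF₂ a ha0).2
    · refine cone_le (fun a ha => ?_) h1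
      exact cone_of_scaled (k := (k : ℝ) * k) (by positivity)
        (Finset.mem_image_of_mem (fun a => ((k : ℝ) * k) • a) ha)
  have h𝒢nef : ∀ g ∈ 𝒢, ∀ x ∈ nefCone Γ j, g x ∈ nefCone Γ j := by
    intro g hg x hx u
    have h1 : ∀ ε : ℝ, 0 < ε → 0 ≤ ((g x).1 u u).re + ε * ((g y₀).1 u u).re := by
      intro ε hε
      have h2 := (h𝒢N g hg _ (hint (x + ε • y₀) ⟨ε, hε, by rwa [add_sub_cancel_right]⟩)).1 u
      rw [map_add, map_smul] at h2
      change 0 ≤ ((g x).1 u u + ε • (g y₀).1 u u).re at h2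
      rwa [Complex.add_re, Complex.smul_re, smul_eq_mul] at h2
    by_contra hcon
    push Not at hcon
    set A := ((g x).1 u u).re with hA
    set B := ((g y₀).1 u u).re with hB
    have h2 := h1 (-A / (2 * (|B| + 1))) (by
      have : 0 ≤ |B| := abs_nonneg B
      exact div_pos (by linarith) (by linarith))
    have h3 : B ≤ |B| := le_abs_self B
    have h4 : (0 : ℝ) < 2 * (|B| + 1) := by positivity
    have h5 : -A / (2 * (|B| + 1)) * B ≤ -A / 2 := by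
      rw [div_mul_eq_mul_div, div_le_div_iff₀ h4 (by norm_num)]
      nlinarith
    linarith
  obtain ⟨S, hS1, hS2, hS3⟩ := D.domain 𝒢 h𝒢M h𝒢nef F₂ hF₂ (fun x hx => by
    obtain ⟨g, hg, -, -, h⟩ := hcov x hx
    exact ⟨g, hg, h⟩)
  -- rescale
  have hcone : ∀ x, x ∈ cone (S.image fun a => (k : ℝ) • a) ↔ x ∈ cone S := by
    intro x
    constructor
    · refine fun h => cone_le (fun a ha => ?_) h
      obtain ⟨a', ha', rfl⟩ := Finset.mem_image.1 ha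
      exact cone_smul (mem_cone_self ha') hkr.le
    · refine fun h => cone_le (fun a ha => ?_) h
      exact cone_of_scaled hkr (Finset.mem_image_of_mem (fun a => (k : ℝ) • a) ha)
  have hcone' : cone (S.image fun a => (k : ℝ) • a) = cone S := Set.ext hcone
  refine ⟨S.image fun a => (k : ℝ) • a, ?_, ?_, ?_, ?_⟩
  · intro a ha
    obtain ⟨a', ha', rfl⟩ := Finset.mem_image.1 ha
    exact hM2 _ (hS1 a' ha').1
  · rw [hcone']
    intro x hx
    rw [← mem_Cp_iff R hk hM1 hM2]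
    exact ⟨S, hS1, hx⟩
  · intro x
    rw [← mem_Cp_iff R hk hM1 hM2, hS2, hcone']
    constructor
    · rintro ⟨g, hg, hgx⟩
      exact ⟨g⁻¹, 𝒢.inv_mem hg, g x, hgx, g.symm_apply_apply x⟩
    · rintro ⟨g, hg, y, hy, rfl⟩
      refine ⟨g⁻¹, 𝒢.inv_mem hg, ?_⟩
      have : (g⁻¹ : N1 Γ j ≃ₗ[ℝ] N1 Γ j) (g y) = y := g.symm_apply_apply y
      rwa [this]
  · intro g hg hg1
    rw [hcone']
    obtain ⟨φ, hφ0, hφ1, hφ2⟩ := hS3 g hg hg1
    rw [Set.disjoint_left]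
    rintro x hx ⟨y, hy, rfl⟩
    have h1 := hφ2 y hy
    obtain ⟨w, hw⟩ : ∃ w, 0 < φ w := by
      by_contra hcon
      push Not at hcon
      apply hφ0
      ext w
      have e1 := hcon w
      have e2 := hcon (-w)
      rw [map_neg] at e2
      change φ w = 0
      linarith
    have hcont : Continuous fun t : ℝ => g y - t • w := by fun_prop
    have hmem : ∀ᶠ t : ℝ in 𝓝 0, g y - t • w ∈ interior (cone S) := by
      apply hcont.continuousAt.eventually_mem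
      rw [zero_smul, sub_zero]
      exact isOpen_interior.mem_nhds hx
    obtain ⟨ε, hε, hball⟩ := Metric.eventually_nhds_iff.1 hmem
    have h2 := interior_subset (hball (y := ε / 2) (by
      rw [Real.dist_eq, sub_zero, abs_of_pos (by linarith)]
      linarith))
    have h3 := hφ1 _ h2
    rw [map_sub, map_smul, smul_eq_mul] at h3
    have h4 : 0 < ε / 2 * φ w := by positivity
    linarith

/-- **The cone conjecture for torus quotients** with a boundary divisor. -/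
theorem core (R : Rel Γ j H₀) {ι : Type*} [Fintype ι] (Δ : EffDiv Γ ι) (hΔ : NumTrivial Δ j)
    (M : AddSubgroup (N1 Γ j)) {k : ℕ} (hk : 0 < k)
    (hM1 : ∀ x, Integral x → (k : ℝ) • x ∈ M) (hM2 : ∀ x ∈ M, Integral ((k : ℝ) • x))
    (𝒢 : Subgroup (N1 Γ j ≃ₗ[ℝ] N1 Γ j)) (h𝒢M : ∀ g ∈ 𝒢, ∀ x ∈ M, g x ∈ M)
    (h𝒢N : ∀ g ∈ 𝒢, ∀ x ∈ nefCone Γ j ∩ effCone Γ j, g x ∈ nefCone Γ j ∩ effCone Γ j)
    (h𝒢 : ∀ f : V ≃ᵃ[ℂ] V, Normalizes Γ f → (∀ v, ∃ e, f v = v + j e) →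
      (∀ v, Δ.mul (f v) = Δ.mul v) → ∀ g : N1 Γ j ≃ₗ[ℝ] N1 Γ j, IsPullback f g → g ∈ 𝒢) :
    ∃ S : Finset (N1 Γ j), (∀ a ∈ S, Integral a) ∧ cone S ⊆ nefCone Γ j ∩ effCone Γ j ∧
      (∀ x, x ∈ nefCone Γ j ∩ effCone Γ j ↔ ∃ g ∈ 𝒢, ∃ y ∈ cone S, g y = x) ∧
      ∀ g ∈ 𝒢, g ≠ 1 → Disjoint (interior (cone S)) (g '' cone S) :=
  core₀ R M hk hM1 hM2 𝒢 h𝒢M h𝒢N fun _ _ hu f hf hf3 g hg =>
    h𝒢 f hf (fun v => by
      obtain ⟨e, he⟩ := hf3 v
      exact ⟨_, he⟩) (delta_inv R Δ hΔ hu hf3) g hg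

end Pool.Agent.Y167
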