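import Mathlib

/-!
# Real symmetric matrices: factorisation, traces of products, AM-GM, domination
-/

set_option autoImplicit false

namespace Pool.Agent.Y167

open Matrix Finset

variable {r : ℕ}

open scoped MatrixOrder in
/-- A real positive semidefinite matrix is of the form `Cᵀ C`. -/
theorem psd_factor {P : Matrix (Fin r) (Fin r) ℝ} (hP : P.PosSemidef) :
    ∃ C : Matrix (Fin r) (Fin r) ℝ, P = Cᵀ * C := by
  obtain ⟨C, hC⟩ := CStarAlgebra.nonneg_iff_eq_star_mul_self.mp hP.nonneg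
  exact ⟨C, by rw [hC, star_eq_conjTranspose, conjTranspose_eq_transpose_of_trivial]⟩

theorem psd_iff {P : Matrix (Fin r) (Fin r) ℝ} :
    P.PosSemidef ↔ Pᵀ = P ∧ ∀ x : Fin r → ℝ, 0 ≤ x ⬝ᵥ (P *ᵥ x) := by
  constructor
  · intro h
    refine ⟨?_, fun x => ?_⟩
    · have := h.1
      rwa [IsHermitian, conjTranspose_eq_transpose_of_trivial] at this
    · have := h.dotProduct_mulVec_nonneg x
      simpa using this
  · rintro ⟨h1, h2⟩
    refine PosSemidef.of_dotProduct_mulVec_nonneg ?_ (fun x => ?_)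
    · rw [IsHermitian, conjTranspose_eq_transpose_of_trivial, h1]
    · simpa using h2 x

theorem pd_iff {P : Matrix (Fin r) (Fin r) ℝ} :
    P.PosDef ↔ Pᵀ = P ∧ ∀ x : Fin r → ℝ, x ≠ 0 → 0 < x ⬝ᵥ (P *ᵥ x) := by
  constructor
  · intro h
    refine ⟨?_, fun x hx => ?_⟩
    · have := h.1
      rwa [IsHermitian, conjTranspose_eq_transpose_of_trivial] at this
    · have := h.dotProduct_mulVec_pos hx
      simpa using this
  · rintro ⟨h1, h2⟩
    refine PosDef.of_dotProduct_mulVec_pos ?_ (fun x hx => ?_)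
    · rw [IsHermitian, conjTranspose_eq_transpose_of_trivial, h1]
    · simpa using h2 x hx

theorem psd_conj {P : Matrix (Fin r) (Fin r) ℝ} (hP : P.PosSemidef)
    (C : Matrix (Fin r) (Fin r) ℝ) : (C * P * Cᵀ).PosSemidef := by
  have := hP.mul_mul_conjTranspose_same C
  rwa [conjTranspose_eq_transpose_of_trivial] at this

theorem psd_conj' {P : Matrix (Fin r) (Fin r) ℝ} (hP : P.PosSemidef)
    (C : Matrix (Fin r) (Fin r) ℝ) : (Cᵀ * P * C).PosSemidef := by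
  have := hP.conjTranspose_mul_mul_same C
  rwa [conjTranspose_eq_transpose_of_trivial] at this

/-- The trace of the product of two positive semidefinite matrices is nonnegative. -/
theorem trace_mul_nonneg {P Q : Matrix (Fin r) (Fin r) ℝ} (hP : P.PosSemidef)
    (hQ : Q.PosSemidef) : 0 ≤ (P * Q).trace := by
  obtain ⟨C, rfl⟩ := psd_factor hP
  rw [Matrix.mul_assoc, trace_mul_comm]
  exact (psd_conj hQ C).trace_nonneg

/-- The inequality between the geometric and the arithmetic mean for `P Q`. -/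
theorem amgm {P Q : Matrix (Fin r) (Fin r) ℝ} (hr : 0 < r) (hP : P.PosSemidef)
    (hQ : Q.PosSemidef) : P.det * Q.det ≤ ((P * Q).trace / r) ^ r := by
  obtain ⟨C, rfl⟩ := psd_factor hP
  have hS := psd_conj hQ C
  have h1 : (Cᵀ * C * Q).trace = (C * Q * Cᵀ).trace := by
    rw [Matrix.mul_assoc, trace_mul_comm]
  have h2 : (Cᵀ * C).det * Q.det = (C * Q * Cᵀ).det := by
    simp only [det_mul, det_transpose]; ring
  rw [h1, h2, hS.1.det_eq_prod_eigenvalues, hS.1.trace_eq_sum_eigenvalues]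
  simp only [RCLike.ofReal_real_eq_id, id_eq]
  set μ := hS.1.eigenvalues with hμ
  have hμ0 : ∀ i, 0 ≤ μ i := fun i => hS.eigenvalues_nonneg i
  have hr' : (0 : ℝ) < r := by exact_mod_cast hr
  have h3 := Real.geom_mean_le_arith_mean_weighted univ (fun _ => (1 : ℝ) / r) μ
    (fun _ _ => by positivity) (by simp [hr'.ne']) (fun i _ => hμ0 i)
  have h4 : ∏ i, μ i = (∏ i, μ i ^ ((1 : ℝ) / r)) ^ r := by
    rw [← Finset.prod_pow]
    apply Finset.prod_congr rfl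
    intro i _
    rw [← Real.rpow_natCast, ← Real.rpow_mul (hμ0 i), one_div, inv_mul_cancel₀ hr'.ne',
      Real.rpow_one]
  rw [h4]
  refine pow_le_pow_left₀ (Finset.prod_nonneg (fun i _ => Real.rpow_nonneg (hμ0 i) _)) ?_ r
  calc ∏ i, μ i ^ ((1 : ℝ) / r) ≤ ∑ i, (1 : ℝ) / r * μ i := h3
    _ = (∑ i, μ i) / r := by rw [← Finset.mul_sum]; ring

theorem dot_mulVec_le (V : Matrix (Fin r) (Fin r) ℝ) (x : Fin r → ℝ) :
    |x ⬝ᵥ (V *ᵥ x)| ≤ (∑ i, ∑ j, |V i j|) * (x ⬝ᵥ x) := by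
  have hx : ∀ i, x i ^ 2 ≤ x ⬝ᵥ x := by
    intro i
    have : x ⬝ᵥ x = ∑ j, x j ^ 2 := by
      simp [dotProduct, sq]
    rw [this]
    exact Finset.single_le_sum (f := fun j => x j ^ 2) (fun j _ => sq_nonneg _) (Finset.mem_univ i)
  calc |x ⬝ᵥ (V *ᵥ x)| = |∑ i, ∑ j, x i * (V i j * x j)| := by
        simp only [dotProduct, mulVec, Finset.mul_sum]
    _ ≤ ∑ i, ∑ j, |x i * (V i j * x j)| :=
        (Finset.abs_sum_le_sum_abs _ _).trans
          (Finset.sum_le_sum fun i _ => Finset.abs_sum_le_sum_abs _ _)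
    _ ≤ ∑ i, ∑ j, |V i j| * (x ⬝ᵥ x) := by
        refine Finset.sum_le_sum fun i _ => Finset.sum_le_sum fun j _ => ?_
        rw [abs_mul, abs_mul]
        have h1 : |x i| * |x j| ≤ x ⬝ᵥ x := by
          nlinarith [hx i, hx j, sq_nonneg (|x i| - |x j|), sq_abs (x i), sq_abs (x j)]
        nlinarith [abs_nonneg (V i j), h1]
    _ = (∑ i, ∑ j, |V i j|) * (x ⬝ᵥ x) := by
        rw [Finset.sum_mul]
        refine Finset.sum_congr rfl fun i _ => ?_
        rw [Finset.sum_mul]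

/-- A positive definite matrix is bounded below by a positive multiple of the identity. -/
theorem pd_lower {P : Matrix (Fin r) (Fin r) ℝ} (hP : P.PosDef) :
    ∃ δ : ℝ, 0 < δ ∧ ∀ x : Fin r → ℝ, δ * (x ⬝ᵥ x) ≤ x ⬝ᵥ (P *ᵥ x) := by
  have hU := hP.isUnit
  have hinv : P⁻¹ * P = 1 := Matrix.nonsing_inv_mul _ ((Matrix.isUnit_iff_isUnit_det _).1 hU)
  obtain ⟨C, hC⟩ := psd_factor hP.posSemidef
  have hCC : (P⁻¹ * Cᵀ) * C = 1 := by rw [Matrix.mul_assoc, ← hC, hinv]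
  obtain ⟨D, hD⟩ : ∃ D, D = P⁻¹ * Cᵀ := ⟨_, rfl⟩
  rw [← hD] at hCC
  -- x = D C x, so |x|^2 ≤ K |C x|^2
  set K : ℝ := ∑ i, ∑ j, |(Dᵀ * D) i j| with hK
  have hKn : 0 ≤ K := Finset.sum_nonneg fun i _ => Finset.sum_nonneg fun j _ => abs_nonneg _
  refine ⟨1 / (K + 1), by positivity, fun x => ?_⟩
  have h1 : x ⬝ᵥ x = (C *ᵥ x) ⬝ᵥ ((Dᵀ * D) *ᵥ (C *ᵥ x)) := by
    have hx : x = D *ᵥ (C *ᵥ x) := by rw [mulVec_mulVec, hCC, one_mulVec]
    rw [← mulVec_mulVec (C *ᵥ x) Dᵀ D, dotProduct_mulVec (C *ᵥ x) Dᵀ, vecMul_transpose, ← hx]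
  have h2 : x ⬝ᵥ (P *ᵥ x) = (C *ᵥ x) ⬝ᵥ (C *ᵥ x) := by
    rw [hC, ← mulVec_mulVec, dotProduct_mulVec x Cᵀ, vecMul_transpose]
  have h3 := dot_mulVec_le (Dᵀ * D) (C *ᵥ x)
  have h4 : 0 ≤ (C *ᵥ x) ⬝ᵥ (C *ᵥ x) := by
    simp only [dotProduct]
    exact Finset.sum_nonneg fun i _ => mul_self_nonneg _
  rw [h2, h1, div_mul_eq_mul_div, one_mul, div_le_iff₀ (by positivity)]
  have h5 := le_abs_self ((C *ᵥ x) ⬝ᵥ ((Dᵀ * D) *ᵥ (C *ᵥ x)))
  nlinarith

/-- Every symmetric matrix is dominated by a multiple of a positive definite one. -/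
theorem dominate {P V : Matrix (Fin r) (Fin r) ℝ} (hP : P.PosDef) (hV : Vᵀ = V) :
    ∃ C : ℝ, 0 < C ∧ (C • P - V).PosSemidef := by
  obtain ⟨δ, hδ, h⟩ := pd_lower hP
  set K : ℝ := ∑ i, ∑ j, |V i j| with hK
  have hKn : 0 ≤ K := Finset.sum_nonneg fun i _ => Finset.sum_nonneg fun j _ => abs_nonneg _
  refine ⟨(K + 1) / δ, by positivity, ?_⟩
  have hPs : Pᵀ = P := (pd_iff.1 hP).1
  rw [psd_iff]
  refine ⟨by rw [transpose_sub, transpose_smul, hPs, hV], fun x => ?_⟩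
  rw [sub_mulVec, smul_mulVec, dotProduct_sub, dotProduct_smul, smul_eq_mul]
  have h1 := dot_mulVec_le V x
  have h2 := (abs_le.1 h1).2
  have h3 := h x
  have h4 : 0 ≤ x ⬝ᵥ x := by
    simp only [dotProduct]
    exact Finset.sum_nonneg fun i _ => mul_self_nonneg _
  have h5 : (K + 1) * (x ⬝ᵥ x) ≤ (K + 1) / δ * (x ⬝ᵥ (P *ᵥ x)) := by
    calc (K + 1) * (x ⬝ᵥ x) = (K + 1) / δ * (δ * (x ⬝ᵥ x)) := by field_simp
      _ ≤ _ := by gcongr
  nlinarith

end Pool.Agent.Y167
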