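import Pool.Agent.Y167.Vor

/-!
# Each positive definite element is a positive combination of few integral elements
-/

set_option autoImplicit false

namespace Pool.Agent.Y167

open Matrix Finset Filter Topology

variable {A : Type*} [Ring A] [Algebra ℝ A] {r : ℕ}

namespace Sys

variable {S : Sys A r}

theorem exists_min {x : A} (hx : S.Pd x) : ∃ b ∈ S.K, ∀ b' ∈ S.K, S.tr (x * b) ≤ S.tr (x * b') := by
  let f : (Fin r → ℝ) →ₗ[ℝ] ℝ :=
    (S.tr.comp (LinearMap.mulLeft ℝ x)).comp S.vec.symm.toLinearMap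
  have hf : ∀ v, f v = S.tr (x * S.vec.symm v) := fun v => rfl
  have hfc : Continuous f := LinearMap.continuous_of_finiteDimensional f
  let Kc : Set (Fin r → ℝ) := {v | S.vec.symm v ∈ S.K}
  have hclosed : IsClosed Kc := by
    have h1 : Kc = {v | S.vec (S.st (S.vec.symm v)) = v} ∩
        ⋂ a : {a : A // S.M a}, {v | 1 ≤ S.tr (a.1 * S.vec.symm v)} := by
      ext v
      simp only [Kc, K, Set.mem_ofPred_eq, Set.mem_inter_iff, Set.mem_iInter, Subtype.forall]
      refine and_congr ?_ Iff.rfl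
      rw [← LinearEquiv.eq_symm_apply]
    rw [h1]
    refine IsClosed.inter ?_ (isClosed_iInter fun a => ?_)
    · refine isClosed_eq ?_ continuous_id
      exact LinearMap.continuous_of_finiteDimensional
        ((S.vec.toLinearMap.comp S.st).comp S.vec.symm.toLinearMap)
    · refine isClosed_le continuous_const ?_
      exact LinearMap.continuous_of_finiteDimensional
        ((S.tr.comp (LinearMap.mulLeft ℝ a.1)).comp S.vec.symm.toLinearMap)
  obtain ⟨C, hC, hctl⟩ := hx.tr_control
  have hb : ∀ v ∈ Kc, f v ≤ f (S.vec 1) → ∀ i, |v i| ≤ C * S.tr x := by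
    intro v hv hle i
    have hp : S.Psd (S.vec.symm v) := K_psd hv
    have h1 := hp.abs_vec_le i
    rw [LinearEquiv.apply_symm_apply] at h1
    refine h1.trans ((hctl _ hp).trans ?_)
    rw [S.tr_comm]
    simp only [hf, LinearEquiv.symm_apply_apply, mul_one] at hle
    gcongr
  have hcomp : IsCompact (Kc ∩ {v | f v ≤ f (S.vec 1)}) := by
    refine IsCompact.of_isClosed_subset (isCompact_Icc (a := fun _ : Fin r => -(C * S.tr x))
      (b := fun _ => C * S.tr x)) (hclosed.inter (isClosed_le hfc continuous_const)) ?_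
    rintro v ⟨hv, hle⟩
    exact ⟨fun i => (abs_le.1 (hb v hv hle i)).1, fun i => (abs_le.1 (hb v hv hle i)).2⟩
  have hne : (Kc ∩ {v | f v ≤ f (S.vec 1)}).Nonempty := by
    refine ⟨S.vec 1, ?_, le_refl (f (S.vec 1))⟩
    change S.vec.symm (S.vec 1) ∈ S.K
    rw [LinearEquiv.symm_apply_apply]
    exact S.one_mem_K
  obtain ⟨v, ⟨hv, hle⟩, hmin⟩ := hcomp.exists_isMinOn hne hfc.continuousOn
  refine ⟨S.vec.symm v, hv, fun b' hb' => ?_⟩
  have hb'' : S.vec b' ∈ Kc := by
    change S.vec.symm (S.vec b') ∈ S.K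
    rwa [LinearEquiv.symm_apply_apply]
  by_cases h1 : f (S.vec b') ≤ f (S.vec 1)
  · have := hmin ⟨hb'', h1⟩
    simpa [hf] using this
  · rw [not_le] at h1
    have h2 : f v < f (S.vec b') := lt_of_le_of_lt hle h1
    simp only [hf, LinearEquiv.symm_apply_apply] at h2
    exact h2.le

/-- Linear functionals are given by self-adjoint elements on the self-adjoint elements. -/
theorem riesz (φ : A →ₗ[ℝ] ℝ) : ∃ v : A, S.st v = v ∧ ∀ a, S.st a = a → φ a = S.tr (a * v) := by
  -- φ a = vec a ⬝ g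
  let g : Fin r → ℝ := fun i => φ (S.vec.symm (Pi.single i 1))
  have hg : ∀ a, φ a = S.vec a ⬝ᵥ g := by
    intro a
    have h1 : a = ∑ i, S.vec a i • S.vec.symm (Pi.single i 1) := by
      apply S.vec.injective
      rw [map_sum]
      simp only [map_smul, LinearEquiv.apply_symm_apply]
      ext j
      simp [Pi.single_apply]
    conv_lhs => rw [h1]
    rw [map_sum]
    simp only [map_smul, smul_eq_mul, dotProduct, g]
  let w : A := S.vec.symm g
  have hw : ∀ a, φ a = S.tr (S.st a * w) := by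
    intro a
    rw [hg, ← S.dot_vec', LinearEquiv.apply_symm_apply]
  refine ⟨(1 / 2 : ℝ) • (w + S.st w), ?_, fun a ha => ?_⟩
  · rw [map_smul, map_add, S.st_st, add_comm]
  · rw [mul_smul_comm, mul_add, map_smul, map_add, hw a, ha]
    have : S.tr (a * S.st w) = S.tr (a * w) := by
      rw [← S.tr_st, S.st_mul, S.st_st, ha, S.tr_comm]
    rw [this, smul_eq_mul]
    ring

/-- Small perturbations of an element of the Voronoi domain in a direction which is nonnegative
on the active constraints. -/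
theorem perturb (hr : 0 < r) {b v : A} (hb : b ∈ S.K) (hv : S.st v = v)
    (h : ∀ a, S.M a → S.tr (a * b) = 1 → 0 ≤ S.tr (a * v)) :
    ∃ ε : ℝ, 0 < ε ∧ b + ε • v ∈ S.K := by
  have hpd := K_pd hr hb
  obtain ⟨C, hC, hdom⟩ := hpd.dominate (v := -v) (by rw [map_neg, hv])
  have hlow : ∀ a, S.Psd a → -(C * S.tr (a * b)) ≤ S.tr (a * v) := by
    intro a ha
    have := tr_mul_nonneg ha hdom
    rw [sub_neg_eq_add, mul_add, mul_smul_comm, map_add, map_smul, smul_eq_mul] at this
    linarith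
  have hfin := M_finite hpd 2
  have hev : ∀ᶠ ε : ℝ in 𝓝[>] 0, ∀ a ∈ {a : A | S.M a ∧ S.tr (a * b) ≤ 2},
      1 ≤ S.tr (a * (b + ε • v)) := by
    rw [Filter.eventually_all_finite hfin]
    rintro a ⟨hM, -⟩
    have h1 := hb.2 a hM
    rcases h1.eq_or_lt with h1 | h1
    · filter_upwards [self_mem_nhdsWithin] with ε hε
      have hε : 0 < ε := hε
      rw [mul_add, mul_smul_comm, map_add, map_smul, ← h1, smul_eq_mul]
      have := mul_nonneg hε.le (h a hM h1.symm)
      linarith
    · have hc : Continuous fun ε : ℝ => S.tr (a * b) + ε * S.tr (a * v) := by fun_prop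
      have hl : Tendsto (fun ε : ℝ => S.tr (a * b) + ε * S.tr (a * v)) (𝓝[>] 0)
          (𝓝 (S.tr (a * b) + 0 * S.tr (a * v))) := (hc.tendsto 0).mono_left nhdsWithin_le_nhds
      rw [zero_mul, add_zero] at hl
      filter_upwards [hl.eventually (eventually_gt_nhds h1)] with ε hε
      rw [mul_add, mul_smul_comm, map_add, map_smul, smul_eq_mul]
      exact hε.le
  have hev2 : ∀ᶠ ε : ℝ in 𝓝[>] 0, ε < 1 / (2 * C) :=
    (eventually_lt_nhds (by positivity)).filter_mono nhdsWithin_le_nhds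
  obtain ⟨ε, ⟨h1, h2⟩, h3⟩ := ((hev.and hev2).and self_mem_nhdsWithin).exists
  have h3 : 0 < ε := h3
  refine ⟨ε, h3, by rw [map_add, map_smul, hb.1, hv], fun a hM => ?_⟩
  by_cases h4 : S.tr (a * b) ≤ 2
  · exact h1 a ⟨hM, h4⟩
  · rw [not_le] at h4
    rw [mul_add, mul_smul_comm, map_add, map_smul, smul_eq_mul]
    have h5 := hlow a hM.1
    have h6 : ε * C ≤ 1 / 2 := by
      rw [lt_div_iff₀ (by positivity)] at h2
      nlinarith
    have h7 : ε * (-(C * S.tr (a * b))) ≤ ε * S.tr (a * v) := mul_le_mul_of_nonneg_left h5 h3.le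
    nlinarith

/-- The support of a positive definite element: it is a convex combination of integral elements
with `tr (a b) = 1`, up to scaling. -/
theorem mem_hull (hr : 0 < r) {x b : A} (hx : S.Pd x) (hb : b ∈ S.K)
    (hmin : ∀ b' ∈ S.K, S.tr (x * b) ≤ S.tr (x * b')) :
    (S.tr (x * b))⁻¹ • x ∈ convexHull ℝ {a : A | S.M a ∧ S.tr (a * b) = 1} := by
  have hpd := K_pd hr hb
  have hx0 : x ≠ 0 := by
    intro h0
    have h1 := (pd_iff'.1 hx).2 1 (by
      intro h1
      have h2 := S.tr_comm (1 : A) 1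
      have h3 : (1 : Matrix (Fin r) (Fin r) ℝ) = 0 := by
        rw [← map_one S.mat, h1, map_zero]
      have h4 := congrFun (congrFun h3 ⟨0, hr⟩) ⟨0, hr⟩
      simp at h4)
    rw [h0] at h1
    simp at h1
  have ht : 0 < S.tr (x * b) := by
    obtain ⟨C, hC, hctl⟩ := hpd.tr_control
    have h1 := hctl x hx.psd
    have h2 := hx.psd.tr_pos hx0
    by_contra h3
    rw [not_lt] at h3
    nlinarith
  set t := S.tr (x * b) with htdef
  by_contra hnot
  have hfin : {a : A | S.M a ∧ S.tr (a * b) = 1}.Finite :=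
    (M_finite hpd 1).subset (fun a ha => ⟨ha.1, ha.2.le⟩)
  have hcomp : IsCompact (convexHull ℝ (S.vec '' {a : A | S.M a ∧ S.tr (a * b) = 1})) :=
    Set.Finite.isCompact_convexHull ℝ (hfin.image _)
  have hnot2 : S.vec (t⁻¹ • x) ∉ convexHull ℝ (S.vec '' {a : A | S.M a ∧ S.tr (a * b) = 1}) := by
    intro h1
    apply hnot
    have h2 := LinearMap.image_convexHull S.vec.toLinearMap {a : A | S.M a ∧ S.tr (a * b) = 1}
    have h3 : S.vec (t⁻¹ • x) ∈ S.vec.toLinearMap ''
        (convexHull ℝ {a : A | S.M a ∧ S.tr (a * b) = 1}) := by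
      rw [h2]
      exact h1
    obtain ⟨y, hy, hy2⟩ := h3
    rwa [← S.vec.injective hy2]
  obtain ⟨f, u, hf1, hf2⟩ := geometric_hahn_banach_closed_point (convex_convexHull ℝ _)
    hcomp.isClosed hnot2
  obtain ⟨v, hv, hφ⟩ := riesz (S := S) (f.toLinearMap.comp S.vec.toLinearMap)
  have hφ' : ∀ a, S.st a = a → f (S.vec a) = S.tr (a * v) := hφ
  have h1 : ∀ a, S.M a → S.tr (a * b) = 1 → S.tr (a * v) < u := by
    intro a ha hab
    rw [← hφ' a ha.1.sa]
    exact hf1 _ (subset_convexHull ℝ _ ⟨a, ⟨ha, hab⟩, rfl⟩)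
  have h2 : u * t < S.tr (x * v) := by
    have h3 := hf2
    rw [hφ' _ (by rw [map_smul, hx.psd.sa]), smul_mul_assoc, map_smul, smul_eq_mul] at h3
    rw [inv_mul_eq_div, lt_div_iff₀ ht] at h3
    exact h3
  obtain ⟨ε, hε, hmem⟩ := perturb hr hb (v := u • b - v) (by rw [map_sub, map_smul, hb.1, hv]) (by
    intro a ha hab
    rw [mul_sub, mul_smul_comm, map_sub, map_smul, hab, smul_eq_mul, mul_one]
    linarith [h1 a ha hab])
  have h4 := hmin _ hmem
  rw [mul_add, mul_smul_comm, mul_sub, mul_smul_comm, map_add, map_smul, map_sub, map_smul,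
    smul_eq_mul, smul_eq_mul, ← htdef] at h4
  nlinarith

/-- The constant in the next theorem. -/
noncomputable def C2 (S : Sys A r) : ℝ :=
  2 ^ r * S.B.det ^ 4 / (1 / (S.N : ℝ) ^ 3 / (2 * r)) ^ r

/-- Every positive definite element is a positive combination of integral positive semidefinite
elements whose sum is positive definite of bounded determinant. -/
theorem decompose (hr : 0 < r) {x : A} (hx : S.Pd x) :
    ∃ (m : ℕ) (z : Fin m → A) (c : Fin m → ℝ), (∀ i, S.M (z i)) ∧ (∀ i, 0 < c i) ∧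
      x = ∑ i, c i • z i ∧ S.Pd (∑ i, z i) ∧ (S.gram (∑ i, z i)).det ≤ C2 S := by
  classical
  obtain ⟨b, hb, hmin⟩ := exists_min hx
  have hpd := K_pd hr hb
  have hhull := mem_hull hr hx hb hmin
  obtain ⟨ι, hι, z, w, hz, haff, hw, hw1, hsum⟩ := eq_pos_convex_span_of_mem_convexHull hhull
  set t := S.tr (x * b) with ht
  have hzM : ∀ i, S.M (z i) := fun i => (hz ⟨i, rfl⟩).1
  have hzb : ∀ i, S.tr (z i * b) = 1 := fun i => (hz ⟨i, rfl⟩).2
  have htne : t ≠ 0 := by
    intro h0
    rw [h0, _root_.inv_zero, zero_smul] at hsum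
    have h1 : S.tr ((∑ i, w i • z i) * b) = 1 := by
      rw [Finset.sum_mul, map_sum]
      simp only [smul_mul_assoc, map_smul, hzb, smul_eq_mul, mul_one]
      exact hw1
    rw [hsum, zero_mul, map_zero] at h1
    exact zero_ne_one h1
  have htpos : 0 < t := by
    refine lt_of_le_of_ne ?_ (Ne.symm htne)
    exact tr_mul_nonneg hx.psd (K_psd hb)
  have hxeq : x = ∑ i, (t * w i) • z i := by
    have h1 : x = t • ∑ i, w i • z i := by
      rw [hsum, smul_smul, mul_inv_cancel₀ htne, one_smul]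
    rw [h1, Finset.smul_sum]
    exact Finset.sum_congr rfl fun i _ => by rw [smul_smul]
  have hwle : ∀ i, w i ≤ 1 := by
    intro i
    rw [← hw1]
    exact Finset.single_le_sum (f := w) (fun j _ => (hw j).le) (Finset.mem_univ i)
  have hspd : S.Pd (∑ i, z i) := by
    have h1 : ∑ i, z i = t⁻¹ • x + ∑ i, (1 - w i) • z i := by
      rw [← hsum, ← Finset.sum_add_distrib]
      exact Finset.sum_congr rfl fun i _ => by rw [← add_smul]; simp
    rw [h1]
    refine Pd.add_psd ?_ (psd_sum _ _ fun i _ => (hzM i).1.smul (by linarith [hwle i]))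
    rw [pd_iff'] at hx ⊢
    refine ⟨by rw [map_smul, hx.1], fun y hy => ?_⟩
    rw [mul_smul_comm, smul_mul_assoc, map_smul, smul_eq_mul]
    exact mul_pos (inv_pos.2 htpos) (hx.2 y hy)
  have hcard : Fintype.card ι ≤ r + 1 := by
    have h1 := haff.card_le_finrank_succ
    have h2 : Module.finrank ℝ (vectorSpan ℝ (Set.range z)) ≤ Module.finrank ℝ A := by
      have : FiniteDimensional ℝ A := Module.Basis.finiteDimensional_of_finite S.bas
      exact Submodule.finrank_le _
    have h3 : Module.finrank ℝ A = r := by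
      rw [Module.finrank_eq_card_basis S.bas, Fintype.card_fin]
    omega
  have htr : S.tr ((∑ i, z i) * b) ≤ r + 1 := by
    rw [Finset.sum_mul, map_sum]
    simp only [hzb, Finset.sum_const, Finset.card_univ, nsmul_eq_mul, mul_one]
    exact_mod_cast hcard
  have hr' : (0 : ℝ) < r := by exact_mod_cast hr
  have hr1 : (1 : ℝ) ≤ r := by exact_mod_cast hr
  have hdet : (S.gram (∑ i, z i)).det ≤ C2 S := by
    have h1 := amgm hr hspd.psd hpd.psd
    rw [← map_mul, ← tr_apply] at h1
    have h2 : (S.tr ((∑ i, z i) * b) / r) ^ r ≤ 2 ^ r := by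
      have h3 : 0 ≤ S.tr ((∑ i, z i) * b) := tr_mul_nonneg hspd.psd hpd.psd
      refine pow_le_pow_left₀ (by positivity) ?_ r
      rw [div_le_iff₀ hr']
      linarith
    have h4 := K_det hr hb
    rw [S.det_gram] at h4 ⊢
    have hN : (0 : ℝ) < S.N := by exact_mod_cast S.N_pos
    have hc : 0 < (1 / (S.N : ℝ) ^ 3 / (2 * r)) ^ r := by positivity
    rw [C2, le_div_iff₀ hc]
    have h5 : 0 < (S.mat (∑ i, z i)).det := PosDef.det_pos hspd
    have h6 : 0 < (S.mat b).det := PosDef.det_pos hpd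
    have h7 : 0 ≤ S.B.det ^ 2 := sq_nonneg _
    calc S.B.det ^ 2 * (S.mat (∑ i, z i)).det * (1 / (S.N : ℝ) ^ 3 / (2 * r)) ^ r
        ≤ S.B.det ^ 2 * (S.mat (∑ i, z i)).det * (S.B.det ^ 2 * (S.mat b).det) := by
          gcongr
      _ = S.B.det ^ 4 * ((S.mat (∑ i, z i)).det * (S.mat b).det) := by ring
      _ ≤ S.B.det ^ 4 * 2 ^ r := by
          have h8 : (0 : ℝ) ≤ S.B.det ^ 4 := by positivity
          exact mul_le_mul_of_nonneg_left (h1.trans h2) h8
      _ = 2 ^ r * S.B.det ^ 4 := by ring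
  let e := Fintype.equivFin ι
  refine ⟨Fintype.card ι, fun i => z (e.symm i), fun i => t * w (e.symm i),
    fun i => hzM _, fun i => mul_pos htpos (hw _), ?_, ?_, ?_⟩
  · rw [hxeq]
    exact (Equiv.sum_comp e.symm (fun i => (t * w i) • z i)).symm
  · rwa [Equiv.sum_comp e.symm z]
  · rwa [Equiv.sum_comp e.symm z]

end Sys

end Pool.Agent.Y167
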