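import Pool.Agent.Y167.Inv
import Pool.Agent.Y167.Dom

/-!
# The lattice and the cones in `N^1(X/Z)`
-/

set_option autoImplicit false

namespace Pool.Agent.Y167

open Finset Filter Topology
open Pool.Agent.W594.SYZ2 Pool.Agent.W594.SYZ2.TQ Pool.Agent.TH735.AQ Pool.Agent.TH128.SYZ

variable {V E : Type*} [NormedAddCommGroup V] [NormedSpace ℂ V]
  [NormedAddCommGroup E] [NormedSpace ℂ E] {Γ : Subgroup (V ≃ᵃ[ℂ] V)}

theorem chern_add {L M : LineBundle Γ} {H H' : V → V → ℂ} (h : IsChernForm L H)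
    (h' : IsChernForm M H') : IsChernForm (tensor L M) (fun v w => H v w + H' v w) := by
  obtain ⟨hH, F, hF, hFe⟩ := h
  obtain ⟨hH', F', hF', hFe'⟩ := h'
  refine ⟨⟨?_, ?_, ?_⟩, fun v => F v + F' v, hF.add hF', ?_⟩
  · intro u v w
    rw [hH.add_left, hH'.add_left]
    ring
  · intro c v w
    rw [hH.smul_left, hH'.smul_left]
    ring
  · intro v w
    rw [map_add, ← hH.symm, ← hH'.symm]
  · intro γ v
    change ‖L.e γ v * M.e γ v‖ ^ 2 = _
    rw [norm_mul, mul_pow, hFe, hFe', ← Real.exp_add]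
    congr 1
    simp only [Complex.add_re]
    ring

/-- The dual line bundle. -/
noncomputable def dual (L : LineBundle Γ) : LineBundle Γ where
  e := fun γ v => (L.e γ v)⁻¹
  holo := fun γ => (L.holo γ).inv (L.ne_zero γ)
  ne_zero := fun γ v => inv_ne_zero (L.ne_zero γ v)
  mul := fun γ δ v => by rw [L.mul, mul_inv]
  stab := fun γ v h => by rw [L.stab γ v h, inv_one]

theorem chern_neg {L : LineBundle Γ} {H : V → V → ℂ} (h : IsChernForm L H) :
    IsChernForm (dual L) (fun v w => -H v w) := by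
  obtain ⟨hH, F, hF, hFe⟩ := h
  refine ⟨⟨?_, ?_, ?_⟩, fun v => -F v, hF.neg, ?_⟩
  · intro u v w
    rw [hH.add_left]
    ring
  · intro c v w
    rw [hH.smul_left]
    ring
  · intro v w
    rw [map_neg, ← hH.symm]
  · intro γ v
    change ‖(L.e γ v)⁻¹‖ ^ 2 = _
    rw [norm_inv, inv_pow, hFe, ← Real.exp_neg]
    congr 1
    simp only [Complex.neg_re]
    ring

/-- The trivial line bundle. -/
noncomputable def triv (Γ : Subgroup (V ≃ᵃ[ℂ] V)) : LineBundle Γ where
  e := fun _ _ => 1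
  holo := fun _ => differentiable_const _
  ne_zero := fun _ _ => one_ne_zero
  mul := fun _ _ _ => by rw [mul_one]
  stab := fun _ _ _ => rfl

theorem chern_zero : IsChernForm (triv Γ) (fun _ _ => 0) := by
  refine ⟨⟨fun _ _ _ => by rw [add_zero], fun _ _ _ => by rw [mul_zero], fun _ _ => by
    rw [map_zero]⟩, fun _ => 0, differentiable_const _, fun γ v => ?_⟩
  change ‖(1 : ℂ)‖ ^ 2 = _
  simp

variable {j : E →ₗ[ℂ] V}

theorem Integral.add {x y : N1 Γ j} (hx : Integral x) (hy : Integral y) : Integral (x + y) := by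
  obtain ⟨L, H, hL, h1⟩ := hx
  obtain ⟨M, H', hM, h2⟩ := hy
  exact ⟨tensor L M, _, chern_add hL hM, fun u w => by
    change x.1 u w + y.1 u w = _
    rw [h1, h2]⟩

theorem Integral.neg {x : N1 Γ j} (hx : Integral x) : Integral (-x) := by
  obtain ⟨L, H, hL, h1⟩ := hx
  exact ⟨dual L, _, chern_neg hL, fun u w => by
    change -x.1 u w = _
    rw [h1]⟩

theorem Integral.zero : Integral (0 : N1 Γ j) :=
  ⟨triv Γ, _, chern_zero, fun _ _ => rfl⟩

/-- The group of integral classes. -/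
noncomputable def intL (Γ : Subgroup (V ≃ᵃ[ℂ] V)) (j : E →ₗ[ℂ] V) : AddSubgroup (N1 Γ j) where
  carrier := {x | Integral x}
  zero_mem' := Integral.zero
  add_mem' := Integral.add
  neg_mem' := Integral.neg

theorem mem_intL {x : N1 Γ j} : x ∈ intL Γ j ↔ Integral x := Iff.rfl

/-- A line bundle gives an integral class. -/
theorem exists_int {L : LineBundle Γ} {h : E → E → ℂ} (hL : IsClass j L h) :
    ∃ x : N1 Γ j, x.1 = h ∧ Integral x :=
  ⟨⟨h, Submodule.subset_span ⟨L, hL⟩⟩, rfl, L, hL⟩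

theorem span_intL : Submodule.span ℝ (intL Γ j : Set (N1 Γ j)) = ⊤ := by
  rw [eq_top_iff]
  rintro ⟨x, hx⟩ -
  have h1 : ∀ x, ∀ hx : x ∈ Submodule.span ℝ {h | ∃ L : LineBundle Γ, IsClass j L h},
      ∀ hx' : x ∈ N1s Γ j, (⟨x, hx'⟩ : N1 Γ j) ∈ Submodule.span ℝ (intL Γ j : Set (N1 Γ j)) := by
    intro x hx
    induction hx using Submodule.span_induction with
    | mem x hx =>
      intro hx'
      refine Submodule.subset_span ?_
      obtain ⟨L, hL⟩ := hx
      exact ⟨L, hL⟩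
    | zero => exact fun hx' => Submodule.zero_mem _
    | add x y hx hy h1 h2 =>
      intro hx'
      exact Submodule.add_mem _ (h1 hx) (h2 hy)
    | smul c x hx h1 =>
      intro hx'
      exact Submodule.smul_mem _ c (h1 hx)
  exact h1 x hx hx

/-- The nef cone is a convex cone. -/
theorem nef_add {x y : N1 Γ j} (hx : x ∈ nefCone Γ j) (hy : y ∈ nefCone Γ j) :
    x + y ∈ nefCone Γ j := fun u => by
  change 0 ≤ (x.1 u u + y.1 u u).re
  rw [Complex.add_re]
  exact add_nonneg (hx u) (hy u)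

theorem nef_smul {x : N1 Γ j} {t : ℝ} (ht : 0 ≤ t) (hx : x ∈ nefCone Γ j) :
    t • x ∈ nefCone Γ j := fun u => by
  change 0 ≤ (t • x.1 u u).re
  rw [Complex.smul_re]
  exact mul_nonneg ht (hx u)

variable [FiniteDimensional ℂ V]

theorem nef_of_section (hΓ : IsTorusQuotient Γ) {L : LineBundle Γ} {H : V → V → ℂ}
    (hL : IsChernForm L H) {s : V → ℂ} (hs : L.IsSection s) (h0 : ∃ v, s v ≠ 0) :
    IsNefForm H := by
  refine (psef_iff_nef hΓ hL).1 (psef_of_section hs ?_)
  rintro rfl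
  obtain ⟨v, hv⟩ := h0
  exact hv rfl

/-- Effective classes are nef. -/
theorem eff_nef (hΓ : IsTorusQuotient Γ) {x : N1 Γ j} (hx : x ∈ effCone Γ j) :
    x ∈ nefCone Γ j := by
  obtain ⟨S, hS, hxS⟩ := hx
  refine cone_ind (p := fun x => x ∈ nefCone Γ j) ?_ (fun x y hx hy => nef_add hx hy)
    (fun t x ht hx => nef_smul ht hx) (fun a ha => ?_) hxS
  · intro u
    exact le_refl (0 : ℝ)
  · obtain ⟨L, s, ⟨H, hL, h1⟩, hs, h0⟩ := hS a ha
    intro u
    rw [h1]
    exact nef_of_section hΓ hL hs h0 (j u)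

end Pool.Agent.Y167
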