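import Mathlib

/-!
# Faces of convex cones: definition
-/

set_option autoImplicit false

namespace Pool.Agent.Y167

/-- `F` is a face of the convex cone `A`: a convex subcone which contains two elements of `A` as soon
as it contains their sum. -/
structure IsFace {W : Type*} [AddCommGroup W] [Module ℝ W] (F A : Set W) : Prop where
  sub : F ⊆ A
  zero : (0 : W) ∈ F
  add : ∀ x ∈ F, ∀ y ∈ F, x + y ∈ F
  smul : ∀ x ∈ F, ∀ t : ℝ, 0 ≤ t → t • x ∈ F
  ext : ∀ x ∈ A, ∀ y ∈ A, x + y ∈ F → x ∈ F

end Pool.Agent.Y167
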