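import Pool.Agent.Y167.FromFib
import Pool.Agent.Y167.StmFace

/-!
# The cone `Nef^+` and the faces of the cone of nef and effective classes
-/

set_option autoImplicit false

namespace Pool.Agent.Y167

open Finset Filter Topology
open Pool.Agent.W594.SYZ2 Pool.Agent.W594.SYZ2.TQ Pool.Agent.TH735.AQ

section Cone

variable {W : Type*} [AddCommGroup W] [Module ℝ W]

theorem IsFace.sum {F A : Set W} (h : IsFace F A) {ι : Type*} (s : Finset ι) (f : ι → W)
    (hf : ∀ i ∈ s, f i ∈ F) : ∑ i ∈ s, f i ∈ F := by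
  classical
  induction s using Finset.induction_on with
  | empty => simpa using h.zero
  | insert i s hi ih =>
    rw [Finset.sum_insert hi]
    exact h.add _ (hf i (Finset.mem_insert_self _ _)) _
      (ih fun j hj => hf j (Finset.mem_insert_of_mem hj))

/-- A point in the relative interior of a face. -/
theorem IsFace.exists_relint [FiniteDimensional ℝ W] {F A : Set W} (h : IsFace F A) :
    ∃ x ∈ F, ∀ z ∈ F, ∃ ε : ℝ, 0 < ε ∧ x - ε • z ∈ F := by
  classical
  obtain ⟨b, hbF, hspan, hli⟩ := exists_linearIndependent ℝ F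
  have hfin : b.Finite := hli.set_finite_of_isNoetherian
  let s := hfin.toFinset
  have hs : ∀ i ∈ s, i ∈ F := fun i hi => hbF (hfin.mem_toFinset.1 hi)
  refine ⟨∑ i ∈ s, i, h.sum s _ hs, fun z hz => ?_⟩
  have hz1 : z ∈ Submodule.span ℝ (s : Set W) := by
    rw [hfin.coe_toFinset, hspan]
    exact Submodule.subset_span hz
  obtain ⟨c, hc⟩ := Submodule.mem_span_finset'.1 hz1
  let C : ℝ := 1 + ∑ i : s, |c i|
  have hC : 0 < C := by positivity
  refine ⟨C⁻¹, inv_pos.2 hC, ?_⟩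
  have h1 : ∑ i ∈ s, i - C⁻¹ • z = ∑ i : s, (1 - C⁻¹ * c i) • (i : W) := by
    rw [← hc, Finset.smul_sum, ← Finset.sum_coe_sort s (fun i => i), ← Finset.sum_sub_distrib]
    refine Finset.sum_congr rfl fun i _ => ?_
    rw [sub_smul, one_smul, smul_smul]
  rw [h1]
  refine h.sum _ _ fun i _ => h.smul _ (hs _ i.2) _ ?_
  have h2 : |c i| ≤ C := by
    have := Finset.single_le_sum (f := fun i : s => |c i|) (fun i _ => abs_nonneg _)
      (Finset.mem_univ i)
    simp only [C]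
    linarith
  have h3 : C⁻¹ * c i ≤ 1 := by
    have h4 : c i ≤ C := (le_abs_self _).trans h2
    calc C⁻¹ * c i ≤ C⁻¹ * C := mul_le_mul_of_nonneg_left h4 (inv_nonneg.2 hC.le)
      _ = 1 := inv_mul_cancel₀ hC.ne'
  linarith

/-- If the convex cone `A` is covered by the translates of a finitely generated subcone under a group
of linear automorphisms preserving `A`, then the faces of `A` form finitely many orbits. -/
theorem finite_faces [FiniteDimensional ℝ W] {A : Set W} (hadd : ∀ x ∈ A, ∀ y ∈ A, x + y ∈ A)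
    (hsmul : ∀ x ∈ A, ∀ t : ℝ, 0 ≤ t → t • x ∈ A) (𝒢 : Subgroup (W ≃ₗ[ℝ] W))
    (h𝒢 : ∀ g ∈ 𝒢, ∀ x ∈ A, g x ∈ A) {S : Finset W} (hS : cone S ⊆ A)
    (hcov : ∀ x ∈ A, ∃ g ∈ 𝒢, ∃ y ∈ cone S, g y = x) :
    ∃ 𝓕 : Set (Set W), 𝓕.Finite ∧ (∀ F ∈ 𝓕, IsFace F A) ∧
      ∀ F, IsFace F A → ∃ g ∈ 𝒢, ∃ F' ∈ 𝓕, F = g '' F' := by
  classical
  -- the smallest face containing the sum of a subset of the generators
  let Fc : Finset W → Set W := fun T => {x | x ∈ A ∧ ∃ t : ℝ, 0 < t ∧ t • ∑ a ∈ T, a - x ∈ A}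
  have h0A : (0 : W) ∈ A := hS (zero_mem_cone S)
  have hsumA : ∀ T : Finset W, T ⊆ S → ∑ a ∈ T, a ∈ A := fun T hT =>
    hS (cone_sum T _ fun a ha => mem_cone_self (hT ha))
  have hface : ∀ T : Finset W, T ⊆ S → IsFace (Fc T) A := by
    intro T hT
    have h1 := hsumA T hT
    refine ⟨fun x hx => hx.1, ⟨h0A, 1, one_pos, ?_⟩, ?_, ?_, ?_⟩
    · rwa [one_smul, sub_zero]
    · rintro x ⟨hx, t, ht, hxt⟩ y ⟨hy, r, hr, hyr⟩
      refine ⟨hadd _ hx _ hy, t + r, by positivity, ?_⟩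
      have e : (t + r) • ∑ a ∈ T, a - (x + y) = (t • ∑ a ∈ T, a - x) + (r • ∑ a ∈ T, a - y) := by
        rw [add_smul]
        abel
      rw [e]
      exact hadd _ hxt _ hyr
    · rintro x ⟨hx, t, ht, hxt⟩ r hr
      refine ⟨hsmul _ hx _ hr, r * t + 1, by positivity, ?_⟩
      have e : (r * t + 1) • ∑ a ∈ T, a - r • x = r • (t • ∑ a ∈ T, a - x) + ∑ a ∈ T, a := by
        rw [add_smul, one_smul, smul_sub, smul_smul]
        abel
      rw [e]
      exact hadd _ (hsmul _ hxt _ hr) _ h1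
    · rintro x hx y hy ⟨-, t, ht, hxt⟩
      refine ⟨hx, t, ht, ?_⟩
      have e : t • ∑ a ∈ T, a - x = (t • ∑ a ∈ T, a - (x + y)) + y := by abel
      rw [e]
      exact hadd _ hxt _ hy
  refine ⟨Fc '' {T | T ⊆ S}, ?_, ?_, ?_⟩
  · apply Set.Finite.image
    have : {T | T ⊆ S} = (S.powerset : Set (Finset W)) := by
      ext T
      simp
    rw [this]
    exact Finset.finite_toSet _
  · rintro _ ⟨T, hT, rfl⟩
    exact hface T hT
  · intro F hF
    obtain ⟨x, hxF, hx⟩ := hF.exists_relint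
    obtain ⟨g, hg, y, hy, rfl⟩ := hcov x (hF.sub hxF)
    obtain ⟨c, hc, hyc⟩ := hy
    let T := S.filter fun a => c a ≠ 0
    have hyT : y = ∑ a ∈ T, c a • a := by
      rw [hyc, Finset.sum_filter_of_ne]
      intro a _ ha h
      exact ha (by rw [h, zero_smul])
    have hTS : T ⊆ S := Finset.filter_subset _ _
    refine ⟨g, hg, Fc T, ⟨T, hTS, rfl⟩, ?_⟩
    have hg' : ∀ x ∈ A, g.symm x ∈ A := fun x hx => h𝒢 _ (𝒢.inv_mem hg) x hx
    -- a multiple of the sum minus `y` is in the cone, and conversely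
    have hpos : ∀ a ∈ T, 0 < c a := fun a ha =>
      lt_of_le_of_ne (hc a) (Ne.symm (Finset.mem_filter.1 ha).2)
    have hle1 : ∃ t : ℝ, 0 < t ∧ t • ∑ a ∈ T, a - y ∈ A := by
      refine ⟨1 + ∑ a ∈ T, c a, by
        have : 0 ≤ ∑ a ∈ T, c a := Finset.sum_nonneg fun a _ => hc a
        linarith, ?_⟩
      apply hS
      rw [hyT, Finset.smul_sum, ← Finset.sum_sub_distrib]
      refine cone_sum _ _ fun a ha => ?_
      rw [← sub_smul]
      refine cone_smul (mem_cone_self (hTS ha)) ?_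
      have := Finset.single_le_sum (f := fun a => c a) (fun a _ => hc a) ha
      linarith
    have hle2 : ∃ t : ℝ, 0 < t ∧ t • y - ∑ a ∈ T, a ∈ A := by
      have h3 : 0 ≤ ∑ a ∈ T, (c a)⁻¹ := Finset.sum_nonneg fun a _ => inv_nonneg.2 (hc a)
      refine ⟨1 + ∑ a ∈ T, (c a)⁻¹, by linarith, ?_⟩
      apply hS
      rw [hyT, Finset.smul_sum, ← Finset.sum_sub_distrib]
      refine cone_sum _ _ fun a ha => ?_
      have e : (1 + ∑ a ∈ T, (c a)⁻¹) • c a • a - a = ((1 + ∑ a ∈ T, (c a)⁻¹) * c a - 1) • a := by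
        rw [sub_smul, one_smul, smul_smul]
      rw [e]
      refine cone_smul (mem_cone_self (hTS ha)) ?_
      have h4 : (c a)⁻¹ ≤ 1 + ∑ a ∈ T, (c a)⁻¹ := by
        have := Finset.single_le_sum (f := fun a => (c a)⁻¹) (fun a _ => inv_nonneg.2 (hc a)) ha
        linarith
      have h5 : (c a)⁻¹ * c a ≤ (1 + ∑ a ∈ T, (c a)⁻¹) * c a :=
        mul_le_mul_of_nonneg_right h4 (hc a)
      rw [inv_mul_cancel₀ (hpos a ha).ne'] at h5
      linarith
    ext z
    constructor
    · intro hz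
      obtain ⟨ε, hε, h1⟩ := hx z hz
      refine ⟨g.symm z, ⟨hg' z (hF.sub hz), ?_⟩, g.apply_symm_apply z⟩
      obtain ⟨t, ht, h2⟩ := hle1
      refine ⟨ε⁻¹ * t, by positivity, ?_⟩
      have h3 := hg' _ (hF.sub h1)
      rw [map_sub, map_smul, g.symm_apply_apply] at h3
      have e : (ε⁻¹ * t) • ∑ a ∈ T, a - g.symm z
          = ε⁻¹ • (t • ∑ a ∈ T, a - y) + ε⁻¹ • (y - ε • g.symm z) := by
        rw [smul_sub, smul_sub, smul_smul, smul_smul, inv_mul_cancel₀ hε.ne', one_smul]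
        abel
      rw [e]
      exact hadd _ (hsmul _ h2 _ (inv_nonneg.2 hε.le)) _ (hsmul _ h3 _ (inv_nonneg.2 hε.le))
    · rintro ⟨w, ⟨hw, t, ht, hwt⟩, rfl⟩
      obtain ⟨r, hr, h2⟩ := hle2
      refine hF.ext _ (h𝒢 g hg w hw) (g ((t * r) • y - w)) (h𝒢 g hg _ ?_) ?_
      · have e : (t * r) • y - w = t • (r • y - ∑ a ∈ T, a) + (t • ∑ a ∈ T, a - w) := by
          rw [smul_sub, smul_smul]
          abel
        rw [e]
        exact hadd _ (hsmul _ h2 _ ht.le) _ hwt
      · rw [← map_add, add_sub_cancel, map_smul]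
        exact hF.smul _ hxF _ (by positivity)

end Cone

variable {V E : Type*} [NormedAddCommGroup V] [NormedSpace ℂ V] [FiniteDimensional ℂ V]
  [NormedAddCommGroup E] [NormedSpace ℂ E] [FiniteDimensional ℂ E] {Γ : Subgroup (V ≃ᵃ[ℂ] V)}
  {j : E →ₗ[ℂ] V} {H₀ : V → V → ℂ}

/-- A class is rational if it has a positive multiple which is integral. -/
def Rational {j : E →ₗ[ℂ] V} (x : N1 Γ j) : Prop := ∃ n : ℕ, 0 < n ∧ Integral ((n : ℝ) • x)

theorem mem_Cp_iff' (R : Rel Γ j H₀) (x : N1 Γ j) :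
    x ∈ Cp (intL Γ j) (nefCone Γ j) ↔ x ∈ nefCone Γ j ∩ effCone Γ j :=
  mem_Cp_iff R one_pos (fun x hx => by rw [Nat.cast_one, one_smul]; exact hx)
    (fun x hx => by rw [Nat.cast_one, one_smul]; exact hx) x

omit [FiniteDimensional ℂ V] [FiniteDimensional ℂ E] in
theorem effCone_add {x y : N1 Γ j} (hx : x ∈ effCone Γ j) (hy : y ∈ effCone Γ j) :
    x + y ∈ effCone Γ j := by
  classical
  obtain ⟨S, hS, hxS⟩ := hx
  obtain ⟨T, hT, hyT⟩ := hy
  refine ⟨S ∪ T, fun a ha => ?_, cone_add (cone_mono Finset.subset_union_left hxS)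
    (cone_mono Finset.subset_union_right hyT)⟩
  rcases Finset.mem_union.1 ha with h | h
  · exact hS a h
  · exact hT a h

omit [FiniteDimensional ℂ V] [FiniteDimensional ℂ E] in
theorem effCone_smul {x : N1 Γ j} (hx : x ∈ effCone Γ j) {t : ℝ} (ht : 0 ≤ t) :
    t • x ∈ effCone Γ j := by
  obtain ⟨S, hS, hxS⟩ := hx
  exact ⟨S, hS, cone_smul hxS ht⟩

/-- The cone of nef and effective classes is the convex hull of the rational nef classes. -/
theorem nef_plus (R : Rel Γ j H₀) : nefCone Γ j ∩ effCone Γ j =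
    convexHull ℝ {x : N1 Γ j | x ∈ nefCone Γ j ∧ Rational x} := by
  apply Set.Subset.antisymm
  · intro x hx
    obtain ⟨T, hT, c, hc, hxT⟩ := (mem_Cp_iff' R x).2 hx
    obtain ⟨N, hN⟩ := exists_nat_gt (∑ a ∈ T, c a)
    have h0 : 0 ≤ ∑ a ∈ T, c a := Finset.sum_nonneg fun a _ => hc a
    have hNr : (0 : ℝ) < N := lt_of_le_of_lt h0 hN
    have hconv := convex_convexHull ℝ {x : N1 Γ j | x ∈ nefCone Γ j ∧ Rational x}
    have hzero : (0 : N1 Γ j) ∈ {x : N1 Γ j | x ∈ nefCone Γ j ∧ Rational x} :=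
      ⟨fun u => le_refl (0 : ℝ), 1, one_pos, by rw [smul_zero]; exact Integral.zero⟩
    have hmem : ∀ a ∈ T, (N : ℝ) • a ∈ {x : N1 Γ j | x ∈ nefCone Γ j ∧ Rational x} := by
      intro a ha
      refine ⟨nef_smul hNr.le (hT a ha).2, 1, one_pos, ?_⟩
      rw [Nat.cast_one, one_smul]
      have h1 := (intL Γ j).nsmul_mem (hT a ha).1 N
      rw [← Nat.cast_smul_eq_nsmul ℝ] at h1
      exact h1
    have h2 : x = (1 - (∑ a ∈ T, c a) / N) • (0 : N1 Γ j)
        + ∑ a ∈ T, (c a / N) • ((N : ℝ) • a) := by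
      rw [smul_zero, zero_add, hxT]
      refine Finset.sum_congr rfl fun a _ => ?_
      rw [smul_smul, div_mul_cancel₀ _ hNr.ne']
    have h3 : ∑ o : Option T, (Option.elim o (1 - (∑ a ∈ T, c a) / N) fun a => c a / N) •
        (Option.elim o (0 : N1 Γ j) fun a => (N : ℝ) • (a : N1 Γ j)) = x := by
      rw [Fintype.sum_option, h2]
      congr 1
      exact Finset.sum_coe_sort T (fun a => (c a / N) • ((N : ℝ) • a))
    rw [← h3]
    refine hconv.sum_mem (fun o _ => ?_) ?_ (fun o _ => ?_)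
    · cases o with
      | none =>
        change 0 ≤ 1 - (∑ a ∈ T, c a) / N
        have := (div_lt_one hNr).2 hN
        linarith
      | some a =>
        change 0 ≤ c a / N
        exact div_nonneg (hc _) hNr.le
    · rw [Fintype.sum_option]
      change 1 - (∑ a ∈ T, c a) / N + ∑ a : T, c a / N = 1
      rw [Finset.sum_coe_sort T (fun a => c a / (N : ℝ)), ← Finset.sum_div]
      ring
    · cases o with
      | none => exact subset_convexHull ℝ _ hzero
      | some a => exact subset_convexHull ℝ _ (hmem a a.2)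
  · apply convexHull_min
    · rintro x ⟨hx, n, hn, h⟩
      have hnr : (0 : ℝ) < n := by exact_mod_cast hn
      refine ⟨hx, ?_⟩
      have h1 : (n : ℝ) • x ∈ nefCone Γ j ∩ effCone Γ j := by
        rw [← mem_Cp_iff' R]
        exact ⟨{(n : ℝ) • x}, fun a ha => by
          rw [Finset.mem_singleton] at ha
          rw [ha]
          exact ⟨h, nef_smul hnr.le hx⟩, mem_cone_self (Finset.mem_singleton_self _)⟩
      have h2 := effCone_smul h1.2 (inv_nonneg.2 hnr.le)
      rwa [smul_smul, inv_mul_cancel₀ hnr.ne', one_smul] at h2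
    · intro x hx y hy s t hs ht _
      exact ⟨nef_add (nef_smul hs hx.1) (nef_smul ht hy.1),
        effCone_add (effCone_smul hx.2 hs) (effCone_smul hy.2 ht)⟩

theorem finDim_N1 (R : Rel Γ j H₀) : FiniteDimensional ℝ (N1 Γ j) := by
  obtain ⟨d, b, P⟩ := R.pol
  obtain ⟨op, hop, -⟩ := exists_opN R P
  have hopinj : Function.Injective op := by
    rw [injective_iff_map_eq_zero]
    intro x hx
    apply Subtype.ext
    funext u w
    rw [hop, hx]
    change H₀ (j 0) (j w) = 0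
    rw [map_zero, h_zero_left R.herm]
  have h1 : FiniteDimensional ℝ E := FiniteDimensional.complexToReal E
  have h2 : FiniteDimensional ℝ (Module.End ℂ E) :=
    FiniteDimensional.complexToReal (Module.End ℂ E)
  have : Module.Finite ℝ P.alg := inferInstanceAs
    (Module.Finite ℝ (Subalgebra.toSubmodule P.alg))
  exact Module.Finite.of_injective op hopinj

omit [FiniteDimensional ℂ V] [FiniteDimensional ℂ E] in
theorem nefEff_add : ∀ x ∈ nefCone Γ j ∩ effCone Γ j, ∀ y ∈ nefCone Γ j ∩ effCone Γ j,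
    x + y ∈ nefCone Γ j ∩ effCone Γ j := fun _ hx _ hy =>
  ⟨nef_add hx.1 hy.1, effCone_add hx.2 hy.2⟩

omit [FiniteDimensional ℂ V] [FiniteDimensional ℂ E] in
theorem nefEff_smul : ∀ x ∈ nefCone Γ j ∩ effCone Γ j, ∀ t : ℝ, 0 ≤ t →
    t • x ∈ nefCone Γ j ∩ effCone Γ j := fun _ hx _ ht =>
  ⟨nef_smul ht hx.1, effCone_smul hx.2 ht⟩

end Pool.Agent.Y167
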