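import Pool.Agent.Y167.Alg

/-!
# Reduction theory for invariant hermitian forms on a lattice
-/

set_option autoImplicit false

namespace Pool.Agent.Y167

open Matrix hiding IsHermitian
open Finset
open Pool.Agent.W594.SYZ2 Pool.Agent.W594.SYZ2.TQ

namespace Sys

/-- Elements with an integral form have bounded denominators. -/
theorem int_denom {A : Type*} [Ring A] [Algebra ℝ A] {r : ℕ} (S : Sys A r) :
    ∃ M : ℕ, 0 < M ∧ ∀ x : A, S.Int x → (M : ℝ) • x ∈ S.R := by
  have hsum : ∀ (x : A) (i : Fin r), S.tr (S.bas i * x) =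
      ((Matrix.of fun i j => S.tr (S.bas i * S.bas j)) *ᵥ S.bas.equivFun x) i := by
    intro x i
    rw [mulVec, dotProduct]
    conv_lhs => rw [← S.bas.sum_repr x, Finset.mul_sum, map_sum]
    refine Finset.sum_congr rfl fun j _ => ?_
    rw [of_apply, mul_smul_comm, map_smul, smul_eq_mul, mul_comm]
    rfl
  obtain ⟨N, hN, hNv⟩ := int_adj (Matrix.of fun i j => S.tr (S.bas i * S.bas j))
    (fun i j => S.tr_int (S.R.mul_mem (S.bas_mem i) (S.bas_mem j))) (by
      intro v hv
      let x := S.bas.equivFun.symm v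
      have hxv : S.bas.equivFun x = v := S.bas.equivFun.apply_symm_apply v
      have h1 : ∀ i, S.tr (S.bas i * x) = 0 := by
        intro i
        rw [hsum, hxv, hv]
        rfl
      have h2 : ∀ y, S.tr (y * x) = 0 := by
        intro y
        rw [← S.bas.sum_repr y, Finset.sum_mul, map_sum]
        refine Finset.sum_eq_zero fun i _ => ?_
        rw [smul_mul_assoc, map_smul, h1, smul_zero]
      have h3 : x = 0 := by
        by_contra hne
        have h4 := tr_st_mul_pos (S := S) hne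
        rw [h2] at h4
        exact lt_irrefl _ h4
      rw [← hxv, h3, map_zero])
  refine ⟨N, hN, fun x hx => ?_⟩
  rw [S.mem_R]
  intro i
  obtain ⟨n, hn⟩ := hNv (S.bas.equivFun x) (fun i => by
    rw [← hsum]
    obtain ⟨n, hn⟩ := hx 1 S.R.one_mem _ (S.bas_mem i)
    refine ⟨n, ?_⟩
    rw [← hn, S.st_one, one_mul, S.tr_comm]) i
  exact ⟨n, by rw [map_smul, Finsupp.smul_apply, smul_eq_mul]; exact hn⟩

end Sys

variable {E : Type*} [NormedAddCommGroup E] [NormedSpace ℂ E] [FiniteDimensional ℂ E]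

namespace Pol

variable {h : E → E → ℂ} {Λ : AddSubgroup E} {G : Set (Module.End ℂ E)} {d : ℕ}
  {b : Module.Basis (Fin d) ℝ E}

/-- The involution. -/
noncomputable def st (P : Pol h Λ G d b) : P.alg →ₗ[ℝ] P.alg where
  toFun x := ⟨adj P.herm P.pos x.1, P.adj_alg x.2⟩
  map_add' x y := Subtype.ext (adj_add P.herm P.pos x.1 y.1)
  map_smul' c x := Subtype.ext (adj_smul P.herm P.pos c x.1)

theorem st_val (P : Pol h Λ G d b) (x : P.alg) : (P.st x).1 = adj P.herm P.pos x.1 := rfl

/-- The order as a subring of the algebra. -/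
noncomputable def R (P : Pol h Λ G d b) : Subring P.alg :=
  P.ord.comap (P.alg.val : P.alg →ₐ[ℝ] Module.End ℂ E).toRingHom

omit [FiniteDimensional ℂ E] in
theorem mem_R (P : Pol h Λ G d b) {x : P.alg} : x ∈ P.R ↔ x.1 ∈ P.ord := Iff.rfl

theorem span_R (P : Pol h Λ G d b) : Submodule.span ℝ (P.R : Set P.alg) = ⊤ := by
  rw [eq_top_iff]
  rintro ⟨x, hx⟩ -
  have h1 : ∀ x, ∀ hx : x ∈ Submodule.span ℝ (P.ord : Set (Module.End ℂ E)),
      ∀ hx' : x ∈ P.alg, (⟨x, hx'⟩ : P.alg) ∈ Submodule.span ℝ (P.R : Set P.alg) := by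
    intro x hx
    induction hx using Submodule.span_induction with
    | mem x hx => exact fun hx' => Submodule.subset_span hx
    | zero => exact fun hx' => Submodule.zero_mem _
    | add x y hx hy h1 h2 =>
      intro hx'
      exact Submodule.add_mem _ (h1 (P.mem_alg.2 hx)) (h2 (P.mem_alg.2 hy))
    | smul c x hx h1 =>
      intro hx'
      exact Submodule.smul_mem _ c (h1 (P.mem_alg.2 hx))
  exact h1 x (P.mem_alg.1 hx) hx

omit [FiniteDimensional ℂ E] in
theorem re_smul (P : Pol h Λ G d b) (c : ℝ) (x y : E) : (h (c • x) y).re = c * (h x y).re := by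
  rw [← Complex.coe_smul, P.herm.smul_left, Complex.re_ofReal_mul]

/-- The system of the algebra. -/
theorem exists_S (P : Pol h Λ G d b) : ∃ (r : ℕ) (S : Sys P.alg r), S.st = P.st ∧ S.R = P.R ∧
    ∀ a : P.alg, (∀ u, 0 ≤ (h (a.1 u) u).re) → 0 ≤ S.tr a := by
  classical
  let φ : P.alg →ₗ[ℝ] (Fin d × Fin d → ℝ) :=
    { toFun := fun x p => b.repr (x.1 (b p.1)) p.2
      map_add' := fun x y => by
        funext p
        change b.repr (x.1 (b p.1) + y.1 (b p.1)) p.2 = _
        rw [map_add]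
        rfl
      map_smul' := fun c x => by
        funext p
        change b.repr (c • (x.1 (b p.1))) p.2 = _
        rw [map_smul]
        rfl }
  have hbE : ∀ x : Module.End ℂ E, (∀ i, x (b i) = 0) → x = 0 := by
    intro x hx
    ext v
    have h1 : (x.restrictScalars ℝ) v = (x.restrictScalars ℝ) (∑ i, b.repr v i • b i) := by
      rw [b.sum_repr]
    rw [map_sum] at h1
    change x v = 0
    have h2 : (x.restrictScalars ℝ) v = x v := rfl
    rw [← h2, h1]
    refine Finset.sum_eq_zero fun i _ => ?_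
    rw [map_smul]
    change b.repr v i • x (b i) = 0
    rw [hx, smul_zero]
  have hφ : Function.Injective φ := by
    rw [injective_iff_map_eq_zero]
    intro x hx
    apply Subtype.ext
    apply hbE
    intro i
    apply b.repr.injective
    rw [map_zero]
    ext j
    exact congrFun hx (i, j)
  obtain ⟨r, bas, hbas⟩ := lattice_basis φ hφ P.R.toAddSubgroup P.span_R (by
    rintro x hx ⟨i, j⟩
    exact (P.mem _).1 (hx.2 _ (P.b_mem i)) j)
  obtain ⟨N, hN, hNv⟩ := P.adj_ord
  let B : P.alg → P.alg → ℝ := fun x y => ∑ i, (h (x.1 (b i)) (y.1 (b i))).re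
  obtain ⟨S, h1, h2, h3, h4⟩ := exists_sys P.R bas hbas P.st
    (fun a => Subtype.ext (adj_adj P.herm P.pos a.1))
    (fun x y => Subtype.ext (adj_mul P.herm P.pos x.1 y.1)) N hN
    (fun x hx => hNv x.1 hx) B
    (fun x y z => by
      simp only [B]
      rw [← Finset.sum_add_distrib]
      refine Finset.sum_congr rfl fun i _ => ?_
      rw [← Complex.add_re, ← P.herm.add_left]
      rfl)
    (fun c x y => by
      simp only [B]
      rw [Finset.mul_sum]
      refine Finset.sum_congr rfl fun i _ => ?_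
      rw [← P.re_smul]
      rfl)
    (fun x y => by
      simp only [B]
      exact Finset.sum_congr rfl fun i _ => h_re_symm P.herm _ _)
    (fun x hx => by
      have h1 : ∃ i, x.1 (b i) ≠ 0 := by
        by_contra hcon
        push Not at hcon
        exact hx (Subtype.ext (hbE _ hcon))
      obtain ⟨i, hi⟩ := h1
      have h2 : ∀ v, 0 ≤ (h v v).re := by
        intro v
        by_cases hv : v = 0
        · rw [hv, h_zero_left P.herm]; simp
        · exact (P.pos v hv).le
      exact Finset.sum_pos' (fun i _ => h2 _) ⟨i, Finset.mem_univ _, P.pos _ hi⟩)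
    (fun a x y => by
      simp only [B]
      refine Finset.sum_congr rfl fun i _ => ?_
      change (h (x.1 (b i)) (a.1 (y.1 (b i)))).re = (h (adj P.herm P.pos a.1 (x.1 (b i))) _).re
      rw [adj_spec' P.herm P.pos a.1])
  refine ⟨r, S, h1, h2, fun a ha => h4 a fun x => ?_⟩
  simp only [B]
  refine Finset.sum_nonneg fun i _ => ?_
  rw [h_re_symm P.herm]
  exact ha _

/-- Positivity of the form implies positivity in the system. -/
theorem psd_of (P : Pol h Λ G d b) {r : ℕ} {S : Sys P.alg r} (hS : S.st = P.st)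
    (hS3 : ∀ a : P.alg, (∀ u, 0 ≤ (h (a.1 u) u).re) → 0 ≤ S.tr a) {a : P.alg} (hst : P.st a = a)
    (ha : ∀ u, 0 ≤ (h (a.1 u) u).re) : S.Psd a := by
  rw [Sys.psd_iff']
  refine ⟨by rw [hS, hst], fun x => hS3 _ fun u => ?_⟩
  rw [hS]
  change 0 ≤ (h (adj P.herm P.pos x.1 (a.1 (x.1 u))) u).re
  rw [← adj_spec' P.herm P.pos x.1]
  exact ha _

/-- Positivity in the system implies positivity of the form. -/
theorem of_psd (P : Pol h Λ G d b) {r : ℕ} {S : Sys P.alg r} (hS : S.st = P.st)
    {a : P.alg} (ha : S.Psd a) (u : E) : 0 ≤ (h (a.1 u) u).re := by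
  let φ : P.alg →ₗ[ℝ] ℝ :=
    { toFun := fun x => (h (x.1 u) u).re
      map_add' := fun x y => by
        change (h (x.1 u + y.1 u) u).re = _
        rw [P.herm.add_left, Complex.add_re]
      map_smul' := fun c x => by
        change (h (c • (x.1 u)) u).re = _
        rw [P.re_smul]
        rfl }
  obtain ⟨v, hv, hφ⟩ := S.riesz φ
  have h1 : S.Psd v := by
    rw [Sys.psd_iff']
    refine ⟨hv, fun x => ?_⟩
    have h2 : S.tr (S.st x * v * x) = S.tr (x * S.st x * v) := by
      rw [S.tr_comm, mul_assoc]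
    rw [h2, ← hφ (x * S.st x) (by rw [S.st_mul, S.st_st])]
    change 0 ≤ (h (x.1 ((S.st x).1 u)) u).re
    rw [hS]
    change 0 ≤ (h (x.1 (adj P.herm P.pos x.1 u)) u).re
    rw [adj_spec P.herm P.pos x.1]
    by_cases h3 : adj P.herm P.pos x.1 u = 0
    · rw [h3, h_zero_left P.herm]; simp
    · exact (P.pos _ h3).le
  have h2 : φ a = S.tr (a * v) := hφ a ha.sa
  have h3 : (h (a.1 u) u).re = φ a := rfl
  rw [h3, h2]
  exact Sys.tr_mul_nonneg ha h1

/-- The hermitian forms which are invariant under `G` and integral on the lattice. -/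
structure IsInt (Λ : AddSubgroup E) (G : Set (Module.End ℂ E)) (z : E → E → ℂ) : Prop where
  herm : IsHermitian z
  inv : ∀ g ∈ G, ∀ u w, z (g u) (g w) = z u w
  int : ∀ u ∈ Λ, ∀ w ∈ Λ, ∃ n : ℤ, (z u w).im = n

theorem span_op (P : Pol h Λ G d b) {H : E → E → ℂ}
    (hH : H ∈ Submodule.span ℝ {z | IsInt Λ G z}) :
    ∃ a : P.alg, P.st a = a ∧ ∀ u w, H u w = h (a.1 u) w := by
  induction hH using Submodule.span_induction with
  | mem z hz =>
    obtain ⟨a, ha⟩ := exists_op P.herm P.pos hz.herm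
    have h1 : a ∈ P.alg := P.op_mem (fun g hg u w => by rw [← ha, ← ha, hz.inv g hg])
      (fun u hu w hw => by rw [← ha]; exact hz.int u hu w hw)
    refine ⟨⟨a, h1⟩, Subtype.ext ?_, ha⟩
    refine adj_unique P.herm P.pos fun u w => ?_
    change h (a u) w = h u (a w)
    rw [P.herm.symm (a w) u, ← ha, ← ha, ← hz.herm.symm]
  | zero =>
    refine ⟨0, map_zero _, fun u w => ?_⟩
    change 0 = h 0 w
    rw [h_zero_left P.herm]
  | add x y _ _ hx hy =>
    obtain ⟨a, ha1, ha2⟩ := hx
    obtain ⟨c, hc1, hc2⟩ := hy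
    refine ⟨a + c, by rw [map_add, ha1, hc1], fun u w => ?_⟩
    change x u w + y u w = h (a.1 u + c.1 u) w
    rw [P.herm.add_left, ha2, hc2]
  | smul c x _ hx =>
    obtain ⟨a, ha1, ha2⟩ := hx
    refine ⟨c • a, by rw [map_smul, ha1], fun u w => ?_⟩
    change c • (x u w) = h (c • (a.1 u)) w
    rw [← Complex.coe_smul c (a.1 u), P.herm.smul_left, ha2, Complex.real_smul]

/-- **Reduction theory for invariant forms.** -/
theorem red (P : Pol h Λ G d b) :
    ∃ F : Finset (E → E → ℂ), (∀ z ∈ F, IsInt Λ G z ∧ IsNefForm z) ∧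
      ∀ H ∈ Submodule.span ℝ {z | IsInt Λ G z},
        (∃ t : ℝ, 0 < t ∧ ∀ u, t * (h u u).re ≤ (H u u).re) →
        ∃ u : E ≃ₗ[ℂ] E, (∀ x ∈ Λ, u x ∈ Λ) ∧ (∀ x ∈ Λ, u.symm x ∈ Λ) ∧
          (∀ g ∈ G, ∀ x, u (g x) = g (u x)) ∧
          ∃ c : (E → E → ℂ) → ℝ, (∀ z, 0 ≤ c z) ∧
            ∀ v w, H v w = ∑ z ∈ F, c z * z (u v) (u w) := by
  classical
  obtain ⟨r, S, hS1, hS2, hS3⟩ := P.exists_S
  rcases Nat.eq_zero_or_pos r with hr | hr
  · -- `E = 0`
    have h1 : (1 : P.alg) = 0 := by
      apply S.vec.injective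
      subst hr
      exact Subsingleton.elim _ _
    have h2 : ∀ v : E, v = 0 := by
      intro v
      have h3 : (1 : P.alg).1 v = (0 : P.alg).1 v := by rw [h1]
      exact h3
    refine ⟨∅, by simp, fun H hH _ => ⟨LinearEquiv.refl ℂ E, fun x hx => hx, fun x hx => hx,
      fun g _ x => rfl, fun _ => 0, fun _ => le_rfl, fun v w => ?_⟩⟩
    obtain ⟨a, -, ha⟩ := P.span_op hH
    rw [ha, h2 (a.1 v), h_zero_left P.herm]
    simp
  obtain ⟨F, hF, hFp, hFc⟩ := S.reduction hr
  obtain ⟨M, hM, hMv⟩ := S.int_denom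
  have hMr : (0 : ℝ) < M := by exact_mod_cast hM
  let zf : P.alg → E → E → ℂ := fun f u w => h (((M : ℝ) • f).1 u) w
  have hzf : ∀ f u w, zf f u w = (M : ℝ) * h (f.1 u) w := by
    intro f u w
    change h ((M : ℝ) • (f.1 u)) w = _
    rw [← Complex.coe_smul, P.herm.smul_left]
  refine ⟨hF.toFinset.image zf, ?_, ?_⟩
  · intro z hz
    obtain ⟨f, hf, rfl⟩ := Finset.mem_image.1 hz
    rw [hF.mem_toFinset] at hf
    obtain ⟨h1, h2⟩ := hFp f hf
    have hsa : adj P.herm P.pos f.1 = f.1 := by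
      have h3 := h1.sa
      rw [hS1] at h3
      exact congrArg Subtype.val h3
    have hmem := hMv f h2
    rw [hS2, P.mem_R] at hmem
    refine ⟨⟨⟨?_, ?_, ?_⟩, ?_, ?_⟩, ?_⟩
    · intro u v w
      rw [hzf, hzf, hzf, map_add, P.herm.add_left, mul_add]
    · intro c v w
      rw [hzf, hzf, map_smul, P.herm.smul_left]
      ring
    · intro v w
      rw [hzf, hzf, map_mul, Complex.conj_ofReal, ← P.herm.symm, adj_spec' P.herm P.pos, hsa]
    · intro g hg u w
      rw [hzf, hzf]
      have h3 : f.1 (g u) = g (f.1 u) := LinearMap.congr_fun (P.alg_comm f.2 hg) u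
      rw [h3, P.unit g hg]
    · intro u hu w hw
      exact P.int _ (hmem.2 u hu) _ hw
    · intro v
      rw [hzf, Complex.re_ofReal_mul]
      exact mul_nonneg hMr.le (P.of_psd hS1 h1 v)
  · intro H hH ht
    obtain ⟨t, ht, htH⟩ := ht
    obtain ⟨a, ha1, ha2⟩ := P.span_op hH
    have hpd : S.Pd a := by
      have h1 : S.Psd (a - t • 1) := by
        apply P.psd_of hS1 hS3
        · rw [map_sub, map_smul, ha1]
          congr 2
          have := S.st_one
          rwa [hS1] at this
        · intro u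
          change 0 ≤ (h (a.1 u - t • u) u).re
          rw [h_sub_left P.herm, Complex.sub_re, ← ha2, P.re_smul, sub_nonneg]
          exact htH u
      have h2 : S.Pd (t • (1 : P.alg)) := by
        rw [Sys.pd_iff']
        refine ⟨by rw [map_smul, S.st_one], fun x hx => ?_⟩
        rw [mul_smul_comm, smul_mul_assoc, map_smul, mul_one, smul_eq_mul]
        exact mul_pos ht (Sys.tr_st_mul_pos hx)
      have h3 := h2.add_psd h1
      rwa [add_sub_cancel] at h3
    obtain ⟨u, hu, v, hv, huv, hvu, m, z, c, hz, hc, hx⟩ := hFc a hpd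
    rw [hS2, P.mem_R] at hu hv
    have huv' : ∀ x, u.1 (v.1 x) = x := fun x => by
      have h1 : (u * v).1 x = (1 : P.alg).1 x := by rw [huv]
      exact h1
    have hvu' : ∀ x, v.1 (u.1 x) = x := fun x => by
      have h1 : (v * u).1 x = (1 : P.alg).1 x := by rw [hvu]
      exact h1
    let e : E ≃ₗ[ℂ] E := { u.1 with
      invFun := v.1
      left_inv := hvu'
      right_inv := huv' }
    have he : ∀ x, e x = u.1 x := fun x => rfl
    refine ⟨e, fun x hx => hu.2 x hx, fun x hx => hv.2 x hx,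
      fun g hg x => LinearMap.congr_fun (P.alg_comm u.2 hg) x,
      fun y => ∑ i ∈ Finset.univ.filter (fun i => zf (z i) = y), c i / M,
      fun y => Finset.sum_nonneg fun i _ => div_nonneg (hc i) hMr.le, fun v' w => ?_⟩
    have h1 : H v' w = ∑ i, (c i : ℂ) * h ((z i).1 (u.1 v')) (u.1 w) := by
      rw [ha2, hx, hS1]
      change h (adj P.herm P.pos u.1 ((∑ i, c i • z i : P.alg).1 (u.1 v'))) w = _
      rw [← adj_spec' P.herm P.pos]
      have h2 : (∑ i, c i • z i : P.alg).1 (u.1 v') = ∑ i, (c i : ℂ) • (z i).1 (u.1 v') := by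
        have h3 : (∑ i, c i • z i : P.alg).1 = ∑ i, c i • (z i).1 := by
          have := map_sum (P.alg.val : P.alg →ₐ[ℝ] Module.End ℂ E) (fun i => c i • z i) Finset.univ
          exact this
        rw [h3, LinearMap.sum_apply]
        refine Finset.sum_congr rfl fun i _ => ?_
        rw [LinearMap.smul_apply, Complex.coe_smul]
      rw [h2]
      have h4 : h (∑ i, (c i : ℂ) • (z i).1 (u.1 v')) (u.1 w)
          = (hl P.herm (u.1 w)) (∑ i, (c i : ℂ) • (z i).1 (u.1 v')) := rfl
      rw [h4, map_sum]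
      refine Finset.sum_congr rfl fun i _ => ?_
      rw [map_smul, smul_eq_mul]
      rfl
    rw [h1]
    have h5 : ∀ i : Fin m, zf (z i) ∈ hF.toFinset.image zf := fun i =>
      Finset.mem_image_of_mem _ (hF.mem_toFinset.2 (hz i))
    rw [← Finset.sum_fiberwise_of_maps_to (g := fun i => zf (z i)) (fun i _ => h5 i)]
    refine Finset.sum_congr rfl fun y _ => ?_
    push_cast
    rw [Finset.sum_mul]
    refine Finset.sum_congr rfl fun i hi => ?_
    rw [← (Finset.mem_filter.1 hi).2, hzf, he, he]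
    have hMc : ((M : ℝ) : ℂ) ≠ 0 := by exact_mod_cast hMr.ne'
    push_cast at hMc ⊢
    field_simp

end Pol

end Pool.Agent.Y167
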