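import Pool.Agent.Y167.Red
import Pool.Agent.Y167.Bpf

/-!
# The relative setting: forms on an invariant rational subspace
-/

set_option autoImplicit false

namespace Pool.Agent.Y167

open Finset
open Pool.Agent.W594.SYZ2 Pool.Agent.W594.SYZ2.TQ Pool.Agent.TH735.AQ

variable {V E : Type*} [NormedAddCommGroup V] [NormedSpace ℂ V] [FiniteDimensional ℂ V]
  [NormedAddCommGroup E] [NormedSpace ℂ E] [FiniteDimensional ℂ E]
  {Γ : Subgroup (V ≃ᵃ[ℂ] V)}

/-- `j` embeds `E` as an invariant subspace of `V` which is spanned by lattice vectors, and `H₀` is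
the Chern form of an ample line bundle. -/
structure Rel (Γ : Subgroup (V ≃ᵃ[ℂ] V)) (j : E →ₗ[ℂ] V) (H₀ : V → V → ℂ) : Prop where
  tq : IsTorusQuotient Γ
  inj : Function.Injective j
  stable : ∀ γ ∈ Γ, ∀ e, ∃ e', j e' = γ.linear (j e)
  span : Submodule.span ℝ {e | j e ∈ latt Γ} = ⊤
  chern : ∃ L₀ : LineBundle Γ, IsChernForm L₀ H₀
  pos : IsPositiveForm H₀

/-- The lattice in `E`. -/
def lattE (Γ : Subgroup (V ≃ᵃ[ℂ] V)) (j : E →ₗ[ℂ] V) : AddSubgroup E :=
  (latt Γ).comap j.toAddMonoidHom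

/-- The operators on `E` induced by `Γ`. -/
def opE (Γ : Subgroup (V ≃ᵃ[ℂ] V)) (j : E →ₗ[ℂ] V) : Set (Module.End ℂ E) :=
  {x | ∃ γ ∈ Γ, ∀ e, j (x e) = γ.linear (j e)}

namespace Rel

variable {j : E →ₗ[ℂ] V} {H₀ : V → V → ℂ}

omit [FiniteDimensional ℂ V] [FiniteDimensional ℂ E] in
theorem mem_lattE {e : E} : e ∈ lattE Γ j ↔ j e ∈ latt Γ := Iff.rfl

omit [FiniteDimensional ℂ E] [FiniteDimensional ℂ V] in
theorem herm (R : Rel Γ j H₀) : IsHermitian H₀ := by
  obtain ⟨L, hL, -⟩ := R.chern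
  exact hL

omit [FiniteDimensional ℂ E] in
theorem inv (R : Rel Γ j H₀) (γ : V ≃ᵃ[ℂ] V) (hγ : γ ∈ Γ) (v w : V) :
    H₀ (γ.linear v) (γ.linear w) = H₀ v w := by
  obtain ⟨L, hL, F, hF⟩ := R.chern
  exact h_inv hL hF ⟨γ, hγ⟩ v w

omit [FiniteDimensional ℂ E] in
theorem int (R : Rel Γ j H₀) {b c : V} (hb : b ∈ latt Γ) (hc : c ∈ latt Γ) :
    ∃ n : ℤ, (H₀ b c).im = n := by
  obtain ⟨L, hL, F, hF⟩ := R.chern
  exact im_int hL hF hb hc

omit [FiniteDimensional ℂ V] [FiniteDimensional ℂ E] in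
/-- The operator on `E` induced by an element of `Γ`. -/
theorem exists_opE (R : Rel Γ j H₀) (γ : V ≃ᵃ[ℂ] V) (hγ : γ ∈ Γ) :
    ∃ x ∈ opE Γ j, ∀ e, j (x e) = γ.linear (j e) := by
  have h1 := R.stable γ hγ
  choose f hf using h1
  let x : Module.End ℂ E :=
    { toFun := f
      map_add' := fun u w => R.inj (by rw [hf, map_add, map_add, map_add, hf, hf])
      map_smul' := fun c u => R.inj (by
        rw [hf, map_smul, map_smul, RingHom.id_apply, map_smul, hf]) }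
  exact ⟨x, ⟨γ, hγ, hf⟩, hf⟩

omit [FiniteDimensional ℂ V] in
theorem disc (R : Rel Γ j H₀) : DiscreteTopology (lattE Γ j) := by
  have h1 : Continuous j := LinearMap.continuous_of_finiteDimensional j
  have hd := R.tq.discrete
  let f : lattE Γ j → latt Γ := fun e => ⟨j e.1, e.2⟩
  have hf : Continuous f := (h1.comp continuous_subtype_val).subtype_mk _
  exact DiscreteTopology.of_continuous_injective hf (fun e e' h =>
    Subtype.ext (R.inj (congrArg Subtype.val h)))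

theorem pol (R : Rel Γ j H₀) : ∃ (d : ℕ) (b : Module.Basis (Fin d) ℝ E),
    Pol (fun u w => H₀ (j u) (j w)) (lattE Γ j) (opE Γ j) d b := by
  have : FiniteDimensional ℝ E := FiniteDimensional.complexToReal E
  obtain ⟨d, b, hb⟩ := basis_of_discrete (lattE Γ j) R.disc R.span
  refine ⟨d, b, ⟨?_, ?_, ?_⟩, ?_, hb, ?_, ?_⟩
  · intro u v w
    rw [map_add, R.herm.add_left]
  · intro c v w
    rw [map_smul, R.herm.smul_left]
  · intro v w
    exact R.herm.symm _ _
  · intro v hv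
    exact R.pos _ (fun h => hv (R.inj (by rw [h, map_zero])))
  · intro x hx y hy
    exact R.int hx hy
  · rintro g ⟨γ, hγ, hg⟩ x y
    rw [hg, hg, R.inv γ hγ]

/-- The orthogonal projection. -/
theorem exists_q (R : Rel Γ j H₀) : ∃ q : V →ₗ[ℂ] E, (∀ u v, H₀ (j u) (j (q v)) = H₀ (j u) v) ∧
    (∀ e, q (j e) = e) ∧
    (∀ γ ∈ Γ, ∀ x : Module.End ℂ E, (∀ e, j (x e) = γ.linear (j e)) → ∀ v,
      q (γ.linear v) = x (q v)) ∧
    ∃ m : ℕ, 0 < m ∧ ∀ b ∈ latt Γ, (m : ℝ) • q b ∈ lattE Γ j := by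
  obtain ⟨d, b, P⟩ := R.pol
  have h1 : ∀ v, ∃ w, ∀ u, H₀ (j u) v = H₀ (j u) (j w) := fun v =>
    herm_riesz P.herm P.pos ((hl R.herm v) ∘ₗ j)
  choose y hy using h1
  have hext : ∀ v w : E, (∀ u, H₀ (j u) (j v) = H₀ (j u) (j w)) → v = w := fun v w h =>
    herm_ext P.herm P.pos h
  let q : V →ₗ[ℂ] E :=
    { toFun := y
      map_add' := fun v w => hext _ _ fun u => by
        rw [← hy, h_add_right R.herm, map_add, h_add_right R.herm, ← hy, ← hy]
      map_smul' := fun c v => hext _ _ fun u => by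
        rw [← hy, h_smul_right R.herm, RingHom.id_apply, map_smul, h_smul_right R.herm, ← hy] }
  have hq : ∀ u v, H₀ (j u) (j (q v)) = H₀ (j u) v := fun u v => (hy v u).symm
  obtain ⟨m, hm, hmv⟩ := P.dual
  refine ⟨q, hq, fun e => hext _ _ fun u => hq u _, ?_, m, hm, fun c hc => ?_⟩
  · intro γ hγ x hx v
    apply hext
    intro u
    have hxm : x ∈ opE Γ j := ⟨γ, hγ, hx⟩
    obtain ⟨u', rfl⟩ := P.surj hxm u
    rw [hq, hx, R.inv γ hγ, hx, R.inv γ hγ, hq]
  · apply hmv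
    intro w hw
    obtain ⟨n, hn⟩ := R.int hc hw
    refine ⟨n, ?_⟩
    have hn' : (H₀ c (j w)).im = n := hn
    rw [← hn', h_im_symm R.herm (j w) c, ← hq w c, ← h_im_symm R.herm (j w)]

/-- Every semidefinite invariant integral form on `E` has a multiple which is the class of a base
point free line bundle. -/
theorem exists_class (R : Rel Γ j H₀) {z : E → E → ℂ} (hz : Pol.IsInt (lattE Γ j) (opE Γ j) z)
    (hn : IsNefForm z) : ∃ m : ℕ, 0 < m ∧ ∃ (L : LineBundle Γ) (H : V → V → ℂ), IsChernForm L H ∧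
      (∀ u w, H (j u) (j w) = m * z u w) ∧ ∀ v, ∃ s, L.IsSection s ∧ s v ≠ 0 := by
  obtain ⟨q, hq1, hq2, hq3, m, hm, hmq⟩ := R.exists_q
  have hmr : (0 : ℝ) < m := by exact_mod_cast hm
  have hherm : IsHermitian (fun v w => z (q v) (q w)) := by
    refine ⟨?_, ?_, ?_⟩
    · intro u v w
      rw [map_add, hz.herm.add_left]
    · intro c v w
      rw [map_smul, hz.herm.smul_left]
    · intro v w
      exact hz.herm.symm _ _
  obtain ⟨k, hk, L, hL, hs⟩ := exists_bpf (H := fun v w => z (q v) (q w)) R.tq hherm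
    (fun v => hn (q v)) (by
      intro γ hγ v w
      obtain ⟨x, hx1, hx2⟩ := R.exists_opE γ hγ
      rw [hq3 γ hγ x hx2, hq3 γ hγ x hx2, hz.inv x hx1]) (k := m ^ 2) (by positivity) (by
      intro b hb c hc
      obtain ⟨n, hn⟩ := hz.int _ (hmq b hb) _ (hmq c hc)
      refine ⟨n, ?_⟩
      rw [← hn, ← Complex.coe_smul, ← Complex.coe_smul, hz.herm.smul_left, h_smul_right hz.herm,
        Complex.conj_ofReal, Complex.im_ofReal_mul, Complex.im_ofReal_mul]
      push_cast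
      ring)
  exact ⟨k, hk, L, _, hL, fun u w => by rw [hq2, hq2], hs⟩

end Rel

end Pool.Agent.Y167
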