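import Pool.Agent.Y167.Geo

/-!
# Orders in real algebras with a positive involution

`A` is a real algebra with an involution `st`, such that the trace form `(x, y) ↦ tr (x* y)` of the
left regular representation is positive definite; `mat` is the left regular representation with
respect to an orthonormal basis, and `vec` are the coordinates with respect to this basis.
`R` is a lattice and a subring.
-/

set_option autoImplicit false

namespace Pool.Agent.Y167

open Matrix Finset

variable {A : Type*} [Ring A] [Algebra ℝ A] {r : ℕ}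

/-- A real algebra with a positive involution and an order in it. -/
structure Sys (A : Type*) [Ring A] [Algebra ℝ A] (r : ℕ) where
  mat : A →ₐ[ℝ] Matrix (Fin r) (Fin r) ℝ
  st : A →ₗ[ℝ] A
  vec : A ≃ₗ[ℝ] (Fin r → ℝ)
  mat_st : ∀ a, mat (st a) = (mat a)ᵀ
  mat_vec : ∀ a x, mat a *ᵥ vec x = vec (a * x)
  dot_vec : ∀ x y, vec x ⬝ᵥ vec y = (mat (st x * y)).trace
  R : Subring A
  bas : Module.Basis (Fin r) ℝ A
  mem_R : ∀ x, x ∈ R ↔ ∀ i, ∃ n : ℤ, bas.repr x i = n
  N : ℕ
  N_pos : 0 < N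
  N_st : ∀ x ∈ R, (N : ℝ) • st x ∈ R

namespace Sys

variable (S : Sys A r)

/-- The reduced trace. -/
noncomputable def tr : A →ₗ[ℝ] ℝ := (Matrix.traceLinearMap (Fin r) ℝ ℝ).comp S.mat.toLinearMap

theorem tr_apply (a : A) : S.tr a = (S.mat a).trace := rfl

theorem mat_inj {a b : A} (h : S.mat a = S.mat b) : a = b := by
  have h1 := S.mat_vec a 1
  have h2 := S.mat_vec b 1
  rw [h, h2, mul_one, mul_one] at h1
  exact (S.vec.injective h1).symm

theorem st_st (a : A) : S.st (S.st a) = a :=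
  S.mat_inj (by rw [S.mat_st, S.mat_st, transpose_transpose])

theorem st_mul (a b : A) : S.st (a * b) = S.st b * S.st a :=
  S.mat_inj (by rw [S.mat_st, map_mul, map_mul, S.mat_st, S.mat_st, transpose_mul])

theorem st_one : S.st 1 = 1 := S.mat_inj (by rw [S.mat_st, map_one, transpose_one])

theorem tr_comm (a b : A) : S.tr (a * b) = S.tr (b * a) := by
  rw [tr_apply, tr_apply, map_mul, map_mul, trace_mul_comm]

theorem tr_st (a : A) : S.tr (S.st a) = S.tr a := by
  rw [tr_apply, tr_apply, S.mat_st, trace_transpose]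

theorem dot_vec' (x y : A) : S.vec x ⬝ᵥ S.vec y = S.tr (S.st x * y) := S.dot_vec x y

/-- The value of the form of `a`. -/
theorem form_eq (x a y : A) : S.tr (S.st x * a * y) = S.vec x ⬝ᵥ (S.mat a *ᵥ S.vec y) := by
  rw [S.mat_vec, S.dot_vec', mul_assoc]

/-- `a` is positive semidefinite. -/
def Psd (a : A) : Prop := (S.mat a).PosSemidef

/-- `a` is positive definite. -/
def Pd (a : A) : Prop := (S.mat a).PosDef

/-- The form of `a` is integral on `R`. -/
def Int (a : A) : Prop := ∀ x ∈ S.R, ∀ y ∈ S.R, ∃ n : ℤ, S.tr (S.st x * a * y) = n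

variable {S}

theorem Pd.psd {a : A} (h : S.Pd a) : S.Psd a := PosDef.posSemidef h

theorem Psd.sa {a : A} (h : S.Psd a) : S.st a = a := by
  apply S.mat_inj
  rw [S.mat_st]
  exact (psd_iff.1 h).1

theorem psd_iff' {a : A} : S.Psd a ↔ S.st a = a ∧ ∀ x, 0 ≤ S.tr (S.st x * a * x) := by
  constructor
  · intro h
    refine ⟨h.sa, fun x => ?_⟩
    rw [S.form_eq]
    exact (psd_iff.1 h).2 _
  · rintro ⟨h1, h2⟩
    refine psd_iff.2 ⟨by rw [← S.mat_st, h1], fun v => ?_⟩
    have := h2 (S.vec.symm v)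
    rw [S.form_eq, LinearEquiv.apply_symm_apply] at this
    exact this

theorem pd_iff' {a : A} : S.Pd a ↔ S.st a = a ∧ ∀ x, x ≠ 0 → 0 < S.tr (S.st x * a * x) := by
  constructor
  · intro h
    refine ⟨h.psd.sa, fun x hx => ?_⟩
    rw [S.form_eq]
    exact (pd_iff.1 h).2 _ (by simpa using hx)
  · rintro ⟨h1, h2⟩
    refine pd_iff.2 ⟨by rw [← S.mat_st, h1], fun v hv => ?_⟩
    have := h2 (S.vec.symm v) (by simpa using hv)
    rw [S.form_eq, LinearEquiv.apply_symm_apply] at this
    exact this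

theorem Psd.conj {a : A} (h : S.Psd a) (x : A) : S.Psd (S.st x * a * x) := by
  unfold Psd
  rw [map_mul, map_mul, S.mat_st]
  exact psd_conj' h _

theorem Psd.add {a b : A} (ha : S.Psd a) (hb : S.Psd b) : S.Psd (a + b) := by
  unfold Psd
  rw [map_add]
  exact PosSemidef.add ha hb

theorem Psd.smul {a : A} (ha : S.Psd a) {c : ℝ} (hc : 0 ≤ c) : S.Psd (c • a) := by
  rw [psd_iff'] at ha ⊢
  refine ⟨by rw [map_smul, ha.1], fun x => ?_⟩
  rw [mul_smul_comm, smul_mul_assoc, map_smul, smul_eq_mul]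
  exact mul_nonneg hc (ha.2 x)

theorem psd_zero : S.Psd 0 := by
  unfold Psd
  rw [map_zero]
  exact PosSemidef.zero

theorem psd_one : S.Psd 1 := by
  unfold Psd
  rw [map_one]
  exact PosSemidef.one

theorem pd_one : S.Pd 1 := by
  unfold Pd
  rw [map_one]
  exact PosDef.one

theorem psd_sum {ι : Type*} (s : Finset ι) (f : ι → A) (h : ∀ i ∈ s, S.Psd (f i)) :
    S.Psd (∑ i ∈ s, f i) := by
  classical
  induction s using Finset.induction_on with
  | empty => simpa using psd_zero
  | insert i s hi ih =>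
    rw [Finset.sum_insert hi]
    exact (h i (Finset.mem_insert_self _ _)).add
      (ih fun j hj => h j (Finset.mem_insert_of_mem hj))

theorem psd_mul_st (x : A) : S.Psd (x * S.st x) := by
  have := (psd_one (S := S)).conj (S.st x)
  rwa [S.st_st, mul_one] at this

theorem psd_st_mul (x : A) : S.Psd (S.st x * x) := by
  have := (psd_one (S := S)).conj x
  rwa [mul_one] at this

theorem tr_mul_nonneg {a b : A} (ha : S.Psd a) (hb : S.Psd b) : 0 ≤ S.tr (a * b) := by
  rw [tr_apply, map_mul]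
  exact trace_mul_nonneg ha hb

theorem Pd.add_psd {a b : A} (ha : S.Pd a) (hb : S.Psd b) : S.Pd (a + b) := by
  unfold Pd
  rw [map_add]
  exact PosDef.add_posSemidef ha hb

theorem Psd.tr_nonneg {a : A} (ha : S.Psd a) : 0 ≤ S.tr a := PosSemidef.trace_nonneg ha

theorem Psd.eq_zero {a : A} (ha : S.Psd a) (h : S.tr a = 0) : a = 0 := by
  apply S.mat_inj
  rw [map_zero]
  exact (PosSemidef.trace_eq_zero_iff ha).1 h

theorem Psd.tr_pos {a : A} (ha : S.Psd a) (h : a ≠ 0) : 0 < S.tr a :=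
  lt_of_le_of_ne ha.tr_nonneg (fun h' => h (ha.eq_zero h'.symm))

theorem tr_st_mul_pos {x : A} (hx : x ≠ 0) : 0 < S.tr (S.st x * x) := by
  have := (pd_iff'.1 (pd_one (S := S))).2 x hx
  rwa [mul_one] at this

theorem Int.add {a b : A} (ha : S.Int a) (hb : S.Int b) : S.Int (a + b) := by
  intro x hx y hy
  obtain ⟨m, hm⟩ := ha x hx y hy
  obtain ⟨n, hn⟩ := hb x hx y hy
  exact ⟨m + n, by rw [mul_add, add_mul, map_add, hm, hn]; push_cast; ring⟩

theorem int_zero : S.Int 0 := by
  intro x _ y _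
  exact ⟨0, by simp⟩

theorem int_sum {ι : Type*} (s : Finset ι) (f : ι → A) (h : ∀ i ∈ s, S.Int (f i)) :
    S.Int (∑ i ∈ s, f i) := by
  classical
  induction s using Finset.induction_on with
  | empty => simpa using int_zero
  | insert i s hi ih =>
    rw [Finset.sum_insert hi]
    exact (h i (Finset.mem_insert_self _ _)).add
      (ih fun j hj => h j (Finset.mem_insert_of_mem hj))

theorem Int.conj {a : A} (ha : S.Int a) {u : A} (hu : u ∈ S.R) : S.Int (S.st u * a * u) := by
  intro x hx y hy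
  obtain ⟨m, hm⟩ := ha (u * x) (S.R.mul_mem hu hx) (u * y) (S.R.mul_mem hu hy)
  refine ⟨m, ?_⟩
  rw [← hm, S.st_mul]
  congr 1
  noncomm_ring

variable (S)

/-- The trace of an element of `R` is an integer. -/
theorem tr_int {x : A} (hx : x ∈ S.R) : ∃ n : ℤ, S.tr x = n := by
  let e : Module.Basis (Fin r) ℝ A := Module.Basis.ofEquivFun S.vec
  have h1 : S.mat x = LinearMap.toMatrix e e (LinearMap.mulLeft ℝ x) := by
    ext i j
    rw [LinearMap.toMatrix_apply, LinearMap.mulLeft_apply]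
    have h2 : e.repr (x * e j) i = S.vec (x * e j) i := rfl
    have h3 : S.vec (e j) = Pi.single j 1 := by
      have : e j = S.vec.symm (Pi.single j 1) := by
        simp [e, Module.Basis.coe_ofEquivFun]
      rw [this, LinearEquiv.apply_symm_apply]
    rw [h2, ← S.mat_vec, h3, mulVec_single_one]
    rfl
  have h4 : S.tr x = LinearMap.trace ℝ A (LinearMap.mulLeft ℝ x) := by
    rw [tr_apply, h1, ← LinearMap.trace_eq_matrix_trace]
  have h5 : S.tr x = ∑ i, S.bas.repr (x * S.bas i) i := by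
    rw [h4, LinearMap.trace_eq_matrix_trace ℝ S.bas, Matrix.trace]
    refine Finset.sum_congr rfl fun i _ => ?_
    rw [diag_apply, LinearMap.toMatrix_apply, LinearMap.mulLeft_apply]
  have h6 : ∀ i, ∃ n : ℤ, S.bas.repr (x * S.bas i) i = n := by
    intro i
    have hb : S.bas i ∈ S.R := by
      rw [S.mem_R]
      intro j
      rw [Module.Basis.repr_self]
      by_cases hij : i = j
      · exact ⟨1, by rw [hij]; simp⟩
      · exact ⟨0, by rw [Finsupp.single_eq_of_ne (by exact fun h => hij h.symm)]; simp⟩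
    exact (S.mem_R _).1 (S.R.mul_mem hx hb) i
  choose n hn using h6
  exact ⟨∑ i, n i, by rw [h5]; push_cast; exact Finset.sum_congr rfl fun i _ => hn i⟩

theorem bas_mem (i : Fin r) : S.bas i ∈ S.R := by
  rw [S.mem_R]
  intro j
  rw [Module.Basis.repr_self]
  by_cases hij : i = j
  · exact ⟨1, by rw [hij]; simp⟩
  · exact ⟨0, by rw [Finsupp.single_eq_of_ne (by exact fun h => hij h.symm)]; simp⟩

/-- The element with given integral coordinates. -/
noncomputable def el (n : Fin r → ℤ) : A := S.bas.equivFun.symm (cst n)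

theorem el_mem (n : Fin r → ℤ) : S.el n ∈ S.R := by
  rw [S.mem_R]
  intro i
  refine ⟨n i, ?_⟩
  have : S.bas.equivFun (S.el n) = cst n := LinearEquiv.apply_symm_apply _ _
  exact congrFun this i

theorem exists_el {x : A} (hx : x ∈ S.R) : ∃ n, S.el n = x := by
  rw [S.mem_R] at hx
  choose n hn using hx
  refine ⟨n, ?_⟩
  unfold el
  rw [LinearEquiv.symm_apply_eq]
  ext i
  exact (hn i).symm

theorem el_ne_zero {n : Fin r → ℤ} (hn : n ≠ 0) : S.el n ≠ 0 := by
  intro h
  apply hn
  unfold el at h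
  rw [LinearEquiv.map_eq_zero_iff] at h
  ext i
  have := congrFun h i
  simp only [cst, Pi.zero_apply, Int.cast_eq_zero] at this
  exact this

/-- The matrix whose columns are the coordinate vectors of the lattice basis. -/
noncomputable def B : Matrix (Fin r) (Fin r) ℝ := Matrix.of fun i j => S.vec (S.bas j) i

theorem B_mulVec (v : Fin r → ℝ) : S.B *ᵥ v = S.vec (S.bas.equivFun.symm v) := by
  rw [Module.Basis.equivFun_symm_apply, map_sum]
  ext i
  simp only [mulVec, dotProduct, B, of_apply, Finset.sum_apply, map_smul, Pi.smul_apply,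
    smul_eq_mul]
  exact Finset.sum_congr rfl fun j _ => mul_comm _ _

theorem B_isUnit : IsUnit S.B := by
  rw [← Matrix.mulVec_injective_iff_isUnit]
  intro v w h
  simp only [B_mulVec] at h
  exact S.bas.equivFun.symm.injective (S.vec.injective h)

theorem det_B_ne : S.B.det ≠ 0 := by
  have := (Matrix.isUnit_iff_isUnit_det _).1 S.B_isUnit
  exact this.ne_zero

/-- The Gram matrix of the form of `a` on the lattice. -/
noncomputable def gram (a : A) : Matrix (Fin r) (Fin r) ℝ := S.Bᵀ * S.mat a * S.B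

theorem gram_apply (a : A) (i j : Fin r) :
    S.gram a i j = S.tr (S.st (S.bas i) * a * S.bas j) := by
  rw [S.form_eq]
  have h1 : S.vec (S.bas j) = S.B *ᵥ Pi.single j 1 := by
    rw [mulVec_single_one]; rfl
  have h2 : S.vec (S.bas i) = S.B *ᵥ Pi.single i 1 := by
    rw [mulVec_single_one]; rfl
  rw [h1, h2, gram]
  have h3 : ((S.B *ᵥ Pi.single i 1) ⬝ᵥ (S.mat a *ᵥ (S.B *ᵥ Pi.single j 1)))
      = (Pi.single i (1 : ℝ)) ⬝ᵥ ((S.Bᵀ * S.mat a * S.B) *ᵥ Pi.single j 1) := by
    rw [← mulVec_mulVec, ← mulVec_mulVec, dotProduct_mulVec _ S.Bᵀ, vecMul_transpose]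
  rw [h3]
  simp

theorem gram_dot (a : A) (v w : Fin r → ℝ) :
    v ⬝ᵥ (S.gram a *ᵥ w) =
      S.tr (S.st (S.bas.equivFun.symm v) * a * S.bas.equivFun.symm w) := by
  rw [S.form_eq, ← B_mulVec, ← B_mulVec, gram, ← mulVec_mulVec, ← mulVec_mulVec,
    dotProduct_mulVec _ S.Bᵀ, vecMul_transpose]

theorem qv_gram (a : A) (n : Fin r → ℤ) :
    qv (S.gram a) n = S.tr (S.st (S.el n) * a * S.el n) := S.gram_dot a _ _

theorem det_gram (a : A) : (S.gram a).det = S.B.det ^ 2 * (S.mat a).det := by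
  rw [gram, det_mul, det_mul, det_transpose]; ring

variable {S}

theorem Psd.gram {a : A} (h : S.Psd a) : (S.gram a).PosSemidef := psd_conj' h _

theorem Pd.gram {a : A} (h : S.Pd a) : (S.gram a).PosDef := by
  rw [pd_iff]
  refine ⟨(psd_iff.1 h.psd.gram).1, fun v hv => ?_⟩
  rw [gram_dot]
  exact (pd_iff'.1 h).2 _ (fun h0 => hv ((LinearEquiv.map_eq_zero_iff _).1 h0))

theorem Int.gram {a : A} (h : S.Int a) (i j : Fin r) : ∃ n : ℤ, S.gram a i j = n := by
  rw [gram_apply]
  exact h _ (S.bas_mem i) _ (S.bas_mem j)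

theorem Int.tr {a : A} (h : S.Int a) : ∃ n : ℤ, S.tr a = n := by
  have := h 1 S.R.one_mem 1 S.R.one_mem
  rwa [S.st_one, one_mul, mul_one] at this

theorem one_le_tr {a : A} (h : S.Int a) (hp : S.Psd a) (h0 : a ≠ 0) : 1 ≤ S.tr a := by
  obtain ⟨n, hn⟩ := h.tr
  have := hp.tr_pos h0
  rw [hn] at this ⊢
  have : (0 : ℤ) < n := by exact_mod_cast this
  exact_mod_cast this

/-- `x ≠ 0` in `R` gives an integral positive semidefinite element. -/
theorem int_mul_st {x : A} (hx : x ∈ S.R) : S.Int (((S.N : ℝ) ^ 3) • (x * S.st x)) := by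
  intro y hy z hz
  have hw : ((S.N : ℝ) • S.st x) * y ∈ S.R := S.R.mul_mem (S.N_st x hx) hy
  have hw' : ((S.N : ℝ) • S.st x) * z ∈ S.R := S.R.mul_mem (S.N_st x hx) hz
  have h1 := S.R.mul_mem (S.N_st _ hw) hw'
  obtain ⟨n, hn⟩ := S.tr_int h1
  refine ⟨n, ?_⟩
  rw [← hn]
  congr 1
  rw [S.st_mul, map_smul, S.st_st]
  simp only [smul_mul_assoc, mul_smul_comm, smul_smul]
  have e1 : S.st y * (x * S.st x) * z = S.st y * x * (S.st x * z) := by simp only [mul_assoc]
  rw [e1, show (S.N : ℝ) ^ 3 = (S.N : ℝ) * ((S.N : ℝ) * (S.N : ℝ)) by ring]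

end Sys

end Pool.Agent.Y167
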