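import Pool.Agent.TH735.AQ.Mero

/-!
# Theta functions of a lattice with a hermitian form
-/

set_option autoImplicit false

namespace Pool.Agent.Y167

open Finset
open Pool.Agent.W594.SYZ2 Pool.Agent.W594.SYZ2.TQ Pool.Agent.TH735.AQ

/-- Gaussian sums over discrete subgroups converge. -/
theorem gauss_summable {V : Type*} [NormedAddCommGroup V] [NormedSpace ℝ V]
    [FiniteDimensional ℝ V] (S : AddSubgroup V) (hd : DiscreteTopology S) (a : ℝ) {b : ℝ}
    (hb : 0 < b) : Summable fun w : S => Real.exp (a * ‖(w : V)‖ - b * ‖(w : V)‖ ^ 2) := by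
  classical
  let L : Submodule ℤ V := S.toIntSubmodule
  have : DiscreteTopology L := hd
  set n := Module.finrank ℤ L + 1 with hn
  have h1 : Summable fun z : S => ‖(z : V)‖⁻¹ ^ n :=
    ZLattice.summable_norm_pow_inv L n (by omega)
  set K : ℝ := (a + 1) ^ 2 / (4 * b) with hK
  have h2 : Summable fun z : S => (if z = 0 then (1 : ℝ) else 0) :=
    summable_of_ne_finset_zero (s := {0}) (fun z hz => by
      rw [if_neg (by simpa using hz)])
  refine Summable.of_nonneg_of_le (fun _ => (Real.exp_pos _).le) (fun w => ?_)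
    ((h1.mul_left (Real.exp K * n.factorial)).add h2)
  by_cases hw : w = 0
  · subst hw
    simp
  · have hw' : 0 < ‖(w : V)‖ := by
      rw [norm_pos_iff]
      intro h
      exact hw (Subtype.ext h)
    rw [if_neg hw, add_zero]
    set t := ‖(w : V)‖ with ht
    have h3 : a * t - b * t ^ 2 ≤ K - t := by
      have h4 : a * t - b * t ^ 2 + t ≤ K := by
        rw [hK, le_div_iff₀ (by positivity)]
        nlinarith [sq_nonneg (2 * b * t - (a + 1))]
      linarith
    have h5 : t ^ n / n.factorial ≤ Real.exp t := Real.pow_div_factorial_le_exp t hw'.le n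
    have h6 : Real.exp (-t) ≤ n.factorial * t⁻¹ ^ n := by
      rw [Real.exp_neg, inv_pow]
      have h7 : 0 < t ^ n / n.factorial := by positivity
      have h8 : (Real.exp t)⁻¹ ≤ (t ^ n / n.factorial)⁻¹ := inv_anti₀ h7 h5
      rwa [inv_div, div_eq_mul_inv] at h8
    calc Real.exp (a * t - b * t ^ 2) ≤ Real.exp (K - t) := Real.exp_le_exp.2 h3
      _ = Real.exp K * Real.exp (-t) := by rw [← Real.exp_add]; ring_nf
      _ ≤ Real.exp K * (n.factorial * t⁻¹ ^ n) :=
        mul_le_mul_of_nonneg_left h6 (Real.exp_pos _).le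
      _ = _ := by ring

variable {V : Type*} [NormedAddCommGroup V] [NormedSpace ℂ V] [FiniteDimensional ℂ V]
  {H : V → V → ℂ}

/-- A hermitian form is bounded. -/
theorem herm_bound (hH : IsHermitian H) : ∃ M : ℝ, 0 ≤ M ∧ ∀ x y, ‖H x y‖ ≤ M * ‖x‖ * ‖y‖ := by
  have : FiniteDimensional ℝ V := FiniteDimensional.complexToReal V
  let B : V →ₗ[ℝ] V →ₗ[ℝ] ℂ := LinearMap.mk₂ ℝ (fun x y => H x y)
    (fun x x' y => hH.add_left x x' y)
    (fun c x y => by rw [← Complex.coe_smul, hH.smul_left, Complex.real_smul])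
    (fun x y y' => h_add_right hH x y y')
    (fun c x y => by
      rw [← Complex.coe_smul, h_smul_right hH, Complex.conj_ofReal, Complex.real_smul])
  let B' : V →L[ℝ] V →L[ℝ] ℂ := LinearMap.toContinuousLinearMap
    ((LinearMap.toContinuousLinearMap : (V →ₗ[ℝ] ℂ) ≃ₗ[ℝ] (V →L[ℝ] ℂ)).toLinearMap ∘ₗ B)
  exact ⟨‖B'‖, ContinuousLinearMap.opNorm_nonneg B', fun x y => B'.le_opNorm₂ x y⟩

/-- The terms of the theta series. -/
noncomputable def tht (H : V → V → ℂ) (w x : V) : ℂ :=
  Complex.exp (Real.pi * H x w - Real.pi / 2 * H w w)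

/-- The theta function of a discrete subgroup. -/
noncomputable def theta (H : V → V → ℂ) (S : AddSubgroup V) (x : V) : ℂ := ∑' w : S, tht H w x

/-- `S` is discrete and `H` is positive definite on it. -/
structure Good (H : V → V → ℂ) (S : AddSubgroup V) : Prop where
  herm : IsHermitian H
  disc : DiscreteTopology S
  coer : ∃ c : ℝ, 0 < c ∧ ∀ w ∈ S, c * ‖w‖ ^ 2 ≤ (H w w).re

variable {S : AddSubgroup V}

theorem Good.bound (D : Good H S) : ∀ R : ℝ, 0 ≤ R → ∃ u : S → ℝ, Summable u ∧ (∀ w : S, ∀ x,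
    ‖x‖ < R → ‖tht H w x‖ ≤ u w ∧
      ‖tht H w x • ((Real.pi : ℂ) • LinearMap.toContinuousLinearMap (hl D.herm (w : V)))‖ ≤ u w) := by
  intro R hR
  have : FiniteDimensional ℝ V := FiniteDimensional.complexToReal V
  obtain ⟨M, hM, hMb⟩ := herm_bound D.herm
  obtain ⟨c, hc, hcw⟩ := D.coer
  have hpi := Real.pi_pos
  refine ⟨_, gauss_summable S D.disc (Real.pi * M * (R + 1)) (b := Real.pi / 2 * c)
    (by positivity), fun w x hx => ?_⟩
  have h1 : ‖tht H w x‖ ≤
      Real.exp (Real.pi * M * R * ‖(w : V)‖ - Real.pi / 2 * c * ‖(w : V)‖ ^ 2) := by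
    rw [tht, Complex.norm_exp]
    apply Real.exp_le_exp.2
    have h2 : (Real.pi * H x w - Real.pi / 2 * H (w : V) w : ℂ).re
        = Real.pi * (H x w).re - Real.pi / 2 * (H (w : V) w).re := by
      rw [Complex.sub_re, Complex.re_ofReal_mul]
      have : (Real.pi / 2 * H (w : V) w : ℂ) = ((Real.pi / 2 : ℝ) : ℂ) * H (w : V) w := by
        push_cast; ring
      rw [this, Complex.re_ofReal_mul]
    rw [h2]
    have h3 : (H x w).re ≤ M * R * ‖(w : V)‖ := by
      refine (Complex.re_le_norm _).trans ((hMb x w).trans ?_)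
      exact mul_le_mul_of_nonneg_right (mul_le_mul_of_nonneg_left hx.le hM) (norm_nonneg _)
    have h4 := hcw w w.2
    have h5 := mul_le_mul_of_nonneg_left h3 hpi.le
    have h6 := mul_le_mul_of_nonneg_left h4 (half_pos hpi).le
    nlinarith
  have hMw : 0 ≤ Real.pi * M * ‖(w : V)‖ := by positivity
  have h7 : Real.exp (Real.pi * M * R * ‖(w : V)‖ - Real.pi / 2 * c * ‖(w : V)‖ ^ 2)
      * Real.exp (Real.pi * M * ‖(w : V)‖) =
      Real.exp (Real.pi * M * (R + 1) * ‖(w : V)‖ - Real.pi / 2 * c * ‖(w : V)‖ ^ 2) := by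
    rw [← Real.exp_add]
    congr 1
    ring
  have hexp := Real.exp_pos (Real.pi * M * R * ‖(w : V)‖ - Real.pi / 2 * c * ‖(w : V)‖ ^ 2)
  refine ⟨h1.trans ?_, ?_⟩
  · rw [← h7]
    exact le_mul_of_one_le_right hexp.le (Real.one_le_exp hMw)
  · rw [norm_smul, norm_smul, ← h7]
    have h8 : ‖LinearMap.toContinuousLinearMap (hl D.herm (w : V))‖ ≤ M * ‖(w : V)‖ := by
      refine ContinuousLinearMap.opNorm_le_bound _ (by positivity) fun x => ?_
      change ‖H x w‖ ≤ _
      refine (hMb x w).trans (le_of_eq ?_)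
      ring
    have h9 : ‖(Real.pi : ℂ)‖ * ‖LinearMap.toContinuousLinearMap (hl D.herm (w : V))‖
        ≤ Real.exp (Real.pi * M * ‖(w : V)‖) := by
      rw [Complex.norm_real, Real.norm_of_nonneg hpi.le]
      have h10 := Real.add_one_le_exp (Real.pi * M * ‖(w : V)‖)
      have h11 := mul_le_mul_of_nonneg_left h8 hpi.le
      nlinarith
    exact mul_le_mul h1 h9 (by positivity) hexp.le

theorem Good.summable (D : Good H S) (x : V) : Summable fun w : S => tht H w x := by
  obtain ⟨u, hu, hb⟩ := D.bound (‖x‖ + 1) (by positivity)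
  exact Summable.of_norm_bounded hu fun w => (hb w x (by linarith)).1

theorem Good.holo (D : Good H S) : Differentiable ℂ (theta H S) := by
  intro x
  obtain ⟨u, hu, hb⟩ := D.bound (‖x‖ + 1) (by positivity)
  have hsum0 : Summable fun w : S => tht H w 0 := D.summable 0
  have h1 := hasFDerivAt_tsum_of_isPreconnected (f := fun (w : S) (x : V) => tht H w x)
    (f' := fun (w : S) (x : V) =>
      tht H w x • ((Real.pi : ℂ) • LinearMap.toContinuousLinearMap (hl D.herm (w : V))))
    hu (s := Metric.ball (0 : V) (‖x‖ + 1)) Metric.isOpen_ball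
    (convex_ball (0 : V) _).isPreconnected (fun w y _ => ?_)
    (fun w y hy => (hb w y (by simpa using hy)).2) (x₀ := 0) (x := x)
    (Metric.mem_ball_self (by positivity)) hsum0 (by simp)
  · exact h1.differentiableAt
  · have h2 : HasFDerivAt (fun y : V => (Real.pi : ℂ) * H y w - Real.pi / 2 * H (w : V) w)
        ((Real.pi : ℂ) • LinearMap.toContinuousLinearMap (hl D.herm (w : V))) y := by
      have h3 : HasFDerivAt (fun y : V => H y w)
          (LinearMap.toContinuousLinearMap (hl D.herm (w : V))) y :=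
        (LinearMap.toContinuousLinearMap (hl D.herm (w : V))).hasFDerivAt
      exact (h3.const_mul (Real.pi : ℂ)).sub_const _
    exact h2.cexp

omit [FiniteDimensional ℂ V] in
/-- The functional equation for translations by `S`. -/
theorem theta_add (hH : IsHermitian H)
    (hint : ∀ v ∈ S, ∀ w ∈ S, ∃ n : ℤ, (H v w).im = 2 * n) (x : V) {b : V} (hb : b ∈ S) :
    theta H S (x + b) =
      Complex.exp (Real.pi * H x b + Real.pi / 2 * H b b) * theta H S x := by
  rw [theta, theta, ← tsum_mul_left, ← (Equiv.addRight (⟨b, hb⟩ : S)).tsum_eq]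
  refine tsum_congr fun w => ?_
  obtain ⟨n, hn⟩ := hint b hb w w.2
  have h1 : (((Equiv.addRight (⟨b, hb⟩ : S)) w : S) : V) = w + b := rfl
  have h2 : H b w - H w b = 4 * n * Complex.I := by
    have h3 : H (w : V) b = starRingEnd ℂ (H b w) := hH.symm b w
    rw [h3]
    apply Complex.ext
    · simp
    · rw [Complex.sub_im, Complex.conj_im, hn]
      simp
      ring
  rw [h1, tht, tht, ← Complex.exp_add, Complex.exp_eq_exp_iff_exists_int]
  refine ⟨n, ?_⟩
  rw [hH.add_left, hH.add_left (w : V) b, h_add_right hH x, h_add_right hH b, h_add_right hH (w : V)]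
  linear_combination (Real.pi / 2 : ℂ) * h2

omit [FiniteDimensional ℂ V] in
/-- The theta function only depends on the class modulo the kernel. -/
theorem theta_ker (hH : IsHermitian H) (x : V) {k : V} (hk : ∀ w, H k w = 0) :
    theta H S (x + k) = theta H S x := by
  rw [theta, theta]
  refine tsum_congr fun w => ?_
  rw [tht, tht, hH.add_left, hk, add_zero]

omit [FiniteDimensional ℂ V] in
/-- Invariance under unitary operators which preserve the lattice. -/
theorem theta_lin (g : V ≃ₗ[ℂ] V) (hg : ∀ v w, H (g v) (g w) = H v w)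
    (h1 : ∀ v ∈ S, g v ∈ S) (h2 : ∀ v ∈ S, g.symm v ∈ S) (x : V) :
    theta H S (g x) = theta H S x := by
  let e : S ≃ S :=
    { toFun := fun v => ⟨g v, h1 v v.2⟩
      invFun := fun v => ⟨g.symm v, h2 v v.2⟩
      left_inv := fun v => Subtype.ext (g.symm_apply_apply v)
      right_inv := fun v => Subtype.ext (g.apply_symm_apply v) }
  rw [theta, theta, ← e.tsum_eq]
  refine tsum_congr fun w => ?_
  change tht H (g w) (g x) = tht H w x
  rw [tht, tht, hg, hg]

theorem Good.zero_ne (D : Good H S) : theta H S 0 ≠ 0 := by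
  have h1 : ∀ w : S, tht H w 0 = ((Real.exp (-(Real.pi / 2 * (H (w : V) w).re)) : ℝ) : ℂ) := by
    intro w
    rw [tht, h_zero_left D.herm, Complex.ofReal_exp]
    congr 1
    have h2 : H (w : V) w = (((H (w : V) w).re : ℝ) : ℂ) := by
      apply Complex.ext
      · simp
      · have := h_im_symm D.herm (w : V) w
        rw [Complex.ofReal_im]
        linarith
    conv_lhs => rw [h2]
    push_cast
    ring
  have h2 : Summable fun w : S => Real.exp (-(Real.pi / 2 * (H (w : V) w).re)) := by
    have h3 := D.summable 0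
    simp only [h1] at h3
    exact_mod_cast h3
  rw [theta]
  simp only [h1]
  rw [← Complex.ofReal_tsum]
  have h3 : 0 < ∑' w : S, Real.exp (-(Real.pi / 2 * (H (w : V) w).re)) :=
    h2.tsum_pos (fun _ => (Real.exp_pos _).le) 0 (Real.exp_pos _)
  exact_mod_cast h3.ne'

end Pool.Agent.Y167
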