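import Pool.Agent.Y167.Sys

/-!
# The Voronoi domain: elements which are at least `1` on all integral positive semidefinite elements
-/

set_option autoImplicit false

namespace Pool.Agent.Y167

open Matrix Finset Filter Topology

variable {A : Type*} [Ring A] [Algebra ℝ A] {r : ℕ}

theorem tendsto_floor (x : ℝ) :
    Tendsto (fun k : ℕ => (⌊(k : ℝ) * x⌋ : ℝ) / k) atTop (𝓝 x) := by
  have h1 : Tendsto (fun k : ℕ => (⌊(k : ℝ) * x⌋ : ℝ) / k - x) atTop (𝓝 0) := by
    refine squeeze_zero_norm' ?_ tendsto_one_div_atTop_nhds_zero_nat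
    filter_upwards [eventually_gt_atTop 0] with k hk
    have hk' : (0 : ℝ) < k := by exact_mod_cast hk
    rw [Real.norm_eq_abs, abs_le]
    have h1 := Int.floor_le ((k : ℝ) * x)
    have h2 := Int.lt_floor_add_one ((k : ℝ) * x)
    constructor
    · rw [neg_le_sub_iff_le_add, ← sub_le_iff_le_add, le_div_iff₀ hk', sub_mul,
        one_div, inv_mul_cancel₀ hk'.ne']
      nlinarith
    · rw [sub_le_iff_le_add, div_le_iff₀ hk', add_mul, one_div, inv_mul_cancel₀ hk'.ne']
      nlinarith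
  have := h1.add_const x
  simpa using this

theorem psd_of_int {G : Matrix (Fin r) (Fin r) ℝ} (hG : Gᵀ = G)
    (h : ∀ n : Fin r → ℤ, 0 ≤ qv G n) : G.PosSemidef := by
  refine psd_iff.2 ⟨hG, fun v => ?_⟩
  have hcont : Continuous fun v : Fin r → ℝ => v ⬝ᵥ (G *ᵥ v) := by
    simp only [dotProduct, mulVec]
    fun_prop
  have hlim : Tendsto (fun k : ℕ => fun i => (⌊(k : ℝ) * v i⌋ : ℝ) / k) atTop (𝓝 v) :=
    tendsto_pi_nhds.2 fun i => tendsto_floor (v i)
  have hlim2 := (hcont.tendsto v).comp hlim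
  refine ge_of_tendsto hlim2 (Eventually.of_forall fun k => ?_)
  have h1 : (fun i => (⌊(k : ℝ) * v i⌋ : ℝ) / k) = (1 / (k : ℝ)) • cst (fun i => ⌊(k : ℝ) * v i⌋) := by
    ext i
    simp only [cst, Pi.smul_apply, smul_eq_mul]
    ring
  simp only [Function.comp]
  rw [h1, mulVec_smul, dotProduct_smul, smul_dotProduct, smul_eq_mul, smul_eq_mul]
  have h2 := h (fun i => ⌊(k : ℝ) * v i⌋)
  unfold qv at h2
  positivity

namespace Sys

variable (S : Sys A r)

/-- The nonzero integral positive semidefinite elements. -/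
def M (a : A) : Prop := S.Psd a ∧ S.Int a ∧ a ≠ 0

/-- The Voronoi domain. -/
def K : Set A := {b | S.st b = b ∧ ∀ a, S.M a → 1 ≤ S.tr (a * b)}

theorem one_mem_K : (1 : A) ∈ S.K :=
  ⟨S.st_one, fun a ha => by rw [mul_one]; exact one_le_tr ha.2.1 ha.1 ha.2.2⟩

variable {S}

theorem K_low {b : A} (hb : b ∈ S.K) {x : A} (hx : x ∈ S.R) (hx0 : x ≠ 0) :
    1 / (S.N : ℝ) ^ 3 ≤ S.tr (S.st x * b * x) := by
  have hN : (0 : ℝ) < S.N := by exact_mod_cast S.N_pos
  have hM : S.M (((S.N : ℝ) ^ 3) • (x * S.st x)) := by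
    refine ⟨(psd_mul_st x).smul (by positivity), int_mul_st hx, ?_⟩
    intro h0
    have h1 : S.tr (((S.N : ℝ) ^ 3) • (x * S.st x)) = 0 := by rw [h0, map_zero]
    rw [map_smul, S.tr_comm, smul_eq_mul] at h1
    have h2 := tr_st_mul_pos (S := S) hx0
    have : 0 < (S.N : ℝ) ^ 3 * S.tr (S.st x * x) := by positivity
    linarith
  have h := hb.2 _ hM
  rw [smul_mul_assoc, map_smul, smul_eq_mul] at h
  have h2 : S.tr (x * S.st x * b) = S.tr (S.st x * b * x) := by
    rw [mul_assoc, S.tr_comm]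
  rw [h2] at h
  rw [div_le_iff₀ (by positivity)]
  linarith

theorem qv_gram_low {b : A} (hb : b ∈ S.K) {n : Fin r → ℤ} (hn : n ≠ 0) :
    1 / (S.N : ℝ) ^ 3 ≤ qv (S.gram b) n := by
  rw [S.qv_gram]
  exact K_low hb (S.el_mem n) (S.el_ne_zero hn)

theorem gram_symm {b : A} (hb : S.st b = b) : (S.gram b)ᵀ = S.gram b := by
  rw [gram, transpose_mul, transpose_mul, transpose_transpose, ← S.mat_st, hb, Matrix.mul_assoc]

theorem psd_of_gram {b : A} (h : (S.gram b).PosSemidef) (hb : S.st b = b) : S.Psd b := by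
  rw [psd_iff']
  refine ⟨hb, fun x => ?_⟩
  have := (psd_iff.1 h).2 (S.bas.equivFun x)
  rw [S.gram_dot] at this
  simpa using this

theorem K_psd {b : A} (hb : b ∈ S.K) : S.Psd b := by
  refine psd_of_gram (psd_of_int (gram_symm hb.1) fun n => ?_) hb.1
  have hN : (0 : ℝ) < S.N := by exact_mod_cast S.N_pos
  by_cases hn : n = 0
  · subst hn
    have h0 : cst (0 : Fin r → ℤ) = 0 := by ext i; simp [cst]
    rw [qv, h0, zero_dotProduct]
  · exact le_trans (by positivity) (qv_gram_low hb hn)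

theorem gram_add (a b : A) : S.gram (a + b) = S.gram a + S.gram b := by
  simp only [gram, map_add, Matrix.mul_add, Matrix.add_mul]

theorem gram_smul (c : ℝ) (a : A) : S.gram (c • a) = c • S.gram a := by
  simp only [gram, map_smul, Matrix.mul_smul, Matrix.smul_mul]

/-- The determinant is bounded below on the Voronoi domain. -/
theorem K_det (hr : 0 < r) {b : A} (hb : b ∈ S.K) :
    (1 / (S.N : ℝ) ^ 3 / (2 * r)) ^ r ≤ (S.gram b).det := by
  have hN : (0 : ℝ) < S.N := by exact_mod_cast S.N_pos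
  have hcont : Continuous fun ε : ℝ => (S.gram b + ε • S.gram 1).det := by
    refine Continuous.matrix_det ?_
    fun_prop
  have hlim : Tendsto (fun ε : ℝ => (S.gram b + ε • S.gram 1).det) (𝓝[>] 0)
      (𝓝 ((S.gram b + (0 : ℝ) • S.gram 1).det)) :=
    (hcont.tendsto 0).mono_left nhdsWithin_le_nhds
  rw [zero_smul, add_zero] at hlim
  refine ge_of_tendsto hlim ?_
  filter_upwards [self_mem_nhdsWithin] with ε hε
  have hε : 0 < ε := hε
  have hpd : (S.gram b + ε • S.gram 1).PosDef := by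
    rw [← gram_smul, ← gram_add, add_comm]
    refine Pd.gram (Pd.add_psd ?_ (K_psd hb))
    rw [pd_iff']
    refine ⟨by rw [map_smul, S.st_one], fun x hx => ?_⟩
    rw [mul_smul_comm, smul_mul_assoc, map_smul, mul_one, smul_eq_mul]
    exact mul_pos hε (tr_st_mul_pos hx)
  refine minkowski1 hr hpd (by positivity) fun n hn => ?_
  have h1 := qv_gram_low hb hn
  have h2 : 0 ≤ qv (S.gram 1) n := (psd_iff.1 (psd_one (S := S)).gram).2 _
  have h3 : qv (S.gram b + ε • S.gram 1) n = qv (S.gram b) n + ε * qv (S.gram 1) n := by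
    simp only [qv, add_mulVec, smul_mulVec, dotProduct_add, dotProduct_smul, smul_eq_mul]
  rw [h3]
  nlinarith

theorem K_pd (hr : 0 < r) {b : A} (hb : b ∈ S.K) : S.Pd b := by
  have h1 := K_det hr hb
  have hN : (0 : ℝ) < S.N := by exact_mod_cast S.N_pos
  have hr' : (0 : ℝ) < r := by exact_mod_cast hr
  have h2 : 0 < (1 / (S.N : ℝ) ^ 3 / (2 * r)) ^ r := by positivity
  rw [S.det_gram] at h1
  refine (PosSemidef.posDef_iff_det_ne_zero (K_psd hb)).2 ?_
  intro h0
  rw [h0, mul_zero] at h1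
  linarith

/-- Every self-adjoint element is dominated by a multiple of a positive definite one. -/
theorem Pd.dominate {b v : A} (hb : S.Pd b) (hv : S.st v = v) :
    ∃ C : ℝ, 0 < C ∧ S.Psd (C • b - v) := by
  obtain ⟨C, hC, h⟩ := Pool.Agent.Y167.dominate (V := S.mat v) hb (by rw [← S.mat_st, hv])
  exact ⟨C, hC, by unfold Psd; rwa [map_sub, map_smul]⟩

/-- `tr (a b)` controls `tr a`. -/
theorem Pd.tr_control {b : A} (hb : S.Pd b) :
    ∃ C : ℝ, 0 < C ∧ ∀ a, S.Psd a → S.tr a ≤ C * S.tr (a * b) := by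
  obtain ⟨C, hC, h⟩ := hb.dominate S.st_one
  refine ⟨C, hC, fun a ha => ?_⟩
  have := tr_mul_nonneg ha h
  rw [mul_sub, mul_one, map_sub, mul_smul_comm, map_smul, smul_eq_mul] at this
  linarith

theorem psd_tr_sub {a : A} (ha : S.Psd a) : S.Psd (S.tr a • (1 : A) - a) := by
  unfold Psd
  obtain ⟨C, hC⟩ := psd_factor ha
  rw [map_sub, map_smul, map_one, psd_iff]
  refine ⟨by rw [transpose_sub, transpose_smul, transpose_one, (psd_iff.1 ha).1], fun x => ?_⟩
  rw [sub_mulVec, smul_mulVec, one_mulVec, dotProduct_sub, dotProduct_smul, smul_eq_mul, sub_nonneg,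
    tr_apply, hC]
  have h2 : x ⬝ᵥ ((Cᵀ * C) *ᵥ x) = (C *ᵥ x) ⬝ᵥ (C *ᵥ x) := by
    rw [← mulVec_mulVec, dotProduct_mulVec x Cᵀ, vecMul_transpose]
  have h3 : (Cᵀ * C).trace = ∑ i, ∑ j, C i j ^ 2 := by
    rw [Matrix.trace_mul_comm]
    simp only [Matrix.trace, diag_apply, mul_apply, transpose_apply, sq]
  rw [h2, h3]
  calc (C *ᵥ x) ⬝ᵥ (C *ᵥ x) = ∑ i, (∑ j, C i j * x j) ^ 2 := by
        simp [dotProduct, mulVec, sq]
    _ ≤ ∑ i, (∑ j, C i j ^ 2) * ∑ j, x j ^ 2 :=
        Finset.sum_le_sum fun i _ => Finset.sum_mul_sq_le_sq_mul_sq _ _ _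
    _ = (∑ i, ∑ j, C i j ^ 2) * (x ⬝ᵥ x) := by
        rw [Finset.sum_mul]
        simp [dotProduct, sq]

/-- The norm of the coordinate vector of a positive semidefinite element is bounded by its trace. -/
theorem Psd.vec_le {a : A} (ha : S.Psd a) : S.vec a ⬝ᵥ S.vec a ≤ S.tr a ^ 2 := by
  have h := tr_mul_nonneg (psd_tr_sub ha) ha
  rw [sub_mul, smul_mul_assoc, one_mul, map_sub, map_smul, smul_eq_mul, sub_nonneg] at h
  rw [S.dot_vec', ha.sa, sq]
  exact h

theorem Psd.abs_vec_le {a : A} (ha : S.Psd a) (i : Fin r) : |S.vec a i| ≤ S.tr a := by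
  have h1 := ha.vec_le
  have h2 : S.vec a i ^ 2 ≤ S.vec a ⬝ᵥ S.vec a := by
    have : S.vec a ⬝ᵥ S.vec a = ∑ j, S.vec a j ^ 2 := by simp [dotProduct, sq]
    rw [this]
    exact Finset.single_le_sum (f := fun j => S.vec a j ^ 2) (fun j _ => sq_nonneg _)
      (Finset.mem_univ i)
  exact abs_le_of_sq_le_sq (h2.trans h1) ha.tr_nonneg

/-- Finiteness of the integral elements with bounded coordinates. -/
theorem int_finite (C : ℝ) : {a : A | S.Psd a ∧ S.Int a ∧ S.tr a ≤ C}.Finite := by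
  classical
  -- the Gram matrix is integral and bounded, and determines `a`
  set D : ℝ := ∑ i, ∑ j, ∑ k, ∑ l, |S.B k i| * |S.B l j| with hD
  have hbound : ∀ a, S.Psd a → S.tr a ≤ C → ∀ i j, |S.gram a i j| ≤ (C * D) := by
    intro a ha hC i j
    have hC0 : 0 ≤ C := ha.tr_nonneg.trans hC
    have hent : ∀ k l, |S.mat a k l| ≤ C := by
      intro k l
      have h1 := psd_tr_sub ha
      obtain ⟨P, hP⟩ := psd_factor ha
      rw [hP]
      have h2 : ∀ k, ∑ m, P m k ^ 2 ≤ S.tr a := by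
        intro k
        have h3 : S.tr a = ∑ m, ∑ k, P m k ^ 2 := by
          rw [tr_apply, hP, Matrix.trace_mul_comm]
          simp only [Matrix.trace, diag_apply, mul_apply, transpose_apply, sq]
        rw [h3]
        exact Finset.sum_le_sum fun m _ => Finset.single_le_sum (f := fun k => P m k ^ 2)
          (fun j _ => sq_nonneg _) (Finset.mem_univ k)
      rw [mul_apply]
      have h4 : (∑ m, Pᵀ k m * P m l) ^ 2 ≤ (∑ m, P m k ^ 2) * ∑ m, P m l ^ 2 := by
        have := Finset.sum_mul_sq_le_sq_mul_sq univ (fun m => P m k) (fun m => P m l)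
        simpa using this
      have h5 : (∑ m, Pᵀ k m * P m l) ^ 2 ≤ C ^ 2 := by
        refine h4.trans ?_
        rw [sq]
        exact mul_le_mul ((h2 k).trans hC) ((h2 l).trans hC)
          (Finset.sum_nonneg fun _ _ => sq_nonneg _) hC0
      exact abs_le_of_sq_le_sq h5 hC0
    have h1 : S.gram a i j = ∑ k, ∑ l, S.B k i * S.mat a k l * S.B l j := by
      rw [gram, mul_apply]
      simp only [mul_apply, transpose_apply, Finset.sum_mul]
      rw [Finset.sum_comm]
    rw [h1]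
    calc |∑ k, ∑ l, S.B k i * S.mat a k l * S.B l j|
        ≤ ∑ k, ∑ l, |S.B k i * S.mat a k l * S.B l j| :=
          (Finset.abs_sum_le_sum_abs _ _).trans
            (Finset.sum_le_sum fun _ _ => Finset.abs_sum_le_sum_abs _ _)
      _ ≤ ∑ k, ∑ l, C * (|S.B k i| * |S.B l j|) := by
          refine Finset.sum_le_sum fun k _ => Finset.sum_le_sum fun l _ => ?_
          rw [abs_mul, abs_mul]
          have := hent k l
          calc |S.B k i| * |S.mat a k l| * |S.B l j|
              = |S.mat a k l| * (|S.B k i| * |S.B l j|) := by ring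
            _ ≤ C * (|S.B k i| * |S.B l j|) := by gcongr
      _ = C * ∑ k, ∑ l, |S.B k i| * |S.B l j| := by
          simp only [Finset.mul_sum]
      _ ≤ C * D := by
          refine mul_le_mul_of_nonneg_left ?_ hC0
          have h6 : ∀ i j, 0 ≤ ∑ k, ∑ l, |S.B k i| * |S.B l j| := fun i j =>
            Finset.sum_nonneg fun _ _ => Finset.sum_nonneg fun _ _ => by positivity
          exact (Finset.single_le_sum (f := fun j => ∑ k, ∑ l, |S.B k i| * |S.B l j|)
            (fun j _ => h6 i j) (Finset.mem_univ j)).trans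
            (Finset.single_le_sum (f := fun i => ∑ j, ∑ k, ∑ l, |S.B k i| * |S.B l j|)
              (fun i _ => Finset.sum_nonneg fun j _ => h6 i j) (Finset.mem_univ i))
  have hinj : ∀ a b : A, S.gram a = S.gram b → a = b := by
    intro a b hab
    apply S.mat_inj
    have hB := S.B_isUnit
    have hBt : IsUnit S.Bᵀ := by rwa [isUnit_transpose]
    have h1 : S.Bᵀ * (S.mat a * S.B) = S.Bᵀ * (S.mat b * S.B) := by
      simpa only [gram, Matrix.mul_assoc] using hab
    have h2 := hBt.mul_left_cancel h1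
    exact hB.mul_right_cancel h2
  -- map to integer matrices
  let f : A → (Fin r → Fin r → ℤ) := fun a i j => ⌊S.gram a i j⌋
  refine Set.Finite.of_finite_image (f := f) ?_ ?_
  · refine (Set.finite_Icc (fun _ _ => ⌊-(C * D)⌋ : Fin r → Fin r → ℤ)
      (fun _ _ => ⌊C * D⌋)).subset ?_
    rintro g ⟨a, ⟨ha, -, hC⟩, rfl⟩
    refine ⟨fun i j => ?_, fun i j => ?_⟩
    · exact Int.floor_mono (abs_le.1 (hbound a ha hC i j)).1
    · exact Int.floor_mono (abs_le.1 (hbound a ha hC i j)).2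
  · rintro a ⟨-, hai, -⟩ b ⟨-, hbi, -⟩ hab
    apply hinj
    ext i j
    obtain ⟨m, hm⟩ := hai.gram i j
    obtain ⟨n, hn⟩ := hbi.gram i j
    have h1 := congrFun (congrFun hab i) j
    simp only [f, hm, hn, Int.floor_intCast] at h1
    rw [hm, hn, h1]

theorem M_finite {b : A} (hb : S.Pd b) (C : ℝ) :
    {a : A | S.M a ∧ S.tr (a * b) ≤ C}.Finite := by
  obtain ⟨D, hD, h⟩ := hb.tr_control
  refine (int_finite (S := S) (D * C)).subset ?_
  rintro a ⟨⟨h1, h2, -⟩, h3⟩
  exact ⟨h1, h2, (h a h1).trans (by gcongr)⟩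

end Sys

end Pool.Agent.Y167
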